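import Mathlib

set_option autoImplicit false

/-! # Davenport's inequality for `X ^ n - Y ^ m`, with common factors allowed -/

namespace Pool.Agent.H458.Sp

open Polynomial

/-- `X * h'` has the leading coefficient `deg h * lc h` -/
theorem coeff_X_mul_der (h : ℤ[X]) (e : ℕ) : (X * derivative h).coeff e = e * h.coeff e := by
  cases e with
  | zero => simp
  | succ e =>
    rw [coeff_X_mul, coeff_derivative]
    push_cast
    ring

theorem natDegree_X_mul_der (h : ℤ[X]) : (X * derivative h).natDegree ≤ h.natDegree := by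
  rw [natDegree_le_iff_coeff_eq_zero]
  intro N hN
  rw [coeff_X_mul_der, coeff_eq_zero_of_natDegree_lt hN, mul_zero]

/-- the basic inequality -/
theorem dav_aux (n m : ℕ) (hn : 1 ≤ n) (x y : ℤ[X])
    (hh : x ^ n - y ^ m ≠ 0) (hx : x ≠ 0) (hy : y ≠ 0)
    (hne : (x ^ n - y ^ m).natDegree ≠ m * y.natDegree) :
    (n - 1) * x.natDegree ≤ (x ^ n - y ^ m).natDegree + y.natDegree := by
  set h := x ^ n - y ^ m with hh'
  have key : x ^ (n - 1) * (X * ((n : ℤ[X]) * derivative x * y - (m : ℤ[X]) * x * derivative y)) =
      (X * derivative h) * y - (m : ℤ[X]) * h * (X * derivative y) := by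
    rw [hh', derivative_sub, derivative_pow, derivative_pow]
    obtain ⟨n', rfl⟩ : ∃ n', n = n' + 1 := ⟨n - 1, by omega⟩
    rcases m with _ | m
    · simp only [Nat.add_sub_cancel, pow_succ, Nat.cast_zero, map_natCast, Nat.cast_add,
        Nat.cast_one, map_add, map_one, map_zero]
      ring
    · simp only [Nat.add_sub_cancel, pow_succ, map_natCast, Nat.cast_add,
        Nat.cast_one, map_add, map_one]
      ring
  have hdeg : ((X * derivative h) * y - (m : ℤ[X]) * h * (X * derivative y)).natDegree ≤
      h.natDegree + y.natDegree := by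
    refine (natDegree_sub_le _ _).trans (max_le ?_ ?_)
    · refine natDegree_mul_le.trans ?_
      have := natDegree_X_mul_der h
      omega
    · refine natDegree_mul_le.trans ?_
      have h1 := natDegree_X_mul_der y
      have h2 : ((m : ℤ[X]) * h).natDegree ≤ h.natDegree := by
        refine natDegree_mul_le.trans ?_
        simp
      omega
  have hcoef : ((X * derivative h) * y - (m : ℤ[X]) * h * (X * derivative y)).coeff
      (h.natDegree + y.natDegree) ≠ 0 := by
    rw [coeff_sub, coeff_mul_add_eq_of_natDegree_le (natDegree_X_mul_der h) le_rfl, mul_assoc,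
      coeff_natCast_mul, coeff_mul_add_eq_of_natDegree_le le_rfl (natDegree_X_mul_der y),
      coeff_X_mul_der, coeff_X_mul_der]
    have h1 : h.coeff h.natDegree ≠ 0 := by
      simpa using hh
    have h2 : y.coeff y.natDegree ≠ 0 := by
      simpa using hy
    have h3 : ((h.natDegree : ℤ) - m * y.natDegree) ≠ 0 := by
      intro h0
      apply hne
      have : (h.natDegree : ℤ) = m * y.natDegree := by linarith
      exact_mod_cast this
    have h4 : (h.natDegree : ℤ) * h.coeff h.natDegree * y.coeff y.natDegree -
        m * (h.coeff h.natDegree * (y.natDegree * y.coeff y.natDegree)) =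
        ((h.natDegree : ℤ) - m * y.natDegree) * h.coeff h.natDegree * y.coeff y.natDegree := by
      ring
    rw [h4]
    exact mul_ne_zero (mul_ne_zero h3 h1) h2
  have hne0 : x ^ (n - 1) *
      (X * ((n : ℤ[X]) * derivative x * y - (m : ℤ[X]) * x * derivative y)) ≠ 0 := by
    rw [key]
    intro h0
    rw [h0] at hcoef
    simp at hcoef
  have h5 := hdeg
  rw [← key, natDegree_mul (left_ne_zero_of_mul hne0) (right_ne_zero_of_mul hne0),
    natDegree_pow] at h5
  omega

/-- **Davenport's inequality**, without a coprimality hypothesis -/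
theorem dav (n m : ℕ) (hn : 1 ≤ n) (hm : 1 ≤ m) (x y : ℤ[X])
    (hh : x ^ n - y ^ m ≠ 0) :
    x.natDegree * (m * n - m - n) ≤ m * (x ^ n - y ^ m).natDegree ∧
    y.natDegree * (m * n - m - n) ≤ n * (x ^ n - y ^ m).natDegree := by
  have hN : m * n - m - n ≤ m * n := by omega
  rcases eq_or_ne x 0 with hx | hx
  · subst hx
    rw [zero_pow (by omega), zero_sub, natDegree_neg, natDegree_pow, natDegree_zero]
    refine ⟨by simp, ?_⟩
    calc y.natDegree * (m * n - m - n) ≤ y.natDegree * (m * n) := Nat.mul_le_mul_left _ hN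
      _ = n * (m * y.natDegree) := by ring
  rcases eq_or_ne y 0 with hy | hy
  · subst hy
    rw [zero_pow (by omega), sub_zero, natDegree_pow, natDegree_zero]
    refine ⟨?_, by simp⟩
    calc x.natDegree * (m * n - m - n) ≤ x.natDegree * (m * n) := Nat.mul_le_mul_left _ hN
      _ = m * (n * x.natDegree) := by ring
  have htriv : n * x.natDegree ≤ (x ^ n - y ^ m).natDegree →
      m * y.natDegree ≤ (x ^ n - y ^ m).natDegree →
      x.natDegree * (m * n - m - n) ≤ m * (x ^ n - y ^ m).natDegree ∧
      y.natDegree * (m * n - m - n) ≤ n * (x ^ n - y ^ m).natDegree := by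
    intro h1 h2
    constructor
    · calc x.natDegree * (m * n - m - n) ≤ x.natDegree * (m * n) := Nat.mul_le_mul_left _ hN
        _ = m * (n * x.natDegree) := by ring
        _ ≤ _ := Nat.mul_le_mul_left _ h1
    · calc y.natDegree * (m * n - m - n) ≤ y.natDegree * (m * n) := Nat.mul_le_mul_left _ hN
        _ = n * (m * y.natDegree) := by ring
        _ ≤ _ := Nat.mul_le_mul_left _ h2
  rcases lt_trichotomy (n * x.natDegree) (m * y.natDegree) with hlt | heq | hgt
  · apply htriv
    · rw [natDegree_sub_eq_right_of_natDegree_lt (by rwa [natDegree_pow, natDegree_pow]),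
        natDegree_pow]
      exact hlt.le
    · rw [natDegree_sub_eq_right_of_natDegree_lt (by rwa [natDegree_pow, natDegree_pow]),
        natDegree_pow]
  · by_cases hne : (x ^ n - y ^ m).natDegree = m * y.natDegree
    · exact htriv (by rw [hne, heq]) hne.ge
    have h1 := dav_aux n m hn x y hh hx hy hne
    obtain ⟨n', rfl⟩ : ∃ n', n = n' + 1 := ⟨n - 1, by omega⟩
    obtain ⟨m', rfl⟩ : ∃ m', m = m' + 1 := ⟨m - 1, by omega⟩
    set e := (x ^ (n' + 1) - y ^ (m' + 1)).natDegree with he
    set F := x.natDegree with hF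
    set G := y.natDegree with hG
    simp only [Nat.add_sub_cancel] at h1
    have hN2 : (m' + 1) * (n' + 1) - (m' + 1) - (n' + 1) = m' * n' - 1 := by
      have : (m' + 1) * (n' + 1) = m' * n' + m' + n' + 1 := by ring
      omega
    rw [hN2]
    rcases Nat.eq_zero_or_pos (m' * n') with h0 | h0
    · rw [h0]
      simp
    obtain ⟨N, hNN⟩ : ∃ N, m' * n' = N + 1 := ⟨m' * n' - 1, by omega⟩
    rw [hNN, Nat.add_sub_cancel]
    constructor
    · -- (m'+1) (n' F) ≤ (m'+1) e + (n'+1) F
      have h2 : (m' + 1) * (n' * F) ≤ (m' + 1) * e + (n' + 1) * F := by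
        calc (m' + 1) * (n' * F) ≤ (m' + 1) * (e + G) := Nat.mul_le_mul_left _ h1
          _ = (m' + 1) * e + (m' + 1) * G := by ring
          _ = _ := by rw [heq]
      have h3 : (m' + 1) * (n' * F) = N * F + F + n' * F := by
        calc (m' + 1) * (n' * F) = (m' * n') * F + n' * F := by ring
          _ = (N + 1) * F + n' * F := by rw [hNN]
          _ = _ := by ring
      nlinarith
    · have h2 : (n' * ((m' + 1) * G)) ≤ (n' + 1) * e + (n' + 1) * G := by
        calc n' * ((m' + 1) * G) = n' * ((n' + 1) * F) := by rw [heq]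
          _ = (n' + 1) * (n' * F) := by ring
          _ ≤ (n' + 1) * (e + G) := Nat.mul_le_mul_left _ h1
          _ = _ := by ring
      have h3 : n' * ((m' + 1) * G) = N * G + G + n' * G := by
        calc n' * ((m' + 1) * G) = (m' * n') * G + n' * G := by ring
          _ = (N + 1) * G + n' * G := by rw [hNN]
          _ = _ := by ring
      nlinarith
  · apply htriv
    · rw [natDegree_sub_eq_left_of_natDegree_lt (by rwa [natDegree_pow, natDegree_pow]),
        natDegree_pow]
    · rw [natDegree_sub_eq_left_of_natDegree_lt (by rwa [natDegree_pow, natDegree_pow]),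
        natDegree_pow]
      exact hgt.le

end Pool.Agent.H458.Sp
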