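import Mathlib

set_option autoImplicit false

/-! # Sums `∑ g_i b^{e_i}` of integers that are small: closed sets of high terms vanish -/

namespace Pool.Agent.H458.Sp

open Finset

/-- cut a sum of integers with small total at a gap of the exponents -/
theorem int_cut {ι : Type} [DecidableEq ι] (b : ℕ) (hb : 2 ≤ b) (L : ℕ) (low high : Finset ι)
    (g : ι → ℤ) (e : ι → ℕ) (hS : 1 + ∑ i ∈ low, |g i| ≤ (b : ℤ) ^ L) (E E0 : ℕ) (k : ℤ)
    (hk : |k| < (b : ℤ) ^ E0)
    (hlow : ∀ i ∈ low, e i ≤ E) (hhigh : ∀ i ∈ high, E + L ≤ e i ∧ E0 + L ≤ e i)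
    (hsum : ∑ i ∈ low, (b : ℤ) ^ (e i) * g i + ∑ i ∈ high, (b : ℤ) ^ (e i) * g i = k) :
    ∑ i ∈ high, (b : ℤ) ^ (e i) * g i = 0 := by
  have hb0 : (0 : ℤ) < b := by positivity
  have hb1 : (1 : ℤ) ≤ b := by
    have : (2 : ℤ) ≤ b := by exact_mod_cast hb
    linarith
  set M := max E E0 with hM
  set y : ℤ := ∑ i ∈ high, (b : ℤ) ^ (e i - (M + L)) * g i with hy
  have h1 : ∑ i ∈ high, (b : ℤ) ^ (e i) * g i = (b : ℤ) ^ (M + L) * y := by
    rw [hy, Finset.mul_sum]
    refine Finset.sum_congr rfl fun i hi => ?_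
    have := hhigh i hi
    rw [← mul_assoc, ← pow_add, Nat.add_sub_cancel' (by omega)]
  have h2 : |∑ i ∈ low, (b : ℤ) ^ (e i) * g i| ≤ (b : ℤ) ^ M * ∑ i ∈ low, |g i| := by
    refine (Finset.abs_sum_le_sum_abs _ _).trans ?_
    rw [Finset.mul_sum]
    refine Finset.sum_le_sum fun i hi => ?_
    rw [abs_mul, abs_of_pos (pow_pos hb0 _)]
    refine mul_le_mul_of_nonneg_right ?_ (abs_nonneg _)
    exact pow_le_pow_right₀ hb1 ((hlow i hi).trans (le_max_left _ _))
  have h3 : |k| < (b : ℤ) ^ M := lt_of_lt_of_le hk (pow_le_pow_right₀ hb1 (le_max_right _ _))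
  have h4 : |(b : ℤ) ^ (M + L) * y| < (b : ℤ) ^ (M + L) := by
    rw [← h1]
    have h5 : ∑ i ∈ high, (b : ℤ) ^ (e i) * g i = k - ∑ i ∈ low, (b : ℤ) ^ (e i) * g i := by
      linarith
    rw [h5]
    calc |k - ∑ i ∈ low, (b : ℤ) ^ (e i) * g i| ≤ |k| + |∑ i ∈ low, (b : ℤ) ^ (e i) * g i| :=
          abs_sub _ _
      _ < (b : ℤ) ^ M + (b : ℤ) ^ M * ∑ i ∈ low, |g i| := by linarith
      _ = (b : ℤ) ^ M * (1 + ∑ i ∈ low, |g i|) := by ring
      _ ≤ (b : ℤ) ^ M * (b : ℤ) ^ L := mul_le_mul_of_nonneg_left hS (pow_pos hb0 _).le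
      _ = (b : ℤ) ^ (M + L) := by rw [pow_add]
  rw [abs_mul, abs_of_pos (pow_pos hb0 _)] at h4
  have h6 : |y| < 1 := by
    by_contra hcon
    push Not at hcon
    nlinarith [pow_pos hb0 (M + L)]
  rw [h1, Int.abs_lt_one_iff.1 h6, mul_zero]

/-- existence of a gap -/
theorem exists_gap {ι : Type} [DecidableEq ι] (L : ℕ) (hL : 1 ≤ L) (e : ι → ℕ) (E0 : ℕ)
    (S T : Finset ι) (hTS : T ⊆ S)
    (hcl : ∀ i ∈ T, ∀ j ∈ S, (e i < e j + L ∧ e j < e i + L) → j ∈ T)
    (hT : ∀ i ∈ T, E0 + L ≤ e i) (h1 : T.Nonempty) (h2 : (S \ T).Nonempty) :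
    ∃ E, (∃ i ∈ S, e i ≤ E) ∧ (∃ j ∈ S, E < e j) ∧
      ∀ j ∈ S, E < e j → E + L ≤ e j ∧ E0 + L ≤ e j := by
  obtain ⟨i0, hi0⟩ := h1
  obtain ⟨j0, hj0⟩ := h2
  rcases le_total (e i0) (e j0) with hij | hij
  · have hne1 : (T.filter (fun i => e i ≤ e j0)).Nonempty := ⟨i0, by simp [hi0, hij]⟩
    obtain ⟨i1, hi1, hmax⟩ := Finset.exists_max_image _ e hne1
    rw [Finset.mem_filter] at hi1
    have hne2 : ((S \ T).filter (fun j => e i1 ≤ e j)).Nonempty := ⟨j0, by
      rw [Finset.mem_filter]; exact ⟨hj0, hi1.2⟩⟩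
    obtain ⟨j1, hj1, hmin⟩ := Finset.exists_min_image _ e hne2
    rw [Finset.mem_filter] at hj1
    have hj1S : j1 ∈ S := (Finset.mem_sdiff.1 hj1.1).1
    have hj1T : j1 ∉ T := (Finset.mem_sdiff.1 hj1.1).2
    have hj1j0 : e j1 ≤ e j0 := hmin j0 (by rw [Finset.mem_filter]; exact ⟨hj0, hi1.2⟩)
    have hgap : e i1 + L ≤ e j1 := by
      by_contra hcon
      push Not at hcon
      apply hj1T
      refine hcl i1 hi1.1 j1 hj1S ⟨?_, hcon⟩
      have h3 := hj1.2
      omega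
    have hE0 := hT i1 hi1.1
    refine ⟨e i1, ⟨i1, hTS hi1.1, le_rfl⟩, ⟨j1, hj1S, by omega⟩, ?_⟩
    intro i hiS hi2
    have h5 : e i1 + L ≤ e i := by
      by_cases hiT : i ∈ T
      · have : ¬ e i ≤ e j0 := by
          intro h
          have := hmax i (by rw [Finset.mem_filter]; exact ⟨hiT, h⟩)
          omega
        omega
      · have := hmin i (by
          rw [Finset.mem_filter, Finset.mem_sdiff]; exact ⟨⟨hiS, hiT⟩, by omega⟩)
        omega
    exact ⟨h5, by omega⟩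
  · have hne1 : ((S \ T).filter (fun i => e i ≤ e i0)).Nonempty := ⟨j0, by
      rw [Finset.mem_filter]; exact ⟨hj0, hij⟩⟩
    obtain ⟨i1, hi1, hmax⟩ := Finset.exists_max_image _ e hne1
    rw [Finset.mem_filter] at hi1
    have hi1S : i1 ∈ S := (Finset.mem_sdiff.1 hi1.1).1
    have hi1T : i1 ∉ T := (Finset.mem_sdiff.1 hi1.1).2
    have hne2 : (T.filter (fun j => e i1 ≤ e j)).Nonempty := ⟨i0, by
      rw [Finset.mem_filter]; exact ⟨hi0, hi1.2⟩⟩
    obtain ⟨j1, hj1, hmin⟩ := Finset.exists_min_image _ e hne2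
    rw [Finset.mem_filter] at hj1
    have hj1S : j1 ∈ S := hTS hj1.1
    have hj1i0 : e j1 ≤ e i0 := hmin i0 (by rw [Finset.mem_filter]; exact ⟨hi0, hi1.2⟩)
    have hgap : e i1 + L ≤ e j1 := by
      by_contra hcon
      push Not at hcon
      apply hi1T
      refine hcl j1 hj1.1 i1 hi1S ⟨hcon, ?_⟩
      have h3 := hj1.2
      omega
    refine ⟨e i1, ⟨i1, hi1S, le_rfl⟩, ⟨j1, hj1S, by omega⟩, ?_⟩
    intro i hiS hi2
    by_cases hiT : i ∈ T
    · have := hmin i (by rw [Finset.mem_filter]; exact ⟨hiT, by omega⟩)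
      exact ⟨by omega, hT i hiT⟩
    · have h6 : ¬ e i ≤ e i0 := by
        intro h
        have := hmax i (by rw [Finset.mem_filter, Finset.mem_sdiff]; exact ⟨⟨hiS, hiT⟩, h⟩)
        omega
      have := hT i0 hi0
      exact ⟨by omega, by omega⟩

/-- closed sets of terms with high exponents in a small sum vanish -/
theorem int_closed {ι : Type} [DecidableEq ι] (b : ℕ) (hb : 2 ≤ b) (L : ℕ) (hL : 1 ≤ L)
    (g : ι → ℤ) (e : ι → ℕ) (E0 : ℕ) : ∀ (N : ℕ) (S T : Finset ι) (k : ℤ), S.card ≤ N → T ⊆ S →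
    (1 + ∑ i ∈ S, |g i| ≤ (b : ℤ) ^ L) →
    (∀ i ∈ T, ∀ j ∈ S, (e i < e j + L ∧ e j < e i + L) → j ∈ T) →
    (∀ i ∈ T, E0 + L ≤ e i) → |k| < (b : ℤ) ^ E0 →
    ∑ i ∈ S, (b : ℤ) ^ (e i) * g i = k → ∑ i ∈ T, (b : ℤ) ^ (e i) * g i = 0 := by
  intro N
  induction N with
  | zero =>
    intro S T k hS hT _ _ _ _ _
    have : S = ∅ := Finset.card_eq_zero.1 (by omega)
    subst this
    rw [Finset.subset_empty.1 hT]
    simp
  | succ N ih =>
    intro S T k hcard hTS hS hcl hT hk hsum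
    rcases T.eq_empty_or_nonempty with hT0 | hT0
    · rw [hT0]; simp
    rcases (S \ T).eq_empty_or_nonempty with hST | hST
    · have hTeq : T = S := Finset.Subset.antisymm hTS (Finset.sdiff_eq_empty_iff_subset.1 hST)
      have h1 := int_cut b hb L ∅ S g e (by
          have hb1 : (1 : ℤ) ≤ b := by
            have : (2 : ℤ) ≤ b := by exact_mod_cast hb
            linarith
          simpa using one_le_pow₀ hb1) 0 E0 k hk (by simp)
        (fun i hi => ⟨by have := hT i (hTeq ▸ hi); omega, hT i (hTeq ▸ hi)⟩) (by simpa using hsum)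
      rw [hTeq]
      exact h1
    obtain ⟨E, ⟨i1, hi1S, hi1⟩, ⟨j1, hj1S, hj1⟩, hgap⟩ :=
      exists_gap L hL e E0 S T hTS hcl hT hT0 hST
    set low := S.filter (fun i => e i ≤ E) with hlow
    set high := S.filter (fun i => ¬ e i ≤ E) with hhigh
    have hsplit : ∑ i ∈ low, (b : ℤ) ^ (e i) * g i +
        ∑ i ∈ high, (b : ℤ) ^ (e i) * g i = k := by
      rw [hlow, hhigh, Finset.sum_filter_add_sum_filter_not]
      exact hsum
    have hSlow : 1 + ∑ i ∈ low, |g i| ≤ (b : ℤ) ^ L :=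
      le_trans (by
        have := Finset.sum_le_sum_of_subset_of_nonneg (f := fun i => |g i|)
          (Finset.filter_subset (fun i => e i ≤ E) S) (fun i _ _ => abs_nonneg _)
        linarith) hS
    have hShigh : 1 + ∑ i ∈ high, |g i| ≤ (b : ℤ) ^ L :=
      le_trans (by
        have := Finset.sum_le_sum_of_subset_of_nonneg (f := fun i => |g i|)
          (Finset.filter_subset (fun i => ¬ e i ≤ E) S) (fun i _ _ => abs_nonneg _)
        linarith) hS
    have hhigh0 : ∑ i ∈ high, (b : ℤ) ^ (e i) * g i = 0 := by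
      refine int_cut b hb L low high g e hSlow E E0 k hk
        (fun i hi => (Finset.mem_filter.1 hi).2) (fun i hi => ?_) hsplit
      rw [hhigh, Finset.mem_filter] at hi
      exact hgap i hi.1 (by omega)
    have hlow0 : ∑ i ∈ low, (b : ℤ) ^ (e i) * g i = k := by
      rw [hhigh0, add_zero] at hsplit
      exact hsplit
    have hcardS : low.card + high.card = S.card := by
      rw [hlow, hhigh]
      exact Finset.card_filter_add_card_filter_not _
    have hlow1 : 1 ≤ low.card := Finset.card_pos.2 ⟨i1, by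
      rw [hlow, Finset.mem_filter]; exact ⟨hi1S, hi1⟩⟩
    have hhigh1 : 1 ≤ high.card := Finset.card_pos.2 ⟨j1, by
      rw [hhigh, Finset.mem_filter]; exact ⟨hj1S, by omega⟩⟩
    have hT1 : ∑ i ∈ T.filter (fun i => e i ≤ E), (b : ℤ) ^ (e i) * g i = 0 := by
      refine ih low _ k (by omega) (Finset.filter_subset_filter _ hTS) hSlow ?_ ?_ hk hlow0
      · intro i hi j hj hr
        rw [Finset.mem_filter] at hi
        rw [hlow, Finset.mem_filter] at hj
        rw [Finset.mem_filter]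
        exact ⟨hcl i hi.1 j hj.1 hr, hj.2⟩
      · intro i hi
        exact hT i (Finset.mem_filter.1 hi).1
    have hT2 : ∑ i ∈ T.filter (fun i => ¬ e i ≤ E), (b : ℤ) ^ (e i) * g i = 0 := by
      refine ih high _ 0 (by omega) (Finset.filter_subset_filter _ hTS) hShigh ?_ ?_ ?_ hhigh0
      · intro i hi j hj hr
        rw [Finset.mem_filter] at hi
        rw [hhigh, Finset.mem_filter] at hj
        rw [Finset.mem_filter]
        exact ⟨hcl i hi.1 j hj.1 hr, hj.2⟩
      · intro i hi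
        exact hT i (Finset.mem_filter.1 hi).1
      · rw [abs_zero]
        positivity
    rw [← Finset.sum_filter_add_sum_filter_not T (fun i => e i ≤ E), hT1, hT2, add_zero]

end Pool.Agent.H458.Sp
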