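import Mathlib
import Pool.Agent.H458.Sp.IntCluster

set_option autoImplicit false

/-! # Integral polynomials at sparse integers -/

namespace Pool.Agent.H458.Sp

open Finset MvPolynomial

/-- sum of the absolute values of the coefficients -/
noncomputable def nz {τ : Type} (G : MvPolynomial τ ℤ) : ℤ :=
  ∑ α ∈ G.support, |coeff α G|

theorem nz_nonneg {τ : Type} (G : MvPolynomial τ ℤ) : 0 ≤ nz G :=
  Finset.sum_nonneg fun _ _ => abs_nonneg _

theorem nz_eq {τ : Type} (G : MvPolynomial τ ℤ) (A : Finset (τ →₀ ℕ))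
    (hA : G.support ⊆ A) : nz G = ∑ α ∈ A, |coeff α G| := by
  unfold nz
  apply Finset.sum_subset hA
  intro α _ h
  rw [notMem_support_iff.1 h, abs_zero]

theorem nz_zero {τ : Type} : nz (0 : MvPolynomial τ ℤ) = 0 := by
  unfold nz
  simp

theorem nz_add {τ : Type} (G H : MvPolynomial τ ℤ) : nz (G + H) ≤ nz G + nz H := by
  classical
  rw [nz_eq (G + H) (G.support ∪ H.support) support_add,
    nz_eq G (G.support ∪ H.support) Finset.subset_union_left,
    nz_eq H (G.support ∪ H.support) Finset.subset_union_right, ← Finset.sum_add_distrib]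
  refine Finset.sum_le_sum fun α _ => ?_
  rw [coeff_add]
  exact abs_add_le _ _

theorem nz_neg {τ : Type} (G : MvPolynomial τ ℤ) : nz (-G) = nz G := by
  unfold nz
  rw [support_neg]
  refine Finset.sum_congr rfl fun α _ => ?_
  rw [coeff_neg, abs_neg]

theorem nz_sum {τ ι : Type} (s : Finset ι) (f : ι → MvPolynomial τ ℤ) :
    nz (∑ i ∈ s, f i) ≤ ∑ i ∈ s, nz (f i) := by
  classical
  induction s using Finset.induction_on with
  | empty => simp [nz_zero]
  | insert a s ha ih =>
    rw [Finset.sum_insert ha, Finset.sum_insert ha]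
    exact (nz_add _ _).trans (by linarith)

theorem nz_monomial {τ : Type} (α : τ →₀ ℕ) (c : ℤ) : nz (monomial α c) ≤ |c| := by
  classical
  rw [nz_eq (monomial α c) {α} support_monomial_subset]
  simp

theorem nz_mul {τ : Type} (G H : MvPolynomial τ ℤ) : nz (G * H) ≤ nz G * nz H := by
  classical
  have h1 : G * H = ∑ α ∈ G.support, ∑ β ∈ H.support,
      monomial (α + β) (coeff α G * coeff β H) := by
    conv_lhs => rw [G.as_sum, H.as_sum]
    rw [Finset.sum_mul_sum]
    refine Finset.sum_congr rfl fun α _ => Finset.sum_congr rfl fun β _ => ?_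
    rw [monomial_mul]
  rw [h1]
  refine (nz_sum _ _).trans ?_
  unfold nz
  rw [Finset.sum_mul_sum]
  refine Finset.sum_le_sum fun α _ => ?_
  refine (nz_sum _ _).trans (Finset.sum_le_sum fun β _ => ?_)
  rw [← abs_mul]
  exact nz_monomial _ _

theorem nz_one {τ : Type} : nz (1 : MvPolynomial τ ℤ) ≤ 1 := by
  have := nz_monomial (τ := τ) 0 (1 : ℤ)
  rw [abs_one] at this
  exact this

theorem nz_pow {τ : Type} (G : MvPolynomial τ ℤ) (N : ℤ) (hG : nz G ≤ N) (e : ℕ) :
    nz (G ^ e) ≤ N ^ e := by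
  have hN : 0 ≤ N := (nz_nonneg G).trans hG
  induction e with
  | zero => simpa using nz_one
  | succ e ih =>
    rw [pow_succ, pow_succ]
    exact (nz_mul _ _).trans (mul_le_mul ih hG (nz_nonneg _) (pow_nonneg hN _))

variable {r : ℕ}

/-- the linear form with coefficients `c` -/
noncomputable def li (c : Fin r → ℤ) : MvPolynomial (Fin r) ℤ := ∑ j, C (c j) * X j

theorem li_homog (c : Fin r → ℤ) : (li c).IsHomogeneous 1 := by
  unfold li
  refine IsHomogeneous.sum _ _ _ fun j _ => ?_
  simpa using (isHomogeneous_C (Fin r) (c j)).mul (isHomogeneous_X ℤ j)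

theorem li_nz (c : Fin r → ℤ) (B : ℤ) (hc : ∀ j, |c j| ≤ B) : nz (li c) ≤ r * B := by
  unfold li
  refine (nz_sum _ _).trans ?_
  calc ∑ j : Fin r, nz (C (c j) * X j) ≤ ∑ _j : Fin r, B := by
        refine Finset.sum_le_sum fun j _ => ?_
        rw [C_mul_X_eq_monomial]
        exact (nz_monomial _ _).trans (hc j)
    _ = r * B := by simp

/-- exponent of a monomial -/
def exn (m : Fin r → ℕ) (α : Fin r →₀ ℕ) : ℕ := ∑ j, α j * m j

theorem exn_add (m l : Fin r → ℕ) (α : Fin r →₀ ℕ) :
    exn (fun j => m j + l j) α = exn m α + exn l α := by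
  unfold exn
  rw [← Finset.sum_add_distrib]
  exact Finset.sum_congr rfl fun j _ => by ring

/-- value at powers of `b` -/
theorem eval_powz (b : ℤ) (m : Fin r → ℕ) (G : MvPolynomial (Fin r) ℤ) :
    eval (fun j => b ^ (m j)) G = ∑ α ∈ G.support, b ^ (exn m α) * coeff α G := by
  rw [eval_eq']
  refine Finset.sum_congr rfl fun α _ => ?_
  rw [mul_comm]
  congr 1
  unfold exn
  rw [← Finset.prod_pow_eq_pow_sum]
  refine Finset.prod_congr rfl fun j _ => ?_
  rw [← pow_mul, mul_comm]

theorem eval_li (b : ℤ) (m : Fin r → ℕ) (c : Fin r → ℤ) :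
    eval (fun j => b ^ (m j)) (li c) = ∑ j, b ^ (m j) * c j := by
  unfold li
  rw [map_sum]
  refine Finset.sum_congr rfl fun j _ => ?_
  simp [mul_comm]

/-- the substitution `u_j = b ^ (m j) X ^ (l j)` -/
noncomputable def sub (b : ℤ) (m l : Fin r → ℕ) : MvPolynomial (Fin r) ℤ →ₐ[ℤ] Polynomial ℤ :=
  aeval (fun j => Polynomial.C (b ^ (m j)) * Polynomial.X ^ (l j))

theorem sub_eq (b : ℤ) (m l : Fin r → ℕ) (G : MvPolynomial (Fin r) ℤ) :
    sub b m l G = ∑ α ∈ G.support, Polynomial.C (b ^ (exn m α) * coeff α G) *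
        Polynomial.X ^ (exn l α) := by
  unfold sub
  rw [aeval_def, eval₂_eq']
  refine Finset.sum_congr rfl fun α _ => ?_
  have h2 : ∏ j, (Polynomial.C (b ^ (m j)) * Polynomial.X ^ (l j)) ^ (α j) =
      Polynomial.C (b ^ (exn m α)) * Polynomial.X ^ (exn l α) := by
    simp_rw [mul_pow]
    rw [Finset.prod_mul_distrib]
    unfold exn
    rw [← Finset.prod_pow_eq_pow_sum, ← Finset.prod_pow_eq_pow_sum, map_prod]
    congr 1
    · refine Finset.prod_congr rfl fun j _ => ?_
      rw [← map_pow, ← pow_mul, mul_comm]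
    · refine Finset.prod_congr rfl fun j _ => ?_
      rw [← pow_mul, mul_comm]
  rw [h2, Polynomial.C_mul]
  show Polynomial.C (coeff α G) * _ = _
  ring

theorem sub_eval (b : ℤ) (m l : Fin r → ℕ) (G : MvPolynomial (Fin r) ℤ) :
    (sub b m l G).eval b = eval (fun j => b ^ (m j + l j)) G := by
  rw [sub_eq, Polynomial.eval_finsetSum, eval_powz b (fun j => m j + l j)]
  refine Finset.sum_congr rfl fun α _ => ?_
  rw [exn_add, pow_add]
  simp
  ring

theorem sub_coeff (b : ℤ) (m l : Fin r → ℕ) (G : MvPolynomial (Fin r) ℤ) (w : ℕ) :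
    (sub b m l G).coeff w = ∑ α ∈ G.support.filter (fun α => w = exn l α),
      b ^ (exn m α) * coeff α G := by
  rw [sub_eq, Polynomial.finsetSum_coeff]
  simp_rw [Polynomial.coeff_C_mul_X_pow]
  rw [← Finset.sum_filter]

/-- the size of the value controls the degree of the substituted polynomial -/
theorem sub_natDegree (b : ℕ) (hb : 2 ≤ b) (L : ℕ) (hL : 1 ≤ L) (m l : Fin r → ℕ)
    (G : MvPolynomial (Fin r) ℤ) (hS : 1 + nz G ≤ (b : ℤ) ^ L)
    (hcl : ∀ α ∈ G.support, ∀ β ∈ G.support,
      (exn (fun j => m j + l j) α < exn (fun j => m j + l j) β + L ∧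
        exn (fun j => m j + l j) β < exn (fun j => m j + l j) α + L) → exn l α = exn l β)
    (h0 : eval (fun j => (b : ℤ) ^ (m j + l j)) G ≠ 0) :
    (b : ℤ) ^ (sub b m l G).natDegree ≤ (b : ℤ) ^ L *
      |eval (fun j => (b : ℤ) ^ (m j + l j)) G| := by
  classical
  set k := eval (fun j => (b : ℤ) ^ (m j + l j)) G with hk
  have hb0 : (0 : ℤ) < b := by positivity
  have hb1 : (1 : ℤ) ≤ b := by
    have : (2 : ℤ) ≤ b := by exact_mod_cast hb
    linarith
  set a := Nat.log b k.natAbs with ha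
  have hka : (b : ℤ) ^ a ≤ |k| := by
    have := Nat.pow_log_le_self b (x := k.natAbs) (by simpa using h0)
    rw [Int.abs_eq_natAbs]
    exact_mod_cast this
  have hkb : |k| < (b : ℤ) ^ (a + 1) := by
    have := Nat.lt_pow_succ_log_self (b := b) (by omega) k.natAbs
    rw [Int.abs_eq_natAbs]
    exact_mod_cast this
  have hdeg : (sub b m l G).natDegree ≤ a + L := by
    rw [Polynomial.natDegree_le_iff_coeff_eq_zero]
    intro w hw
    rw [sub_coeff]
    have h1 := int_closed b hb L hL (fun α => coeff α G) (exn (fun j => m j + l j)) (a + 1)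
      G.support.card G.support (G.support.filter (fun α => w = exn l α)) k le_rfl
      (Finset.filter_subset _ _) hS ?_ ?_ hkb ?_
    · have h2 : (b : ℤ) ^ w * ∑ α ∈ G.support.filter (fun α => w = exn l α),
          (b : ℤ) ^ (exn m α) * coeff α G = 0 := by
        rw [← h1, Finset.mul_sum]
        refine Finset.sum_congr rfl fun α hα => ?_
        rw [exn_add, pow_add, ← (Finset.mem_filter.1 hα).2]
        ring
      exact (mul_eq_zero.1 h2).resolve_left (pow_pos hb0 _).ne'
    · intro α hα β hβ hr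
      rw [Finset.mem_filter] at hα ⊢
      exact ⟨hβ, hα.2.trans (hcl α hα.1 β hβ hr)⟩
    · intro α hα
      rw [exn_add, ← (Finset.mem_filter.1 hα).2]
      omega
    · rw [hk, eval_powz]
  calc (b : ℤ) ^ (sub b m l G).natDegree ≤ (b : ℤ) ^ (a + L) := pow_le_pow_right₀ hb1 hdeg
    _ = (b : ℤ) ^ L * (b : ℤ) ^ a := by rw [pow_add, mul_comm]
    _ ≤ _ := mul_le_mul_of_nonneg_left hka (pow_pos hb0 _).le

/-- the degree of the substituted polynomial controls the size of the value -/
theorem le_sub_natDegree (b : ℕ) (hb : 2 ≤ b) (m l : Fin r → ℕ)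
    (G : MvPolynomial (Fin r) ℤ) (f : ℕ) (hf : ∀ α ∈ G.support, exn m α ≤ f) :
    |eval (fun j => (b : ℤ) ^ (m j + l j)) G| ≤
      nz G * (b : ℤ) ^ f * (b : ℤ) ^ (sub b m l G).natDegree := by
  classical
  have hb0 : (0 : ℤ) < b := by positivity
  have hb1 : (1 : ℤ) ≤ b := by
    have : (2 : ℤ) ≤ b := by exact_mod_cast hb
    linarith
  set F := (sub b m l G).natDegree with hF
  have h1 : eval (fun j => (b : ℤ) ^ (m j + l j)) G =
      ∑ w ∈ Finset.range (F + 1), (sub b m l G).coeff w * (b : ℤ) ^ w := by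
    rw [← sub_eval, Polynomial.eval_eq_sum_range]
  have h2 : ∑ w ∈ Finset.range (F + 1), (sub b m l G).coeff w * (b : ℤ) ^ w =
      ∑ α ∈ G.support.filter (fun α => exn l α < F + 1),
        (b : ℤ) ^ (exn m α) * coeff α G * (b : ℤ) ^ (exn l α) := by
    rw [← Finset.sum_fiberwise_of_maps_to (s := G.support.filter (fun α => exn l α < F + 1))
      (t := Finset.range (F + 1)) (g := exn l)
      (fun α hα => Finset.mem_range.2 (Finset.mem_filter.1 hα).2)]
    refine Finset.sum_congr rfl fun w hw => ?_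
    rw [sub_coeff, Finset.sum_mul, Finset.filter_filter]
    refine Finset.sum_congr ?_ fun α hα => ?_
    · ext α
      rw [Finset.mem_filter, Finset.mem_filter]
      rw [Finset.mem_range] at hw
      constructor
      · rintro ⟨h1, h2⟩
        exact ⟨h1, by omega, h2.symm⟩
      · rintro ⟨h1, _, h2⟩
        exact ⟨h1, h2.symm⟩
    · rw [← (Finset.mem_filter.1 hα).2.2]
  rw [h1, h2]
  refine (Finset.abs_sum_le_sum_abs _ _).trans ?_
  calc ∑ α ∈ G.support.filter (fun α => exn l α < F + 1),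
        |(b : ℤ) ^ (exn m α) * coeff α G * (b : ℤ) ^ (exn l α)|
      ≤ ∑ α ∈ G.support.filter (fun α => exn l α < F + 1),
        |coeff α G| * ((b : ℤ) ^ f * (b : ℤ) ^ F) := by
        refine Finset.sum_le_sum fun α hα => ?_
        rw [Finset.mem_filter] at hα
        rw [abs_mul, abs_mul, abs_of_pos (pow_pos hb0 _), abs_of_pos (pow_pos hb0 _)]
        have h3 : (b : ℤ) ^ (exn m α) ≤ (b : ℤ) ^ f := pow_le_pow_right₀ hb1 (hf α hα.1)
        have h4 : (b : ℤ) ^ (exn l α) ≤ (b : ℤ) ^ F := pow_le_pow_right₀ hb1 (by omega)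
        calc (b : ℤ) ^ (exn m α) * |coeff α G| * (b : ℤ) ^ (exn l α) =
            |coeff α G| * ((b : ℤ) ^ (exn m α) * (b : ℤ) ^ (exn l α)) := by ring
          _ ≤ _ := by
            refine mul_le_mul_of_nonneg_left ?_ (abs_nonneg _)
            exact mul_le_mul h3 h4 (pow_pos hb0 _).le (pow_pos hb0 _).le
    _ ≤ ∑ α ∈ G.support, |coeff α G| * ((b : ℤ) ^ f * (b : ℤ) ^ F) := by
        refine Finset.sum_le_sum_of_subset_of_nonneg (Finset.filter_subset _ _) fun α _ _ => ?_
        positivity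
    _ = nz G * (b : ℤ) ^ f * (b : ℤ) ^ F := by
        unfold nz
        rw [← Finset.sum_mul, mul_assoc]

end Pool.Agent.H458.Sp
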