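import Mathlib

set_option autoImplicit false

/-! # Small representatives modulo the kernel of an integral matrix (Dirichlet's box principle) -/

namespace Pool.Agent.H458.Sp

open Finset

/-- simultaneous approximation of the vector `m / M` -/
theorem dirichlet_vec {r : ℕ} (K : ℕ) (hK : 1 ≤ K) (M : ℕ) (hM : 1 ≤ M) (m : Fin r → ℤ) :
    ∃ q : ℕ, 1 ≤ q ∧ q ≤ K ^ r ∧ ∃ u : Fin r → ℤ, ∀ j, |(q : ℤ) * m j - M * u j| * K ≤ M := by
  classical
  have hM0 : (0 : ℤ) < M := by exact_mod_cast hM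
  -- the boxes
  let box : ℕ → (Fin r → Fin K) := fun q j =>
    ⟨((K * (((q : ℤ) * m j) % M)) / M).toNat, by
      have h1 : 0 ≤ ((q : ℤ) * m j) % M := Int.emod_nonneg _ hM0.ne'
      have h2 : ((q : ℤ) * m j) % M < M := Int.emod_lt_of_pos _ hM0
      have hK0 : (0 : ℤ) < K := by exact_mod_cast hK
      have h3 : (K * (((q : ℤ) * m j) % M)) / M < K := by
        rw [Int.ediv_lt_iff_lt_mul hM0]
        exact mul_lt_mul_of_pos_left h2 hK0
      have h4 : 0 ≤ (K * (((q : ℤ) * m j) % M)) / M :=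
        Int.ediv_nonneg (mul_nonneg hK0.le h1) hM0.le
      omega⟩
  have hcard : (univ : Finset (Fin r → Fin K)).card < (range (K ^ r + 1)).card := by
    rw [card_range, card_univ, Fintype.card_fun, Fintype.card_fin, Fintype.card_fin]
    omega
  obtain ⟨q1, h1, q2, h2, hne, heq⟩ := exists_ne_map_eq_of_card_lt_of_maps_to hcard
    (f := box) (fun q _ => mem_coe.2 (mem_univ _))
  rw [mem_range] at h1 h2
  wlog hlt : q1 < q2 generalizing q1 q2
  · exact this q2 h2 q1 h1 hne.symm heq.symm (by omega)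
  refine ⟨q2 - q1, by omega, by omega,
    fun j => ((q2 : ℤ) * m j) / M - ((q1 : ℤ) * m j) / M, fun j => ?_⟩
  have hb : (K * (((q1 : ℤ) * m j) % M)) / M = (K * (((q2 : ℤ) * m j) % M)) / M := by
    have h3 := congrFun heq j
    simp only [box, Fin.mk.injEq] at h3
    have hK0 : (0 : ℤ) < K := by exact_mod_cast hK
    have p1 : 0 ≤ (K * (((q1 : ℤ) * m j) % M)) / M :=
      Int.ediv_nonneg (mul_nonneg hK0.le (Int.emod_nonneg _ hM0.ne')) hM0.le
    have p2 : 0 ≤ (K * (((q2 : ℤ) * m j) % M)) / M :=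
      Int.ediv_nonneg (mul_nonneg hK0.le (Int.emod_nonneg _ hM0.ne')) hM0.le
    omega
  have e1 := Int.emod_add_mul_ediv ((q1 : ℤ) * m j) M
  have e2 := Int.emod_add_mul_ediv ((q2 : ℤ) * m j) M
  have f1 := Int.emod_add_mul_ediv (K * (((q1 : ℤ) * m j) % M)) M
  have f2 := Int.emod_add_mul_ediv (K * (((q2 : ℤ) * m j) % M)) M
  have g1 := Int.emod_nonneg (K * (((q1 : ℤ) * m j) % M)) hM0.ne'
  have g2 := Int.emod_nonneg (K * (((q2 : ℤ) * m j) % M)) hM0.ne'
  have g3 := Int.emod_lt_of_pos (K * (((q1 : ℤ) * m j) % M)) hM0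
  have g4 := Int.emod_lt_of_pos (K * (((q2 : ℤ) * m j) % M)) hM0
  rw [Nat.cast_sub hlt.le]
  have hd : ((q2 : ℤ) - q1) * m j - M * (((q2 : ℤ) * m j) / M - ((q1 : ℤ) * m j) / M) =
      ((q2 : ℤ) * m j) % M - ((q1 : ℤ) * m j) % M := by
    linear_combination e1 - e2
  rw [hd]
  have hK0 : (0 : ℤ) ≤ K := by positivity
  rw [← abs_of_nonneg hK0, ← abs_mul, abs_le]
  rw [hb] at f1
  constructor
  · nlinarith
  · nlinarith

/-- small representatives modulo the common kernel of the rows `R` -/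
theorem reduce {r : ℕ} (D L : ℕ) (hD : 1 ≤ D) (hL : 1 ≤ L) (RR : Set (Fin r → ℤ))
    (hRR : ∀ R ∈ RR, ∑ j, |R j| ≤ D) :
    ∀ (N : ℕ) (m : Fin r → ℤ), (∀ j, |m j| ≤ N) → (∀ R ∈ RR, |∑ j, R j * m j| ≤ L) →
    ∃ m' : Fin r → ℤ, (∀ j, |m' j| ≤ 2 * (2 * D) ^ r * L) ∧
      ∀ R ∈ RR, ∑ j, R j * m' j = ∑ j, R j * m j := by
  intro N
  induction N using Nat.strong_induction_on with
  | _ N ih =>
  intro m hm hRm
  by_cases hN : N ≤ 2 * (2 * D) ^ r * L
  · refine ⟨m, fun j => (hm j).trans (by exact_mod_cast hN), fun R _ => rfl⟩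
  push Not at hN
  have hK1 : 1 ≤ (2 * D) ^ r := Nat.one_le_pow _ _ (by omega)
  have hNK : (2 * D) ^ r < N := by nlinarith
  have hN1 : 1 ≤ N := by omega
  obtain ⟨q, hq1, hq2, u, hu⟩ := dirichlet_vec (2 * D) (by omega) N hN1 m
  have hD0 : (0 : ℤ) < D := by exact_mod_cast hD
  have hN0 : (0 : ℤ) < N := by exact_mod_cast hN1
  have hq0 : (0 : ℤ) < q := by exact_mod_cast hq1
  have hqN : (q : ℤ) < N := by
    have : q < N := by omega
    exact_mod_cast this
  have hu' : ∀ j, |(q : ℤ) * m j - N * u j| * 2 * D ≤ N := by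
    intro j
    have := hu j
    push_cast at this
    linarith
  -- `u` is in the kernel
  have hker : ∀ R ∈ RR, ∑ j, R j * u j = 0 := by
    intro R hR
    have h1 : (N : ℤ) * ∑ j, R j * u j =
        q * ∑ j, R j * m j - ∑ j, R j * ((q : ℤ) * m j - N * u j) := by
      rw [Finset.mul_sum, Finset.mul_sum, ← Finset.sum_sub_distrib]
      refine Finset.sum_congr rfl fun j _ => ?_
      ring
    have h2 : |∑ j, R j * ((q : ℤ) * m j - N * u j)| * 2 * D ≤ D * N := by
      calc |∑ j, R j * ((q : ℤ) * m j - N * u j)| * 2 * D ≤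
          (∑ j, |R j * ((q : ℤ) * m j - N * u j)|) * 2 * D := by
            gcongr
            exact Finset.abs_sum_le_sum_abs _ _
        _ = ∑ j, |R j| * (|(q : ℤ) * m j - N * u j| * 2 * D) := by
            rw [Finset.sum_mul, Finset.sum_mul]
            refine Finset.sum_congr rfl fun j _ => ?_
            rw [abs_mul]
            ring
        _ ≤ ∑ j, |R j| * N := by
            refine Finset.sum_le_sum fun j _ => ?_
            exact mul_le_mul_of_nonneg_left (hu' j) (abs_nonneg _)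
        _ = (∑ j, |R j|) * N := by rw [Finset.sum_mul]
        _ ≤ D * N := by
            exact mul_le_mul_of_nonneg_right (hRR R hR) hN0.le
    have h3 : |∑ j, R j * ((q : ℤ) * m j - N * u j)| * 2 ≤ N := by
      have h4 : |∑ j, R j * ((q : ℤ) * m j - N * u j)| * 2 * D ≤ N * D := by linarith
      exact le_of_mul_le_mul_right h4 hD0
    have h5 : |(q : ℤ) * ∑ j, R j * m j| ≤ (2 * D) ^ r * L := by
      rw [abs_mul, abs_of_pos hq0]
      have h6 : (q : ℤ) ≤ (2 * D) ^ r := by exact_mod_cast hq2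
      exact mul_le_mul h6 (hRm R hR) (abs_nonneg _) (by positivity)
    have h7 : (2 * (2 * D) ^ r * L : ℤ) < N := by exact_mod_cast hN
    have h8 : |(N : ℤ) * ∑ j, R j * u j| < N := by
      rw [h1]
      calc |(q : ℤ) * ∑ j, R j * m j - ∑ j, R j * ((q : ℤ) * m j - N * u j)| ≤
          |(q : ℤ) * ∑ j, R j * m j| + |∑ j, R j * ((q : ℤ) * m j - N * u j)| := abs_sub _ _
        _ < N := by linarith
    rw [abs_mul, abs_of_pos hN0] at h8
    have h9 : |∑ j, R j * u j| < 1 := by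
      by_contra hcon
      push Not at hcon
      nlinarith
    exact Int.abs_lt_one_iff.1 h9
  -- subtract `u`
  have hsm : ∀ j, |m j - u j| ≤ ((N - 1 : ℕ) : ℤ) := by
    intro j
    have h1 : |(N : ℤ) * (m j - u j)| < N * N := by
      have h2 : (N : ℤ) * (m j - u j) = (N - q) * m j + ((q : ℤ) * m j - N * u j) := by ring
      rw [h2]
      have h3 : |((N : ℤ) - q) * m j| ≤ (N - q) * N := by
        rw [abs_mul, abs_of_pos (by linarith : (0 : ℤ) < N - q)]
        exact mul_le_mul_of_nonneg_left (hm j) (by linarith)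
      have h4 : |(q : ℤ) * m j - N * u j| * 2 ≤ N := by
        have h5 := hu' j
        have h6 : |(q : ℤ) * m j - N * u j| * 2 * 1 ≤ |(q : ℤ) * m j - N * u j| * 2 * D := by
          have : (1 : ℤ) ≤ D := by exact_mod_cast hD
          gcongr
        linarith
      have h7 := abs_add_le (((N : ℤ) - q) * m j) ((q : ℤ) * m j - N * u j)
      nlinarith
    rw [abs_mul, abs_of_pos hN0] at h1
    have h2 : |m j - u j| < N := lt_of_mul_lt_mul_left h1 hN0.le
    rw [Nat.cast_sub hN1]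
    push_cast
    linarith
  have hRm' : ∀ R ∈ RR, ∑ j, R j * (m j - u j) = ∑ j, R j * m j := by
    intro R hR
    simp_rw [mul_sub]
    rw [Finset.sum_sub_distrib, hker R hR, sub_zero]
  obtain ⟨m', h1, h2⟩ := ih (N - 1) (by omega) (fun j => m j - u j) hsm
    (fun R hR => by rw [hRm' R hR]; exact hRm R hR)
  exact ⟨m', h1, fun R hR => (h2 R hR).trans (hRm' R hR)⟩

end Pool.Agent.H458.Sp
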