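import Mathlib
import Pool.Agent.H458.Sp.ReduceNat
import Pool.Agent.H458.Sp.IntExp
import Pool.Agent.H458.Sp.Dav

set_option autoImplicit false

/-! # The transfer principle: sizes of polynomials at sparse integers are degrees -/

namespace Pool.Agent.H458.Sp

open Finset MvPolynomial

variable {r : ℕ}

theorem exn_le (m : Fin r → ℕ) (f : ℕ) (hm : ∀ j, m j ≤ f) (α : Fin r →₀ ℕ) (d : ℕ)
    (hα : ∑ j, α j ≤ d) : exn m α ≤ d * f := by
  unfold exn
  calc ∑ j, α j * m j ≤ ∑ j, α j * f := Finset.sum_le_sum fun j _ => Nat.mul_le_mul_left _ (hm j)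
    _ = (∑ j, α j) * f := by rw [Finset.sum_mul]
    _ ≤ d * f := Nat.mul_le_mul_right _ hα

/-- **transfer principle**: the exponents `e` can be split into a bounded part `m` and a part
`l` such that the size of the value of every `G` of degree at most `d` at the powers `b ^ e j` is
measured by the degree of the polynomial `G (b ^ m j * X ^ l j)` -/
theorem transfer (b : ℕ) (hb : 2 ≤ b) (d : ℕ) (hd : 1 ≤ d) (L : ℕ) (hL : 1 ≤ L)
    (e : Fin r → ℕ) :
    ∃ m l : Fin r → ℕ, (∀ j, m j + l j = e j) ∧ (∀ j, m j ≤ 2 * (4 * d) ^ r * L) ∧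
      ∀ G : MvPolynomial (Fin r) ℤ, (∀ α ∈ G.support, ∑ j, α j ≤ d) →
        |eval (fun j => (b : ℤ) ^ (e j)) G| ≤ nz G * (b : ℤ) ^ (d * (2 * (4 * d) ^ r * L)) *
          (b : ℤ) ^ (sub b m l G).natDegree ∧
        (1 + nz G ≤ (b : ℤ) ^ L → eval (fun j => (b : ℤ) ^ (e j)) G ≠ 0 →
          (b : ℤ) ^ (sub b m l G).natDegree ≤ (b : ℤ) ^ L *
            |eval (fun j => (b : ℤ) ^ (e j)) G|) := by
  classical
  set RR : Set (Fin r → ℤ) := {R | ∃ α β : Fin r →₀ ℕ, ∑ j, α j ≤ d ∧ ∑ j, β j ≤ d ∧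
    (exn e α < exn e β + L ∧ exn e β < exn e α + L) ∧ R = fun j => (α j : ℤ) - β j} with hRR
  have hrow : ∀ (α β : Fin r →₀ ℕ) (w : Fin r → ℕ), ∑ j, ((α j : ℤ) - β j) * (w j : ℤ) =
      (exn w α : ℤ) - exn w β := by
    intro α β w
    unfold exn
    push_cast
    rw [← Finset.sum_sub_distrib]
    exact Finset.sum_congr rfl fun j _ => by ring
  obtain ⟨m, hm1, hm2, hm3⟩ := reduce_nat (2 * d) L (by omega) hL RR (by
    rintro R ⟨α, β, h1, h2, _, rfl⟩
    have h3 : ∀ j, |(α j : ℤ) - β j| ≤ (α j : ℤ) + β j := by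
      intro j
      rw [abs_le]
      constructor <;> omega
    calc ∑ j, |(α j : ℤ) - β j| ≤ ∑ j, ((α j : ℤ) + β j) := Finset.sum_le_sum fun j _ => h3 j
      _ = ((∑ j, α j + ∑ j, β j : ℕ) : ℤ) := by
        push_cast
        rw [Finset.sum_add_distrib]
      _ ≤ ((2 * d : ℕ) : ℤ) := by
        exact_mod_cast (by omega)) (∑ j, e j) e
    (fun j => Finset.single_le_sum (f := e) (fun _ _ => Nat.zero_le _) (Finset.mem_univ j)) (by
    rintro R ⟨α, β, h1, h2, h3, rfl⟩
    rw [hrow, abs_le]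
    constructor <;> omega)
  have hsplit : ∀ j, m j + (e j - m j) = e j := fun j => Nat.add_sub_cancel' (hm1 j)
  refine ⟨m, fun j => e j - m j, hsplit, fun j => ?_, ?_⟩
  · have := hm2 j
    rwa [show 2 * (2 * d) = 4 * d by ring] at this
  intro G hG
  have hE : (fun j => (b : ℤ) ^ (e j)) = fun j => (b : ℤ) ^ (m j + (e j - m j)) := by
    funext j
    rw [hsplit]
  rw [hE]
  constructor
  · refine le_sub_natDegree b hb m _ G _ fun α hα => ?_
    refine exn_le m _ (fun j => ?_) α d (hG α hα)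
    have := hm2 j
    rwa [show 2 * (2 * d) = 4 * d by ring] at this
  · intro hS h0
    refine sub_natDegree b hb L hL m _ G hS ?_ h0
    intro α hα β hβ hr
    have he : (fun j => m j + (e j - m j)) = e := by
      funext j
      exact hsplit j
    rw [he] at hr
    have h1 := hm3 _ ⟨α, β, hG α hα, hG β hβ, hr, rfl⟩
    rw [hrow, hrow] at h1
    have h2 : ∀ γ : Fin r →₀ ℕ, exn e γ = exn m γ + exn (fun j => e j - m j) γ := by
      intro γ
      rw [← exn_add, he]
    have h3 := h2 α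
    have h4 := h2 β
    omega

/-- the constant -/
def QQ (b r B d : ℕ) : ℕ := r * B * (3 * b * (r * B) ^ d) ^ (4 * (4 * d) ^ r)

/-- **Hall's inequality for sparse integers**, general exponents -/
theorem sparse_hall (n m : ℕ) (hn : 1 ≤ n) (hm : 1 ≤ m) (b : ℕ) (hb : 2 ≤ b) (r B : ℕ)
    (e : Fin r → ℕ) (c c' : Fin r → ℤ) (hc : ∀ j, |c j| ≤ B) (hc' : ∀ j, |c' j| ≤ B)
    (x y : ℤ) (hx : x = ∑ j, c j * (b : ℤ) ^ (e j)) (hy : y = ∑ j, c' j * (b : ℤ) ^ (e j))
    (hk : x ^ n ≠ y ^ m) :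
    |x| ^ (m * n - m - n) ≤ (QQ b r B (max n m) : ℤ) ^ (m * n - m - n) * |x ^ n - y ^ m| ^ m ∧
    |y| ^ (m * n - m - n) ≤ (QQ b r B (max n m) : ℤ) ^ (m * n - m - n) * |x ^ n - y ^ m| ^ n := by
  classical
  set d := max n m with hd
  set N := m * n - m - n with hN
  have hnd : n ≤ d := le_max_left _ _
  have hmd : m ≤ d := le_max_right _ _
  have hb0 : (0 : ℤ) < b := by positivity
  have hb1 : (1 : ℤ) ≤ b := by
    have : (2 : ℤ) ≤ b := by exact_mod_cast hb
    linarith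
  have hk0 : x ^ n - y ^ m ≠ 0 := sub_ne_zero.2 hk
  have hk1 : 1 ≤ |x ^ n - y ^ m| := Int.one_le_abs hk0
  rcases Nat.eq_zero_or_pos N with hN0 | hN0
  · rw [hN0]
    simp only [pow_zero, one_mul]
    exact ⟨one_le_pow₀ hk1, one_le_pow₀ hk1⟩
  -- `r * B ≥ 1`
  have hrB : 1 ≤ r * B := by
    by_contra hcon
    have h0 : r * B = 0 := by omega
    apply hk
    have hx0 : x = 0 ∧ y = 0 := by
      rcases Nat.mul_eq_zero.1 h0 with hr | hB
      · subst hr
        simp [hx, hy]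
      · have h1 : ∀ j, c j = 0 := fun j => by
          have := hc j
          rw [hB] at this
          exact abs_eq_zero.1 (le_antisymm (by simpa using this) (abs_nonneg _))
        have h2 : ∀ j, c' j = 0 := fun j => by
          have := hc' j
          rw [hB] at this
          exact abs_eq_zero.1 (le_antisymm (by simpa using this) (abs_nonneg _))
        simp [hx, hy, h1, h2]
    rw [hx0.1, hx0.2, zero_pow (by omega), zero_pow (by omega)]
  have hr1 : 1 ≤ r := Nat.pos_of_ne_zero fun h => by simp [h] at hrB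
  -- the length `L`
  set S := 3 * (r * B) ^ d with hS
  have hS3 : 3 ≤ S := by
    rw [hS]
    have := Nat.one_le_pow d (r * B) hrB
    omega
  set L := Nat.clog b S with hLdef
  have hL1 : 1 ≤ L := Nat.clog_pos (by omega) (by omega)
  have hSL : S ≤ b ^ L := Nat.le_pow_clog (by omega) _
  have hLS : b ^ L ≤ b * S := by
    obtain ⟨L', hL'⟩ : ∃ L', L = L' + 1 := ⟨L - 1, by omega⟩
    have h1 : b ^ L' < S := by
      rw [← Nat.lt_clog_iff_pow_lt (by omega)]
      omega
    rw [hL', pow_succ, mul_comm]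
    exact Nat.mul_le_mul_left _ h1.le
  obtain ⟨p, l, hpl, hp, htr⟩ := transfer b hb d (by omega) L hL1 e
  set f := 2 * (4 * d) ^ r * L with hf
  -- the two linear forms
  have hex : eval (fun j => (b : ℤ) ^ (e j)) (li c) = x := by
    rw [eval_li, hx]
    exact Finset.sum_congr rfl fun j _ => mul_comm _ _
  have hey : eval (fun j => (b : ℤ) ^ (e j)) (li c') = y := by
    rw [eval_li, hy]
    exact Finset.sum_congr rfl fun j _ => mul_comm _ _
  have hlx : ∀ (c : Fin r → ℤ), ∀ α ∈ (li c).support, ∑ j, α j = 1 := by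
    intro c α hα
    have h1 := li_homog c (mem_support_iff.1 hα)
    rw [Finsupp.weight_apply, Finsupp.sum_fintype _ _ (by simp)] at h1
    simpa using h1
  set X := sub b p l (li c) with hX
  set Y := sub b p l (li c') with hY
  set G := li c ^ n - li c' ^ m with hG
  have hGsub : sub b p l G = X ^ n - Y ^ m := by
    rw [hG, map_sub, map_pow, map_pow]
  have hGev : eval (fun j => (b : ℤ) ^ (e j)) G = x ^ n - y ^ m := by
    rw [hG, map_sub, map_pow, map_pow, hex, hey]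
  have hGdeg : ∀ α ∈ G.support, ∑ j, α j ≤ d := by
    intro α hα
    have h1 : α ∈ (li c ^ n).support ∪ (li c' ^ m).support := support_sub _ _ _ hα
    rw [Finset.mem_union] at h1
    rcases h1 with h1 | h1
    · have h2 := (li_homog c).pow n (mem_support_iff.1 h1)
      rw [Finsupp.weight_apply, Finsupp.sum_fintype _ _ (by simp)] at h2
      have h3 : ∑ j, α j = n := by simpa using h2
      omega
    · have h2 := (li_homog c').pow m (mem_support_iff.1 h1)
      rw [Finsupp.weight_apply, Finsupp.sum_fintype _ _ (by simp)] at h2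
      have h3 : ∑ j, α j = m := by simpa using h2
      omega
  have hGnz : 1 + nz G ≤ (b : ℤ) ^ L := by
    have h1 : nz (li c ^ n) ≤ (r * B : ℤ) ^ d :=
      (nz_pow _ _ (li_nz c B hc) n).trans (pow_le_pow_right₀ (by exact_mod_cast hrB) hnd)
    have h2 : nz (li c' ^ m) ≤ (r * B : ℤ) ^ d :=
      (nz_pow _ _ (li_nz c' B hc') m).trans (pow_le_pow_right₀ (by exact_mod_cast hrB) hmd)
    have h3 : nz G ≤ nz (li c ^ n) + nz (li c' ^ m) := by
      rw [hG, sub_eq_add_neg]
      refine (nz_add _ _).trans ?_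
      rw [nz_neg]
    have h4 : (1 : ℤ) ≤ (r * B : ℤ) ^ d := one_le_pow₀ (by exact_mod_cast hrB)
    have h5 : ((3 * (r * B) ^ d : ℕ) : ℤ) ≤ (b : ℤ) ^ L := by exact_mod_cast hSL
    push_cast at h5
    linarith
  have hkey := (htr G hGdeg).2 hGnz (by rw [hGev]; exact hk0)
  rw [hGev, hGsub] at hkey
  have hh0 : X ^ n - Y ^ m ≠ 0 := by
    intro h0
    have h1 := sub_eval (b : ℤ) p l G
    rw [hGsub, h0] at h1
    apply hk0
    rw [← hGev]
    simp only [hpl] at h1
    rw [← h1]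
    simp
  obtain ⟨hdx, hdy⟩ := dav n m hn hm X Y hh0
  -- sizes of `x`, `y`
  have hsz : ∀ (c : Fin r → ℤ), (∀ j, |c j| ≤ B) → |eval (fun j => (b : ℤ) ^ (e j)) (li c)| ≤
      (r * B : ℤ) * (b : ℤ) ^ f * (b : ℤ) ^ (sub b p l (li c)).natDegree := by
    intro c hc
    have h1 := le_sub_natDegree b hb p l (li c) f (fun α hα => by
      have := exn_le p f hp α 1 (hlx c α hα).le
      rwa [one_mul] at this)
    simp only [hpl] at h1
    refine h1.trans ?_
    gcongr
    exact li_nz c B hc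
  have hfin : ∀ (z : ℤ) (D s : ℕ), |z| ≤ (r * B : ℤ) * (b : ℤ) ^ f * (b : ℤ) ^ D → s ≤ d →
      D * N ≤ s * (X ^ n - Y ^ m).natDegree →
      |z| ^ N ≤ (QQ b r B d : ℤ) ^ N * |x ^ n - y ^ m| ^ s := by
    intro z D s hz hs hD
    have hLs : L * s ≤ f * N := by
      obtain ⟨r', hr'⟩ : ∃ r', r = r' + 1 := ⟨r - 1, by omega⟩
      have h2 : 1 ≤ (4 * d) ^ r' := Nat.one_le_pow _ _ (by omega)
      calc L * s ≤ L * d := Nat.mul_le_mul_left _ hs
        _ ≤ L * (2 * ((4 * d) ^ r' * (4 * d))) := by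
          apply Nat.mul_le_mul_left
          nlinarith
        _ = f := by rw [hf, hr', pow_succ]; ring
        _ ≤ f * N := Nat.le_mul_of_pos_right _ hN0
    have hQ : (r * B : ℤ) * (b : ℤ) ^ f * (b : ℤ) ^ f ≤ (QQ b r B d : ℤ) := by
      have h1 : b ^ f * b ^ f ≤ (3 * b * (r * B) ^ d) ^ (4 * (4 * d) ^ r) := by
        calc b ^ f * b ^ f = (b ^ L) ^ (4 * (4 * d) ^ r) := by
              rw [← pow_add, ← pow_mul, hf]
              congr 1
              ring
          _ ≤ (b * S) ^ (4 * (4 * d) ^ r) := Nat.pow_le_pow_left hLS _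
          _ = _ := by rw [hS]; congr 1; ring
      have h2 : r * B * (b ^ f * b ^ f) ≤ QQ b r B d := Nat.mul_le_mul_left _ h1
      calc (r * B : ℤ) * (b : ℤ) ^ f * (b : ℤ) ^ f = ((r * B * (b ^ f * b ^ f) : ℕ) : ℤ) := by
            push_cast; ring
        _ ≤ _ := by exact_mod_cast h2
    calc |z| ^ N ≤ ((r * B : ℤ) * (b : ℤ) ^ f * (b : ℤ) ^ D) ^ N :=
          pow_le_pow_left₀ (abs_nonneg _) hz _
      _ = ((r * B : ℤ) * (b : ℤ) ^ f) ^ N * (b : ℤ) ^ (D * N) := by rw [mul_pow, ← pow_mul]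
      _ ≤ ((r * B : ℤ) * (b : ℤ) ^ f) ^ N * (b : ℤ) ^ (s * (X ^ n - Y ^ m).natDegree) := by
          gcongr
      _ = ((r * B : ℤ) * (b : ℤ) ^ f) ^ N * ((b : ℤ) ^ (X ^ n - Y ^ m).natDegree) ^ s := by
          rw [← pow_mul, mul_comm s]
      _ ≤ ((r * B : ℤ) * (b : ℤ) ^ f) ^ N * ((b : ℤ) ^ L * |x ^ n - y ^ m|) ^ s := by
          gcongr
      _ = ((r * B : ℤ) * (b : ℤ) ^ f) ^ N * (b : ℤ) ^ (L * s) * |x ^ n - y ^ m| ^ s := by
          rw [mul_pow, ← pow_mul]; ring
      _ ≤ ((r * B : ℤ) * (b : ℤ) ^ f) ^ N * (b : ℤ) ^ (f * N) * |x ^ n - y ^ m| ^ s := by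
          gcongr
      _ = ((r * B : ℤ) * (b : ℤ) ^ f * (b : ℤ) ^ f) ^ N * |x ^ n - y ^ m| ^ s := by
          rw [pow_mul (b : ℤ) f N, ← mul_pow]
      _ ≤ _ := by gcongr
  constructor
  · refine hfin x X.natDegree m ?_ hmd hdx
    rw [← hex]
    exact hsz c hc
  · refine hfin y Y.natDegree n ?_ hnd hdy
    rw [← hey]
    exact hsz c' hc'

end Pool.Agent.H458.Sp
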