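import Mathlib
import Pool.Agent.H458.Sp.Transfer

set_option autoImplicit false

/-! # The transfer principle for zeros -/

namespace Pool.Agent.H458.Sp

open Finset MvPolynomial

variable {r : ℕ}

/-- if the value is zero, so is the substituted polynomial -/
theorem sub_vanish (b : ℕ) (hb : 2 ≤ b) (L : ℕ) (hL : 1 ≤ L) (m l : Fin r → ℕ)
    (G : MvPolynomial (Fin r) ℤ) (hS : 1 + nz G ≤ (b : ℤ) ^ L)
    (hcl : ∀ α ∈ G.support, ∀ β ∈ G.support,
      (exn (fun j => m j + l j) α < exn (fun j => m j + l j) β + L ∧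
        exn (fun j => m j + l j) β < exn (fun j => m j + l j) α + L) → exn l α = exn l β)
    (h0 : eval (fun j => (b : ℤ) ^ (m j + l j)) G = 0) : sub b m l G = 0 := by
  classical
  have hb0 : (0 : ℤ) < b := by positivity
  ext w
  rw [sub_coeff, Polynomial.coeff_zero]
  have h1 := int_closed b hb L hL (fun α => coeff α G)
    (fun α => exn (fun j => m j + l j) α + L) 0
    G.support.card G.support (G.support.filter (fun α => w = exn l α)) 0 le_rfl
    (Finset.filter_subset _ _) hS ?_ ?_ (by simp) ?_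
  · have h2 : (b : ℤ) ^ (w + L) * ∑ α ∈ G.support.filter (fun α => w = exn l α),
        (b : ℤ) ^ (exn m α) * coeff α G = 0 := by
      rw [← h1, Finset.mul_sum]
      refine Finset.sum_congr rfl fun α hα => ?_
      rw [exn_add, pow_add, pow_add, pow_add, ← (Finset.mem_filter.1 hα).2]
      ring
    exact (mul_eq_zero.1 h2).resolve_left (pow_pos hb0 _).ne'
  · intro α hα β hβ hr
    rw [Finset.mem_filter] at hα ⊢
    exact ⟨hβ, hα.2.trans (hcl α hα.1 β hβ ⟨by omega, by omega⟩)⟩
  · intro α hα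
    omega
  · rw [eval_powz b (fun j => m j + l j)] at h0
    have h3 : ∑ α ∈ G.support, (b : ℤ) ^ (exn (fun j => m j + l j) α + L) * coeff α G =
        (b : ℤ) ^ L * ∑ α ∈ G.support, (b : ℤ) ^ (exn (fun j => m j + l j) α) * coeff α G := by
      rw [Finset.mul_sum]
      refine Finset.sum_congr rfl fun α _ => ?_
      rw [pow_add]
      ring
    rw [h3, h0, mul_zero]

/-- **transfer principle for zeros**: the exponents `e` can be split into a bounded part `m` and
a part `l`, constant on exponents that are close to each other, such that every `G` of degree at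
most `d` that vanishes at the powers `b ^ e j` also vanishes at the monomials
`b ^ m j * X ^ l j` -/
theorem transfer0 (b : ℕ) (hb : 2 ≤ b) (d : ℕ) (hd : 1 ≤ d) (L : ℕ) (hL : 1 ≤ L)
    (e : Fin r → ℕ) :
    ∃ m l : Fin r → ℕ, (∀ j, m j + l j = e j) ∧ (∀ j, m j ≤ 2 * (4 * d) ^ r * L) ∧
      (∀ i j, e i < e j + L → e j < e i + L → l i = l j) ∧
      ∀ G : MvPolynomial (Fin r) ℤ, (∀ α ∈ G.support, ∑ j, α j ≤ d) →
        1 + nz G ≤ (b : ℤ) ^ L → eval (fun j => (b : ℤ) ^ (e j)) G = 0 → sub b m l G = 0 := by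
  classical
  set RR : Set (Fin r → ℤ) := {R | ∃ α β : Fin r →₀ ℕ, ∑ j, α j ≤ d ∧ ∑ j, β j ≤ d ∧
    (exn e α < exn e β + L ∧ exn e β < exn e α + L) ∧ R = fun j => (α j : ℤ) - β j} with hRR
  have hrow : ∀ (α β : Fin r →₀ ℕ) (w : Fin r → ℕ), ∑ j, ((α j : ℤ) - β j) * (w j : ℤ) =
      (exn w α : ℤ) - exn w β := by
    intro α β w
    unfold exn
    push_cast
    rw [← Finset.sum_sub_distrib]
    exact Finset.sum_congr rfl fun j _ => by ring
  obtain ⟨m, hm1, hm2, hm3⟩ := reduce_nat (2 * d) L (by omega) hL RR (by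
    rintro R ⟨α, β, h1, h2, _, rfl⟩
    have h3 : ∀ j, |(α j : ℤ) - β j| ≤ (α j : ℤ) + β j := by
      intro j
      rw [abs_le]
      constructor <;> omega
    calc ∑ j, |(α j : ℤ) - β j| ≤ ∑ j, ((α j : ℤ) + β j) := Finset.sum_le_sum fun j _ => h3 j
      _ = ((∑ j, α j + ∑ j, β j : ℕ) : ℤ) := by
        push_cast
        rw [Finset.sum_add_distrib]
      _ ≤ ((2 * d : ℕ) : ℤ) := by
        exact_mod_cast (by omega)) (∑ j, e j) e
    (fun j => Finset.single_le_sum (f := e) (fun _ _ => Nat.zero_le _) (Finset.mem_univ j)) (by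
    rintro R ⟨α, β, h1, h2, h3, rfl⟩
    rw [hrow, abs_le]
    constructor <;> omega)
  have hsplit : ∀ j, m j + (e j - m j) = e j := fun j => Nat.add_sub_cancel' (hm1 j)
  have he : (fun j => m j + (e j - m j)) = e := by
    funext j
    exact hsplit j
  have hclus : ∀ α β : Fin r →₀ ℕ, ∑ j, α j ≤ d → ∑ j, β j ≤ d → exn e α < exn e β + L →
      exn e β < exn e α + L → exn (fun j => e j - m j) α = exn (fun j => e j - m j) β := by
    intro α β hα hβ h1 h2
    have h3 := hm3 _ ⟨α, β, hα, hβ, ⟨h1, h2⟩, rfl⟩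
    rw [hrow, hrow] at h3
    have h4 : ∀ γ : Fin r →₀ ℕ, exn e γ = exn m γ + exn (fun j => e j - m j) γ := by
      intro γ
      rw [← exn_add, he]
    have h5 := h4 α
    have h6 := h4 β
    omega
  refine ⟨m, fun j => e j - m j, hsplit, fun j => ?_, ?_, ?_⟩
  · have := hm2 j
    rwa [show 2 * (2 * d) = 4 * d by ring] at this
  · intro i j h1 h2
    have hs : ∀ (i : Fin r) (w : Fin r → ℕ), exn w (Finsupp.single i 1) = w i := by
      intro i w
      unfold exn
      rw [Finset.sum_eq_single i]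
      · simp
      · intro j _ hj
        rw [Finsupp.single_eq_of_ne hj]
        simp
      · simp
    have hsum : ∀ i : Fin r, ∑ j, (Finsupp.single i 1 : Fin r →₀ ℕ) j ≤ d := by
      intro i
      have := hs i (fun _ => 1)
      unfold exn at this
      simp only [mul_one] at this
      omega
    have h3 := hclus (Finsupp.single i 1) (Finsupp.single j 1) (hsum i) (hsum j)
      (by rw [hs, hs]; exact h1) (by rw [hs, hs]; exact h2)
    rwa [hs, hs] at h3
  · intro G hG hS h0
    have hE : (fun j => (b : ℤ) ^ (e j)) = fun j => (b : ℤ) ^ (m j + (e j - m j)) := by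
      funext j
      rw [hsplit]
    rw [hE] at h0
    refine sub_vanish b hb L hL m _ G hS ?_ h0
    intro α hα β hβ hr
    rw [he] at hr
    exact hclus α β (hG α hα) (hG β hβ) hr.1 hr.2

end Pool.Agent.H458.Sp
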