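import Mathlib
import Pool.Agent.H458.Sp.Transfer0

set_option autoImplicit false

/-! # Sparse integral zeros of polynomials lie on polynomial curves or are small -/

namespace Pool.Agent.H458.Sp

open Finset MvPolynomial

variable {r n : ℕ}

theorem nz_prod {τ ι : Type} (s : Finset ι) (f : ι → MvPolynomial τ ℤ) (N : ι → ℤ)
    (hf : ∀ i ∈ s, nz (f i) ≤ N i) : nz (∏ i ∈ s, f i) ≤ ∏ i ∈ s, N i := by
  classical
  induction s using Finset.induction_on with
  | empty => simpa using nz_one
  | insert a s ha ih =>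
    rw [Finset.prod_insert ha, Finset.prod_insert ha]
    have h1 := hf a (Finset.mem_insert_self _ _)
    have h2 := ih fun i hi => hf i (Finset.mem_insert_of_mem hi)
    exact (nz_mul _ _).trans (mul_le_mul h1 h2 (nz_nonneg _) ((nz_nonneg _).trans h1))

theorem bind_eq (g : Fin n → MvPolynomial (Fin r) ℤ) (F : MvPolynomial (Fin n) ℤ) :
    bind₁ g F = ∑ s ∈ F.support, C (coeff s F) * ∏ i, g i ^ s i := by
  unfold bind₁
  rw [aeval_def, eval₂_eq']
  rfl

theorem sum_le_totalDegree (F : MvPolynomial (Fin n) ℤ) (s : Fin n →₀ ℕ) (hs : s ∈ F.support) :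
    ∑ i, s i ≤ F.totalDegree := by
  have := le_totalDegree hs
  rwa [Finsupp.sum_fintype _ _ (by simp)] at this

/-- degree of the substituted polynomial -/
theorem bind_degree (c : Fin n → Fin r → ℤ) (F : MvPolynomial (Fin n) ℤ) (d : ℕ)
    (hd : F.totalDegree ≤ d) (α : Fin r →₀ ℕ)
    (hα : α ∈ (bind₁ (fun i => li (c i)) F).support) : ∑ j, α j ≤ d := by
  classical
  rw [bind_eq] at hα
  have h1 := Finset.mem_biUnion.1 (support_sum hα)
  obtain ⟨s, hs, h2⟩ := h1
  have h3 : (C (coeff s F) * ∏ i, li (c i) ^ s i).IsHomogeneous (0 + ∑ i, s i * 1) := by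
    refine (isHomogeneous_C _ _).mul ?_
    refine IsHomogeneous.prod _ _ _ fun i _ => ?_
    rw [mul_one]
    simpa using (li_homog (c i)).pow (s i)
  have h4 := h3 (mem_support_iff.1 h2)
  rw [Finsupp.weight_apply, Finsupp.sum_fintype _ _ (by simp)] at h4
  have h5 : ∑ j, α j = ∑ i, s i := by simpa using h4
  rw [h5]
  exact (sum_le_totalDegree F s hs).trans hd

/-- size of the substituted polynomial -/
theorem bind_nz (c : Fin n → Fin r → ℤ) (B : ℕ) (hc : ∀ i j, |c i j| ≤ B) (hrB : 1 ≤ r * B)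
    (F : MvPolynomial (Fin n) ℤ) (d : ℕ) (hd : F.totalDegree ≤ d) :
    nz (bind₁ (fun i => li (c i)) F) ≤ nz F * (r * B) ^ d := by
  rw [bind_eq]
  refine (nz_sum _ _).trans ?_
  unfold nz
  rw [Finset.sum_mul]
  refine Finset.sum_le_sum fun s hs => ?_
  have h1 : nz (∏ i, li (c i) ^ s i) ≤ ∏ i, ((r : ℤ) * B) ^ s i :=
    nz_prod _ _ _ fun i _ => nz_pow _ _ (li_nz (c i) B (hc i)) _
  have h2 : ∏ i, ((r : ℤ) * B) ^ s i ≤ ((r : ℤ) * B) ^ d := by
    rw [Finset.prod_pow_eq_pow_sum]
    exact pow_le_pow_right₀ (by exact_mod_cast hrB) ((sum_le_totalDegree F s hs).trans hd)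
  have h3 : nz (C (coeff s F) : MvPolynomial (Fin r) ℤ) ≤ |coeff s F| := nz_monomial 0 _
  exact (nz_mul _ _).trans (mul_le_mul h3 (h1.trans h2) (nz_nonneg _) (abs_nonneg _))

theorem eval_bind (w : Fin r → ℤ) (g : Fin n → MvPolynomial (Fin r) ℤ)
    (F : MvPolynomial (Fin n) ℤ) :
    eval w (bind₁ g F) = eval (fun i => eval w (g i)) F := by
  rw [bind_eq, map_sum, eval_eq']
  refine Finset.sum_congr rfl fun s _ => ?_
  rw [map_mul, eval_C, map_prod]
  congr 1
  exact Finset.prod_congr rfl fun i _ => by rw [map_pow]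

/-- **Dichotomy for sparse integral points.**  Let `x` be an integral zero of the polynomials in
`FF`, of degree at most `d` and with sum of the absolute values of the coefficients at most `A`.
If `x` is a combination of `r` powers of `b` with coefficient vectors of size at most `B`, then
either `x` is the value at `b` of a nonconstant vector of integral polynomials in one variable which
is a zero of all elements of `FF`, or `x` is small. -/
theorem affine_dichotomy (FF : Set (MvPolynomial (Fin n) ℤ)) (d : ℕ) (hd : 1 ≤ d) (A : ℕ)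
    (hA : 1 ≤ A) (hFd : ∀ F ∈ FF, F.totalDegree ≤ d) (hFA : ∀ F ∈ FF, nz F ≤ A)
    (b : ℕ) (hb : 2 ≤ b) (B : ℕ) (e : Fin r → ℕ) (c : Fin n → Fin r → ℤ)
    (hc : ∀ i j, |c i j| ≤ B) (x : Fin n → ℤ) (hx : ∀ i, x i = ∑ j, c i j * (b : ℤ) ^ (e j))
    (h0 : ∀ F ∈ FF, eval x F = 0) :
    (∃ p : Fin n → Polynomial ℤ, (∀ F ∈ FF, aeval p F = 0) ∧ (∀ i, (p i).eval (b : ℤ) = x i) ∧
      ∃ i, (p i).natDegree ≠ 0) ∨
    ∀ i, |x i| ≤ ((r * B * (b * ((1 + A) * (r * B) ^ d)) ^ (2 * (4 * d) ^ r) : ℕ) : ℤ) := by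
  classical
  have hb0 : (0 : ℤ) < b := by positivity
  rcases Nat.eq_zero_or_pos (r * B) with hrB | hrB
  · right
    intro i
    have h1 : x i = 0 := by
      rw [hx]
      rcases Nat.mul_eq_zero.1 hrB with hr | hB
      · subst hr
        simp
      · have h1 : ∀ j, c i j = 0 := fun j => by
          have := hc i j
          rw [hB] at this
          exact abs_eq_zero.1 (le_antisymm (by simpa using this) (abs_nonneg _))
        simp [h1]
    rw [h1, abs_zero]
    positivity
  set S := (1 + A) * (r * B) ^ d with hS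
  have hP1 : 1 ≤ (r * B) ^ d := Nat.one_le_pow _ _ hrB
  have hS2 : 2 ≤ S := by
    rw [hS]
    nlinarith
  set L := Nat.clog b S with hLdef
  have hL1 : 1 ≤ L := Nat.clog_pos (by omega) hS2
  have hSL : S ≤ b ^ L := Nat.le_pow_clog (by omega) _
  have hLS : b ^ L ≤ b * S := by
    obtain ⟨L', hL'⟩ : ∃ L', L = L' + 1 := ⟨L - 1, by omega⟩
    have h1 : b ^ L' < S := by
      rw [← Nat.lt_clog_iff_pow_lt (by omega)]
      omega
    rw [hL', pow_succ, mul_comm]
    exact Nat.mul_le_mul_left _ h1.le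
  obtain ⟨m, l, hml, hm, _, htr⟩ := transfer0 b hb d hd L hL1 e
  set f := 2 * (4 * d) ^ r * L with hf
  have hev : ∀ i, eval (fun j => (b : ℤ) ^ (e j)) (li (c i)) = x i := by
    intro i
    rw [eval_li, hx]
    exact Finset.sum_congr rfl fun j _ => mul_comm _ _
  by_cases hdeg : ∃ i, (sub (b : ℤ) m l (li (c i))).natDegree ≠ 0
  · left
    refine ⟨fun i => sub (b : ℤ) m l (li (c i)), ?_, ?_, hdeg⟩
    · intro F hF
      have h1 := htr (bind₁ (fun i => li (c i)) F) (bind_degree c F d (hFd F hF)) ?_ ?_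
      · unfold sub at h1 ⊢
        rwa [aeval_bind₁] at h1
      · have h2 := bind_nz c B hc hrB F d (hFd F hF)
        have h3 : nz F * (r * B : ℤ) ^ d ≤ A * (r * B : ℤ) ^ d :=
          mul_le_mul_of_nonneg_right (hFA F hF) (by positivity)
        have h4 : (1 : ℤ) ≤ (r * B : ℤ) ^ d := by exact_mod_cast hP1
        have h5 : (((1 + A) * (r * B) ^ d : ℕ) : ℤ) ≤ (b : ℤ) ^ L := by exact_mod_cast hSL
        push_cast at h5
        nlinarith
      · rw [eval_bind]
        simp only [hev]
        exact h0 F hF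
    · intro i
      rw [sub_eval]
      simp only [hml]
      exact hev i
  · right
    push Not at hdeg
    intro i
    have h1 := le_sub_natDegree b hb m l (li (c i)) f (fun α hα => by
      have h2 := li_homog (c i) (mem_support_iff.1 hα)
      rw [Finsupp.weight_apply, Finsupp.sum_fintype _ _ (by simp)] at h2
      have h3 : ∑ j, α j = 1 := by simpa using h2
      have := exn_le m f hm α 1 h3.le
      rwa [one_mul] at this)
    simp only [hml] at h1
    rw [hev, hdeg i, pow_zero, mul_one] at h1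
    refine h1.trans ?_
    calc nz (li (c i)) * (b : ℤ) ^ f ≤ (r * B : ℤ) * (b : ℤ) ^ f :=
          mul_le_mul_of_nonneg_right (li_nz _ _ (hc i)) (by positivity)
      _ = ((r * B * b ^ f : ℕ) : ℤ) := by push_cast; ring
      _ ≤ _ := by
        have h2 : b ^ f ≤ (b * S) ^ (2 * (4 * d) ^ r) := by
          calc b ^ f = (b ^ L) ^ (2 * (4 * d) ^ r) := by
                rw [← pow_mul, hf]
                congr 1
                ring
            _ ≤ _ := Nat.pow_le_pow_left hLS _
        exact_mod_cast Nat.mul_le_mul_left _ h2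

/-- if there are only finitely many integral zeros, the sparse ones are small -/
theorem finite_small (FF : Set (MvPolynomial (Fin n) ℤ)) (d : ℕ) (hd : 1 ≤ d) (A : ℕ)
    (hA : 1 ≤ A) (hFd : ∀ F ∈ FF, F.totalDegree ≤ d) (hFA : ∀ F ∈ FF, nz F ≤ A)
    (hfin : {x : Fin n → ℤ | ∀ F ∈ FF, eval x F = 0}.Finite)
    (b : ℕ) (hb : 2 ≤ b) (B : ℕ) (e : Fin r → ℕ) (c : Fin n → Fin r → ℤ)
    (hc : ∀ i j, |c i j| ≤ B) (x : Fin n → ℤ) (hx : ∀ i, x i = ∑ j, c i j * (b : ℤ) ^ (e j))
    (h0 : ∀ F ∈ FF, eval x F = 0) :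
    ∀ i, |x i| ≤ ((r * B * (b * ((1 + A) * (r * B) ^ d)) ^ (2 * (4 * d) ^ r) : ℕ) : ℤ) := by
  rcases affine_dichotomy FF d hd A hA hFd hFA b hb B e c hc x hx h0 with
    ⟨p, hp, _, i, hi⟩ | h
  · exfalso
    have h1 : ∀ a : ℤ, (fun i => (p i).eval a) ∈ {x : Fin n → ℤ | ∀ F ∈ FF, eval x F = 0} := by
      intro a F hF
      have h2 := congrArg (Polynomial.evalRingHom a) (hp F hF)
      rw [map_zero] at h2
      rw [← h2, aeval_def, eval₂_eq', map_sum, eval_eq']
      refine Finset.sum_congr rfl fun s _ => ?_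
      rw [map_mul, map_prod]
      simp
    have h2 : ((fun x : Fin n → ℤ => x i) '' {x : Fin n → ℤ | ∀ F ∈ FF, eval x F = 0}).Finite :=
      hfin.image _
    have h3 : (Set.range fun a : ℤ => (p i).eval a).Finite :=
      h2.subset (by rintro _ ⟨a, rfl⟩; exact ⟨_, h1 a, rfl⟩)
    -- a nonconstant polynomial takes infinitely many values
    have h4 : ∀ v : ℤ, {a : ℤ | (p i).eval a = v}.Finite := by
      intro v
      have hne : p i - Polynomial.C v ≠ 0 := by
        intro h
        apply hi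
        rw [sub_eq_zero] at h
        rw [h, Polynomial.natDegree_C]
      refine ((p i - Polynomial.C v).roots.toFinset.finite_toSet).subset fun a ha => ?_
      refine Finset.mem_coe.2 (Multiset.mem_toFinset.2 ((Polynomial.mem_roots hne).2 ?_))
      have ha' : (p i).eval a = v := ha
      rw [Polynomial.IsRoot, Polynomial.eval_sub, Polynomial.eval_C, ha', sub_self]
    have h5 : (Set.univ : Set ℤ).Finite := by
      have h6 : (Set.univ : Set ℤ) ⊆ ⋃ v ∈ Set.range (fun a : ℤ => (p i).eval a),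
          {a : ℤ | (p i).eval a = v} := by
        intro a _
        exact Set.mem_biUnion (Set.mem_range_self a) rfl
      exact (h3.biUnion fun v _ => h4 v).subset h6
    exact Set.infinite_univ h5
  · exact h

end Pool.Agent.H458.Sp
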