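import Mathlib
import Pool.Agent.H458.Sp.AffDich

set_option autoImplicit false

/-! # Bounds that do not depend on the base -/

namespace Pool.Agent.H458.Sp

open Finset MvPolynomial

variable {r n : ℕ}

/-- for a large base the exponents themselves can be used -/
theorem sub_vanish_large (b : ℕ) (hb : 2 ≤ b) (e : Fin r → ℕ) (G : MvPolynomial (Fin r) ℤ)
    (hS : 1 + nz G ≤ b) (h0 : eval (fun j => (b : ℤ) ^ (e j)) G = 0) :
    sub b (fun _ => 0) e G = 0 := by
  refine sub_vanish b hb 1 le_rfl (fun _ => 0) e G (by rwa [pow_one]) ?_ ?_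
  · intro α _ β _ h
    have h' : exn e α < exn e β + 1 ∧ exn e β < exn e α + 1 := by
      simpa only [zero_add] using h
    omega
  · simpa only [zero_add] using h0

theorem sub_coeff_sum (b : ℤ) (e : Fin r → ℕ) (G : MvPolynomial (Fin r) ℤ) (D : ℕ) :
    ∑ w ∈ range D, |(sub b (fun _ => 0) e G).coeff w| ≤ nz G := by
  classical
  calc ∑ w ∈ range D, |(sub b (fun _ => 0) e G).coeff w| ≤
      ∑ w ∈ range D, ∑ α ∈ G.support.filter (fun α => w = exn e α), |coeff α G| := by
        refine Finset.sum_le_sum fun w _ => ?_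
        rw [sub_coeff]
        refine (Finset.abs_sum_le_sum_abs _ _).trans (Finset.sum_le_sum fun α _ => ?_)
        have : exn (fun _ => 0) α = 0 := by simp [exn]
        rw [this, pow_zero, one_mul]
    _ = ∑ w ∈ range D, ∑ α ∈ G.support, if w = exn e α then |coeff α G| else 0 := by
        refine Finset.sum_congr rfl fun w _ => ?_
        rw [Finset.sum_filter]
    _ = ∑ α ∈ G.support, ∑ w ∈ range D, if w = exn e α then |coeff α G| else 0 :=
        Finset.sum_comm
    _ ≤ ∑ α ∈ G.support, |coeff α G| := by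
        refine Finset.sum_le_sum fun α _ => ?_
        rw [Finset.sum_ite_eq']
        split_ifs
        · exact le_rfl
        · exact abs_nonneg _
    _ = nz G := rfl

/-- for a large base the degree measures the size up to a factor `2` -/
theorem size_large (b : ℕ) (hb : 2 ≤ b) (e : Fin r → ℕ) (G : MvPolynomial (Fin r) ℤ)
    (hS : 2 * nz G ≤ b) (hne : sub (b : ℤ) (fun _ => 0) e G ≠ 0) :
    (b : ℤ) ^ (sub (b : ℤ) (fun _ => 0) e G).natDegree ≤
      2 * |eval (fun j => (b : ℤ) ^ (e j)) G| := by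
  classical
  set P := sub (b : ℤ) (fun _ => 0) e G with hP
  have hb0 : (0 : ℤ) < b := by positivity
  have hb1 : (1 : ℤ) ≤ b := by
    have : (2 : ℤ) ≤ b := by exact_mod_cast hb
    linarith
  have hev : P.eval (b : ℤ) = eval (fun j => (b : ℤ) ^ (e j)) G := by
    rw [hP, sub_eval]
    simp only [zero_add]
  rw [← hev]
  have hlc : 1 ≤ |P.coeff P.natDegree| := Int.one_le_abs (by simpa using hne)
  rcases Nat.eq_zero_or_pos P.natDegree with hD | hD
  · rw [hD, pow_zero]
    rw [hD] at hlc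
    have h1 : P.eval (b : ℤ) = P.coeff 0 := by
      conv_lhs => rw [Polynomial.eq_C_of_natDegree_eq_zero hD]
      rw [Polynomial.eval_C]
    rw [h1]
    linarith
  · obtain ⟨D, hD'⟩ : ∃ D, P.natDegree = D + 1 := ⟨P.natDegree - 1, by omega⟩
    rw [hD'] at hlc ⊢
    have h1 : P.eval (b : ℤ) = ∑ w ∈ range (D + 1), P.coeff w * (b : ℤ) ^ w +
        P.coeff (D + 1) * (b : ℤ) ^ (D + 1) := by
      rw [Polynomial.eval_eq_sum_range, hD', Finset.sum_range_succ]
    have h2 : |∑ w ∈ range (D + 1), P.coeff w * (b : ℤ) ^ w| ≤ nz G * (b : ℤ) ^ D := by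
      refine (Finset.abs_sum_le_sum_abs _ _).trans ?_
      calc ∑ w ∈ range (D + 1), |P.coeff w * (b : ℤ) ^ w| ≤
          ∑ w ∈ range (D + 1), |P.coeff w| * (b : ℤ) ^ D := by
            refine Finset.sum_le_sum fun w hw => ?_
            rw [Finset.mem_range] at hw
            rw [abs_mul, abs_of_pos (pow_pos hb0 _)]
            exact mul_le_mul_of_nonneg_left (pow_le_pow_right₀ hb1 (by omega)) (abs_nonneg _)
        _ = (∑ w ∈ range (D + 1), |P.coeff w|) * (b : ℤ) ^ D := by rw [Finset.sum_mul]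
        _ ≤ _ := mul_le_mul_of_nonneg_right (sub_coeff_sum _ _ _ _) (by positivity)
    have h3 : (b : ℤ) ^ (D + 1) ≤ |P.coeff (D + 1) * (b : ℤ) ^ (D + 1)| := by
      rw [abs_mul, abs_of_pos (pow_pos hb0 _)]
      exact le_mul_of_one_le_left (by positivity) hlc
    have h4 : |P.coeff (D + 1) * (b : ℤ) ^ (D + 1)| ≤ |P.eval (b : ℤ)| +
        |∑ w ∈ range (D + 1), P.coeff w * (b : ℤ) ^ w| := by
      have h5 : P.coeff (D + 1) * (b : ℤ) ^ (D + 1) =
          P.eval (b : ℤ) - ∑ w ∈ range (D + 1), P.coeff w * (b : ℤ) ^ w := by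
        rw [h1]
        ring
      rw [h5]
      exact abs_sub _ _
    have h5 : 2 * (nz G * (b : ℤ) ^ D) ≤ (b : ℤ) ^ (D + 1) := by
      rw [pow_succ]
      nlinarith [pow_pos hb0 D]
    linarith

/-- **Dichotomy for sparse integral points, with a bound that does not depend on the base** -/
theorem affine_dichotomy_all (FF : Set (MvPolynomial (Fin n) ℤ)) (d : ℕ) (hd : 1 ≤ d) (A : ℕ)
    (hA : 1 ≤ A) (hFd : ∀ F ∈ FF, F.totalDegree ≤ d) (hFA : ∀ F ∈ FF, nz F ≤ A)
    (b : ℕ) (hb : 2 ≤ b) (B : ℕ) (e : Fin r → ℕ) (c : Fin n → Fin r → ℤ)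
    (hc : ∀ i j, |c i j| ≤ B) (x : Fin n → ℤ) (hx : ∀ i, x i = ∑ j, c i j * (b : ℤ) ^ (e j))
    (h0 : ∀ F ∈ FF, eval x F = 0) :
    (∃ p : Fin n → Polynomial ℤ, (∀ F ∈ FF, aeval p F = 0) ∧ (∀ i, (p i).eval (b : ℤ) = x i) ∧
      ∃ i, (p i).natDegree ≠ 0) ∨
    ∀ i, |x i| ≤ ((r * B * ((1 + A) * (r * B) ^ d) ^ (4 * (4 * d) ^ r) : ℕ) : ℤ) := by
  classical
  rcases Nat.eq_zero_or_pos (r * B) with hrB | hrB
  · right
    intro i
    have h1 : x i = 0 := by
      rw [hx]
      rcases Nat.mul_eq_zero.1 hrB with hr | hB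
      · subst hr
        simp
      · have h1 : ∀ j, c i j = 0 := fun j => by
          have := hc i j
          rw [hB] at this
          exact abs_eq_zero.1 (le_antisymm (by simpa using this) (abs_nonneg _))
        simp [h1]
    rw [h1, abs_zero]
    positivity
  set S := (1 + A) * (r * B) ^ d with hS
  have hP1 : 1 ≤ (r * B) ^ d := Nat.one_le_pow _ _ hrB
  have hS2 : 2 ≤ S := by
    rw [hS]
    nlinarith
  rcases Nat.lt_or_ge b S with hbS | hbS
  · rcases affine_dichotomy FF d hd A hA hFd hFA b hb B e c hc x hx h0 with h | h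
    · exact Or.inl h
    · right
      intro i
      refine (h i).trans ?_
      have h1 : r * B * (b * S) ^ (2 * (4 * d) ^ r) ≤ r * B * S ^ (4 * (4 * d) ^ r) := by
        refine Nat.mul_le_mul_left _ ?_
        calc (b * S) ^ (2 * (4 * d) ^ r) ≤ (S * S) ^ (2 * (4 * d) ^ r) :=
              Nat.pow_le_pow_left (Nat.mul_le_mul_right _ hbS.le) _
          _ = S ^ (4 * (4 * d) ^ r) := by
              rw [← pow_two, ← pow_mul]
              congr 1
              ring
      exact_mod_cast h1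
  · have hev : ∀ i, eval (fun j => (b : ℤ) ^ (e j)) (li (c i)) = x i := by
      intro i
      rw [eval_li, hx]
      exact Finset.sum_congr rfl fun j _ => mul_comm _ _
    by_cases hdeg : ∃ i, (sub (b : ℤ) (fun _ => 0) e (li (c i))).natDegree ≠ 0
    · left
      refine ⟨fun i => sub (b : ℤ) (fun _ => 0) e (li (c i)), ?_, ?_, hdeg⟩
      · intro F hF
        have h1 := sub_vanish_large b hb e (bind₁ (fun i => li (c i)) F) ?_ ?_
        · unfold sub at h1 ⊢
          rwa [aeval_bind₁] at h1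
        · have h2 := bind_nz c B hc hrB F d (hFd F hF)
          have h3 : nz F * (r * B : ℤ) ^ d ≤ A * (r * B : ℤ) ^ d :=
            mul_le_mul_of_nonneg_right (hFA F hF) (by positivity)
          have h4 : (1 : ℤ) ≤ (r * B : ℤ) ^ d := by exact_mod_cast hP1
          have h5 : (((1 + A) * (r * B) ^ d : ℕ) : ℤ) ≤ (b : ℤ) := by exact_mod_cast hbS
          push_cast at h5
          nlinarith
        · rw [eval_bind]
          simp only [hev]
          exact h0 F hF
      · intro i
        rw [sub_eval]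
        simp only [zero_add]
        exact hev i
    · right
      push Not at hdeg
      intro i
      have h1 := le_sub_natDegree b hb (fun _ => 0) e (li (c i)) 0 (fun α _ => by simp [exn])
      simp only [zero_add] at h1
      rw [hev, hdeg i, pow_zero, mul_one, mul_one] at h1
      refine h1.trans ((li_nz _ _ (hc i)).trans ?_)
      have h2 : 1 ≤ S ^ (4 * (4 * d) ^ r) := Nat.one_le_pow _ _ (by omega)
      have h3 : r * B ≤ r * B * S ^ (4 * (4 * d) ^ r) := Nat.le_mul_of_pos_right _ h2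
      exact_mod_cast h3

/-- a nonconstant polynomial curve has infinitely many integral points -/
theorem not_finite_of_curve (FF : Set (MvPolynomial (Fin n) ℤ))
    (hfin : {x : Fin n → ℤ | ∀ F ∈ FF, eval x F = 0}.Finite) (p : Fin n → Polynomial ℤ)
    (hp : ∀ F ∈ FF, aeval p F = 0) (i : Fin n) : (p i).natDegree = 0 := by
  by_contra hi
  have h1 : ∀ a : ℤ, (fun i => (p i).eval a) ∈ {x : Fin n → ℤ | ∀ F ∈ FF, eval x F = 0} := by
    intro a F hF
    have h2 := congrArg (Polynomial.evalRingHom a) (hp F hF)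
    rw [map_zero] at h2
    rw [← h2, aeval_def, eval₂_eq', map_sum, eval_eq']
    refine Finset.sum_congr rfl fun s _ => ?_
    rw [map_mul, map_prod]
    simp
  have h2 : ((fun x : Fin n → ℤ => x i) '' {x : Fin n → ℤ | ∀ F ∈ FF, eval x F = 0}).Finite :=
    hfin.image _
  have h3 : (Set.range fun a : ℤ => (p i).eval a).Finite :=
    h2.subset (by rintro _ ⟨a, rfl⟩; exact ⟨_, h1 a, rfl⟩)
  have h4 : ∀ v : ℤ, {a : ℤ | (p i).eval a = v}.Finite := by
    intro v
    have hne : p i - Polynomial.C v ≠ 0 := by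
      intro h
      apply hi
      rw [_root_.sub_eq_zero] at h
      rw [h, Polynomial.natDegree_C]
    refine ((p i - Polynomial.C v).roots.toFinset.finite_toSet).subset fun a ha => ?_
    refine Finset.mem_coe.2 (Multiset.mem_toFinset.2 ((Polynomial.mem_roots hne).2 ?_))
    have ha' : (p i).eval a = v := ha
    rw [Polynomial.IsRoot, Polynomial.eval_sub, Polynomial.eval_C, ha', sub_self]
  have h5 : (Set.univ : Set ℤ).Finite := by
    have h6 : (Set.univ : Set ℤ) ⊆ ⋃ v ∈ Set.range (fun a : ℤ => (p i).eval a),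
        {a : ℤ | (p i).eval a = v} := by
      intro a _
      exact Set.mem_biUnion (Set.mem_range_self a) rfl
    exact (h3.biUnion fun v _ => h4 v).subset h6
  exact Set.infinite_univ h5

/-- if there are only finitely many integral zeros, the sparse ones are small -/
theorem finite_small_all (FF : Set (MvPolynomial (Fin n) ℤ)) (d : ℕ) (hd : 1 ≤ d) (A : ℕ)
    (hA : 1 ≤ A) (hFd : ∀ F ∈ FF, F.totalDegree ≤ d) (hFA : ∀ F ∈ FF, nz F ≤ A)
    (hfin : {x : Fin n → ℤ | ∀ F ∈ FF, eval x F = 0}.Finite)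
    (b : ℕ) (hb : 2 ≤ b) (B : ℕ) (e : Fin r → ℕ) (c : Fin n → Fin r → ℤ)
    (hc : ∀ i j, |c i j| ≤ B) (x : Fin n → ℤ) (hx : ∀ i, x i = ∑ j, c i j * (b : ℤ) ^ (e j))
    (h0 : ∀ F ∈ FF, eval x F = 0) :
    ∀ i, |x i| ≤ ((r * B * ((1 + A) * (r * B) ^ d) ^ (4 * (4 * d) ^ r) : ℕ) : ℤ) := by
  rcases affine_dichotomy_all FF d hd A hA hFd hFA b hb B e c hc x hx h0 with
    ⟨p, hp, _, i, hi⟩ | h
  · exact absurd (not_finite_of_curve FF hfin p hp i) hi
  · exact h

end Pool.Agent.H458.Sp
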