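import Mathlib

set_option autoImplicit false

/-! # Vanishing sums `∑ g_i b^{e_i}` split along gaps of the exponents -/

namespace Pool.Agent.H458.Sp

open Finset NumberField

variable {k : Type} [Field k] [NumberField k]

/-- house of an algebraic integer -/
noncomputable def hs (a : 𝓞 k) : ℝ := house (algebraMap (𝓞 k) k a)

theorem hs_nonneg (a : 𝓞 k) : 0 ≤ hs a := house_nonneg _

theorem hs_zero : hs (0 : 𝓞 k) = 0 := by
  unfold hs
  have := house_intCast (K := k) 0
  simpa using this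

theorem hs_one : hs (1 : 𝓞 k) = 1 := by
  unfold hs
  have := house_intCast (K := k) 1
  simpa using this

theorem hs_add (a c : 𝓞 k) : hs (a + c) ≤ hs a + hs c := by
  unfold hs
  rw [map_add]
  exact house_add_le _ _

theorem hs_mul (a c : 𝓞 k) : hs (a * c) ≤ hs a * hs c := by
  unfold hs
  rw [map_mul]
  exact house_mul_le _ _

theorem hs_neg (a : 𝓞 k) : hs (-a) = hs a := by
  unfold hs
  rw [map_neg]
  simp [house]

theorem hs_sum {ι : Type} (s : Finset ι) (f : ι → 𝓞 k) : hs (∑ i ∈ s, f i) ≤ ∑ i ∈ s, hs (f i) := by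
  unfold hs
  rw [map_sum]
  exact house_sum_le_sum_house _ _

theorem hs_natmul (c : ℕ) (a : 𝓞 k) : hs ((c : 𝓞 k) * a) = c * hs a := by
  unfold hs
  rw [map_mul, map_natCast]
  exact house_nat_mul _ _

theorem hs_powmul (b e : ℕ) (a : 𝓞 k) : hs ((b : 𝓞 k) ^ e * a) = (b : ℝ) ^ e * hs a := by
  have h := hs_natmul (b ^ e) a
  push_cast at h
  exact h

theorem one_le_hs {a : 𝓞 k} (ha : a ≠ 0) : 1 ≤ hs a := by
  unfold hs
  apply one_le_house_of_isIntegral a.2
  intro h
  apply ha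
  exact (FaithfulSMul.algebraMap_injective (𝓞 k) k) (by rw [map_zero]; exact h)

/-- low part of a vanishing sum below a gap -/
theorem cut {ι : Type} [DecidableEq ι] (b : ℕ) (hb : 2 ≤ b) (L : ℕ) (low high : Finset ι)
    (g : ι → 𝓞 k) (e : ι → ℕ) (hS : ∑ i ∈ low, hs (g i) < (b : ℝ) ^ L) (E : ℕ)
    (hlow : ∀ i ∈ low, e i ≤ E) (hhigh : ∀ i ∈ high, E + L ≤ e i)
    (hsum : ∑ i ∈ low, (b : 𝓞 k) ^ (e i) * g i + ∑ i ∈ high, (b : 𝓞 k) ^ (e i) * g i = 0) :
    ∑ i ∈ low, (b : 𝓞 k) ^ (e i) * g i = 0 := by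
  by_contra hne
  set y : 𝓞 k := ∑ i ∈ high, (b : 𝓞 k) ^ (e i - (E + L)) * g i with hy
  have h1 : ∑ i ∈ high, (b : 𝓞 k) ^ (e i) * g i = (b : 𝓞 k) ^ (E + L) * y := by
    rw [hy, Finset.mul_sum]
    refine Finset.sum_congr rfl fun i hi => ?_
    rw [← mul_assoc, ← pow_add, Nat.add_sub_cancel' (hhigh i hi)]
  have h2 : ∑ i ∈ low, (b : 𝓞 k) ^ (e i) * g i = (b : 𝓞 k) ^ (E + L) * (-y) := by
    rw [h1] at hsum
    linear_combination hsum
  have hy0 : -y ≠ 0 := by
    intro h0
    rw [h2, h0, mul_zero] at hne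
    exact hne rfl
  have hb0 : (0 : ℝ) < b := by positivity
  have hb1 : (1 : ℝ) ≤ b := by
    have : (2 : ℝ) ≤ b := by exact_mod_cast hb
    linarith
  have h3 : (b : ℝ) ^ (E + L) ≤ hs (∑ i ∈ low, (b : 𝓞 k) ^ (e i) * g i) := by
    rw [h2, hs_powmul]
    have := one_le_hs hy0
    nlinarith [pow_pos hb0 (E + L)]
  have h4 : hs (∑ i ∈ low, (b : 𝓞 k) ^ (e i) * g i) < (b : ℝ) ^ (E + L) := by
    calc hs (∑ i ∈ low, (b : 𝓞 k) ^ (e i) * g i) ≤
        ∑ i ∈ low, hs ((b : 𝓞 k) ^ (e i) * g i) := hs_sum _ _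
      _ = ∑ i ∈ low, (b : ℝ) ^ (e i) * hs (g i) := by simp_rw [hs_powmul]
      _ ≤ ∑ i ∈ low, (b : ℝ) ^ E * hs (g i) := by
          refine Finset.sum_le_sum fun i hi => ?_
          refine mul_le_mul_of_nonneg_right ?_ (hs_nonneg _)
          exact pow_le_pow_right₀ hb1 (hlow i hi)
      _ = (b : ℝ) ^ E * ∑ i ∈ low, hs (g i) := by rw [Finset.mul_sum]
      _ < (b : ℝ) ^ E * (b : ℝ) ^ L := by
          exact mul_lt_mul_of_pos_left hS (pow_pos hb0 _)
      _ = (b : ℝ) ^ (E + L) := by rw [pow_add]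
  linarith

/-- in a vanishing sum, a subset closed under having exponents at distance less than `L` vanishes -/
theorem closed_sum {ι : Type} [DecidableEq ι] (b : ℕ) (hb : 2 ≤ b) (L : ℕ) (hL : 1 ≤ L)
    (g : ι → 𝓞 k) (e : ι → ℕ) : ∀ (N : ℕ) (S T : Finset ι), S.card ≤ N → T ⊆ S →
    (∑ i ∈ S, hs (g i) < (b : ℝ) ^ L) →
    (∀ i ∈ T, ∀ j ∈ S, (e i < e j + L ∧ e j < e i + L) → j ∈ T) →
    ∑ i ∈ S, (b : 𝓞 k) ^ (e i) * g i = 0 → ∑ i ∈ T, (b : 𝓞 k) ^ (e i) * g i = 0 := by
  intro N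
  induction N with
  | zero =>
    intro S T hS hT _ _ _
    have : S = ∅ := Finset.card_eq_zero.1 (by omega)
    subst this
    rw [Finset.subset_empty.1 hT]
    simp
  | succ N ih =>
    -- first the case with an element of `T` below an element of `S \ T`
    have key : ∀ (S T : Finset ι), S.card ≤ N + 1 → T ⊆ S →
        (∑ i ∈ S, hs (g i) < (b : ℝ) ^ L) →
        (∀ i ∈ T, ∀ j ∈ S, (e i < e j + L ∧ e j < e i + L) → j ∈ T) →
        ∑ i ∈ S, (b : 𝓞 k) ^ (e i) * g i = 0 →
        (∃ i ∈ T, ∃ j ∈ S \ T, e i ≤ e j) → ∑ i ∈ T, (b : 𝓞 k) ^ (e i) * g i = 0 := by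
      intro S T hcard hTS hS hcl hsum ⟨i0, hi0, j0, hj0, hij⟩
      -- the largest element of `T` below `e j0`
      have hne1 : (T.filter (fun i => e i ≤ e j0)).Nonempty := ⟨i0, by simp [hi0, hij]⟩
      obtain ⟨i1, hi1, hmax⟩ := Finset.exists_max_image _ e hne1
      rw [Finset.mem_filter] at hi1
      have hne2 : ((S \ T).filter (fun j => e i1 ≤ e j)).Nonempty := ⟨j0, by
        rw [Finset.mem_filter]; exact ⟨hj0, hi1.2⟩⟩
      obtain ⟨j1, hj1, hmin⟩ := Finset.exists_min_image _ e hne2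
      rw [Finset.mem_filter] at hj1
      have hj1S : j1 ∈ S := (Finset.mem_sdiff.1 hj1.1).1
      have hj1T : j1 ∉ T := (Finset.mem_sdiff.1 hj1.1).2
      have hj1j0 : e j1 ≤ e j0 := hmin j0 (by rw [Finset.mem_filter]; exact ⟨hj0, hi1.2⟩)
      -- the gap
      have hgap : e i1 + L ≤ e j1 := by
        by_contra hcon
        push Not at hcon
        apply hj1T
        refine hcl i1 hi1.1 j1 hj1S ⟨?_, hcon⟩
        have h3 := hj1.2
        omega
      set low := S.filter (fun i => e i ≤ e i1) with hlow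
      set high := S.filter (fun i => ¬ e i ≤ e i1) with hhigh
      have hhighE : ∀ i ∈ high, e i1 + L ≤ e i := by
        intro i hi
        rw [hhigh, Finset.mem_filter] at hi
        obtain ⟨hiS, hi2⟩ := hi
        push Not at hi2
        by_cases hiT : i ∈ T
        · -- then `e i > e j0`
          have : ¬ e i ≤ e j0 := by
            intro h
            have := hmax i (by rw [Finset.mem_filter]; exact ⟨hiT, h⟩)
            omega
          omega
        · have := hmin i (by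
            rw [Finset.mem_filter, Finset.mem_sdiff]; exact ⟨⟨hiS, hiT⟩, by omega⟩)
          omega
      have hsplit : ∑ i ∈ low, (b : 𝓞 k) ^ (e i) * g i +
          ∑ i ∈ high, (b : 𝓞 k) ^ (e i) * g i = 0 := by
        rw [hlow, hhigh, Finset.sum_filter_add_sum_filter_not]
        exact hsum
      have hSlow : ∑ i ∈ low, hs (g i) < (b : ℝ) ^ L :=
        lt_of_le_of_lt (Finset.sum_le_sum_of_subset_of_nonneg (Finset.filter_subset _ _)
          (fun i _ _ => hs_nonneg _)) hS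
      have hShigh : ∑ i ∈ high, hs (g i) < (b : ℝ) ^ L :=
        lt_of_le_of_lt (Finset.sum_le_sum_of_subset_of_nonneg (Finset.filter_subset _ _)
          (fun i _ _ => hs_nonneg _)) hS
      have hlow0 : ∑ i ∈ low, (b : 𝓞 k) ^ (e i) * g i = 0 :=
        cut b hb L low high g e hSlow (e i1)
          (fun i hi => (Finset.mem_filter.1 hi).2) hhighE hsplit
      have hhigh0 : ∑ i ∈ high, (b : 𝓞 k) ^ (e i) * g i = 0 := by
        rw [hlow0, zero_add] at hsplit
        exact hsplit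
      have hcardS : low.card + high.card = S.card := by
        rw [hlow, hhigh]
        exact Finset.card_filter_add_card_filter_not _
      have hlow1 : 1 ≤ low.card := Finset.card_pos.2 ⟨i1, by
        rw [hlow, Finset.mem_filter]; exact ⟨hTS hi1.1, le_rfl⟩⟩
      have hhigh1 : 1 ≤ high.card := Finset.card_pos.2 ⟨j1, by
        rw [hhigh, Finset.mem_filter]; exact ⟨hj1S, by omega⟩⟩
      have hT1 : ∑ i ∈ T.filter (fun i => e i ≤ e i1), (b : 𝓞 k) ^ (e i) * g i = 0 := by
        refine ih low _ (by omega) (Finset.filter_subset_filter _ hTS) hSlow ?_ hlow0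
        intro i hi j hj hr
        rw [Finset.mem_filter] at hi
        rw [hlow, Finset.mem_filter] at hj
        rw [Finset.mem_filter]
        exact ⟨hcl i hi.1 j hj.1 hr, hj.2⟩
      have hT2 : ∑ i ∈ T.filter (fun i => ¬ e i ≤ e i1), (b : 𝓞 k) ^ (e i) * g i = 0 := by
        refine ih high _ (by omega) (Finset.filter_subset_filter _ hTS) hShigh ?_ hhigh0
        intro i hi j hj hr
        rw [Finset.mem_filter] at hi
        rw [hhigh, Finset.mem_filter] at hj
        rw [Finset.mem_filter]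
        exact ⟨hcl i hi.1 j hj.1 hr, hj.2⟩
      rw [← Finset.sum_filter_add_sum_filter_not T (fun i => e i ≤ e i1), hT1, hT2, add_zero]
    intro S T hcard hTS hS hcl hsum
    rcases T.eq_empty_or_nonempty with hT | ⟨i0, hi0⟩
    · rw [hT]; simp
    rcases (S \ T).eq_empty_or_nonempty with hST | ⟨j0, hj0⟩
    · have : T = S := Finset.Subset.antisymm hTS (Finset.sdiff_eq_empty_iff_subset.1 hST)
      rw [this]; exact hsum
    rcases le_total (e i0) (e j0) with h | h
    · exact key S T hcard hTS hS hcl hsum ⟨i0, hi0, j0, hj0, h⟩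
    · have h1 : ∑ i ∈ S \ T, (b : 𝓞 k) ^ (e i) * g i = 0 := by
        refine key S (S \ T) hcard Finset.sdiff_subset hS ?_ hsum
          ⟨j0, hj0, i0, ?_, h⟩
        · intro i hi j hj hr
          rw [Finset.mem_sdiff] at hi ⊢
          refine ⟨hj, fun hjT => hi.2 (hcl j hjT i hi.1 ⟨hr.2, hr.1⟩)⟩
        · rw [Finset.sdiff_sdiff_eq_self hTS]
          exact hi0
      have h2 := Finset.sum_sdiff hTS (f := fun i => (b : 𝓞 k) ^ (e i) * g i)
      rw [h1, zero_add] at h2
      rw [h2]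
      exact hsum

end Pool.Agent.H458.Sp
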