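import Mathlib
import Pool.Agent.H458.Sp.Cluster
import Pool.Agent.H458.Sp.Reduce

set_option autoImplicit false

/-! # Expansion of a form in a sparse vector, and the deformation to a rational curve -/

namespace Pool.Agent.H458.Sp

open Finset NumberField MvPolynomial

variable {k : Type} [Field k] [NumberField k]

/-- sum of the houses of the coefficients -/
noncomputable def nrm {τ : Type} (G : MvPolynomial τ (𝓞 k)) : ℝ :=
  ∑ α ∈ G.support, hs (coeff α G)

theorem nrm_nonneg {τ : Type} (G : MvPolynomial τ (𝓞 k)) : 0 ≤ nrm G :=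
  Finset.sum_nonneg fun _ _ => hs_nonneg _

theorem nrm_eq {τ : Type} (G : MvPolynomial τ (𝓞 k)) (A : Finset (τ →₀ ℕ))
    (hA : G.support ⊆ A) : nrm G = ∑ α ∈ A, hs (coeff α G) := by
  unfold nrm
  apply Finset.sum_subset hA
  intro α _ h
  rw [notMem_support_iff.1 h, hs_zero]

theorem nrm_zero {τ : Type} : nrm (0 : MvPolynomial τ (𝓞 k)) = 0 := by
  unfold nrm
  simp

theorem nrm_add {τ : Type} (G H : MvPolynomial τ (𝓞 k)) : nrm (G + H) ≤ nrm G + nrm H := by
  classical
  rw [nrm_eq (G + H) (G.support ∪ H.support) support_add,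
    nrm_eq G (G.support ∪ H.support) Finset.subset_union_left,
    nrm_eq H (G.support ∪ H.support) Finset.subset_union_right, ← Finset.sum_add_distrib]
  refine Finset.sum_le_sum fun α _ => ?_
  rw [coeff_add]
  exact hs_add _ _

theorem nrm_sum {τ ι : Type} (s : Finset ι) (f : ι → MvPolynomial τ (𝓞 k)) :
    nrm (∑ i ∈ s, f i) ≤ ∑ i ∈ s, nrm (f i) := by
  classical
  induction s using Finset.induction_on with
  | empty => simp [nrm_zero]
  | insert a s ha ih =>
    rw [Finset.sum_insert ha, Finset.sum_insert ha]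
    exact (nrm_add _ _).trans (by linarith)

theorem nrm_monomial {τ : Type} (α : τ →₀ ℕ) (c : 𝓞 k) : nrm (monomial α c) ≤ hs c := by
  classical
  rw [nrm_eq (monomial α c) {α} support_monomial_subset]
  simp

theorem nrm_mul {τ : Type} (G H : MvPolynomial τ (𝓞 k)) : nrm (G * H) ≤ nrm G * nrm H := by
  classical
  have h1 : G * H = ∑ α ∈ G.support, ∑ β ∈ H.support,
      monomial (α + β) (coeff α G * coeff β H) := by
    conv_lhs => rw [G.as_sum, H.as_sum]
    rw [Finset.sum_mul_sum]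
    refine Finset.sum_congr rfl fun α _ => Finset.sum_congr rfl fun β _ => ?_
    rw [monomial_mul]
  rw [h1]
  refine (nrm_sum _ _).trans ?_
  unfold nrm
  rw [Finset.sum_mul_sum]
  refine Finset.sum_le_sum fun α _ => ?_
  refine (nrm_sum _ _).trans (Finset.sum_le_sum fun β _ => ?_)
  exact (nrm_monomial _ _).trans (hs_mul _ _)

theorem nrm_one {τ : Type} : nrm (1 : MvPolynomial τ (𝓞 k)) ≤ 1 := by
  have := nrm_monomial (τ := τ) 0 (1 : 𝓞 k)
  rw [hs_one] at this
  exact this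

theorem nrm_C {τ : Type} (c : 𝓞 k) : nrm (C c : MvPolynomial τ (𝓞 k)) ≤ hs c :=
  nrm_monomial 0 c

theorem nrm_X {τ : Type} (j : τ) : nrm (X j : MvPolynomial τ (𝓞 k)) ≤ 1 := by
  have := nrm_monomial (Finsupp.single j 1) (1 : 𝓞 k)
  rw [hs_one] at this
  exact this

theorem nrm_pow {τ : Type} (G : MvPolynomial τ (𝓞 k)) (N : ℝ) (hG : nrm G ≤ N) (e : ℕ) :
    nrm (G ^ e) ≤ N ^ e := by
  have hN : 0 ≤ N := (nrm_nonneg G).trans hG
  induction e with
  | zero => simpa using nrm_one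
  | succ e ih =>
    rw [pow_succ, pow_succ]
    exact (nrm_mul _ _).trans (mul_le_mul ih hG (nrm_nonneg _) (pow_nonneg hN _))

theorem nrm_prod {τ ι : Type} (s : Finset ι) (f : ι → MvPolynomial τ (𝓞 k)) (N : ι → ℝ)
    (hf : ∀ i ∈ s, nrm (f i) ≤ N i) : nrm (∏ i ∈ s, f i) ≤ ∏ i ∈ s, N i := by
  classical
  induction s using Finset.induction_on with
  | empty => simpa using nrm_one
  | insert a s ha ih =>
    rw [Finset.prod_insert ha, Finset.prod_insert ha]
    have h1 := hf a (Finset.mem_insert_self _ _)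
    have h2 := ih fun i hi => hf i (Finset.mem_insert_of_mem hi)
    exact (nrm_mul _ _).trans (mul_le_mul h1 h2 (nrm_nonneg _) ((nrm_nonneg _).trans h1))

variable {n r : ℕ}

/-- the generic combination of the digit vectors -/
noncomputable def lin (v : Fin r → Fin (n + 1) → 𝓞 k) (i : Fin (n + 1)) :
    MvPolynomial (Fin r) (𝓞 k) := ∑ j, C (v j i) * X j

/-- `F (∑ u_j v_j)` as a polynomial in the `u_j` -/
noncomputable def GG (v : Fin r → Fin (n + 1) → 𝓞 k) (F : MvPolynomial (Fin (n + 1)) (𝓞 k)) :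
    MvPolynomial (Fin r) (𝓞 k) := bind₁ (lin v) F

theorem lin_homog (v : Fin r → Fin (n + 1) → 𝓞 k) (i : Fin (n + 1)) :
    (lin v i).IsHomogeneous 1 := by
  unfold lin
  refine IsHomogeneous.sum _ _ _ fun j _ => ?_
  simpa using (isHomogeneous_C (Fin r) (v j i)).mul (isHomogeneous_X (𝓞 k) j)

theorem GG_homog (v : Fin r → Fin (n + 1) → 𝓞 k) (F : MvPolynomial (Fin (n + 1)) (𝓞 k)) (d : ℕ)
    (hF : F.IsHomogeneous d) : (GG v F).IsHomogeneous d := by
  unfold GG bind₁
  have := hF.aeval (lin v) (n := 1) (fun i => lin_homog v i)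
  simpa using this

theorem lin_nrm (v : Fin r → Fin (n + 1) → 𝓞 k) (B : ℝ) (hv : ∀ j i, hs (v j i) ≤ B)
    (i : Fin (n + 1)) : nrm (lin v i) ≤ r * B := by
  unfold lin
  refine (nrm_sum _ _).trans ?_
  calc ∑ j : Fin r, nrm (C (v j i) * X j) ≤ ∑ _j : Fin r, B := by
        refine Finset.sum_le_sum fun j _ => ?_
        have h0 : 0 ≤ hs (v j i) := hs_nonneg _
        calc nrm (C (v j i) * X j) ≤ nrm (C (v j i) : MvPolynomial (Fin r) (𝓞 k)) * nrm (X j) :=
              nrm_mul _ _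
          _ ≤ hs (v j i) * 1 := mul_le_mul (nrm_C _) (nrm_X _) (nrm_nonneg _) h0
          _ ≤ B := by rw [mul_one]; exact hv j i
    _ = r * B := by simp

theorem homog_sum {τ : Type} [Fintype τ] {G : MvPolynomial τ (𝓞 k)} {d : ℕ}
    (hG : G.IsHomogeneous d) {α : τ →₀ ℕ} (hα : α ∈ G.support) : ∑ j, α j = d := by
  have h1 := hG (mem_support_iff.1 hα)
  rw [Finsupp.weight_apply, Finsupp.sum_fintype _ _ (by simp)] at h1
  simpa using h1

theorem GG_nrm (v : Fin r → Fin (n + 1) → 𝓞 k) (B : ℝ) (hB : 0 ≤ B)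
    (hv : ∀ j i, hs (v j i) ≤ B) (F : MvPolynomial (Fin (n + 1)) (𝓞 k)) (d : ℕ)
    (hF : F.IsHomogeneous d) : nrm (GG v F) ≤ nrm F * (r * B) ^ d := by
  have h1 : GG v F = ∑ s ∈ F.support, C (coeff s F) * ∏ i, lin v i ^ s i := by
    unfold GG bind₁
    rw [aeval_def, eval₂_eq']
    rfl
  rw [h1]
  refine (nrm_sum _ _).trans ?_
  unfold nrm
  rw [Finset.sum_mul]
  refine Finset.sum_le_sum fun s hs' => ?_
  have hN : 0 ≤ (r : ℝ) * B := by positivity
  have h2 : nrm (∏ i, lin v i ^ s i) ≤ ∏ i, ((r : ℝ) * B) ^ s i :=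
    nrm_prod _ _ _ fun i _ => nrm_pow _ _ (lin_nrm v B hv i) _
  have h3 : ∏ i, ((r : ℝ) * B) ^ s i = (r * B) ^ d := by
    rw [Finset.prod_pow_eq_pow_sum, homog_sum hF hs']
  rw [h3] at h2
  exact (nrm_mul _ _).trans (mul_le_mul (nrm_C _) h2 (nrm_nonneg _) (hs_nonneg _))

/-- exponent of a monomial -/
def ex (m : Fin r → ℕ) (α : Fin r →₀ ℕ) : ℕ := ∑ j, α j * m j

/-- evaluation at powers of `b` -/
theorem eval_pow (b : ℕ) (m : Fin r → ℕ) (v : Fin r → Fin (n + 1) → 𝓞 k)
    (F : MvPolynomial (Fin (n + 1)) (𝓞 k)) :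
    aeval (fun i => ∑ j, (b : 𝓞 k) ^ (m j) * v j i) F =
      ∑ α ∈ (GG v F).support, (b : 𝓞 k) ^ (ex m α) * coeff α (GG v F) := by
  have h1 : aeval (fun j => (b : 𝓞 k) ^ (m j)) (GG v F) =
      aeval (fun i => ∑ j, (b : 𝓞 k) ^ (m j) * v j i) F := by
    unfold GG
    rw [aeval_bind₁]
    congr 1
    congr 1
    funext i
    unfold lin
    rw [map_sum]
    refine Finset.sum_congr rfl fun j _ => ?_
    rw [map_mul, aeval_X, aeval_C]
    simp [mul_comm]
  rw [← h1, aeval_def, eval₂_eq']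
  refine Finset.sum_congr rfl fun α _ => ?_
  rw [mul_comm]
  congr 1
  unfold ex
  rw [← Finset.prod_pow_eq_pow_sum]
  refine Finset.prod_congr rfl fun j _ => ?_
  rw [← pow_mul, mul_comm]

/-- the deformed vector, a vector of polynomials in one variable -/
noncomputable def curve (b : ℕ) (m lam : Fin r → ℕ) (v : Fin r → Fin (n + 1) → 𝓞 k)
    (i : Fin (n + 1)) : Polynomial (𝓞 k) :=
  ∑ j, Polynomial.C ((b : 𝓞 k) ^ (m j) * v j i) * Polynomial.X ^ (lam j)

theorem curve_eval_one (b : ℕ) (m lam : Fin r → ℕ) (v : Fin r → Fin (n + 1) → 𝓞 k)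
    (i : Fin (n + 1)) :
    (curve b m lam v i).eval 1 = ∑ j, (b : 𝓞 k) ^ (m j) * v j i := by
  unfold curve
  rw [Polynomial.eval_finset_sum]
  refine Finset.sum_congr rfl fun j _ => ?_
  simp

theorem eval_curve (b : ℕ) (m lam : Fin r → ℕ) (v : Fin r → Fin (n + 1) → 𝓞 k)
    (F : MvPolynomial (Fin (n + 1)) (𝓞 k)) :
    aeval (curve b m lam v) F =
      ∑ α ∈ (GG v F).support, Polynomial.C ((b : 𝓞 k) ^ (ex m α) * coeff α (GG v F)) *
        Polynomial.X ^ (ex lam α) := by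
  have h1 : aeval (fun j => Polynomial.C ((b : 𝓞 k) ^ (m j)) * Polynomial.X ^ (lam j))
      (GG v F) = aeval (curve b m lam v) F := by
    unfold GG
    rw [aeval_bind₁]
    congr 1
    congr 1
    funext i
    unfold lin curve
    rw [map_sum]
    refine Finset.sum_congr rfl fun j _ => ?_
    rw [map_mul, aeval_X, aeval_C, Polynomial.C_mul]
    show Polynomial.C (v j i) * _ = _
    ring
  rw [← h1, aeval_def, eval₂_eq']
  refine Finset.sum_congr rfl fun α _ => ?_
  have h2 : ∏ j, (Polynomial.C ((b : 𝓞 k) ^ (m j)) * Polynomial.X ^ (lam j)) ^ (α j) =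
      Polynomial.C ((b : 𝓞 k) ^ (ex m α)) * Polynomial.X ^ (ex lam α) := by
    simp_rw [mul_pow]
    rw [Finset.prod_mul_distrib]
    unfold ex
    rw [← Finset.prod_pow_eq_pow_sum, ← Finset.prod_pow_eq_pow_sum, map_prod]
    congr 1
    · refine Finset.prod_congr rfl fun j _ => ?_
      rw [← map_pow, ← pow_mul, mul_comm]
    · refine Finset.prod_congr rfl fun j _ => ?_
      rw [← pow_mul, mul_comm]
  rw [h2, Polynomial.C_mul]
  show Polynomial.C (coeff α (GG v F)) * _ = _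
  ring

/-- if the direction `lam` respects all clusters, the deformed vector is a zero of `F` -/
theorem curve_zero (b : ℕ) (hb : 2 ≤ b) (L : ℕ) (hL : 1 ≤ L) (m lam : Fin r → ℕ)
    (v : Fin r → Fin (n + 1) → 𝓞 k) (F : MvPolynomial (Fin (n + 1)) (𝓞 k))
    (hS : nrm (GG v F) < (b : ℝ) ^ L)
    (hlam : ∀ α ∈ (GG v F).support, ∀ β ∈ (GG v F).support,
      (ex m α < ex m β + L ∧ ex m β < ex m α + L) → ex lam α = ex lam β)
    (h0 : aeval (fun i => ∑ j, (b : 𝓞 k) ^ (m j) * v j i) F = 0) :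
    aeval (curve b m lam v) F = 0 := by
  classical
  rw [eval_curve]
  rw [eval_pow] at h0
  ext w
  rw [Polynomial.finset_sum_coeff, Polynomial.coeff_zero]
  simp_rw [Polynomial.coeff_C_mul_X_pow]
  rw [← Finset.sum_filter]
  have := closed_sum b hb L hL (fun α => coeff α (GG v F)) (ex m) (GG v F).support.card
    (GG v F).support ((GG v F).support.filter (fun α => w = ex lam α)) le_rfl
    (Finset.filter_subset _ _) hS ?_ h0
  · exact_mod_cast congrArg (algebraMap (𝓞 k) k) this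
  · intro α hα β hβ hr
    rw [Finset.mem_filter] at hα ⊢
    exact ⟨hβ, hα.2.trans (hlam α hα.1 β hβ hr)⟩

end Pool.Agent.H458.Sp
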