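import Mathlib
import Pool.Agent.H458.Sp.Expand

set_option autoImplicit false

/-! # Sparse points: rational curve or small representative -/

namespace Pool.Agent.H458.Sp

open Finset NumberField MvPolynomial

variable {k : Type} [Field k] [NumberField k]

theorem ex_int {r : ℕ} (m : Fin r → ℕ) (α : Fin r →₀ ℕ) :
    ((ex m α : ℕ) : ℤ) = ∑ j, (α j : ℤ) * m j := by
  unfold ex
  push_cast
  rfl

/-- the numerical bound -/
theorem num_bound (b r d L : ℕ) (hb : 2 ≤ b) (hr : 1 ≤ r) (hd : 1 ≤ d) (A B : ℝ) (hA : 1 ≤ A)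
    (hB : 1 ≤ B) (hL : (L : ℝ) * Real.log b ≤ Real.log (A * (r * B) ^ d) + Real.log b) :
    (r : ℝ) * B * (b : ℝ) ^ (2 * (2 * (2 * (2 * d)) ^ r * L)) ≤
      Real.exp ((8 * d * (6 + 8 * d + 4 * Real.log A)) ^ r * (1 + Real.log B + Real.log b)) := by
  have hb0 : (0 : ℝ) < b := by positivity
  have hb1 : (1 : ℝ) ≤ b := by
    have : (2 : ℝ) ≤ b := by exact_mod_cast hb
    linarith
  have hr0 : (0 : ℝ) < r := by
    have : (1 : ℝ) ≤ r := by exact_mod_cast hr
    linarith
  have hr1 : (1 : ℝ) ≤ r := by exact_mod_cast hr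
  have hd1 : (1 : ℝ) ≤ d := by exact_mod_cast hd
  have hB0 : 0 < B := by linarith
  have hA0 : 0 < A := by linarith
  have hlogA : 0 ≤ Real.log A := Real.log_nonneg hA
  have hlogB : 0 ≤ Real.log B := Real.log_nonneg hB
  have hlogb : 0 ≤ Real.log b := Real.log_nonneg hb1
  have hpos : 0 < (r : ℝ) * B * (b : ℝ) ^ (2 * (2 * (2 * (2 * d)) ^ r * L)) := by positivity
  rw [← Real.log_le_iff_le_exp hpos]
  set Λ : ℝ := 1 + Real.log B + Real.log b with hΛ
  have hΛ1 : 1 ≤ Λ := by rw [hΛ]; linarith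
  have hr2 : Real.log r ≤ 2 ^ r := by
    have h1 : Real.log r ≤ r := (Real.log_le_sub_one_of_pos hr0).trans (by linarith)
    have h2 : (r : ℝ) ≤ 2 ^ r := by
      have : r < 2 ^ r := Nat.lt_two_pow_self
      exact_mod_cast this.le
    linarith
  have h2r : (1 : ℝ) ≤ 2 ^ r := one_le_pow₀ (by norm_num)
  rw [Real.log_mul (by positivity) (by positivity), Real.log_mul hr0.ne' hB0.ne', Real.log_pow]
  rw [Real.log_mul hA0.ne' (by positivity), Real.log_pow, Real.log_mul hr0.ne' hB0.ne'] at hL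
  push_cast
  set Q : ℝ := (2 * (2 * (d : ℝ))) ^ r with hQ
  have hQ1 : 1 ≤ Q := one_le_pow₀ (by linarith)
  have e1 : 2 * (2 * Q * (L : ℝ)) * Real.log b = 4 * Q * ((L : ℝ) * Real.log b) := by ring
  rw [e1]
  have e2 : 4 * Q * ((L : ℝ) * Real.log b) ≤
      4 * Q * (Real.log A + d * (2 ^ r + Real.log B) + Real.log b) := by
    gcongr
    refine hL.trans ?_
    gcongr
  have e3 : (8 * (d : ℝ) * (6 + 8 * d + 4 * Real.log A)) ^ r =
      Q * 2 ^ r * (6 + 8 * d + 4 * Real.log A) ^ r := by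
    rw [hQ, ← mul_pow, ← mul_pow]
    congr 1
    ring
  have e4 : 6 + 8 * d + 4 * Real.log A ≤ (6 + 8 * d + 4 * Real.log A) ^ r :=
    le_self_pow₀ (by linarith) (by omega)
  have hQ2 : 1 ≤ Q * 2 ^ r := one_le_mul_of_one_le_of_one_le hQ1 h2r
  calc Real.log r + Real.log B + 4 * Q * ((L : ℝ) * Real.log b) ≤
      2 ^ r + Real.log B + 4 * Q * (Real.log A + d * (2 ^ r + Real.log B) + Real.log b) := by
        linarith
    _ ≤ Q * 2 ^ r * (6 + 8 * d + 4 * Real.log A) * Λ := by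
        have f1 : (2 : ℝ) ^ r ≤ Q * 2 ^ r * Λ := by
          calc (2 : ℝ) ^ r ≤ Q * 2 ^ r := le_mul_of_one_le_left (by positivity) hQ1
            _ ≤ Q * 2 ^ r * Λ := le_mul_of_one_le_right (by positivity) hΛ1
        have f2 : Real.log B ≤ Q * 2 ^ r * Λ := by
          calc Real.log B ≤ Λ := by rw [hΛ]; linarith
            _ ≤ Q * 2 ^ r * Λ := le_mul_of_one_le_left (by linarith) hQ2
        have f3 : Q * Real.log A ≤ Q * 2 ^ r * Λ * Real.log A := by
          have : Q ≤ Q * 2 ^ r * Λ := by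
            calc Q ≤ Q * 2 ^ r := le_mul_of_one_le_right (by positivity) h2r
              _ ≤ Q * 2 ^ r * Λ := le_mul_of_one_le_right (by positivity) hΛ1
          exact mul_le_mul_of_nonneg_right this hlogA
        have f4 : Q * (d * 2 ^ r) ≤ Q * 2 ^ r * Λ * d := by
          have : Q * (d * 2 ^ r) * 1 ≤ Q * (d * 2 ^ r) * Λ := by gcongr
          calc Q * (d * 2 ^ r) = Q * (d * 2 ^ r) * 1 := by ring
            _ ≤ Q * (d * 2 ^ r) * Λ := this
            _ = _ := by ring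
        have f5 : Q * (d * Real.log B) ≤ Q * 2 ^ r * Λ * d := by
          have g1 : Real.log B ≤ 2 ^ r * Λ := by
            calc Real.log B ≤ Λ := by rw [hΛ]; linarith
              _ ≤ 2 ^ r * Λ := le_mul_of_one_le_left (by linarith) h2r
          calc Q * (d * Real.log B) ≤ Q * (d * (2 ^ r * Λ)) := by gcongr
            _ = _ := by ring
        have f6 : Q * Real.log b ≤ Q * 2 ^ r * Λ := by
          have g1 : Real.log b ≤ 2 ^ r * Λ := by
            calc Real.log b ≤ Λ := by rw [hΛ]; linarith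
              _ ≤ 2 ^ r * Λ := le_mul_of_one_le_left (by linarith) h2r
          calc Q * Real.log b ≤ Q * (2 ^ r * Λ) := by gcongr
            _ = _ := by ring
        have f7 : 2 ^ r + Real.log B + 4 * Q * (Real.log A + d * (2 ^ r + Real.log B) + Real.log b) =
          2 ^ r + Real.log B + 4 * (Q * Real.log A) + 4 * (Q * (d * 2 ^ r)) +
            4 * (Q * (d * Real.log B)) + 4 * (Q * Real.log b) := by ring
        have f8 : Q * 2 ^ r * (6 + 8 * d + 4 * Real.log A) * Λ =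
          Q * 2 ^ r * Λ + Q * 2 ^ r * Λ + 4 * (Q * 2 ^ r * Λ * Real.log A) +
            4 * (Q * 2 ^ r * Λ * d) + 4 * (Q * 2 ^ r * Λ * d) + 4 * (Q * 2 ^ r * Λ) := by ring
        rw [f7, f8]
        linarith
    _ ≤ Q * 2 ^ r * (6 + 8 * d + 4 * Real.log A) ^ r * Λ := by gcongr
    _ = _ := by rw [e3]

/-- **Main dichotomy.** -/
theorem dichotomy {n : ℕ} (FF : Set (MvPolynomial (Fin (n + 1)) (𝓞 k))) (d : ℕ) (hd : 1 ≤ d)
    (A : ℝ) (hA : 1 ≤ A) (hF : ∀ F ∈ FF, (∃ e, e ≤ d ∧ F.IsHomogeneous e) ∧ nrm F ≤ A)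
    (b : ℕ) (hb : 2 ≤ b) (r : ℕ) (hr : 1 ≤ r) (B : ℝ) (hB : 1 ≤ B)
    (m : Fin r → ℕ) (v : Fin r → Fin (n + 1) → 𝓞 k) (hv : ∀ j i, hs (v j i) ≤ B)
    (x : Fin (n + 1) → 𝓞 k) (hx0 : x ≠ 0) (hx : ∀ i, x i = ∑ j, (b : 𝓞 k) ^ (m j) * v j i)
    (hzero : ∀ F ∈ FF, aeval x F = 0) :
    (∃ p : Fin (n + 1) → Polynomial (𝓞 k), (∀ i, (p i).eval 1 = x i) ∧
      (∀ F ∈ FF, aeval p F = 0) ∧
      ∃ i j, p i * Polynomial.C (x j) ≠ p j * Polynomial.C (x i)) ∨
    (∃ y : Fin (n + 1) → 𝓞 k, y ≠ 0 ∧ (∀ i j, x i * y j = x j * y i) ∧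
      ∀ i, hs (y i) ≤
        Real.exp ((8 * d * (6 + 8 * d + 4 * Real.log A)) ^ r *
          (1 + Real.log B + Real.log b))) := by
  classical
  have hb0 : (0 : ℝ) < b := by positivity
  have hb2 : (2 : ℝ) ≤ b := by exact_mod_cast hb
  have hb1 : (1 : ℝ) < b := by linarith
  have hr1 : (1 : ℝ) ≤ r := by exact_mod_cast hr
  have hrB : 1 ≤ (r : ℝ) * B := one_le_mul_of_one_le_of_one_le hr1 hB
  have hrBd : 1 ≤ ((r : ℝ) * B) ^ d := one_le_pow₀ hrB
  set S : ℝ := A * (r * B) ^ d with hS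
  have hS1 : 1 ≤ S := one_le_mul_of_one_le_of_one_le hA hrBd
  have hlogb : 0 < Real.log b := Real.log_pos hb1
  set L : ℕ := ⌊Real.log S / Real.log b⌋₊ + 1 with hLdef
  have hL1 : 1 ≤ L := by omega
  have hLS : S < (b : ℝ) ^ L := by
    rw [← Real.log_lt_log_iff (by linarith) (by positivity), Real.log_pow, hLdef]
    push_cast
    have := Nat.lt_floor_add_one (Real.log S / Real.log b)
    rwa [div_lt_iff₀ hlogb] at this
  have hLlog : (L : ℝ) * Real.log b ≤ Real.log S + Real.log b := by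
    rw [hLdef]
    push_cast
    have h1 : (⌊Real.log S / Real.log b⌋₊ : ℝ) ≤ Real.log S / Real.log b :=
      Nat.floor_le (div_nonneg (Real.log_nonneg hS1) hlogb.le)
    rw [le_div_iff₀ hlogb] at h1
    linarith
  have hnrm : ∀ F ∈ FF, nrm (GG v F) < (b : ℝ) ^ L := by
    intro F hFF
    obtain ⟨⟨e, hed, hFe⟩, hFA⟩ := hF F hFF
    refine lt_of_le_of_lt ?_ hLS
    calc nrm (GG v F) ≤ nrm F * (r * B) ^ e := GG_nrm v B (by linarith) hv F e hFe
      _ ≤ A * (r * B) ^ d := by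
          refine mul_le_mul hFA (pow_le_pow_right₀ hrB hed) (by positivity) (by linarith)
  -- rows
  set RR : Set (Fin r → ℤ) := {R | ∃ F ∈ FF, ∃ α ∈ (GG v F).support, ∃ β ∈ (GG v F).support,
    (ex m α < ex m β + L ∧ ex m β < ex m α + L) ∧ R = fun j => (α j : ℤ) - β j} with hRRdef
  have hRR1 : ∀ R ∈ RR, ∑ j, |R j| ≤ ((2 * d : ℕ) : ℤ) := by
    rintro R ⟨F, hFF, α, hα, β, hβ, _, rfl⟩
    obtain ⟨⟨e, hed, hFe⟩, _⟩ := hF F hFF
    have hG := GG_homog v F e hFe
    have h1 := homog_sum hG hα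
    have h2 := homog_sum hG hβ
    calc ∑ j, |(α j : ℤ) - β j| ≤ ∑ j, ((α j : ℤ) + β j) := by
          refine Finset.sum_le_sum fun j _ => ?_
          rw [abs_le]
          constructor <;> omega
      _ = ((∑ j, α j : ℕ) : ℤ) + ((∑ j, β j : ℕ) : ℤ) := by
          rw [Finset.sum_add_distrib]
          push_cast
          rfl
      _ ≤ ((2 * d : ℕ) : ℤ) := by
          rw [h1, h2]
          push_cast
          have : (e : ℤ) ≤ d := by exact_mod_cast hed
          linarith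
  have hRR2 : ∀ R ∈ RR, |∑ j, R j * (m j : ℤ)| ≤ (L : ℤ) := by
    rintro R ⟨F, hFF, α, hα, β, hβ, ⟨h1, h2⟩, rfl⟩
    have h3 : ∑ j, ((α j : ℤ) - β j) * (m j : ℤ) = (ex m α : ℤ) - ex m β := by
      rw [ex_int, ex_int, ← Finset.sum_sub_distrib]
      refine Finset.sum_congr rfl fun j _ => ?_
      ring
    rw [h3, abs_le]
    constructor <;> omega
  set N : ℕ := ∑ j, m j with hN
  have hmN : ∀ j, m j ≤ N := fun j => Finset.single_le_sum (f := m) (fun _ _ => Nat.zero_le _)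
    (Finset.mem_univ j)
  obtain ⟨m', hm'1, hm'2⟩ := reduce (2 * d) L (by omega) hL1 RR hRR1 N (fun j => (m j : ℤ))
    (fun j => by rw [abs_of_nonneg (by positivity)]; exact_mod_cast hmN j) hRR2
  set f : ℕ := 2 * (2 * (2 * d)) ^ r * L with hf
  have hm'f : ∀ j, |m' j| ≤ (f : ℤ) := by
    intro j
    refine (hm'1 j).trans (le_of_eq ?_)
    rw [hf]
    push_cast
    ring
  -- the direction
  set lam : Fin r → ℕ := fun j => (m' j - m j + (f + N)).toNat with hlam
  have hlamZ : ∀ j, (lam j : ℤ) = m' j - m j + (f + N) := by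
    intro j
    rw [hlam]
    have h1 := (abs_le.1 (hm'f j)).1
    have h2 : (m j : ℤ) ≤ N := by exact_mod_cast hmN j
    rw [Int.toNat_of_nonneg (by linarith)]
  have hclus : ∀ F ∈ FF, ∀ α ∈ (GG v F).support, ∀ β ∈ (GG v F).support,
      (ex m α < ex m β + L ∧ ex m β < ex m α + L) → ex lam α = ex lam β := by
    intro F hFF α hα β hβ hr'
    obtain ⟨⟨e, hed, hFe⟩, _⟩ := hF F hFF
    have hG := GG_homog v F e hFe
    have h1 : ∑ j, (α j : ℤ) = e := by exact_mod_cast homog_sum hG hα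
    have h2 : ∑ j, (β j : ℤ) = e := by exact_mod_cast homog_sum hG hβ
    have h3 := hm'2 (fun j => (α j : ℤ) - β j) ⟨F, hFF, α, hα, β, hβ, hr', rfl⟩
    have h4 : (ex lam α : ℤ) - ex lam β =
        (∑ j, ((α j : ℤ) - β j) * m' j - ∑ j, ((α j : ℤ) - β j) * (m j : ℤ)) +
          (f + N) * (∑ j, (α j : ℤ) - ∑ j, (β j : ℤ)) := by
      rw [ex_int, ex_int, ← Finset.sum_sub_distrib, ← Finset.sum_sub_distrib,
        ← Finset.sum_sub_distrib, Finset.mul_sum, ← Finset.sum_add_distrib]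
      refine Finset.sum_congr rfl fun j _ => ?_
      rw [hlamZ j]
      ring
    rw [h3, h1, h2] at h4
    have h5 : (ex lam α : ℤ) = ex lam β := by linarith
    exact_mod_cast h5
  have hxf : x = fun i => ∑ j, (b : 𝓞 k) ^ (m j) * v j i := funext hx
  have hcurve : ∀ F ∈ FF, aeval (curve b m lam v) F = 0 := by
    intro F hFF
    refine curve_zero b hb L hL1 m lam v F (hnrm F hFF) (hclus F hFF) ?_
    rw [← hxf]
    exact hzero F hFF
  by_cases hcon : ∃ i j, curve b m lam v i * Polynomial.C (x j) ≠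
      curve b m lam v j * Polynomial.C (x i)
  · left
    refine ⟨curve b m lam v, fun i => ?_, hcurve, hcon⟩
    rw [curve_eval_one, hx i]
  right
  push Not at hcon
  -- a coordinate which does not vanish
  obtain ⟨i0, hi0⟩ : ∃ i, x i ≠ 0 := by
    by_contra h
    push Not at h
    exact hx0 (funext h)
  have hp0 : curve b m lam v i0 ≠ 0 := by
    intro h
    apply hi0
    rw [hx i0, ← curve_eval_one b m lam v i0, h, Polynomial.eval_zero]
  obtain ⟨w, hw⟩ : ∃ w, (curve b m lam v i0).coeff w ≠ 0 := by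
    by_contra h
    push Not at h
    exact hp0 (Polynomial.ext (by simpa using h))
  set y : Fin (n + 1) → 𝓞 k := fun i =>
    ∑ j ∈ univ.filter (fun j => lam j = w), (b : 𝓞 k) ^ ((m' j + f).toNat) * v j i with hy
  have hcoef : ∀ i, (curve b m lam v i).coeff w =
      ∑ j ∈ univ.filter (fun j => lam j = w), (b : 𝓞 k) ^ (m j) * v j i := by
    intro i
    unfold curve
    rw [Polynomial.finset_sum_coeff]
    simp_rw [Polynomial.coeff_C_mul_X_pow]
    rw [Finset.sum_filter]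
    refine Finset.sum_congr rfl fun j _ => ?_
    by_cases h : lam j = w
    · rw [if_pos h, if_pos h.symm]
    · rw [if_neg h, if_neg (fun h' => h h'.symm)]
  have hrel : ∀ i, (b : 𝓞 k) ^ N * y i = (b : 𝓞 k) ^ w * (curve b m lam v i).coeff w := by
    intro i
    rw [hcoef, hy, Finset.mul_sum, Finset.mul_sum]
    refine Finset.sum_congr rfl fun j hj => ?_
    rw [Finset.mem_filter] at hj
    rw [← mul_assoc, ← mul_assoc, ← pow_add, ← pow_add]
    congr 2
    have h1 := hlamZ j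
    rw [hj.2] at h1
    have h2 := (abs_le.1 (hm'f j)).1
    omega
  have hbk : (b : 𝓞 k) ≠ 0 := by
    have : (b : ℕ) ≠ 0 := by omega
    exact_mod_cast this
  refine ⟨y, ?_, ?_, ?_⟩
  · intro h
    have h1 := hrel i0
    rw [h] at h1
    simp only [Pi.zero_apply, mul_zero] at h1
    exact mul_ne_zero (pow_ne_zero w hbk) hw h1.symm
  · intro i j
    have h1 := congrArg (fun P => Polynomial.coeff P w) (hcon i j)
    simp only [Polynomial.coeff_mul_C] at h1
    apply mul_left_cancel₀ (pow_ne_zero N hbk)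
    calc (b : 𝓞 k) ^ N * (x i * y j) = x i * ((b : 𝓞 k) ^ N * y j) := by ring
      _ = x i * ((b : 𝓞 k) ^ w * (curve b m lam v j).coeff w) := by rw [hrel j]
      _ = (b : 𝓞 k) ^ w * ((curve b m lam v j).coeff w * x i) := by ring
      _ = (b : 𝓞 k) ^ w * ((curve b m lam v i).coeff w * x j) := by rw [h1]
      _ = x j * ((b : 𝓞 k) ^ w * (curve b m lam v i).coeff w) := by ring
      _ = x j * ((b : 𝓞 k) ^ N * y i) := by rw [hrel i]
      _ = (b : 𝓞 k) ^ N * (x j * y i) := by ring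
  · intro i
    refine le_trans ?_ (num_bound b r d L hb hr hd A B hA hB hLlog)
    calc hs (y i) ≤ ∑ j ∈ univ.filter (fun j => lam j = w),
          hs ((b : 𝓞 k) ^ ((m' j + f).toNat) * v j i) := hs_sum _ _
      _ = ∑ j ∈ univ.filter (fun j => lam j = w),
          (b : ℝ) ^ ((m' j + f).toNat) * hs (v j i) := by simp_rw [hs_powmul]
      _ ≤ ∑ j ∈ univ.filter (fun j => lam j = w), (b : ℝ) ^ (2 * f) * B := by
          refine Finset.sum_le_sum fun j _ => ?_
          refine mul_le_mul ?_ (hv j i) (hs_nonneg _) (by positivity)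
          refine pow_le_pow_right₀ hb1.le ?_
          have := (abs_le.1 (hm'f j)).2
          omega
      _ ≤ ∑ j : Fin r, (b : ℝ) ^ (2 * f) * B := by
          refine Finset.sum_le_sum_of_subset_of_nonneg (Finset.filter_subset _ _) ?_
          intro j _ _
          positivity
      _ = (r : ℝ) * B * (b : ℝ) ^ (2 * (2 * (2 * (2 * d)) ^ r * L)) := by
          rw [Finset.sum_const, Finset.card_univ, Fintype.card_fin, nsmul_eq_mul, ← hf]
          ring

end Pool.Agent.H458.Sp
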