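import Mathlib
import Pool.Agent.H458.Sp.Main

set_option autoImplicit false

/-! # Brody hyperbolic varieties contain no rational curves -/

namespace Pool.Agent.H458.Sp

open Finset NumberField MvPolynomial

/-- Brody hyperbolicity of the projective zero set of the forms in `GG`: every entire curve, given
by entire functions without common zeros, is constant. -/
def BrodyHyperbolic {n : ℕ} (GG : Set (MvPolynomial (Fin (n + 1)) ℂ)) : Prop :=
  ∀ f : Fin (n + 1) → ℂ → ℂ, (∀ i, Differentiable ℂ (f i)) → (∀ z, ∃ i, f i z ≠ 0) →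
    (∀ G ∈ GG, ∀ z, MvPolynomial.eval (fun i => f i z) G = 0) →
    ∀ z w, ∀ i j, f i z * f j w = f j z * f i w

variable {k : Type} [Field k] [NumberField k]

/-- homogeneity -/
theorem aeval_smul_homog {n e : ℕ} {R S : Type} [CommRing R] [CommRing S] [Algebra R S]
    (F : MvPolynomial (Fin (n + 1)) R) (hF : F.IsHomogeneous e) (g : S) (q : Fin (n + 1) → S) :
    aeval (fun i => g * q i) F = g ^ e * aeval q F := by
  rw [aeval_def, aeval_def, eval₂_eq', eval₂_eq', Finset.mul_sum]
  refine Finset.sum_congr rfl fun s hs' => ?_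
  have h1 := hF (mem_support_iff.1 hs')
  rw [Finsupp.weight_apply, Finsupp.sum_fintype _ _ (by simp)] at h1
  have h2 : ∑ i, s i = e := by simpa using h1
  simp_rw [mul_pow]
  rw [Finset.prod_mul_distrib, Finset.prod_pow_eq_pow_sum, h2]
  ring

theorem no_curve {n : ℕ} (σ : k →+* ℂ) (FF : Set (MvPolynomial (Fin (n + 1)) (𝓞 k)))
    (hom : ∀ F ∈ FF, ∃ e, F.IsHomogeneous e)
    (hyp : BrodyHyperbolic ((MvPolynomial.map (σ.comp (algebraMap (𝓞 k) k))) '' FF))
    (x : Fin (n + 1) → 𝓞 k) (hx0 : x ≠ 0)
    (p : Fin (n + 1) → Polynomial (𝓞 k)) (hp1 : ∀ i, (p i).eval 1 = x i)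
    (hp : ∀ F ∈ FF, aeval p F = 0) (i j : Fin (n + 1)) :
    p i * Polynomial.C (x j) = p j * Polynomial.C (x i) := by
  classical
  set τ : 𝓞 k →+* ℂ := σ.comp (algebraMap (𝓞 k) k) with hτ
  have hτinj : Function.Injective τ :=
    σ.injective.comp (FaithfulSMul.algebraMap_injective (𝓞 k) k)
  set P : Fin (n + 1) → Polynomial ℂ := fun i => (p i).map τ with hP
  have hP1 : ∀ i, (P i).eval 1 = τ (x i) := by
    intro i
    rw [hP, ← hp1 i]
    simp only
    rw [← map_one τ, Polynomial.eval_map, Polynomial.eval₂_at_apply]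
  obtain ⟨i0, hi0⟩ : ∃ i, x i ≠ 0 := by
    by_contra h
    push Not at h
    exact hx0 (funext h)
  have hPi0 : P i0 ≠ 0 := by
    intro h
    have := hP1 i0
    rw [h, Polynomial.eval_zero] at this
    exact hi0 (hτinj (by rw [map_zero]; exact this.symm))
  -- greatest common divisor
  obtain ⟨g, hg⟩ := (IsPrincipalIdealRing.principal (Ideal.span (Set.range P))).principal
  have hg' : Ideal.span (Set.range P) = Ideal.span {g} := hg
  have hdvd : ∀ i, ∃ q, P i = g * q := by
    intro i
    have : P i ∈ Ideal.span (Set.range P) := Ideal.subset_span ⟨i, rfl⟩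
    rw [hg', Ideal.mem_span_singleton] at this
    exact this
  choose q hq using hdvd
  have hg0 : g ≠ 0 := by
    intro h
    apply hPi0
    rw [hq i0, h, zero_mul]
  obtain ⟨a, ha⟩ : ∃ a : Fin (n + 1) → Polynomial ℂ, ∑ i, a i * P i = g := by
    rw [← Ideal.mem_span_range_iff_exists_fun, hg']
    exact Ideal.mem_span_singleton_self g
  have hbez : ∑ i, a i * q i = 1 := by
    apply mul_left_cancel₀ hg0
    rw [Finset.mul_sum, mul_one]
    calc ∑ i, g * (a i * q i) = ∑ i, a i * P i := by
          refine Finset.sum_congr rfl fun i _ => ?_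
          rw [hq i]; ring
      _ = g := ha
  -- the entire curve
  have key : ∀ G ∈ (MvPolynomial.map τ) '' FF, ∀ z : ℂ,
      MvPolynomial.eval (fun i => (q i).eval z) G = 0 := by
    rintro G ⟨F, hFF, rfl⟩ z
    obtain ⟨e, he⟩ := hom F hFF
    have h1 : aeval P (MvPolynomial.map τ F) = 0 := by
      have h2 : aeval P (MvPolynomial.map τ F) = (Polynomial.mapRingHom τ) (aeval p F) := by
        rw [aeval_def, aeval_def, MvPolynomial.hom_eval₂, MvPolynomial.eval₂_map]
        congr 1
        ext a
        simp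
      rw [h2, hp F hFF, map_zero]
    have h3 : aeval q (MvPolynomial.map τ F) = 0 := by
      have h4 : P = fun i => g * q i := funext hq
      rw [h4, aeval_smul_homog _ (he.map τ) g q] at h1
      rcases mul_eq_zero.1 h1 with h5 | h5
      · exact absurd h5 (pow_ne_zero e hg0)
      · exact h5
    have h6 := congrArg (Polynomial.evalRingHom z) h3
    rw [map_zero, aeval_def, MvPolynomial.hom_eval₂] at h6
    rw [← h6]
    unfold MvPolynomial.eval
    show MvPolynomial.eval₂ _ _ _ = _
    congr 1
    ext a
    simp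
  have hno : ∀ z : ℂ, ∃ i, (q i).eval z ≠ 0 := by
    intro z
    by_contra h
    push Not at h
    have h1 := congrArg (Polynomial.eval z) hbez
    rw [Polynomial.eval_finset_sum, Polynomial.eval_one] at h1
    simp [h] at h1
  have hcon := hyp (fun i z => (q i).eval z) (fun i => (q i).differentiable) hno key
  -- back to `p`
  have h1 : P i * Polynomial.C (τ (x j)) = P j * Polynomial.C (τ (x i)) := by
    apply Polynomial.funext
    intro z
    rw [Polynomial.eval_mul, Polynomial.eval_mul, Polynomial.eval_C, Polynomial.eval_C,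
      ← hP1 j, ← hP1 i, hq i, hq j]
    simp only [Polynomial.eval_mul]
    have h2 := hcon z 1 i j
    linear_combination (g.eval z * g.eval 1) * h2
  apply Polynomial.map_injective τ hτinj
  rw [Polynomial.map_mul, Polynomial.map_mul, Polynomial.map_C, Polynomial.map_C]
  exact h1

end Pool.Agent.H458.Sp
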