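import Mathlib
import Pool.Agent.H458.Sp.Brody

set_option autoImplicit false

/-! # Sparse points of projective varieties -/

namespace Pool.Agent.H458.Sp

open Finset NumberField MvPolynomial

variable {k : Type} [Field k] [NumberField k]

/-- The vector `x` of algebraic integers is `r`-sparse in base `b`: it is a sum of `r` terms
`b ^ (m j) • v j`, where the coordinates of the digit vectors `v j` are algebraic integers of
house at most `B`. -/
def SparseVec {n : ℕ} (b r : ℕ) (B : ℝ) (x : Fin (n + 1) → 𝓞 k) : Prop :=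
  ∃ (m : Fin r → ℕ) (v : Fin r → Fin (n + 1) → 𝓞 k), (∀ j i, hs (v j i) ≤ B) ∧
    ∀ i, x i = ∑ j, (b : 𝓞 k) ^ (m j) * v j i

/-- The `k`-rational points of the closed subvariety of projective `n`-space given by the forms
in `FF` which have a representative that is `r`-sparse in base `b`. -/
def sparsePoints {n : ℕ} (FF : Set (MvPolynomial (Fin (n + 1)) (𝓞 k))) (b r : ℕ) (B : ℝ) :
    Set (Projectivization k (Fin (n + 1) → k)) :=
  {P | ∃ (x : Fin (n + 1) → 𝓞 k) (h : (fun i => algebraMap (𝓞 k) k (x i)) ≠ 0),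
    P = Projectivization.mk k (fun i => algebraMap (𝓞 k) k (x i)) h ∧
    (∀ F ∈ FF, aeval x F = 0) ∧ SparseVec b r B x}

/-- The points of projective `n`-space over `k` which have a representative all of whose
coordinates are algebraic integers of house at most `H`. -/
def smallPoints (k : Type) [Field k] [NumberField k] (n : ℕ) (H : ℝ) :
    Set (Projectivization k (Fin (n + 1) → k)) :=
  {P | ∃ (y : Fin (n + 1) → 𝓞 k) (h : (fun i => algebraMap (𝓞 k) k (y i)) ≠ 0),
    P = Projectivization.mk k (fun i => algebraMap (𝓞 k) k (y i)) h ∧ ∀ i, hs (y i) ≤ H}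

theorem smallPoints_finite (n : ℕ) (H : ℝ) : (smallPoints k n H).Finite := by
  classical
  have h1 : {a : k | IsIntegral ℤ a ∧ ∀ φ : k →+* ℂ, ‖φ a‖ ≤ H}.Finite :=
    Embeddings.finite_of_norm_le k ℂ H
  have h2 : {a : 𝓞 k | hs a ≤ H}.Finite := by
    refine Set.Finite.of_finite_image (f := algebraMap (𝓞 k) k) (h1.subset ?_)
      ((FaithfulSMul.algebraMap_injective (𝓞 k) k).injOn)
    rintro _ ⟨a, ha, rfl⟩
    exact ⟨a.2, fun φ => (norm_embedding_le_house _ φ).trans ha⟩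
  have h3 : {y : Fin (n + 1) → 𝓞 k | ∀ i, hs (y i) ≤ H}.Finite := by
    have := Set.Finite.pi' (fun _ : Fin (n + 1) => h2)
    simpa using this
  refine (h3.biUnion (t := fun y => {P | ∃ (h : (fun i => algebraMap (𝓞 k) k (y i)) ≠ 0),
    P = Projectivization.mk k (fun i => algebraMap (𝓞 k) k (y i)) h}) ?_).subset ?_
  · intro y _
    apply Set.Subsingleton.finite
    rintro P ⟨h, rfl⟩ Q ⟨h', rfl⟩
    rfl
  · rintro P ⟨y, h, hP, hy⟩
    rw [Set.mem_iUnion₂]
    exact ⟨y, hy, h, hP⟩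

theorem mk_eq {n : ℕ} (x y : Fin (n + 1) → 𝓞 k)
    (hx : (fun i => algebraMap (𝓞 k) k (x i)) ≠ 0) (hy : (fun i => algebraMap (𝓞 k) k (y i)) ≠ 0)
    (h : ∀ i j, x i * y j = x j * y i) :
    Projectivization.mk k (fun i => algebraMap (𝓞 k) k (x i)) hx =
      Projectivization.mk k (fun i => algebraMap (𝓞 k) k (y i)) hy := by
  obtain ⟨j, hj⟩ : ∃ j, algebraMap (𝓞 k) k (y j) ≠ 0 := by
    by_contra hcon
    push Not at hcon
    exact hy (funext hcon)
  rw [Projectivization.mk_eq_mk_iff']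
  refine ⟨algebraMap (𝓞 k) k (x j) / algebraMap (𝓞 k) k (y j), ?_⟩
  funext i
  simp only [Pi.smul_apply, smul_eq_mul]
  rw [div_mul_eq_mul_div, div_eq_iff hj, ← map_mul, ← map_mul]
  rw [h i j]

theorem ne_zero_iff {n : ℕ} (x : Fin (n + 1) → 𝓞 k) :
    (fun i => algebraMap (𝓞 k) k (x i)) ≠ 0 ↔ x ≠ 0 := by
  constructor
  · intro h h'
    apply h
    funext i
    simp [h']
  · intro h h'
    apply h
    funext i
    have := congrFun h' i
    simp only [Pi.zero_apply] at this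
    exact (FaithfulSMul.algebraMap_injective (𝓞 k) k) (by rw [this, Pi.zero_apply, map_zero])

/-- sparse points of Brody hyperbolic varieties -/
theorem brody_sparse (σ : k →+* ℂ) {n : ℕ} (FF : Set (MvPolynomial (Fin (n + 1)) (𝓞 k)))
    (d : ℕ) (hd : 1 ≤ d) (A : ℝ) (hA : 1 ≤ A)
    (hF : ∀ F ∈ FF, (∃ e, e ≤ d ∧ F.IsHomogeneous e) ∧ nrm F ≤ A)
    (hyp : BrodyHyperbolic ((MvPolynomial.map (σ.comp (algebraMap (𝓞 k) k))) '' FF))
    (b : ℕ) (hb : 2 ≤ b) (r : ℕ) (hr : 1 ≤ r) (B : ℝ) (hB : 1 ≤ B) :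
    sparsePoints FF b r B ⊆ smallPoints k n
      (Real.exp ((8 * d * (6 + 8 * d + 4 * Real.log A)) ^ r *
        (1 + Real.log B + Real.log b))) := by
  rintro P ⟨x, hx, rfl, hzero, m, v, hv, hxe⟩
  have hx0 : x ≠ 0 := (ne_zero_iff x).1 hx
  rcases dichotomy FF d hd A hA hF b hb r hr B hB m v hv x hx0 hxe hzero with
    ⟨p, hp1, hp2, i, j, hij⟩ | ⟨y, hy0, hxy, hyB⟩
  · exact absurd (no_curve σ FF (fun F hFF => let ⟨e, _, he⟩ := (hF F hFF).1; ⟨e, he⟩) hyp x hx0 p
      hp1 hp2 i j) hij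
  · exact ⟨y, (ne_zero_iff y).2 hy0, mk_eq x y _ _ hxy, hyB⟩

end Pool.Agent.H458.Sp
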