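import Mathlib
import Pool.Agent.H458.Sp.Points

set_option autoImplicit false

/-! # Sparse points of projective varieties, all bases at once -/

namespace Pool.Agent.H458.Sp

open Finset NumberField MvPolynomial

variable {k : Type} [Field k] [NumberField k]

/-- the dichotomy for a large base -/
theorem dichotomy_large {n : ℕ} (FF : Set (MvPolynomial (Fin (n + 1)) (𝓞 k))) (d : ℕ)
    (hd : 1 ≤ d) (A : ℝ) (hA : 1 ≤ A) (hF : ∀ F ∈ FF, (∃ e, e ≤ d ∧ F.IsHomogeneous e) ∧ nrm F ≤ A)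
    (b : ℕ) (hb : 2 ≤ b) (r : ℕ) (hr : 1 ≤ r) (B : ℝ) (hB : 1 ≤ B)
    (hbS : A * (r * B) ^ d < b)
    (m : Fin r → ℕ) (v : Fin r → Fin (n + 1) → 𝓞 k) (hv : ∀ j i, hs (v j i) ≤ B)
    (x : Fin (n + 1) → 𝓞 k) (hx0 : x ≠ 0) (hx : ∀ i, x i = ∑ j, (b : 𝓞 k) ^ (m j) * v j i)
    (hzero : ∀ F ∈ FF, aeval x F = 0) :
    (∃ p : Fin (n + 1) → Polynomial (𝓞 k), (∀ i, (p i).eval 1 = x i) ∧
      (∀ F ∈ FF, aeval p F = 0) ∧
      ∃ i j, p i * Polynomial.C (x j) ≠ p j * Polynomial.C (x i)) ∨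
    (∃ y : Fin (n + 1) → 𝓞 k, y ≠ 0 ∧ (∀ i j, x i * y j = x j * y i) ∧
      ∀ i, hs (y i) ≤ r * B) := by
  classical
  have hb2 : (2 : ℝ) ≤ b := by exact_mod_cast hb
  have hr1 : (1 : ℝ) ≤ r := by exact_mod_cast hr
  have hrB : 1 ≤ (r : ℝ) * B := one_le_mul_of_one_le_of_one_le hr1 hB
  have hnrm : ∀ F ∈ FF, nrm (GG v F) < (b : ℝ) ^ 1 := by
    intro F hFF
    obtain ⟨⟨e, hed, hFe⟩, hFA⟩ := hF F hFF
    rw [pow_one]
    refine lt_of_le_of_lt ?_ hbS
    calc nrm (GG v F) ≤ nrm F * (r * B) ^ e := GG_nrm v B (by linarith) hv F e hFe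
      _ ≤ A * (r * B) ^ d := by
          refine mul_le_mul hFA (pow_le_pow_right₀ hrB hed) (by positivity) (by linarith)
  have hxf : x = fun i => ∑ j, (b : 𝓞 k) ^ (m j) * v j i := funext hx
  have hcurve : ∀ F ∈ FF, aeval (curve b m m v) F = 0 := by
    intro F hFF
    refine curve_zero b hb 1 le_rfl m m v F (hnrm F hFF) (fun α _ β _ h => by omega) ?_
    rw [← hxf]
    exact hzero F hFF
  by_cases hcon : ∃ i j, curve b m m v i * Polynomial.C (x j) ≠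
      curve b m m v j * Polynomial.C (x i)
  · left
    refine ⟨curve b m m v, fun i => ?_, hcurve, hcon⟩
    rw [curve_eval_one, hx i]
  right
  push Not at hcon
  obtain ⟨i0, hi0⟩ : ∃ i, x i ≠ 0 := by
    by_contra h
    push Not at h
    exact hx0 (funext h)
  have hp0 : curve b m m v i0 ≠ 0 := by
    intro h
    apply hi0
    rw [hx i0, ← curve_eval_one b m m v i0, h, Polynomial.eval_zero]
  obtain ⟨w, hw⟩ : ∃ w, (curve b m m v i0).coeff w ≠ 0 := by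
    by_contra h
    push Not at h
    exact hp0 (Polynomial.ext (by simpa using h))
  set y : Fin (n + 1) → 𝓞 k := fun i =>
    ∑ j ∈ univ.filter (fun j => m j = w), v j i with hy
  have hrel : ∀ i, (curve b m m v i).coeff w = (b : 𝓞 k) ^ w * y i := by
    intro i
    unfold curve
    rw [Polynomial.finsetSum_coeff]
    simp_rw [Polynomial.coeff_C_mul_X_pow]
    rw [hy, Finset.mul_sum, Finset.sum_filter]
    refine Finset.sum_congr rfl fun j _ => ?_
    by_cases h : m j = w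
    · rw [if_pos h, if_pos h.symm, h]
    · rw [if_neg h, if_neg (fun h' => h h'.symm)]
  have hbk : (b : 𝓞 k) ≠ 0 := by
    have : (b : ℕ) ≠ 0 := by omega
    exact_mod_cast this
  refine ⟨y, ?_, ?_, ?_⟩
  · intro h
    apply hw
    rw [hrel, h, Pi.zero_apply, mul_zero]
  · intro i j
    have h1 := congrArg (fun P => Polynomial.coeff P w) (hcon i j)
    simp only [Polynomial.coeff_mul_C] at h1
    rw [hrel, hrel] at h1
    apply mul_left_cancel₀ (pow_ne_zero w hbk)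
    calc (b : 𝓞 k) ^ w * (x i * y j) = (b : 𝓞 k) ^ w * y j * x i := by ring
      _ = (b : 𝓞 k) ^ w * y i * x j := h1.symm
      _ = (b : 𝓞 k) ^ w * (x j * y i) := by ring
  · intro i
    calc hs (y i) ≤ ∑ j ∈ univ.filter (fun j => m j = w), hs (v j i) := hs_sum _ _
      _ ≤ ∑ j ∈ univ.filter (fun j => m j = w), B := Finset.sum_le_sum fun j _ => hv j i
      _ ≤ ∑ _j : Fin r, B := by
          refine Finset.sum_le_sum_of_subset_of_nonneg (Finset.filter_subset _ _) ?_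
          intro j _ _
          linarith
      _ = r * B := by rw [Finset.sum_const, Finset.card_univ, Fintype.card_fin, nsmul_eq_mul]

/-- the dichotomy with a bound that does not depend on the base -/
theorem dichotomy_all {n : ℕ} (FF : Set (MvPolynomial (Fin (n + 1)) (𝓞 k))) (d : ℕ)
    (hd : 1 ≤ d) (A : ℝ) (hA : 1 ≤ A) (hF : ∀ F ∈ FF, (∃ e, e ≤ d ∧ F.IsHomogeneous e) ∧ nrm F ≤ A)
    (b : ℕ) (hb : 2 ≤ b) (r : ℕ) (hr : 1 ≤ r) (B : ℝ) (hB : 1 ≤ B)
    (m : Fin r → ℕ) (v : Fin r → Fin (n + 1) → 𝓞 k) (hv : ∀ j i, hs (v j i) ≤ B)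
    (x : Fin (n + 1) → 𝓞 k) (hx0 : x ≠ 0) (hx : ∀ i, x i = ∑ j, (b : 𝓞 k) ^ (m j) * v j i)
    (hzero : ∀ F ∈ FF, aeval x F = 0) :
    (∃ p : Fin (n + 1) → Polynomial (𝓞 k), (∀ i, (p i).eval 1 = x i) ∧
      (∀ F ∈ FF, aeval p F = 0) ∧
      ∃ i j, p i * Polynomial.C (x j) ≠ p j * Polynomial.C (x i)) ∨
    (∃ y : Fin (n + 1) → 𝓞 k, y ≠ 0 ∧ (∀ i j, x i * y j = x j * y i) ∧
      ∀ i, hs (y i) ≤
        Real.exp ((8 * d * (6 + 8 * d + 4 * Real.log A)) ^ r *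
          (1 + Real.log B + Real.log (A * (r * B) ^ d)))) := by
  have hb2 : (2 : ℝ) ≤ b := by exact_mod_cast hb
  have hr1 : (1 : ℝ) ≤ r := by exact_mod_cast hr
  have hd1 : (1 : ℝ) ≤ d := by exact_mod_cast hd
  have hrB : 1 ≤ (r : ℝ) * B := one_le_mul_of_one_le_of_one_le hr1 hB
  have hrBd : (r : ℝ) * B ≤ (r * B) ^ d := le_self_pow₀ hrB (by omega)
  have hlogA : 0 ≤ Real.log A := Real.log_nonneg hA
  have hlogB : 0 ≤ Real.log B := Real.log_nonneg hB
  have hC1 : 1 ≤ 8 * (d : ℝ) * (6 + 8 * d + 4 * Real.log A) := by nlinarith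
  have hS : (r : ℝ) * B ≤ A * (r * B) ^ d := by nlinarith
  have hCr : 1 ≤ (8 * (d : ℝ) * (6 + 8 * d + 4 * Real.log A)) ^ r := one_le_pow₀ hC1
  have hlogS : 0 ≤ Real.log (A * (r * B) ^ d) := Real.log_nonneg (by linarith)
  rcases lt_or_ge (A * ((r : ℝ) * B) ^ d) b with hbS | hbS
  · rcases dichotomy_large FF d hd A hA hF b hb r hr B hB hbS m v hv x hx0 hx hzero with h | h
    · exact Or.inl h
    · right
      obtain ⟨y, h1, h2, h3⟩ := h
      refine ⟨y, h1, h2, fun i => (h3 i).trans ?_⟩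
      rw [← Real.log_le_iff_le_exp (by linarith)]
      have h4 : Real.log (r * B) ≤ Real.log (A * (r * B) ^ d) :=
        Real.log_le_log (by linarith) hS
      nlinarith
  · rcases dichotomy FF d hd A hA hF b hb r hr B hB m v hv x hx0 hx hzero with h | h
    · exact Or.inl h
    · right
      obtain ⟨y, h1, h2, h3⟩ := h
      refine ⟨y, h1, h2, fun i => (h3 i).trans ?_⟩
      rw [Real.exp_le_exp]
      have h4 : Real.log b ≤ Real.log (A * (r * B) ^ d) :=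
        Real.log_le_log (by linarith) hbS
      gcongr

/-- the points which are sparse in some base -/
def sparsePointsAny {n : ℕ} (FF : Set (MvPolynomial (Fin (n + 1)) (𝓞 k))) (r : ℕ) (B : ℝ) :
    Set (Projectivization k (Fin (n + 1) → k)) :=
  {P | ∃ b : ℕ, 2 ≤ b ∧ P ∈ sparsePoints FF b r B}

/-- sparse points of Brody hyperbolic varieties, all bases at once -/
theorem brody_sparse_all (σ : k →+* ℂ) {n : ℕ} (FF : Set (MvPolynomial (Fin (n + 1)) (𝓞 k)))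
    (d : ℕ) (hd : 1 ≤ d) (A : ℝ) (hA : 1 ≤ A)
    (hF : ∀ F ∈ FF, (∃ e, e ≤ d ∧ F.IsHomogeneous e) ∧ nrm F ≤ A)
    (hyp : BrodyHyperbolic ((MvPolynomial.map (σ.comp (algebraMap (𝓞 k) k))) '' FF))
    (r : ℕ) (hr : 1 ≤ r) (B : ℝ) (hB : 1 ≤ B) :
    sparsePointsAny FF r B ⊆ smallPoints k n
      (Real.exp ((8 * d * (6 + 8 * d + 4 * Real.log A)) ^ r *
        (1 + Real.log B + Real.log (A * (r * B) ^ d)))) := by
  rintro P ⟨b, hb, x, hx, rfl, hzero, m, v, hv, hxe⟩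
  have hx0 : x ≠ 0 := (ne_zero_iff x).1 hx
  rcases dichotomy_all FF d hd A hA hF b hb r hr B hB m v hv x hx0 hxe hzero with
    ⟨p, hp1, hp2, i, j, hij⟩ | ⟨y, hy0, hxy, hyB⟩
  · exact absurd (no_curve σ FF (fun F hFF => let ⟨e, _, he⟩ := (hF F hFF).1; ⟨e, he⟩) hyp x hx0 p
      hp1 hp2 i j) hij
  · exact ⟨y, (ne_zero_iff y).2 hy0, mk_eq x y _ _ hxy, hyB⟩

end Pool.Agent.H458.Sp
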