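import Mathlib

set_option autoImplicit false

/-! # Quadratic points on Fermat curves over rational function fields, part 1 -/

namespace Pool.Agent.H458.Sp

open Polynomial Finset

/-- homogeneous power sums: `f0 ^ k (v ^ k + v' ^ k)` if `f1 = f0 (v + v')`, `f2 = f0 v v'` -/
def Vq {R : Type} [CommRing R] (f0 f1 f2 : R) : ℕ → R
  | 0 => 2
  | 1 => f1
  | (k + 2) => f1 * Vq f0 f1 f2 (k + 1) - f0 * f2 * Vq f0 f1 f2 k

theorem Vq_eq {R : Type} [CommRing R] (f0 f1 f2 v v' : R) (h1 : f1 = f0 * (v + v'))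
    (h2 : f2 = f0 * (v * v')) : ∀ k, Vq f0 f1 f2 k = f0 ^ k * (v ^ k + v' ^ k) ∧
      Vq f0 f1 f2 (k + 1) = f0 ^ (k + 1) * (v ^ (k + 1) + v' ^ (k + 1)) := by
  intro k
  induction k with
  | zero =>
    constructor
    · simp only [Vq, pow_zero]
      ring
    · simp only [Vq, zero_add, pow_one]
      exact h1
  | succ k ih =>
    refine ⟨ih.2, ?_⟩
    rw [Vq, ih.1, ih.2, h1, h2]
    ring

theorem Vq_map {R S : Type} [CommRing R] [CommRing S] (φ : R →+* S) (f0 f1 f2 : R) :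
    ∀ k, φ (Vq f0 f1 f2 k) = Vq (φ f0) (φ f1) (φ f2) k ∧
      φ (Vq f0 f1 f2 (k + 1)) = Vq (φ f0) (φ f1) (φ f2) (k + 1) := by
  intro k
  induction k with
  | zero =>
    constructor
    · simp only [Vq]
      exact map_ofNat φ 2
    · simp only [Vq]
  | succ k ih =>
    refine ⟨ih.2, ?_⟩
    rw [Vq, map_sub, map_mul, map_mul, map_mul, ih.1, ih.2]
    rw [Vq]

theorem Vq_scale {R : Type} [CommRing R] (g f0 f1 f2 : R) :
    ∀ k, Vq (g * f0) (g * f1) (g * f2) k = g ^ k * Vq f0 f1 f2 k ∧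
      Vq (g * f0) (g * f1) (g * f2) (k + 1) = g ^ (k + 1) * Vq f0 f1 f2 (k + 1) := by
  intro k
  induction k with
  | zero =>
    constructor
    · simp only [Vq, pow_zero, one_mul]
    · simp only [Vq, zero_add, pow_one]
  | succ k ih =>
    refine ⟨ih.2, ?_⟩
    rw [Vq, ih.1, ih.2, Vq]
    ring

/-- the member of the net -/
noncomputable def mem (f0 f1 f2 : ℂ[X]) (ζ : ℂ) : ℂ[X] := f0 - C ζ * f1 + C (ζ ^ 2) * f2

theorem prod_complex (n : ℕ) (hn : 0 < n) (a b c : ℂ) (ha : a ≠ 0) :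
    ∏ ζ ∈ nthRootsFinset n (1 : ℂ), (a - ζ * b + ζ ^ 2 * c) = a ^ n - Vq a b c n + c ^ n := by
  classical
  have hprim := Complex.isPrimitiveRoot_exp n (by omega)
  have hcard : (nthRootsFinset n (1 : ℂ)).card = n := hprim.card_nthRootsFinset
  -- the roots
  obtain ⟨v, hv⟩ : ∃ v : ℂ, v ^ 2 - (b / a) * v + c / a = 0 := by
    have hd : (X ^ 2 - C (b / a) * X + C (c / a) : ℂ[X]).degree ≠ 0 := by
      have h1 : (X ^ 2 - C (b / a) * X + C (c / a) : ℂ[X]).natDegree = 2 := by compute_degree!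
      intro h2
      have h3 := natDegree_eq_of_degree_eq_some (n := 0) h2
      omega
    obtain ⟨v, hv⟩ := IsAlgClosed.exists_root _ hd
    refine ⟨v, ?_⟩
    simpa [IsRoot] using hv
  set v' := b / a - v with hv'
  have h1 : b = a * (v + v') := by
    rw [hv']
    field_simp
    ring
  have h2 : c = a * (v * v') := by
    have h3 : c / a = v * v' := by
      rw [hv']
      linear_combination hv
    rw [← h3]
    field_simp
  have hp : ∀ w : ℂ, ∏ ζ ∈ nthRootsFinset n (1 : ℂ), (1 - ζ * w) = 1 - w ^ n := by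
    intro w
    have := hprim.pow_sub_pow_eq_prod_sub_mul 1 w hn
    rw [one_pow] at this
    exact this.symm
  have h3 : ∏ ζ ∈ nthRootsFinset n (1 : ℂ), (a - ζ * b + ζ ^ 2 * c) =
      a ^ n * ((1 - v ^ n) * (1 - v' ^ n)) := by
    have hpow : a ^ n = ∏ _ζ ∈ nthRootsFinset n (1 : ℂ), a := by
      rw [Finset.prod_const, hcard]
    rw [← hp, ← hp, ← Finset.prod_mul_distrib, hpow, ← Finset.prod_mul_distrib]
    refine Finset.prod_congr rfl fun ζ _ => ?_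
    rw [h1, h2]
    ring
  rw [h3, (Vq_eq a b c v v' h1 h2 n).1, h2, mul_pow, mul_pow]
  ring

theorem mem_eval (f0 f1 f2 : ℂ[X]) (ζ s : ℂ) :
    (mem f0 f1 f2 ζ).eval s = f0.eval s - ζ * f1.eval s + ζ ^ 2 * f2.eval s := by
  unfold mem
  simp

theorem prod_mem (n : ℕ) (hn : 0 < n) (f0 f1 f2 : ℂ[X]) (h0 : f0 ≠ 0) :
    ∏ ζ ∈ nthRootsFinset n (1 : ℂ), mem f0 f1 f2 ζ = f0 ^ n - Vq f0 f1 f2 n + f2 ^ n := by
  classical
  refine eq_of_infinite_eval_eq _ _ (Set.Infinite.mono (s := {s : ℂ | f0.eval s = 0}ᶜ) ?_ ?_)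
  · intro s hs
    show eval s _ = eval s _
    have h1 := prod_complex n hn (f0.eval s) (f1.eval s) (f2.eval s) hs
    rw [eval_prod, eval_add, eval_sub, eval_pow, eval_pow]
    have h2 := (Vq_map (evalRingHom s) f0 f1 f2 n).1
    simp only [coe_evalRingHom] at h2
    rw [h2, ← h1]
    exact Finset.prod_congr rfl fun ζ _ => mem_eval _ _ _ _ _
  · refine Set.Finite.infinite_compl ?_
    refine (f0.roots.toFinset.finite_toSet).subset fun a ha => ?_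
    exact Finset.mem_coe.2 (Multiset.mem_toFinset.2 ((mem_roots h0).2 ha))

/-- the resultant of the net and its derivative -/
noncomputable def Dl (f0 f1 f2 : ℂ[X]) : ℂ[X] :=
  (f0 * derivative f2 - derivative f0 * f2) ^ 2 -
    (f1 * derivative f2 - derivative f1 * f2) * (f0 * derivative f1 - derivative f0 * f1)

theorem Dl_identity (f0 f1 f2 : ℂ[X]) (ζ ξ : ℂ) :
    C ((ξ - ζ) ^ 4) * Dl f0 f1 f2 =
      (mem f0 f1 f2 ζ * derivative (mem f0 f1 f2 ξ) -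
        derivative (mem f0 f1 f2 ζ) * mem f0 f1 f2 ξ) ^ 2 -
      (mem f0 f1 f2 ζ * derivative (C 2 * f0 - C (ζ + ξ) * f1 + C (2 * ζ * ξ) * f2) -
        derivative (mem f0 f1 f2 ζ) * (C 2 * f0 - C (ζ + ξ) * f1 + C (2 * ζ * ξ) * f2)) *
      ((C 2 * f0 - C (ζ + ξ) * f1 + C (2 * ζ * ξ) * f2) * derivative (mem f0 f1 f2 ξ) -
        derivative (C 2 * f0 - C (ζ + ξ) * f1 + C (2 * ζ * ξ) * f2) * mem f0 f1 f2 ξ) := by
  unfold Dl mem
  simp only [derivative_add, derivative_sub, derivative_C_mul]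
  have h2 : (C 2 : ℂ[X]) = 2 := rfl
  have h3 : (C ((ξ - ζ) ^ 4) : ℂ[X]) = (C ξ - C ζ) ^ 4 := by rw [map_pow, map_sub]
  have h4 : (C (ζ ^ 2) : ℂ[X]) = C ζ ^ 2 := map_pow _ _ _
  have h5 : (C (ξ ^ 2) : ℂ[X]) = C ξ ^ 2 := map_pow _ _ _
  have h6 : (C (ζ + ξ) : ℂ[X]) = C ζ + C ξ := map_add _ _ _
  have h7 : (C (2 * ζ * ξ) : ℂ[X]) = 2 * C ζ * C ξ := by rw [map_mul, map_mul, h2]
  rw [h3, h4, h5, h6, h7, h2]
  ring

theorem pow_dvd_Dl (f0 f1 f2 : ℂ[X]) (ζ ξ : ℂ) (h : ζ ≠ ξ) (a : ℂ) (m1 m2 : ℕ)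
    (h1 : (X - C a) ^ m1 ∣ mem f0 f1 f2 ζ) (h2 : (X - C a) ^ m2 ∣ mem f0 f1 f2 ξ) :
    (X - C a) ^ ((m1 - 1) + (m2 - 1)) ∣ Dl f0 f1 f2 := by
  have hder : ∀ (m : ℕ) (g : ℂ[X]), (X - C a) ^ m ∣ g →
      (X - C a) ^ (m - 1) ∣ g ∧ (X - C a) ^ (m - 1) ∣ derivative g := by
    intro m g hg
    refine ⟨(pow_dvd_pow _ (Nat.sub_le _ _)).trans hg, ?_⟩
    obtain ⟨w, hw⟩ := hg
    rw [hw, derivative_mul, derivative_pow]
    refine dvd_add ?_ ?_
    · refine Dvd.dvd.mul_right (Dvd.dvd.mul_right ?_ _) _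
      exact Dvd.dvd.mul_left dvd_rfl _
    · exact ((pow_dvd_pow _ (Nat.sub_le _ _))).mul_right _
  obtain ⟨ha, ha'⟩ := hder m1 _ h1
  obtain ⟨hb, hb'⟩ := hder m2 _ h2
  have hne : (ξ - ζ) ^ 4 ≠ 0 := pow_ne_zero _ (sub_ne_zero.2 (Ne.symm h))
  have hu : IsUnit (C ((ξ - ζ) ^ 4) : ℂ[X]) := isUnit_C.2 (isUnit_iff_ne_zero.2 hne)
  rw [← hu.dvd_mul_left, Dl_identity f0 f1 f2 ζ ξ, pow_add]
  refine dvd_sub ?_ ?_
  · rw [pow_two]
    refine Dvd.dvd.mul_right ?_ _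
    exact dvd_sub (mul_dvd_mul ha hb') (mul_dvd_mul ha' hb)
  · refine mul_dvd_mul ?_ ?_
    · exact dvd_sub (ha.mul_right _) (ha'.mul_right _)
    · exact dvd_sub (hb'.mul_left _) (hb.mul_left _)

end Pool.Agent.H458.Sp
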