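import Mathlib
import Pool.Agent.H458.Sp.Quad1

set_option autoImplicit false

/-! # Quadratic points on Fermat curves over rational function fields, part 2 -/

namespace Pool.Agent.H458.Sp

open Polynomial Finset

theorem three_zero (a b c ζ ξ η : ℂ) (h1 : ζ ≠ ξ) (h2 : ζ ≠ η) (h3 : ξ ≠ η)
    (hζ : a - ζ * b + ζ ^ 2 * c = 0) (hξ : a - ξ * b + ξ ^ 2 * c = 0)
    (hη : a - η * b + η ^ 2 * c = 0) : a = 0 ∧ b = 0 ∧ c = 0 := by
  have e1 : (ζ - ξ) * (-b + (ζ + ξ) * c) = 0 := by linear_combination hζ - hξ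
  have e2 : (ζ - η) * (-b + (ζ + η) * c) = 0 := by linear_combination hζ - hη
  have e1' := (mul_eq_zero.1 e1).resolve_left (sub_ne_zero.2 h1)
  have e2' := (mul_eq_zero.1 e2).resolve_left (sub_ne_zero.2 h2)
  have e3 : (ξ - η) * c = 0 := by linear_combination e1' - e2'
  have hc := (mul_eq_zero.1 e3).resolve_left (sub_ne_zero.2 h3)
  have hb : b = 0 := by
    rw [hc, mul_zero, add_zero] at e1'
    exact neg_eq_zero.1 e1'
  refine ⟨?_, hb, hc⟩
  rw [hb, hc] at hζ
  simpa using hζ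

/-- **net lemma** -/
theorem net_const (n : ℕ) (hn : 8 ≤ n) (f0 f1 f2 γ : ℂ[X]) (h0 : f0 ≠ 0) (hγ : γ ≠ 0)
    (hcop : ∀ a : ℂ, ¬ (f0.eval a = 0 ∧ f1.eval a = 0 ∧ f2.eval a = 0))
    (hid : γ ^ n = f0 ^ n - Vq f0 f1 f2 n + f2 ^ n) (hΔ : Dl f0 f1 f2 ≠ 0) :
    f0.natDegree = 0 ∧ f1.natDegree = 0 ∧ f2.natDegree = 0 ∧ γ.natDegree = 0 := by
  classical
  set μ := nthRootsFinset n (1 : ℂ) with hμ
  have hprim := Complex.isPrimitiveRoot_exp n (by omega)
  have hcard : μ.card = n := hprim.card_nthRootsFinset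
  set l : ℂ → ℂ[X] := mem f0 f1 f2 with hl
  have hprod : ∏ ζ ∈ μ, l ζ = γ ^ n := by
    rw [hid]
    exact prod_mem n (by omega) f0 f1 f2 h0
  have hl0 : ∀ ζ ∈ μ, l ζ ≠ 0 := by
    intro ζ hζ h
    have : ∏ ζ ∈ μ, l ζ = 0 := Finset.prod_eq_zero hζ h
    rw [hprod] at this
    exact pow_ne_zero n hγ this
  -- local estimate
  have hlocal : ∀ a : ℂ, (X - C a) ^ (n * γ.rootMultiplicity a - 2) ∣ Dl f0 f1 f2 := by
    intro a
    set T0 := μ.filter (fun ζ => (l ζ).eval a = 0) with hT0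
    have hT0card : T0.card ≤ 2 := by
      by_contra hcon
      push Not at hcon
      obtain ⟨ζ, ξ, η, hζ, hξ, hη, h1, h2, h3⟩ := Finset.two_lt_card_iff.1 hcon
      rw [hT0, Finset.mem_filter, hl, mem_eval] at hζ hξ hη
      exact hcop a (three_zero _ _ _ ζ ξ η h1 h2 h3 hζ.2 hξ.2 hη.2)
    obtain ⟨S, hTS, hSμ, hS2⟩ := Finset.exists_subsuperset_card_eq
      (Finset.filter_subset _ _ : T0 ⊆ μ) hT0card (by omega)
    obtain ⟨ζ, ξ, hζξ, hSeq⟩ := Finset.card_eq_two.1 hS2
    have hζμ : ζ ∈ μ := hSμ (by rw [hSeq]; simp)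
    have hξμ : ξ ∈ μ := hSμ (by rw [hSeq]; simp)
    have hoth : ∀ η ∈ μ \ S, (l η).eval a ≠ 0 := by
      intro η hη h
      rw [Finset.mem_sdiff] at hη
      exact hη.2 (hTS (Finset.mem_filter.2 ⟨hη.1, h⟩))
    have h1 : (X - C a) ^ (n * γ.rootMultiplicity a) ∣ (∏ η ∈ μ \ S, l η) * (l ζ * l ξ) := by
      have h2 : (∏ η ∈ μ \ S, l η) * (l ζ * l ξ) = γ ^ n := by
        rw [← hprod, ← Finset.prod_sdiff hSμ]
        congr 1
        rw [hSeq, Finset.prod_pair hζξ]
      rw [h2, mul_comm, pow_mul]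
      exact pow_dvd_pow_of_dvd (pow_rootMultiplicity_dvd γ a) n
    have h2 : IsCoprime ((X - C a) ^ (n * γ.rootMultiplicity a)) (∏ η ∈ μ \ S, l η) := by
      refine IsCoprime.pow_left (IsCoprime.prod_right fun η hη => ?_)
      rw [(irreducible_X_sub_C a).coprime_iff_not_dvd, dvd_iff_isRoot]
      exact hoth η hη
    have h3 : (X - C a) ^ (n * γ.rootMultiplicity a) ∣ l ζ * l ξ := h2.dvd_of_dvd_mul_left h1
    have h4 : l ζ * l ξ ≠ 0 := mul_ne_zero (hl0 ζ hζμ) (hl0 ξ hξμ)
    have h5 := (le_rootMultiplicity_iff h4).2 h3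
    rw [rootMultiplicity_mul h4] at h5
    refine (pow_dvd_pow _ ?_).trans (pow_dvd_Dl f0 f1 f2 ζ ξ hζξ a
      ((l ζ).rootMultiplicity a) ((l ξ).rootMultiplicity a) (pow_rootMultiplicity_dvd _ _)
      (pow_rootMultiplicity_dvd _ _))
    omega
  -- global estimate
  set R := γ.roots.toFinset with hR
  have hdvd : ∏ a ∈ R, (X - C a) ^ (n * γ.rootMultiplicity a - 2) ∣ Dl f0 f1 f2 := by
    refine Finset.prod_dvd_of_coprime ?_ (fun a _ => hlocal a)
    intro a _ b _ hab
    exact (isCoprime_X_sub_C_of_isUnit_sub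
      (isUnit_iff_ne_zero.2 (sub_ne_zero.2 hab))).pow
  have hdeg1 : ∑ a ∈ R, (n * γ.rootMultiplicity a - 2) ≤ (Dl f0 f1 f2).natDegree := by
    have h1 := natDegree_le_of_dvd hdvd hΔ
    rw [natDegree_prod_of_monic _ _ (fun a _ => (monic_X_sub_C a).pow _)] at h1
    simpa only [natDegree_pow, natDegree_X_sub_C, mul_one] using h1
  have hsum : ∑ a ∈ R, γ.rootMultiplicity a = γ.natDegree := by
    rw [(IsAlgClosed.splits γ).natDegree_eq_card_roots, ← Multiset.toFinset_sum_count_eq]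
    exact Finset.sum_congr rfl fun a _ => (count_roots γ).symm
  have hdeg2 : (n - 2) * γ.natDegree ≤ (Dl f0 f1 f2).natDegree := by
    refine le_trans ?_ hdeg1
    rw [← hsum, Finset.mul_sum]
    refine Finset.sum_le_sum fun a ha => ?_
    have h1 : 1 ≤ γ.rootMultiplicity a := by
      rw [hR, Multiset.mem_toFinset] at ha
      exact (rootMultiplicity_pos hγ).2 (isRoot_of_mem_roots ha)
    have h2 : (n - 2) * γ.rootMultiplicity a + 2 * γ.rootMultiplicity a =
        n * γ.rootMultiplicity a := by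
      rw [← add_mul]
      congr 1
      omega
    omega
  -- degrees
  set H := max f0.natDegree (max f1.natDegree f2.natDegree) with hH
  have hd0 : f0.natDegree ≤ H := le_max_left _ _
  have hd1 : f1.natDegree ≤ H := (le_max_left _ _).trans (le_max_right _ _)
  have hd2 : f2.natDegree ≤ H := (le_max_right _ _).trans (le_max_right _ _)
  have hw : ∀ p q : ℂ[X], p.natDegree ≤ H → q.natDegree ≤ H →
      (p * derivative q - derivative p * q).natDegree ≤ 2 * H := by
    intro p q hp hq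
    have hp' := natDegree_derivative_le p
    have hq' := natDegree_derivative_le q
    refine (natDegree_sub_le _ _).trans (max_le ?_ ?_)
    · refine natDegree_mul_le.trans ?_
      omega
    · refine natDegree_mul_le.trans ?_
      omega
  have hΔdeg : (Dl f0 f1 f2).natDegree ≤ 4 * H := by
    unfold Dl
    refine (natDegree_sub_le _ _).trans (max_le ?_ ?_)
    · refine natDegree_pow_le.trans ?_
      have := hw f0 f2 hd0 hd2
      omega
    · refine natDegree_mul_le.trans ?_
      have h1 := hw f1 f2 hd1 hd2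
      have h2 := hw f0 f1 hd0 hd1
      omega
  by_cases hH0 : H = 0
  · refine ⟨by omega, by omega, by omega, ?_⟩
    rw [hH0, mul_zero] at hΔdeg
    have h1 : (n - 2) * γ.natDegree = 0 := by omega
    rcases Nat.mul_eq_zero.1 h1 with h | h
    · omega
    · exact h
  · exfalso
    have hdegs : (n - 2) * H ≤ n * γ.natDegree := by
      have h1 : n * γ.natDegree = ∑ ζ ∈ μ, (l ζ).natDegree := by
        rw [← natDegree_pow, ← hprod, natDegree_prod _ _ hl0]
      rw [h1]
      set T := μ.filter (fun ζ => (l ζ).coeff H = 0) with hT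
      have hTcard : T.card ≤ 2 := by
        by_contra hcon
        push Not at hcon
        obtain ⟨ζ, ξ, η, hζ, hξ, hη, h1, h2, h3⟩ := Finset.two_lt_card_iff.1 hcon
        have hco : ∀ ζ, (l ζ).coeff H = f0.coeff H - ζ * f1.coeff H + ζ ^ 2 * f2.coeff H := by
          intro ζ
          rw [hl]
          unfold mem
          rw [coeff_add, coeff_sub, coeff_C_mul, coeff_C_mul]
        rw [hT, Finset.mem_filter, hco] at hζ hξ hη
        obtain ⟨ha, hb, hc⟩ := three_zero _ _ _ ζ ξ η h1 h2 h3 hζ.2 hξ.2 hη.2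
        have key : ∀ p : ℂ[X], p.natDegree = H → p.coeff H = 0 → False := by
          intro p hp hp0
          rw [← hp, coeff_natDegree, leadingCoeff_eq_zero] at hp0
          rw [hp0, natDegree_zero] at hp
          exact hH0 hp.symm
        rcases max_choice f0.natDegree (max f1.natDegree f2.natDegree) with h | h
        · exact key f0 (by rw [hH, h]) ha
        · rcases max_choice f1.natDegree f2.natDegree with h' | h'
          · exact key f1 (by rw [hH, h, h']) hb
          · exact key f2 (by rw [hH, h, h']) hc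
      have h2 : n - 2 ≤ (μ \ T).card := by
        have h3 : (μ \ T).card = μ.card - T.card :=
          Finset.card_sdiff_of_subset (Finset.filter_subset _ _)
        omega
      calc (n - 2) * H ≤ (μ \ T).card * H := Nat.mul_le_mul_right _ h2
        _ = ∑ _ζ ∈ μ \ T, H := by rw [Finset.sum_const, smul_eq_mul]
        _ ≤ ∑ ζ ∈ μ \ T, (l ζ).natDegree := by
          refine Finset.sum_le_sum fun ζ hζ => ?_
          rw [Finset.mem_sdiff, hT, Finset.mem_filter] at hζ
          refine le_natDegree_of_ne_zero fun h => ?_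
          exact hζ.2 ⟨hζ.1, h⟩
        _ ≤ _ := Finset.sum_le_sum_of_subset Finset.sdiff_subset
    obtain ⟨k, rfl⟩ : ∃ k, n = k + 8 := ⟨n - 8, by omega⟩
    have e1 : k + 8 - 2 = k + 6 := by omega
    rw [e1] at hdegs hdeg2
    have h1 : (k + 6) * ((k + 6) * H) ≤ (k + 8) * (4 * H) := by
      calc (k + 6) * ((k + 6) * H) ≤ (k + 6) * ((k + 8) * γ.natDegree) :=
            Nat.mul_le_mul_left _ hdegs
        _ = (k + 8) * ((k + 6) * γ.natDegree) := by ring
        _ ≤ (k + 8) * (4 * H) := Nat.mul_le_mul_left _ (hdeg2.trans hΔdeg)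
    have h2 : 0 < H := Nat.pos_of_ne_zero hH0
    nlinarith [Nat.zero_le (k * H), Nat.zero_le (k * k * H)]

end Pool.Agent.H458.Sp
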