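import Mathlib
import Pool.Agent.H458.Sp.Quad2

set_option autoImplicit false

/-! # Quadratic points on Fermat curves over rational function fields, part 3 -/

namespace Pool.Agent.H458.Sp

open Polynomial Finset

/-- proportional polynomials from a vanishing Wronskian -/
theorem prop_of_wronskian (A B : ℤ[X]) (hB : B ≠ 0)
    (hw : A * derivative B - derivative A * B = 0) (b : ℤ) :
    C (B.eval b) * A = C (A.eval b) * B := by
  classical
  set φ : ℤ[X] →+* ℂ[X] := Polynomial.mapRingHom (Int.castRingHom ℂ) with hφ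
  have hφinj : Function.Injective φ :=
    Polynomial.map_injective _ (RingHom.injective_int (Int.castRingHom ℂ))
  have hφe : ∀ (g : ℤ[X]) (s : ℤ), (φ g).eval (s : ℂ) = ((g.eval s : ℤ) : ℂ) := by
    intro g s
    rw [hφ, Polynomial.coe_mapRingHom, Polynomial.eval_intCast_map]
    simp
  have hφd : ∀ g : ℤ[X], φ (derivative g) = derivative (φ g) := by
    intro g
    rw [hφ, Polynomial.coe_mapRingHom, derivative_map]
  have hφC : ∀ z : ℤ, φ (C z) = C (z : ℂ) := by
    intro z
    rw [hφ]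
    simp
  have hB' : φ B ≠ 0 := fun h => hB (hφinj (by rw [h, map_zero]))
  have hw' : wronskian (φ A) (φ B) = 0 := by
    unfold wronskian
    rw [← hφd, ← hφd, ← map_mul, ← map_mul, ← map_sub, hw, map_zero]
  set g := EuclideanDomain.gcd (φ A) (φ B) with hg
  have hg0 : g ≠ 0 := fun h => hB' (EuclideanDomain.gcd_eq_zero_iff.1 h).2
  obtain ⟨A1, hA1⟩ := EuclideanDomain.gcd_dvd_left (φ A) (φ B)
  obtain ⟨B1, hB1⟩ := EuclideanDomain.gcd_dvd_right (φ A) (φ B)
  rw [← hg] at hA1 hB1
  have hcop : IsCoprime A1 B1 := by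
    refine ⟨EuclideanDomain.gcdA (φ A) (φ B), EuclideanDomain.gcdB (φ A) (φ B), ?_⟩
    have h1 : g = φ A * EuclideanDomain.gcdA (φ A) (φ B) +
        φ B * EuclideanDomain.gcdB (φ A) (φ B) := EuclideanDomain.gcd_eq_gcd_ab _ _
    refine mul_left_cancel₀ hg0 ?_
    calc g * (EuclideanDomain.gcdA (φ A) (φ B) * A1 + EuclideanDomain.gcdB (φ A) (φ B) * B1) =
        (g * A1) * EuclideanDomain.gcdA (φ A) (φ B) +
          (g * B1) * EuclideanDomain.gcdB (φ A) (φ B) := by ring
      _ = g * 1 := by rw [← hA1, ← hB1, ← h1, mul_one]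
  have hw1 : wronskian A1 B1 = 0 := by
    have h1 : g ^ 2 * wronskian A1 B1 = wronskian (φ A) (φ B) := by
      rw [hA1, hB1]
      unfold wronskian
      rw [derivative_mul, derivative_mul]
      ring
    rw [hw'] at h1
    exact (mul_eq_zero.1 h1).resolve_left (pow_ne_zero 2 hg0)
  obtain ⟨h1, h2⟩ := hcop.wronskian_eq_zero_iff.1 hw1
  have hAc := eq_C_of_natDegree_eq_zero (derivative_eq_zero.1 h1)
  have hBc := eq_C_of_natDegree_eq_zero (derivative_eq_zero.1 h2)
  apply hφinj
  rw [map_mul, map_mul, hφC, hφC, ← hφe, ← hφe, hA1, hB1, hAc, hBc]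
  simp only [eval_mul, eval_C, C_mul]
  ring

/-- a nonconstant net has nonvanishing resultant unless the quadratic is reducible -/
theorem degenerate (f0 f1 f2 : ℤ[X]) (b : ℤ) (hb0 : f0.eval b ≠ 0)
    (hirr : ¬ IsSquare (f1.eval b ^ 2 - 4 * f0.eval b * f2.eval b))
    (hΔ : (f0 * derivative f2 - derivative f0 * f2) ^ 2 -
      (f1 * derivative f2 - derivative f1 * f2) * (f0 * derivative f1 - derivative f0 * f1) = 0) :
    C (f0.eval b) * f1 = C (f1.eval b) * f0 ∧ C (f0.eval b) * f2 = C (f2.eval b) * f0 := by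
  classical
  have hf0 : f0 ≠ 0 := by
    rintro rfl
    simp at hb0
  set E := f1 ^ 2 - 4 * f0 * f2 with hE
  set w := f0 * derivative f1 - derivative f0 * f1 with hw
  have hE' : derivative E = 2 * f1 * derivative f1 -
      4 * (derivative f0 * f2 + f0 * derivative f2) := by
    have h4 : (4 : ℤ[X]) = C 4 := rfl
    have h8 : derivative (4 * f0 * f2) = 4 * (derivative f0 * f2 + f0 * derivative f2) := by
      rw [h4, derivative_mul, derivative_C_mul]
      ring
    have h9 : derivative (f1 ^ 2) = 2 * f1 * derivative f1 := by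
      rw [pow_two, derivative_mul]
      ring
    rw [hE, derivative_sub, h8, h9]
  have hid : (derivative E * f0 - 2 * E * derivative f0) ^ 2 = (2 * w) ^ 2 * E := by
    have h1 : (derivative E * f0 - 2 * E * derivative f0) ^ 2 - (2 * w) ^ 2 * E =
        16 * f0 ^ 2 * ((f0 * derivative f2 - derivative f0 * f2) ^ 2 -
          (f1 * derivative f2 - derivative f1 * f2) *
            (f0 * derivative f1 - derivative f0 * f1)) := by
      rw [hE', hE, hw]
      ring
    rw [hΔ, mul_zero] at h1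
    exact sub_eq_zero.1 h1
  have hw0 : w = 0 := by
    by_contra hne
    apply hirr
    have h2w : (2 * w : ℤ[X]) ≠ 0 := mul_ne_zero two_ne_zero hne
    have hdv : 2 * w ∣ derivative E * f0 - 2 * E * derivative f0 := by
      rw [← IsIntegrallyClosed.pow_dvd_pow_iff (two_ne_zero), hid]
      exact dvd_mul_right _ _
    obtain ⟨Y, hY⟩ := hdv
    have h1 : E = Y ^ 2 := by
      refine mul_left_cancel₀ (pow_ne_zero 2 h2w) ?_
      rw [← hid, hY]
      ring
    have h2 := congrArg (eval b) h1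
    rw [hE] at h2
    simp only [eval_sub, eval_pow, eval_mul, eval_ofNat] at h2
    rw [h2, pow_two]
    exact ⟨_, rfl⟩
  have hEw : f0 * derivative E - 2 * derivative f0 * E = 0 := by
    rw [hw0, mul_zero, zero_pow two_ne_zero, zero_mul] at hid
    have := pow_eq_zero_iff (two_ne_zero) |>.1 hid
    linear_combination this
  have h1 : C (f0.eval b) * f1 = C (f1.eval b) * f0 := by
    refine prop_of_wronskian f1 f0 hf0 ?_ b
    rw [hw] at hw0
    linear_combination (-1 : ℤ[X]) * hw0
  refine ⟨h1, ?_⟩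
  have h2 : C ((f0 ^ 2).eval b) * E = C (E.eval b) * f0 ^ 2 := by
    refine prop_of_wronskian E (f0 ^ 2) (pow_ne_zero 2 hf0) ?_ b
    rw [derivative_pow]
    simp only [Nat.cast_ofNat, Nat.add_one_sub_one, pow_one]
    have h3 : (C 2 : ℤ[X]) = 2 := rfl
    rw [h3]
    linear_combination (-f0) * hEw
  have h4 : (4 * C (f0.eval b) * f0 : ℤ[X]) ≠ 0 := by
    refine mul_ne_zero (mul_ne_zero ?_ ?_) hf0
    · rw [show (4 : ℤ[X]) = C 4 from rfl, Ne, C_eq_zero]
      norm_num
    · rw [Ne, C_eq_zero]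
      exact hb0
  refine mul_left_cancel₀ h4 ?_
  have h5 : E.eval b = f1.eval b ^ 2 - 4 * f0.eval b * f2.eval b := by
    rw [hE]
    simp only [eval_sub, eval_pow, eval_mul, eval_ofNat]
  have h6 : (C (E.eval b) : ℤ[X]) = C (f1.eval b) ^ 2 - 4 * C (f0.eval b) * C (f2.eval b) := by
    rw [h5, C_sub, C_mul, C_mul, C_pow]
    rfl
  have h7 : (C ((f0 ^ 2).eval b) : ℤ[X]) = C (f0.eval b) ^ 2 := by
    rw [eval_pow, C_pow]
  rw [h6, h7, hE] at h2
  linear_combination (C (f0.eval b) * f1 + C (f1.eval b) * f0) * h1 - h2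

end Pool.Agent.H458.Sp
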