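import Mathlib
import Pool.Agent.H458.Sp.IntExp
import Pool.Agent.H458.Sp.AffDich

set_option autoImplicit false

/-! # Quantifier-free formulas over the rationals and homogenisation -/

namespace Pool.Agent.H458.Sp

open MvPolynomial

/-- quantifier-free formulas in `n` variables in the language of rings; an existential sentence is
a quantifier-free formula preceded by existential quantifiers over its variables -/
inductive QF (n : ℕ) : Type
  /-- the equation `F = 0` -/
  | eqn (F : MvPolynomial (Fin n) ℤ) : QF n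
  /-- negation -/
  | neg (φ : QF n) : QF n
  /-- conjunction -/
  | conj (φ ψ : QF n) : QF n
  /-- disjunction -/
  | disj (φ ψ : QF n) : QF n

/-- truth of a formula at a rational point -/
def Holds {n : ℕ} : QF n → (Fin n → ℚ) → Prop
  | .eqn F, q => aeval q F = 0
  | .neg φ, q => ¬ Holds φ q
  | .conj φ ψ, q => Holds φ q ∧ Holds ψ q
  | .disj φ ψ, q => Holds φ q ∨ Holds ψ q

/-- the list of the polynomials in a formula -/
def polys {n : ℕ} : QF n → List (MvPolynomial (Fin n) ℤ)
  | .eqn F => [F]
  | .neg φ => polys φ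
  | .conj φ ψ => polys φ ++ polys ψ
  | .disj φ ψ => polys φ ++ polys ψ

/-- homogenisation in degree `d` -/
noncomputable def hom {n : ℕ} (d : ℕ) (F : MvPolynomial (Fin n) ℤ) :
    MvPolynomial (Fin (n + 1)) ℤ :=
  ∑ s ∈ F.support, monomial (Finsupp.cons (d - ∑ i, s i) s) (coeff s F)

theorem hom_degree {n : ℕ} (d : ℕ) (F : MvPolynomial (Fin n) ℤ) (hd : F.totalDegree ≤ d) :
    (hom d F).totalDegree ≤ d := by
  refine totalDegree_finsetSum_le fun s hs => (totalDegree_monomial_le _ _).trans ?_
  have h1 := sum_le_totalDegree F s hs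
  rw [Finsupp.sum_fintype _ _ (by simp)]
  simp only [id]
  rw [Fin.sum_univ_succ, Finsupp.cons_zero]
  simp only [Finsupp.cons_succ]
  omega

theorem hom_nz {n : ℕ} (d : ℕ) (F : MvPolynomial (Fin n) ℤ) : nz (hom d F) ≤ nz F := by
  refine (nz_sum _ _).trans ?_
  unfold nz
  exact Finset.sum_le_sum fun s _ => nz_monomial _ _

theorem hom_aeval {n : ℕ} (d : ℕ) (F : MvPolynomial (Fin n) ℤ) (hd : F.totalDegree ≤ d)
    (z : Fin (n + 1) → ℚ) (hz : z 0 ≠ 0) :
    aeval z (hom d F) = (z 0) ^ d * aeval (fun i : Fin n => z i.succ / z 0) F := by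
  unfold hom
  rw [map_sum, aeval_def (fun i : Fin n => z i.succ / z 0), eval₂_eq', Finset.mul_sum]
  refine Finset.sum_congr rfl fun s hs => ?_
  have h1 : ∑ i, s i ≤ d := (sum_le_totalDegree F s hs).trans hd
  rw [aeval_monomial, Finsupp.prod_fintype _ _ (by simp), Fin.prod_univ_succ, Finsupp.cons_zero]
  simp only [Finsupp.cons_succ, div_pow]
  rw [Finset.prod_div_distrib, Finset.prod_pow_eq_pow_sum]
  have h2 : (z 0) ^ d = (z 0) ^ (d - ∑ i, s i) * (z 0) ^ (∑ i, s i) := by
    rw [← pow_add]
    congr 1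
    omega
  rw [h2]
  simp only [algebraMap_int_eq, eq_intCast]
  field_simp

theorem hom_zero_iff {n : ℕ} (d : ℕ) (F : MvPolynomial (Fin n) ℤ) (hd : F.totalDegree ≤ d)
    (z : Fin (n + 1) → ℚ) (hz : z 0 ≠ 0) :
    aeval z (hom d F) = 0 ↔ aeval (fun i : Fin n => z i.succ / z 0) F = 0 := by
  have h1 := hom_aeval d F hd z hz
  constructor
  · intro h
    rw [h] at h1
    exact (mul_eq_zero.1 h1.symm).resolve_left (pow_ne_zero _ hz)
  · intro h
    rw [h, mul_zero] at h1
    exact h1

/-- evaluation at an integral point -/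
theorem aeval_intCast {n : ℕ} (z : Fin n → ℤ) (F : MvPolynomial (Fin n) ℤ) :
    aeval (fun i => (z i : ℚ)) F = ((eval z F : ℤ) : ℚ) := by
  rw [aeval_def, eval₂_eq', eval_eq']
  push_cast
  exact Finset.sum_congr rfl fun s _ => by simp

/-- formulas do not distinguish points at which the same polynomials vanish -/
theorem holds_congr {n : ℕ} (q q' : Fin n → ℚ) (φ : QF n)
    (h : ∀ F ∈ polys φ, aeval q F = 0 ↔ aeval q' F = 0) : Holds φ q ↔ Holds φ q' := by
  induction φ with
  | eqn F => exact h F (by simp [polys])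
  | neg φ ih => exact not_congr (ih h)
  | conj φ ψ ih1 ih2 =>
    exact and_congr (ih1 fun F hF => h F (by simp [polys, hF]))
      (ih2 fun F hF => h F (by simp [polys, hF]))
  | disj φ ψ ih1 ih2 =>
    exact or_congr (ih1 fun F hF => h F (by simp [polys, hF]))
      (ih2 fun F hF => h F (by simp [polys, hF]))

end Pool.Agent.H458.Sp
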