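import Mathlib
import Pool.Agent.H458.Sp.AllBase

set_option autoImplicit false

/-! # Sparse points lie on polynomial curves with bounded coefficients -/

namespace Pool.Agent.H458.Sp

open Finset MvPolynomial

variable {r n : ℕ}

theorem sub_coeff_le (b : ℕ) (hb : 2 ≤ b) (m l : Fin r → ℕ) (G : MvPolynomial (Fin r) ℤ) (f : ℕ)
    (hf : ∀ α ∈ G.support, exn m α ≤ f) (k : ℕ) :
    |(sub (b : ℤ) m l G).coeff k| ≤ nz G * (b : ℤ) ^ f := by
  classical
  have hb0 : (0 : ℤ) < b := by positivity
  have hb1 : (1 : ℤ) ≤ b := by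
    have : (2 : ℤ) ≤ b := by exact_mod_cast hb
    linarith
  rw [sub_coeff]
  refine (Finset.abs_sum_le_sum_abs _ _).trans ?_
  calc ∑ α ∈ G.support.filter (fun α => k = exn l α), |(b : ℤ) ^ (exn m α) * coeff α G| ≤
      ∑ α ∈ G.support.filter (fun α => k = exn l α), |coeff α G| * (b : ℤ) ^ f := by
        refine Finset.sum_le_sum fun α hα => ?_
        rw [abs_mul, abs_of_pos (pow_pos hb0 _), mul_comm]
        exact mul_le_mul_of_nonneg_left (pow_le_pow_right₀ hb1 (hf α (Finset.mem_filter.1 hα).1))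
          (abs_nonneg _)
    _ ≤ ∑ α ∈ G.support, |coeff α G| * (b : ℤ) ^ f := by
        refine Finset.sum_le_sum_of_subset_of_nonneg (Finset.filter_subset _ _) fun α _ _ => ?_
        positivity
    _ = nz G * (b : ℤ) ^ f := by
        unfold nz
        rw [← Finset.sum_mul]

/-- **Sparse points lie on polynomial curves with bounded coefficients**: if a sparse point is a
common zero of the polynomials in `FF`, it is the value at `b` of a vector of polynomials with
bounded coefficients which is a common zero of the polynomials in `FF` -/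
theorem param (FF : Set (MvPolynomial (Fin n) ℤ)) (d : ℕ) (hd : 1 ≤ d) (A : ℕ)
    (hA : 1 ≤ A) (hFd : ∀ F ∈ FF, F.totalDegree ≤ d) (hFA : ∀ F ∈ FF, nz F ≤ A)
    (b : ℕ) (hb : 2 ≤ b) (B : ℕ) (hrB : 1 ≤ r * B) (e : Fin r → ℕ) (c : Fin n → Fin r → ℤ)
    (hc : ∀ i j, |c i j| ≤ B) (x : Fin n → ℤ) (hx : ∀ i, x i = ∑ j, c i j * (b : ℤ) ^ (e j))
    (h0 : ∀ F ∈ FF, eval x F = 0) :
    ∃ p : Fin n → Polynomial ℤ, (∀ F ∈ FF, aeval p F = 0) ∧ (∀ i, (p i).eval (b : ℤ) = x i) ∧
      ∀ i k, |(p i).coeff k| ≤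
        ((r * B * ((1 + A) * (r * B) ^ d) ^ (4 * (4 * d) ^ r) : ℕ) : ℤ) := by
  classical
  set S := (1 + A) * (r * B) ^ d with hS
  have hP1 : 1 ≤ (r * B) ^ d := Nat.one_le_pow _ _ hrB
  have hS2 : 2 ≤ S := by
    rw [hS]
    nlinarith
  have hev : ∀ i, eval (fun j => (b : ℤ) ^ (e j)) (li (c i)) = x i := by
    intro i
    rw [eval_li, hx]
    exact Finset.sum_congr rfl fun j _ => mul_comm _ _
  rcases Nat.lt_or_ge b S with hbS | hbS
  · set L := Nat.clog b S with hLdef
    have hL1 : 1 ≤ L := Nat.clog_pos (by omega) hS2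
    have hSL : S ≤ b ^ L := Nat.le_pow_clog (by omega) _
    have hLS : b ^ L ≤ S ^ 2 := by
      obtain ⟨L', hL'⟩ : ∃ L', L = L' + 1 := ⟨L - 1, by omega⟩
      have h1 : b ^ L' < S := by
        rw [← Nat.lt_clog_iff_pow_lt (by omega)]
        omega
      rw [hL', pow_succ, pow_two]
      exact Nat.mul_le_mul h1.le hbS.le
    obtain ⟨m, l, hml, hm, _, htr⟩ := transfer0 b hb d hd L hL1 e
    set f := 2 * (4 * d) ^ r * L with hf
    refine ⟨fun i => sub (b : ℤ) m l (li (c i)), ?_, ?_, ?_⟩
    · intro F hF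
      have h1 := htr (bind₁ (fun i => li (c i)) F) (bind_degree c F d (hFd F hF)) ?_ ?_
      · unfold sub at h1 ⊢
        rwa [aeval_bind₁] at h1
      · have h2 := bind_nz c B hc hrB F d (hFd F hF)
        have h3 : nz F * (r * B : ℤ) ^ d ≤ A * (r * B : ℤ) ^ d :=
          mul_le_mul_of_nonneg_right (hFA F hF) (by positivity)
        have h4 : (1 : ℤ) ≤ (r * B : ℤ) ^ d := by exact_mod_cast hP1
        have h5 : (((1 + A) * (r * B) ^ d : ℕ) : ℤ) ≤ (b : ℤ) ^ L := by exact_mod_cast hSL
        push_cast at h5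
        nlinarith
      · rw [eval_bind]
        simp only [hev]
        exact h0 F hF
    · intro i
      rw [sub_eval]
      simp only [hml]
      exact hev i
    · intro i k
      refine (sub_coeff_le b hb m l (li (c i)) f (fun α hα => ?_) k).trans ?_
      · have h2 := li_homog (c i) (mem_support_iff.1 hα)
        rw [Finsupp.weight_apply, Finsupp.sum_fintype _ _ (by simp)] at h2
        have h3 : ∑ j, α j = 1 := by simpa using h2
        have := exn_le m f hm α 1 h3.le
        rwa [one_mul] at this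
      · calc nz (li (c i)) * (b : ℤ) ^ f ≤ (r * B : ℤ) * (b : ℤ) ^ f :=
              mul_le_mul_of_nonneg_right (li_nz _ _ (hc i)) (by positivity)
          _ = ((r * B * b ^ f : ℕ) : ℤ) := by push_cast; ring
          _ ≤ _ := by
            have h2 : b ^ f ≤ S ^ (4 * (4 * d) ^ r) := by
              calc b ^ f = (b ^ L) ^ (2 * (4 * d) ^ r) := by
                    rw [← pow_mul, hf]
                    congr 1
                    ring
                _ ≤ (S ^ 2) ^ (2 * (4 * d) ^ r) := Nat.pow_le_pow_left hLS _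
                _ = S ^ (4 * (4 * d) ^ r) := by
                    rw [← pow_mul]
                    congr 1
                    ring
            exact_mod_cast Nat.mul_le_mul_left _ h2
  · refine ⟨fun i => sub (b : ℤ) (fun _ => 0) e (li (c i)), ?_, ?_, ?_⟩
    · intro F hF
      have h1 := sub_vanish_large b hb e (bind₁ (fun i => li (c i)) F) ?_ ?_
      · unfold sub at h1 ⊢
        rwa [aeval_bind₁] at h1
      · have h2 := bind_nz c B hc hrB F d (hFd F hF)
        have h3 : nz F * (r * B : ℤ) ^ d ≤ A * (r * B : ℤ) ^ d :=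
          mul_le_mul_of_nonneg_right (hFA F hF) (by positivity)
        have h4 : (1 : ℤ) ≤ (r * B : ℤ) ^ d := by exact_mod_cast hP1
        have h5 : (((1 + A) * (r * B) ^ d : ℕ) : ℤ) ≤ (b : ℤ) := by exact_mod_cast hbS
        push_cast at h5
        nlinarith
      · rw [eval_bind]
        simp only [hev]
        exact h0 F hF
    · intro i
      rw [sub_eval]
      simp only [zero_add]
      exact hev i
    · intro i k
      refine (sub_coeff_le b hb (fun _ => 0) e (li (c i)) 0 (fun α _ => by simp [exn]) k).trans ?_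
      rw [pow_zero, mul_one]
      refine (li_nz _ _ (hc i)).trans ?_
      have h2 : 1 ≤ S ^ (4 * (4 * d) ^ r) := Nat.one_le_pow _ _ (by omega)
      have h3 : r * B ≤ r * B * S ^ (4 * (4 * d) ^ r) := Nat.le_mul_of_pos_right _ h2
      exact_mod_cast h3

end Pool.Agent.H458.Sp
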