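import Mathlib
import Pool.Agent.H458.Sp.ReduceNat

set_option autoImplicit false

/-! # Decomposition of a vector of exponents into small vectors -/

namespace Pool.Agent.H458.Sp

open Finset

/-- the small vectors orthogonal to all rows in `RR` -/
noncomputable def smallVec {r : ℕ} (RR : Set (Fin r → ℤ)) (K : ℕ) : Finset (Fin r → ℕ) := by
  classical
  exact (Fintype.piFinset fun _ : Fin r => range (K + 2)).filter
    (fun v => ∀ R ∈ RR, ∑ j, R j * (v j : ℤ) = 0)

theorem mem_smallVec {r : ℕ} (RR : Set (Fin r → ℤ)) (K : ℕ) (v : Fin r → ℕ) :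
    v ∈ smallVec RR K ↔ (∀ j, v j ≤ K + 1) ∧ ∀ R ∈ RR, ∑ j, R j * (v j : ℤ) = 0 := by
  classical
  unfold smallVec
  rw [Finset.mem_filter, Fintype.mem_piFinset]
  simp only [mem_range]
  constructor
  · rintro ⟨h1, h2⟩
    exact ⟨fun j => by have := h1 j; omega, h2⟩
  · rintro ⟨h1, h2⟩
    exact ⟨fun j => by have := h1 j; omega, h2⟩

/-- a vector of exponents is the sum of a bounded vector and of small vectors orthogonal to the
rows -/
theorem reduce_dec {r : ℕ} (D L : ℕ) (hD : 1 ≤ D) (hL : 1 ≤ L) (RR : Set (Fin r → ℤ))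
    (hRR : ∀ R ∈ RR, ∑ j, |R j| ≤ D) :
    ∀ (N : ℕ) (m : Fin r → ℕ), (∀ j, m j ≤ N) → (∀ R ∈ RR, |∑ j, R j * (m j : ℤ)| ≤ L) →
    ∃ (m' : Fin r → ℕ) (nn : (Fin r → ℕ) → ℕ), (∀ j, m' j ≤ 2 * (2 * D) ^ r * L) ∧
      ∀ j, m j = m' j + ∑ v ∈ smallVec RR ((2 * D) ^ r), nn v * v j := by
  classical
  intro N
  induction N using Nat.strong_induction_on with
  | _ N ih =>
  intro m hm hRm
  by_cases hN : N ≤ 2 * (2 * D) ^ r * L
  · exact ⟨m, fun _ => 0, fun j => (hm j).trans hN, fun j => by simp⟩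
  push Not at hN
  have hK1 : 1 ≤ (2 * D) ^ r := Nat.one_le_pow _ _ (by omega)
  have hNK : (2 * D) ^ r < N := by nlinarith
  have hN1 : 1 ≤ N := by omega
  obtain ⟨q, hq1, hq2, u, hu⟩ := dirichlet_vec (2 * D) (by omega) N hN1 (fun j => (m j : ℤ))
  have hD0 : (0 : ℤ) < D := by exact_mod_cast hD
  have hN0 : (0 : ℤ) < N := by exact_mod_cast hN1
  have hq0 : (0 : ℤ) < q := by exact_mod_cast hq1
  have hqN : (q : ℤ) < N := by
    have : q < N := by omega
    exact_mod_cast this
  have hu' : ∀ j, |(q : ℤ) * (m j : ℤ) - N * u j| * 2 * D ≤ N := by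
    intro j
    have := hu j
    push_cast at this
    linarith
  have hker : ∀ R ∈ RR, ∑ j, R j * u j = 0 := by
    intro R hR
    have h1 : (N : ℤ) * ∑ j, R j * u j =
        q * ∑ j, R j * (m j : ℤ) - ∑ j, R j * ((q : ℤ) * (m j : ℤ) - N * u j) := by
      rw [Finset.mul_sum, Finset.mul_sum, ← Finset.sum_sub_distrib]
      refine Finset.sum_congr rfl fun j _ => ?_
      ring
    have h2 : |∑ j, R j * ((q : ℤ) * (m j : ℤ) - N * u j)| * 2 * D ≤ D * N := by
      calc |∑ j, R j * ((q : ℤ) * (m j : ℤ) - N * u j)| * 2 * D ≤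
          (∑ j, |R j * ((q : ℤ) * (m j : ℤ) - N * u j)|) * 2 * D := by
            gcongr
            exact Finset.abs_sum_le_sum_abs _ _
        _ = ∑ j, |R j| * (|(q : ℤ) * (m j : ℤ) - N * u j| * 2 * D) := by
            rw [Finset.sum_mul, Finset.sum_mul]
            refine Finset.sum_congr rfl fun j _ => ?_
            rw [abs_mul]
            ring
        _ ≤ ∑ j, |R j| * N := by
            refine Finset.sum_le_sum fun j _ => ?_
            exact mul_le_mul_of_nonneg_left (hu' j) (abs_nonneg _)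
        _ = (∑ j, |R j|) * N := by rw [Finset.sum_mul]
        _ ≤ D * N := by
            exact mul_le_mul_of_nonneg_right (hRR R hR) hN0.le
    have h3 : |∑ j, R j * ((q : ℤ) * (m j : ℤ) - N * u j)| * 2 ≤ N := by
      have h4 : |∑ j, R j * ((q : ℤ) * (m j : ℤ) - N * u j)| * 2 * D ≤ N * D := by linarith
      exact le_of_mul_le_mul_right h4 hD0
    have h5 : |(q : ℤ) * ∑ j, R j * (m j : ℤ)| ≤ (2 * D) ^ r * L := by
      rw [abs_mul, abs_of_pos hq0]
      have h6 : (q : ℤ) ≤ (2 * D) ^ r := by exact_mod_cast hq2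
      exact mul_le_mul h6 (hRm R hR) (abs_nonneg _) (by positivity)
    have h7 : (2 * (2 * D) ^ r * L : ℤ) < N := by exact_mod_cast hN
    have h8 : |(N : ℤ) * ∑ j, R j * u j| < N := by
      rw [h1]
      calc |(q : ℤ) * ∑ j, R j * (m j : ℤ) - ∑ j, R j * ((q : ℤ) * (m j : ℤ) - N * u j)| ≤
          |(q : ℤ) * ∑ j, R j * (m j : ℤ)| + |∑ j, R j * ((q : ℤ) * (m j : ℤ) - N * u j)| :=
            abs_sub _ _
        _ < N := by linarith
    rw [abs_mul, abs_of_pos hN0] at h8
    have h9 : |∑ j, R j * u j| < 1 := by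
      by_contra hcon
      push Not at hcon
      nlinarith
    exact Int.abs_lt_one_iff.1 h9
  have hhalf : ∀ j, |(q : ℤ) * (m j : ℤ) - N * u j| * 2 ≤ N := by
    intro j
    have h5 := hu' j
    have h6 : |(q : ℤ) * (m j : ℤ) - N * u j| * 2 * 1 ≤
        |(q : ℤ) * (m j : ℤ) - N * u j| * 2 * D := by
      have : (1 : ℤ) ≤ D := by exact_mod_cast hD
      gcongr
    linarith
  have hu0 : ∀ j, 0 ≤ u j := by
    intro j
    by_contra hcon
    push Not at hcon
    have h1 : u j ≤ -1 := by omega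
    have h2 := hhalf j
    have h3 := le_abs_self ((q : ℤ) * (m j : ℤ) - N * u j)
    have h4 : (0 : ℤ) ≤ q * (m j : ℤ) := by positivity
    nlinarith
  have hum : ∀ j, u j ≤ m j := by
    intro j
    by_contra hcon
    push Not at hcon
    have h1 : (m j : ℤ) + 1 ≤ u j := by omega
    have h2 := hhalf j
    have h3 := neg_abs_le ((q : ℤ) * (m j : ℤ) - N * u j)
    have h4 : (0 : ℤ) ≤ (m j : ℤ) := by positivity
    nlinarith
  have huK : ∀ j, u j ≤ ((2 * D) ^ r : ℕ) + 1 := by
    intro j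
    by_contra hcon
    push Not at hcon
    have h1 : (((2 * D) ^ r : ℕ) : ℤ) + 2 ≤ u j := by omega
    have h2 := hhalf j
    have h3 := neg_abs_le ((q : ℤ) * (m j : ℤ) - N * u j)
    have h4 : (m j : ℤ) ≤ N := by exact_mod_cast hm j
    have h5 : (q : ℤ) ≤ ((2 * D) ^ r : ℕ) := by exact_mod_cast hq2
    have h6 : (q : ℤ) * m j ≤ ((2 * D) ^ r : ℕ) * N :=
      mul_le_mul h5 h4 (by positivity) (by positivity)
    nlinarith
  have hsm : ∀ j, (m j : ℤ) - u j ≤ N - 1 := by
    intro j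
    have h1 : (N : ℤ) * ((m j : ℤ) - u j) < N * N := by
      have h2 : (N : ℤ) * ((m j : ℤ) - u j) =
        (N - q) * (m j : ℤ) + ((q : ℤ) * (m j : ℤ) - N * u j) := by ring
      rw [h2]
      have h3 : ((N : ℤ) - q) * (m j : ℤ) ≤ (N - q) * N :=
        mul_le_mul_of_nonneg_left (by exact_mod_cast hm j) (by linarith)
      have h4 := hhalf j
      have h5 := le_abs_self ((q : ℤ) * (m j : ℤ) - N * u j)
      nlinarith
    have h2 : (m j : ℤ) - u j < N := lt_of_mul_lt_mul_left h1 hN0.le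
    linarith
  have hcast : ∀ j, (((m j : ℤ) - u j).toNat : ℤ) = (m j : ℤ) - u j := by
    intro j
    exact Int.toNat_of_nonneg (by have := hum j; linarith)
  have hucast : ∀ j, ((u j).toNat : ℤ) = u j := fun j => Int.toNat_of_nonneg (hu0 j)
  have hRm' : ∀ R ∈ RR, ∑ j, R j * ((((m j : ℤ) - u j).toNat : ℕ) : ℤ) =
      ∑ j, R j * (m j : ℤ) := by
    intro R hR
    simp_rw [hcast, mul_sub]
    rw [Finset.sum_sub_distrib, hker R hR, sub_zero]
  obtain ⟨m', nn, h1, h2⟩ := ih (N - 1) (by omega) (fun j => ((m j : ℤ) - u j).toNat)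
    (fun j => by have := hsm j; have := hcast j; omega)
    (fun R hR => by rw [hRm' R hR]; exact hRm R hR)
  set v0 : Fin r → ℕ := fun j => (u j).toNat with hv0
  have hv0mem : v0 ∈ smallVec RR ((2 * D) ^ r) := by
    rw [mem_smallVec]
    constructor
    · intro j
      have h3 := huK j
      have h4 := hucast j
      show (u j).toNat ≤ _
      omega
    · intro R hR
      rw [← hker R hR]
      refine Finset.sum_congr rfl fun j _ => ?_
      rw [hv0]
      simp only
      rw [hucast]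
  refine ⟨m', fun v => nn v + if v = v0 then 1 else 0, h1, fun j => ?_⟩
  have h3 := h2 j
  have h4 : ∑ v ∈ smallVec RR ((2 * D) ^ r), (nn v + if v = v0 then 1 else 0) * v j =
      ∑ v ∈ smallVec RR ((2 * D) ^ r), nn v * v j + v0 j := by
    simp_rw [add_mul]
    rw [Finset.sum_add_distrib]
    congr 1
    simp_rw [ite_mul, one_mul, zero_mul]
    rw [Finset.sum_ite_eq' _ v0 (fun v => v j), if_pos hv0mem]
  rw [h4]
  have h5 := hcast j
  have h6 := hucast j
  have h7 : v0 j = (u j).toNat := rfl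
  omega

end Pool.Agent.H458.Sp
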