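import Mathlib
import Pool.Agent.H458.Sp.AllBase
import Pool.Agent.H458.Sp.ReduceDec

set_option autoImplicit false

/-! # Small sparse solutions -/

namespace Pool.Agent.H458.Sp

open Finset MvPolynomial

variable {r n : ℕ} {σ : Type}

/-- the substitution `u_j = b ^ (m j) T ^ (κ j)` -/
noncomputable def gsub (b : ℤ) (m : Fin r → ℕ) (κ : Fin r → (σ →₀ ℕ)) :
    MvPolynomial (Fin r) ℤ →ₐ[ℤ] MvPolynomial σ ℤ :=
  aeval (fun j => monomial (κ j) (b ^ (m j)))

/-- the exponent of the image of a monomial -/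
noncomputable def gkap (κ : Fin r → (σ →₀ ℕ)) (α : Fin r →₀ ℕ) : σ →₀ ℕ :=
  ∑ j, α j • κ j

theorem gprod_monomial {ι : Type} (t : Finset ι) (f : ι → (σ →₀ ℕ)) (a : ι → ℤ) :
    ∏ i ∈ t, monomial (f i) (a i) = monomial (∑ i ∈ t, f i) (∏ i ∈ t, a i) := by
  classical
  induction t using Finset.induction_on with
  | empty => simp
  | insert i t hi ih =>
    rw [Finset.prod_insert hi, Finset.sum_insert hi, Finset.prod_insert hi, ih, monomial_mul]

theorem gsub_eq (b : ℤ) (m : Fin r → ℕ) (κ : Fin r → (σ →₀ ℕ)) (G : MvPolynomial (Fin r) ℤ) :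
    gsub b m κ G = ∑ α ∈ G.support, monomial (gkap κ α) (b ^ (exn m α) * coeff α G) := by
  unfold gsub
  rw [aeval_def, eval₂_eq']
  refine Finset.sum_congr rfl fun α _ => ?_
  have h1 : ∏ j, monomial (κ j) (b ^ (m j)) ^ (α j) =
      monomial (gkap κ α) (b ^ (exn m α)) := by
    unfold gkap exn
    rw [← Finset.prod_pow_eq_pow_sum, ← gprod_monomial]
    refine Finset.prod_congr rfl fun j _ => ?_
    rw [monomial_pow, ← pow_mul, mul_comm (m j)]
  rw [h1]
  show C (coeff α G) * _ = _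
  rw [C_mul_monomial, mul_comm]

theorem gsub_coeff (b : ℤ) (m : Fin r → ℕ) (κ : Fin r → (σ →₀ ℕ))
    (G : MvPolynomial (Fin r) ℤ) (w : σ →₀ ℕ) [DecidableEq (σ →₀ ℕ)] :
    coeff w (gsub b m κ G) = ∑ α ∈ G.support.filter (fun α => gkap κ α = w),
      b ^ (exn m α) * coeff α G := by
  rw [gsub_eq, coeff_sum, Finset.sum_filter]
  refine Finset.sum_congr rfl fun α _ => ?_
  classical
  rw [coeff_monomial]
  by_cases h : gkap κ α = w
  · rw [if_pos h, if_pos h]
  · rw [if_neg h, if_neg h]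

/-- if the value is zero, so is the polynomial in several variables -/
theorem gsub_vanish (b : ℕ) (hb : 2 ≤ b) (L : ℕ) (hL : 1 ≤ L) (m l : Fin r → ℕ)
    (κ : Fin r → (σ →₀ ℕ))
    (G : MvPolynomial (Fin r) ℤ) (hS : 1 + nz G ≤ (b : ℤ) ^ L)
    (hcl : ∀ α ∈ G.support, ∀ β ∈ G.support,
      (exn (fun j => m j + l j) α < exn (fun j => m j + l j) β + L ∧
        exn (fun j => m j + l j) β < exn (fun j => m j + l j) α + L) →
      exn l α = exn l β ∧ gkap κ α = gkap κ β)
    (h0 : eval (fun j => (b : ℤ) ^ (m j + l j)) G = 0) : gsub b m κ G = 0 := by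
  classical
  have hb0 : (0 : ℤ) < b := by positivity
  have hsum0 : ∑ α ∈ G.support, (b : ℤ) ^ (exn (fun j => m j + l j) α + L) * coeff α G = 0 := by
    rw [eval_powz b (fun j => m j + l j)] at h0
    have h3 : ∑ α ∈ G.support, (b : ℤ) ^ (exn (fun j => m j + l j) α + L) * coeff α G =
        (b : ℤ) ^ L * ∑ α ∈ G.support, (b : ℤ) ^ (exn (fun j => m j + l j) α) * coeff α G := by
      rw [Finset.mul_sum]
      refine Finset.sum_congr rfl fun α _ => ?_
      rw [pow_add]
      ring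
    rw [h3, h0, mul_zero]
  ext w
  rw [gsub_coeff, coeff_zero]
  rw [← Finset.sum_fiberwise_of_maps_to (s := G.support.filter (fun α => gkap κ α = w))
    (t := (G.support.filter (fun α => gkap κ α = w)).image (exn l)) (g := exn l)
    (fun α hα => Finset.mem_image_of_mem _ hα)]
  refine Finset.sum_eq_zero fun v _ => ?_
  rw [Finset.filter_filter]
  have h1 := int_closed b hb L hL (fun α => coeff α G)
    (fun α => exn (fun j => m j + l j) α + L) 0
    G.support.card G.support
    (G.support.filter (fun α => gkap κ α = w ∧ exn l α = v)) 0 le_rfl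
    (Finset.filter_subset _ _) hS ?_ ?_ (by simp) hsum0
  · have h2 : (b : ℤ) ^ (v + L) * ∑ α ∈ G.support.filter (fun α => gkap κ α = w ∧ exn l α = v),
        (b : ℤ) ^ (exn m α) * coeff α G = 0 := by
      rw [← h1, Finset.mul_sum]
      refine Finset.sum_congr rfl fun α hα => ?_
      rw [exn_add, pow_add, pow_add, pow_add, ← (Finset.mem_filter.1 hα).2.2]
      ring
    exact (mul_eq_zero.1 h2).resolve_left (pow_pos hb0 _).ne'
  · intro α hα β hβ hr
    rw [Finset.mem_filter] at hα ⊢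
    obtain ⟨h2, h3⟩ := hcl α hα.1 β hβ ⟨by omega, by omega⟩
    exact ⟨hβ, h3 ▸ hα.2.1, h2 ▸ hα.2.2⟩
  · intro α hα
    omega

/-- evaluation at powers -/
theorem gsub_eval [Fintype σ] (b : ℤ) (m : Fin r → ℕ) (κ : Fin r → (σ →₀ ℕ)) (a : ℤ)
    (q : σ → ℕ) (G : MvPolynomial (Fin r) ℤ) :
    eval (fun v => a ^ (q v)) (gsub b m κ G) =
      eval (fun j => b ^ (m j) * a ^ (∑ v, q v * κ j v)) G := by
  unfold gsub
  rw [aeval_def, eval₂_eq', map_sum, eval_eq']
  refine Finset.sum_congr rfl fun α _ => ?_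
  rw [map_mul, map_prod]
  congr 1
  · show eval _ (C (coeff α G)) = _
    rw [eval_C]
  · refine Finset.prod_congr rfl fun j _ => ?_
    rw [map_pow, eval_monomial, Finsupp.prod_fintype _ _ (by simp)]
    congr 2
    rw [← Finset.prod_pow_eq_pow_sum]
    exact Finset.prod_congr rfl fun v _ => by rw [← pow_mul]

/-- degrees of the substituted polynomial -/
theorem gsub_degree (b : ℤ) (m : Fin r → ℕ) (κ : Fin r → (σ →₀ ℕ)) (G : MvPolynomial (Fin r) ℤ)
    (D K : ℕ) (hG : ∀ α ∈ G.support, ∑ j, α j ≤ D) (hκ : ∀ j v, κ j v ≤ K) (v : σ) :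
    (gsub b m κ G).degreeOf v ≤ D * K := by
  classical
  rw [degreeOf_le_iff]
  intro w hw
  rw [mem_support_iff, gsub_coeff] at hw
  obtain ⟨α, hα, _⟩ := Finset.exists_ne_zero_of_sum_ne_zero hw
  rw [Finset.mem_filter] at hα
  rw [← hα.2]
  unfold gkap
  rw [Finsupp.coe_finsetSum, Finset.sum_apply]
  calc ∑ j, (α j • κ j) v = ∑ j, α j * κ j v := Finset.sum_congr rfl fun j _ => rfl
    _ ≤ ∑ j, α j * K := Finset.sum_le_sum fun j _ => Nat.mul_le_mul_left _ (hκ j v)
    _ = (∑ j, α j) * K := by rw [Finset.sum_mul]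
    _ ≤ D * K := Nat.mul_le_mul_right _ (hG α hα.1)

/-- a nonzero polynomial of small degrees does not vanish at some small powers of `a` -/
theorem exists_powers [Fintype σ] (a : ℕ) (ha : 2 ≤ a) (P : MvPolynomial σ ℤ) (hP : P ≠ 0)
    (N : ℕ) (hN : ∀ v, P.degreeOf v ≤ N) :
    ∃ q : σ → ℕ, (∀ v, q v ≤ N) ∧ eval (fun v => (a : ℤ) ^ (q v)) P ≠ 0 := by
  classical
  by_contra hcon
  push Not at hcon
  apply hP
  set S : Finset ℤ := (range (N + 1)).image (fun i => (a : ℤ) ^ i) with hS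
  have hcard : S.card = N + 1 := by
    rw [hS, Finset.card_image_of_injOn, card_range]
    intro i _ j _ hij
    have h1 : a ^ i = a ^ j := by
      have h2 : (a : ℤ) ^ i = (a : ℤ) ^ j := hij
      exact_mod_cast h2
    exact Nat.pow_right_injective ha h1
  refine eq_zero_of_eval_zero_at_prod_finset P (fun _ => S)
    (fun v => by rw [hcard]; have := hN v; omega) ?_
  intro x hx
  have h1 : ∀ v, ∃ i, i ≤ N ∧ (a : ℤ) ^ i = x v := by
    intro v
    obtain ⟨i, hi, hi2⟩ := Finset.mem_image.1 (hx v)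
    exact ⟨i, by rw [mem_range] at hi; omega, hi2⟩
  choose q hq1 hq2 using h1
  have h2 : x = fun v => (a : ℤ) ^ (q v) := funext fun v => (hq2 v).symm
  rw [h2]
  exact hcon q hq1

/-- the bound for the powers of the base in a small solution -/
def HH (r B d A D : ℕ) : ℕ :=
  ((1 + A) * (r * B) ^ d) ^ (4 * (4 * d) ^ r +
    (2 * (4 * d) ^ r + 2) ^ r * (D * (2 * (4 * d) ^ r + 1)) * (2 * (4 * d) ^ r + 1))

/-- **small sparse solutions**: if a system of polynomial equations and one inequation has a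
sparse integral solution, then it has a small one with the same digits -/
theorem small_solution (FF : Set (MvPolynomial (Fin n) ℤ)) (d : ℕ) (hd : 1 ≤ d) (A : ℕ)
    (hA : 1 ≤ A) (hFd : ∀ F ∈ FF, F.totalDegree ≤ d) (hFA : ∀ F ∈ FF, nz F ≤ A)
    (P : MvPolynomial (Fin n) ℤ) (D : ℕ) (hP : P.totalDegree ≤ D)
    (b : ℕ) (hb : 2 ≤ b) (B : ℕ) (hrB : 1 ≤ r * B) (e : Fin r → ℕ) (c : Fin n → Fin r → ℤ)
    (hc : ∀ i j, |c i j| ≤ B)
    (h0 : ∀ F ∈ FF, eval (fun i => ∑ j, c i j * (b : ℤ) ^ (e j)) F = 0)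
    (hP0 : eval (fun i => ∑ j, c i j * (b : ℤ) ^ (e j)) P ≠ 0) :
    ∃ (b' : ℕ) (e' : Fin r → ℕ), 2 ≤ b' ∧ b' ≤ b ∧ b' ≤ (1 + A) * (r * B) ^ d ∧
      (∀ j, b' ^ (e' j) ≤ HH r B d A D) ∧
      (∀ F ∈ FF, eval (fun i => ∑ j, c i j * (b' : ℤ) ^ (e' j)) F = 0) ∧
      eval (fun i => ∑ j, c i j * (b' : ℤ) ^ (e' j)) P ≠ 0 := by
  classical
  set S0 := (1 + A) * (r * B) ^ d with hS0
  set κ := (4 * d) ^ r with hκ
  have hP1 : 1 ≤ (r * B) ^ d := Nat.one_le_pow _ _ hrB
  have hκ1 : 1 ≤ κ := Nat.one_le_pow _ _ (by omega)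
  have hS02 : 2 ≤ S0 := by
    rw [hS0]
    nlinarith
  have hHH : HH r B d A D = S0 ^ (4 * κ + (2 * κ + 2) ^ r * (D * (2 * κ + 1)) * (2 * κ + 1)) := rfl
  -- the common part: from a splitting with small vectors to a small solution
  have main : ∀ (L : ℕ) (hL : 1 ≤ L) (m : Fin r → ℕ) (a K : ℕ) (RR : Set (Fin r → ℤ))
      (nn : (Fin r → ℕ) → ℕ), S0 ≤ b ^ L → 2 ≤ a → a ≤ b →
      (∀ j, m j + ∑ v ∈ smallVec RR K, nn v * v j = e j) → (a = b ∨ ∀ j, m j = 0) →
      (∀ α β : Fin r →₀ ℕ, ∑ j, α j ≤ d → ∑ j, β j ≤ d → exn e α < exn e β + L →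
        exn e β < exn e α + L → (fun j => (α j : ℤ) - β j) ∈ RR) →
      ∃ (e' : Fin r → ℕ), (∀ j, e' j ≤ m j + (K + 2) ^ r * (D * (K + 1)) * (K + 1)) ∧
        (∀ F ∈ FF, eval (fun i => ∑ j, c i j * (a : ℤ) ^ (e' j)) F = 0) ∧
        eval (fun i => ∑ j, c i j * (a : ℤ) ^ (e' j)) P ≠ 0 := by
    intro L hL m a K RR nn hSL ha hab hsplit hcase hrow
    set V := smallVec RR K with hV
    set l : Fin r → ℕ := fun j => ∑ v ∈ V, nn v * v j with hl
    have he : (fun j => m j + l j) = e := funext hsplit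
    set kp : Fin r → ({v // v ∈ V} →₀ ℕ) := fun j =>
      Finsupp.equivFunOnFinite.symm fun v => v.1 j with hkp
    have hkpv : ∀ j v, kp j v = v.1 j := fun j v => rfl
    have hrowV : ∀ α β : Fin r →₀ ℕ, (fun j => (α j : ℤ) - β j) ∈ RR → ∀ v ∈ V,
        ∑ j, α j * v j = ∑ j, β j * v j := by
      intro α β h v hv
      have h1 : ∑ j, ((α j : ℤ) - β j) * (v j : ℤ) = 0 := ((mem_smallVec RR K v).1 hv).2 _ h
      have h2 : ∑ j, ((α j : ℤ) - β j) * (v j : ℤ) =
          ((∑ j, α j * v j : ℕ) : ℤ) - ((∑ j, β j * v j : ℕ) : ℤ) := by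
        push_cast
        rw [← Finset.sum_sub_distrib]
        exact Finset.sum_congr rfl fun j _ => by ring
      rw [h2] at h1
      omega
    have hexl : ∀ α : Fin r →₀ ℕ, exn l α = ∑ v ∈ V, nn v * ∑ j, α j * v j := by
      intro α
      unfold exn
      rw [hl]
      simp_rw [Finset.mul_sum]
      rw [Finset.sum_comm]
      refine Finset.sum_congr rfl fun v _ => Finset.sum_congr rfl fun j _ => by ring
    have hclose : ∀ α β : Fin r →₀ ℕ, ∑ j, α j ≤ d → ∑ j, β j ≤ d →
        exn e α < exn e β + L → exn e β < exn e α + L →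
        exn l α = exn l β ∧ gkap kp α = gkap kp β := by
      intro α β hα hβ h1 h2
      have h3 := hrowV α β (hrow α β hα hβ h1 h2)
      constructor
      · rw [hexl, hexl]
        exact Finset.sum_congr rfl fun v hv => by rw [h3 v hv]
      · ext v
        unfold gkap
        rw [Finsupp.coe_finsetSum, Finsupp.coe_finsetSum, Finset.sum_apply, Finset.sum_apply]
        exact h3 v.1 v.2
    -- the polynomial for `P`
    set Q := bind₁ (fun i => li (c i)) P with hQ
    have hevQ : ∀ (w : Fin r → ℤ) (F : MvPolynomial (Fin n) ℤ),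
        eval w (bind₁ (fun i => li (c i)) F) = eval (fun i => ∑ j, c i j * w j) F := by
      intro w F
      rw [eval_bind]
      congr 1
      congr 1
      funext i
      unfold li
      rw [map_sum]
      exact Finset.sum_congr rfl fun j _ => by simp
    have hmain : ∀ (q : {v // v ∈ V} → ℕ) (j : Fin r),
        (b : ℤ) ^ (m j) * (a : ℤ) ^ (∑ v, q v * kp j v) =
          (a : ℤ) ^ (m j + ∑ v, q v * kp j v) := by
      intro q j
      rcases hcase with h | h
      · rw [h, pow_add]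
      · rw [h j, pow_zero, one_mul, zero_add]
    have hQ0 : gsub (b : ℤ) m kp Q ≠ 0 := by
      intro h
      have h1 := gsub_eval (b : ℤ) m kp (b : ℤ) (fun v => nn v.1) Q
      rw [h, map_zero] at h1
      apply hP0
      rw [hQ, hevQ] at h1
      rw [h1]
      congr 1
      congr 1
      funext i
      refine Finset.sum_congr rfl fun j _ => ?_
      rw [← pow_add]
      congr 2
      rw [← hsplit j]
      congr 1
      exact (Finset.sum_coe_sort V (fun v => nn v * v j)).symm
    obtain ⟨q, hq1, hq2⟩ := exists_powers a ha (gsub (b : ℤ) m kp Q) hQ0 (D * (K + 1))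
      (gsub_degree (b : ℤ) m kp Q D (K + 1) (fun α hα => bind_degree c P D hP α hα)
        (fun j v => ((mem_smallVec RR K v.1).1 v.2).1 j))
    refine ⟨fun j => m j + ∑ v, q v * kp j v, fun j => ?_, fun F hFF => ?_, ?_⟩
    · refine Nat.add_le_add_left ?_ _
      calc ∑ v, q v * kp j v ≤ ∑ _v : {v // v ∈ V}, D * (K + 1) * (K + 1) :=
            Finset.sum_le_sum fun v _ => Nat.mul_le_mul (hq1 v)
              (((mem_smallVec RR K v.1).1 v.2).1 j)
        _ = V.card * (D * (K + 1) * (K + 1)) := by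
            rw [Finset.sum_const, Finset.card_univ, Fintype.card_coe, smul_eq_mul]
        _ ≤ (K + 2) ^ r * (D * (K + 1) * (K + 1)) := by
            refine Nat.mul_le_mul_right _ ?_
            rw [hV]
            unfold smallVec
            refine (Finset.card_filter_le _ _).trans ?_
            rw [Fintype.card_piFinset]
            simp
        _ = _ := by ring
    · have h1 : gsub (b : ℤ) m kp (bind₁ (fun i => li (c i)) F) = 0 := by
        refine gsub_vanish b hb L hL m l kp _ ?_ ?_ ?_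
        · have h2 := bind_nz c B hc hrB F d (hFd F hFF)
          have h3 : nz F * (r * B : ℤ) ^ d ≤ A * (r * B : ℤ) ^ d :=
            mul_le_mul_of_nonneg_right (hFA F hFF) (by positivity)
          have h4 : (1 : ℤ) ≤ (r * B : ℤ) ^ d := by exact_mod_cast hP1
          have h5 : (((1 + A) * (r * B) ^ d : ℕ) : ℤ) ≤ (b : ℤ) ^ L := by exact_mod_cast hSL
          push_cast at h5
          nlinarith
        · intro α hα β hβ h
          rw [he] at h
          exact hclose α β (bind_degree c F d (hFd F hFF) α hα)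
            (bind_degree c F d (hFd F hFF) β hβ) h.1 h.2
        · rw [hevQ]
          have h2 := h0 F hFF
          rw [← h2]
          congr 1
          congr 1
          funext i
          refine Finset.sum_congr rfl fun j _ => ?_
          rw [← he]
      have h2 := gsub_eval (b : ℤ) m kp (a : ℤ) q (bind₁ (fun i => li (c i)) F)
      rw [h1, map_zero, hevQ] at h2
      rw [h2]
      congr 1
      congr 1
      funext i
      refine Finset.sum_congr rfl fun j _ => ?_
      rw [hmain]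
    · rw [gsub_eval, hQ, hevQ] at hq2
      intro h
      apply hq2
      rw [← h]
      congr 1
      congr 1
      funext i
      refine Finset.sum_congr rfl fun j _ => ?_
      rw [hmain]
  -- facts about rows
  have hrow : ∀ (α β : Fin r →₀ ℕ) (w : Fin r → ℕ), ∑ j, ((α j : ℤ) - β j) * (w j : ℤ) =
      (exn w α : ℤ) - exn w β := by
    intro α β w
    unfold exn
    push_cast
    rw [← Finset.sum_sub_distrib]
    exact Finset.sum_congr rfl fun j _ => by ring
  have hrowsum : ∀ α β : Fin r →₀ ℕ, ∑ j, α j ≤ d → ∑ j, β j ≤ d →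
      ∑ j, |(α j : ℤ) - β j| ≤ ((2 * d : ℕ) : ℤ) := by
    intro α β h1 h2
    have h3 : ∀ j, |(α j : ℤ) - β j| ≤ (α j : ℤ) + β j := by
      intro j
      rw [abs_le]
      constructor <;> omega
    calc ∑ j, |(α j : ℤ) - β j| ≤ ∑ j, ((α j : ℤ) + β j) := Finset.sum_le_sum fun j _ => h3 j
      _ = ((∑ j, α j + ∑ j, β j : ℕ) : ℤ) := by
        push_cast
        rw [Finset.sum_add_distrib]
      _ ≤ ((2 * d : ℕ) : ℤ) := by
        exact_mod_cast (by omega)
  have h4d : 2 * (2 * d) = 4 * d := by ring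
  rcases lt_or_ge b S0 with hbS | hbS
  · -- small base
    set L := Nat.clog b S0 with hLdef
    have hL1 : 1 ≤ L := Nat.clog_pos (by omega) hS02
    have hSL : S0 ≤ b ^ L := Nat.le_pow_clog (by omega) _
    have hLS : b ^ L ≤ S0 ^ 2 := by
      obtain ⟨L', hL'⟩ : ∃ L', L = L' + 1 := ⟨L - 1, by omega⟩
      have h1 : b ^ L' < S0 := by
        rw [← Nat.lt_clog_iff_pow_lt (by omega)]
        omega
      rw [hL', pow_succ, pow_two]
      exact Nat.mul_le_mul h1.le hbS.le
    set RR : Set (Fin r → ℤ) := {R | ∃ α β : Fin r →₀ ℕ, ∑ j, α j ≤ d ∧ ∑ j, β j ≤ d ∧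
      (exn e α < exn e β + L ∧ exn e β < exn e α + L) ∧ R = fun j => (α j : ℤ) - β j} with hRR
    obtain ⟨m', nn, hm', hsplit⟩ := reduce_dec (2 * d) L (by omega) hL1 RR (by
      rintro R ⟨α, β, h1, h2, _, rfl⟩
      exact hrowsum α β h1 h2) (∑ j, e j) e
      (fun j => Finset.single_le_sum (f := e) (fun _ _ => Nat.zero_le _) (Finset.mem_univ j)) (by
      rintro R ⟨α, β, h1, h2, h3, rfl⟩
      rw [hrow, abs_le]
      constructor <;> omega)
    rw [h4d, ← hκ] at hm' hsplit
    obtain ⟨e', he', h1, h2⟩ := main L hL1 m' b κ RR nn hSL hb le_rfl (fun j => (hsplit j).symm)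
      (Or.inl rfl) (fun α β hα hβ h3 h4 => ⟨α, β, hα, hβ, ⟨h3, h4⟩, rfl⟩)
    refine ⟨b, e', hb, le_rfl, hbS.le, fun j => ?_, h1, h2⟩
    rw [hHH]
    have h5 : (κ + 2) ^ r * (D * (κ + 1)) * (κ + 1) ≤
        (2 * κ + 2) ^ r * (D * (2 * κ + 1)) * (2 * κ + 1) := by
      gcongr <;> omega
    calc b ^ (e' j) ≤ b ^ (2 * κ * L + (κ + 2) ^ r * (D * (κ + 1)) * (κ + 1)) := by
          refine Nat.pow_le_pow_right (by omega) ((he' j).trans ?_)
          have := hm' j
          omega
      _ = (b ^ L) ^ (2 * κ) * b ^ ((κ + 2) ^ r * (D * (κ + 1)) * (κ + 1)) := by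
          rw [pow_add, ← pow_mul]
          congr 2
          ring
      _ ≤ (S0 ^ 2) ^ (2 * κ) * S0 ^ ((κ + 2) ^ r * (D * (κ + 1)) * (κ + 1)) := by
          gcongr
      _ ≤ (S0 ^ 2) ^ (2 * κ) * S0 ^ ((2 * κ + 2) ^ r * (D * (2 * κ + 1)) * (2 * κ + 1)) := by
          refine Nat.mul_le_mul_left _ (Nat.pow_le_pow_right (by omega) h5)
      _ = S0 ^ (4 * κ + (2 * κ + 2) ^ r * (D * (2 * κ + 1)) * (2 * κ + 1)) := by
          rw [pow_add, ← pow_mul]
          congr 2
          ring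
  · -- large base
    set RR : Set (Fin r → ℤ) := {R | ∃ α β : Fin r →₀ ℕ, ∑ j, α j ≤ d ∧ ∑ j, β j ≤ d ∧
      exn e α = exn e β ∧ R = fun j => (α j : ℤ) - β j} with hRR
    have hRe : ∀ R ∈ RR, ∑ j, R j * (e j : ℤ) = 0 := by
      rintro R ⟨α, β, h1, h2, h3, rfl⟩
      rw [hrow, h3, sub_self]
    obtain ⟨m', nn, hm', hsplit⟩ := reduce_dec (2 * d) 1 (by omega) le_rfl RR (by
      rintro R ⟨α, β, h1, h2, _, rfl⟩
      exact hrowsum α β h1 h2) (∑ j, e j) e
      (fun j => Finset.single_le_sum (f := e) (fun _ _ => Nat.zero_le _) (Finset.mem_univ j)) (by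
      intro R hR
      rw [hRe R hR, abs_zero]
      norm_num)
    rw [h4d, ← hκ] at hm' hsplit
    have hm0 : ∀ R ∈ RR, ∑ j, R j * (m' j : ℤ) = 0 := by
      intro R hR
      have h1 := hRe R hR
      have h2 : ∑ j, R j * (e j : ℤ) = ∑ j, R j * (m' j : ℤ) +
          ∑ v ∈ smallVec RR κ, (nn v : ℤ) * ∑ j, R j * (v j : ℤ) := by
        simp_rw [Finset.mul_sum]
        rw [Finset.sum_comm, ← Finset.sum_add_distrib]
        refine Finset.sum_congr rfl fun j _ => ?_
        rw [hsplit j]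
        push_cast
        rw [mul_add, Finset.mul_sum]
        congr 1
        exact Finset.sum_congr rfl fun v _ => by ring
      have h3 : ∑ v ∈ smallVec RR κ, (nn v : ℤ) * ∑ j, R j * (v j : ℤ) = 0 := by
        refine Finset.sum_eq_zero fun v hv => ?_
        rw [((mem_smallVec RR κ v).1 hv).2 R hR, mul_zero]
      rw [h2, h3, add_zero] at h1
      exact h1
    have hm'mem : m' ∈ smallVec RR (2 * κ) := by
      rw [mem_smallVec]
      exact ⟨fun j => by have := hm' j; omega, hm0⟩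
    have hsub : smallVec RR κ ⊆ smallVec RR (2 * κ) := by
      intro v hv
      rw [mem_smallVec] at hv ⊢
      exact ⟨fun j => by have := hv.1 j; omega, hv.2⟩
    obtain ⟨e', he', h1, h2⟩ := main 1 le_rfl (fun _ => 0) 2 (2 * κ) RR
      (fun v => (if v ∈ smallVec RR κ then nn v else 0) + if v = m' then 1 else 0)
      (by rwa [pow_one]) le_rfl hb (fun j => by
        rw [zero_add, hsplit j]
        simp_rw [add_mul]
        rw [Finset.sum_add_distrib, add_comm]
        congr 1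
        · simp_rw [ite_mul, one_mul, zero_mul]
          rw [Finset.sum_ite_eq' _ m' (fun v => v j), if_pos hm'mem]
        · simp_rw [ite_mul, zero_mul]
          rw [← Finset.sum_filter]
          congr 1
          ext v
          rw [Finset.mem_filter]
          exact ⟨fun h => h.2, fun h => ⟨hsub h, h⟩⟩)
      (Or.inr fun _ => rfl) (fun α β hα hβ h3 h4 => ⟨α, β, hα, hβ, by omega, rfl⟩)
    refine ⟨2, e', le_rfl, hb, hS02, fun j => ?_, h1, h2⟩
    rw [hHH]
    calc 2 ^ (e' j) ≤ 2 ^ ((2 * κ + 2) ^ r * (D * (2 * κ + 1)) * (2 * κ + 1)) :=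
          Nat.pow_le_pow_right (by omega) (by have := he' j; omega)
      _ ≤ S0 ^ ((2 * κ + 2) ^ r * (D * (2 * κ + 1)) * (2 * κ + 1)) :=
          Nat.pow_le_pow_left hS02 _
      _ ≤ S0 ^ (4 * κ + (2 * κ + 2) ^ r * (D * (2 * κ + 1)) * (2 * κ + 1)) :=
          Nat.pow_le_pow_right (by omega) (by omega)

end Pool.Agent.H458.Sp
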