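import Mathlib
import Pool.Agent.H458.Sp.Param
import Pool.Agent.H458.Sp.SmallSol
import Pool.Agent.H458.Sp.Formula

set_option autoImplicit false

/-! # Infinitude of the set of sparse rational zeros -/

namespace Pool.Agent.H458.Sp

open Finset MvPolynomial

variable {r n : ℕ}

/-- the polynomial curve of `param`, in explicit form -/
theorem param_explicit (FF : Set (MvPolynomial (Fin n) ℤ)) (d : ℕ) (hd : 1 ≤ d) (A : ℕ)
    (hA : 1 ≤ A) (hFd : ∀ F ∈ FF, F.totalDegree ≤ d) (hFA : ∀ F ∈ FF, nz F ≤ A)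
    (b : ℕ) (hb : 2 ≤ b) (B : ℕ) (hrB : 1 ≤ r * B) (e : Fin r → ℕ) (c : Fin n → Fin r → ℤ)
    (hc : ∀ i j, |c i j| ≤ B) (x : Fin n → ℤ) (hx : ∀ i, x i = ∑ j, c i j * (b : ℤ) ^ (e j))
    (h0 : ∀ F ∈ FF, eval x F = 0) :
    ∃ m l : Fin r → ℕ, (∀ j, m j + l j = e j) ∧
      (∀ F ∈ FF, aeval (fun i => sub (b : ℤ) m l (li (c i))) F = 0) ∧
      ∀ i k, |(sub (b : ℤ) m l (li (c i))).coeff k| ≤
        ((r * B * ((1 + A) * (r * B) ^ d) ^ (4 * (4 * d) ^ r) : ℕ) : ℤ) := by
  classical
  set S := (1 + A) * (r * B) ^ d with hS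
  have hP1 : 1 ≤ (r * B) ^ d := Nat.one_le_pow _ _ hrB
  have hS2 : 2 ≤ S := by
    rw [hS]
    nlinarith
  have hev : ∀ i, eval (fun j => (b : ℤ) ^ (e j)) (li (c i)) = x i := by
    intro i
    rw [eval_li, hx]
    exact Finset.sum_congr rfl fun j _ => mul_comm _ _
  rcases Nat.lt_or_ge b S with hbS | hbS
  · set L := Nat.clog b S with hLdef
    have hL1 : 1 ≤ L := Nat.clog_pos (by omega) hS2
    have hSL : S ≤ b ^ L := Nat.le_pow_clog (by omega) _
    have hLS : b ^ L ≤ S ^ 2 := by
      obtain ⟨L', hL'⟩ : ∃ L', L = L' + 1 := ⟨L - 1, by omega⟩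
      have h1 : b ^ L' < S := by
        rw [← Nat.lt_clog_iff_pow_lt (by omega)]
        omega
      rw [hL', pow_succ, pow_two]
      exact Nat.mul_le_mul h1.le hbS.le
    obtain ⟨m, l, hml, hm, _, htr⟩ := transfer0 b hb d hd L hL1 e
    set f := 2 * (4 * d) ^ r * L with hf
    refine ⟨m, l, hml, ?_, ?_⟩
    · intro F hF
      have h1 := htr (bind₁ (fun i => li (c i)) F) (bind_degree c F d (hFd F hF)) ?_ ?_
      · unfold sub at h1 ⊢
        rwa [aeval_bind₁] at h1
      · have h2 := bind_nz c B hc hrB F d (hFd F hF)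
        have h3 : nz F * (r * B : ℤ) ^ d ≤ A * (r * B : ℤ) ^ d :=
          mul_le_mul_of_nonneg_right (hFA F hF) (by positivity)
        have h4 : (1 : ℤ) ≤ (r * B : ℤ) ^ d := by exact_mod_cast hP1
        have h5 : (((1 + A) * (r * B) ^ d : ℕ) : ℤ) ≤ (b : ℤ) ^ L := by exact_mod_cast hSL
        push_cast at h5
        nlinarith
      · rw [eval_bind]
        simp only [hev]
        exact h0 F hF
    · intro i k
      refine (sub_coeff_le b hb m l (li (c i)) f (fun α hα => ?_) k).trans ?_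
      · have h2 := li_homog (c i) (mem_support_iff.1 hα)
        rw [Finsupp.weight_apply, Finsupp.sum_fintype _ _ (by simp)] at h2
        have h3 : ∑ j, α j = 1 := by simpa using h2
        have := exn_le m f hm α 1 h3.le
        rwa [one_mul] at this
      · calc nz (li (c i)) * (b : ℤ) ^ f ≤ (r * B : ℤ) * (b : ℤ) ^ f :=
              mul_le_mul_of_nonneg_right (li_nz _ _ (hc i)) (by positivity)
          _ = ((r * B * b ^ f : ℕ) : ℤ) := by push_cast; ring
          _ ≤ _ := by
            have h2 : b ^ f ≤ S ^ (4 * (4 * d) ^ r) := by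
              calc b ^ f = (b ^ L) ^ (2 * (4 * d) ^ r) := by
                    rw [← pow_mul, hf]
                    congr 1
                    ring
                _ ≤ (S ^ 2) ^ (2 * (4 * d) ^ r) := Nat.pow_le_pow_left hLS _
                _ = S ^ (4 * (4 * d) ^ r) := by
                    rw [← pow_mul]
                    congr 1
                    ring
            exact_mod_cast Nat.mul_le_mul_left _ h2
  · refine ⟨fun _ => 0, e, fun j => by simp, ?_, ?_⟩
    · intro F hF
      have h1 := sub_vanish_large b hb e (bind₁ (fun i => li (c i)) F) ?_ ?_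
      · unfold sub at h1 ⊢
        rwa [aeval_bind₁] at h1
      · have h2 := bind_nz c B hc hrB F d (hFd F hF)
        have h3 : nz F * (r * B : ℤ) ^ d ≤ A * (r * B : ℤ) ^ d :=
          mul_le_mul_of_nonneg_right (hFA F hF) (by positivity)
        have h4 : (1 : ℤ) ≤ (r * B : ℤ) ^ d := by exact_mod_cast hP1
        have h5 : (((1 + A) * (r * B) ^ d : ℕ) : ℤ) ≤ (b : ℤ) := by exact_mod_cast hbS
        push_cast at h5
        nlinarith
      · rw [eval_bind]
        simp only [hev]
        exact h0 F hF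
    · intro i k
      refine (sub_coeff_le b hb (fun _ => 0) e (li (c i)) 0 (fun α _ => by simp [exn]) k).trans ?_
      rw [pow_zero, mul_one]
      refine (li_nz _ _ (hc i)).trans ?_
      have h2 : 1 ≤ S ^ (4 * (4 * d) ^ r) := Nat.one_le_pow _ _ (by omega)
      have h3 : r * B ≤ r * B * S ^ (4 * (4 * d) ^ r) := Nat.le_mul_of_pos_right _ h2
      exact_mod_cast h3

/-- values of the curve at powers of the base -/
theorem sub_li_eval_pow (b : ℤ) (m l : Fin r → ℕ) (c : Fin r → ℤ) (N : ℕ) :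
    (sub b m l (li c)).eval (b ^ N) = ∑ j, c j * b ^ (m j + N * l j) := by
  unfold sub li
  rw [map_sum, Polynomial.eval_finsetSum]
  refine Finset.sum_congr rfl fun j _ => ?_
  rw [map_mul, aeval_X, Polynomial.eval_mul]
  have h1 : (aeval (fun j => Polynomial.C (b ^ m j) * Polynomial.X ^ l j))
      (C (c j) : MvPolynomial (Fin r) ℤ) = Polynomial.C (c j) := by
    rw [aeval_C]
    rfl
  rw [h1, Polynomial.eval_C]
  simp only [Polynomial.eval_mul, Polynomial.eval_C, Polynomial.eval_pow, Polynomial.eval_X]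
  rw [pow_add, pow_mul]

theorem fin_powers (g : Polynomial ℤ) (hg : g ≠ 0) (b : ℕ) (hb : 2 ≤ b) :
    {N : ℕ | g.eval ((b : ℤ) ^ N) = 0}.Finite := by
  have h1 : {x : ℤ | g.eval x = 0}.Finite := by
    refine (g.roots.toFinset.finite_toSet).subset fun a ha => ?_
    exact Finset.mem_coe.2 (Multiset.mem_toFinset.2 ((Polynomial.mem_roots hg).2 ha))
  refine Set.Finite.preimage (f := fun N : ℕ => (b : ℤ) ^ N) ?_ h1
  intro i _ j _ hij
  have h2 : b ^ i = b ^ j := by
    have h3 : (b : ℤ) ^ i = (b : ℤ) ^ j := hij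
    exact_mod_cast h3
  exact Nat.pow_right_injective hb h2

/-- height of a rational number -/
def height (x : ℚ) : ℕ := max x.num.natAbs x.den

theorem height_le_iff (x : ℚ) (M : ℕ) :
    height x ≤ M ↔ ∃ u v : ℤ, |u| ≤ M ∧ 1 ≤ v ∧ v ≤ M ∧ (v : ℚ) * x = u := by
  unfold height
  constructor
  · intro h
    have h1 : x.num.natAbs ≤ M := (le_max_left _ _).trans h
    have h2 : x.den ≤ M := (le_max_right _ _).trans h
    refine ⟨x.num, x.den, ?_, ?_, ?_, ?_⟩
    · rw [Int.abs_eq_natAbs]
      exact_mod_cast h1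
    · exact_mod_cast x.den_pos
    · exact_mod_cast h2
    · rw [mul_comm]
      push_cast
      exact Rat.mul_den_eq_num x
  · rintro ⟨u, v, h1, h2, h3, h4⟩
    have hv : (v : ℚ) ≠ 0 := by
      have : v ≠ 0 := by omega
      exact_mod_cast this
    have hx : x = Rat.divInt u v := by
      rw [Rat.divInt_eq_div, eq_div_iff hv, mul_comm]
      exact h4
    have h5 : (x.den : ℤ) ∣ v := by
      rw [hx]
      exact Rat.den_dvd u v
    have h6 : x.num ∣ u := by
      rw [hx]
      exact Rat.num_dvd u (by omega)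
    refine max_le ?_ ?_
    · rcases eq_or_ne u 0 with hu | hu
      · have hx0 : x = 0 := by
          rw [hu, Int.cast_zero] at h4
          exact (mul_eq_zero.1 h4).resolve_left hv
        rw [hx0]
        simp
      · have h7 := Nat.le_of_dvd (Int.natAbs_pos.2 hu) (Int.natAbs_dvd_natAbs.2 h6)
        rw [Int.abs_eq_natAbs] at h1
        have : u.natAbs ≤ M := by exact_mod_cast h1
        omega
    · have h7 := Int.le_of_dvd (by omega) h5
      omega

theorem finite_height (M : ℕ) : {x : ℚ | height x ≤ M}.Finite := by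
  refine (((Set.finite_Icc (-(M : ℤ)) M).prod (Set.finite_Icc (1 : ℤ) M)).image
    (fun p : ℤ × ℤ => (p.1 : ℚ) / p.2)).subset ?_
  intro x hx
  obtain ⟨u, v, h1, h2, h3, h4⟩ := (height_le_iff x M).1 hx
  refine ⟨(u, v), ⟨?_, ?_⟩, ?_⟩
  · exact ⟨(abs_le.1 h1).1, (abs_le.1 h1).2⟩
  · exact ⟨h2, h3⟩
  · have hv : (v : ℚ) ≠ 0 := by
      have : v ≠ 0 := by omega
      exact_mod_cast this
    show (u : ℚ) / v = x
    rw [div_eq_iff hv, ← h4]
    ring

end Pool.Agent.H458.Sp
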