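import Mathlib
import Pool.Agent.H458.Sp.Infin
import Pool.Agent.H458.Sp.UCount

set_option autoImplicit false

/-! # Joining two sparse zeros in the same class -/

namespace Pool.Agent.H458.Sp

open Finset MvPolynomial

variable {r n : ℕ}

theorem bind_homog (c : Fin n → Fin r → ℤ) (P : MvPolynomial (Fin n) ℤ) (d : ℕ)
    (hP : P.IsHomogeneous d) (α : Fin r →₀ ℕ)
    (hα : α ∈ (bind₁ (fun i => li (c i)) P).support) : ∑ j, α j = d := by
  have h1 : (bind₁ (fun i => li (c i)) P).IsHomogeneous (1 * d) :=
    hP.aeval _ (fun i => li_homog (c i))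
  have h2 := h1 (mem_support_iff.1 hα)
  rw [Finsupp.weight_apply, Finsupp.sum_fintype _ _ (by simp)] at h2
  simpa using h2

theorem bind_card (c : Fin n → Fin r → ℤ) (P : MvPolynomial (Fin n) ℤ) (d : ℕ)
    (hP : P.IsHomogeneous d) :
    (bind₁ (fun i => li (c i)) P).support.card ≤ (d + 1) ^ r := by
  classical
  have h1 : (Fintype.piFinset (fun _ : Fin r => range (d + 1))).card = (d + 1) ^ r := by
    rw [Fintype.card_piFinset]
    simp
  rw [← h1]
  refine Finset.card_le_card_of_injOn (fun α => (α : Fin r → ℕ)) ?_ ?_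
  · intro α hα
    rw [Finset.mem_coe, Fintype.mem_piFinset]
    intro j
    rw [Finset.mem_range]
    show α j < d + 1
    have h2 := bind_homog c P d hP α hα
    have h3 : α j ≤ ∑ i, α i :=
      Finset.single_le_sum (f := fun i => α i) (fun _ _ => Nat.zero_le _) (Finset.mem_univ j)
    omega
  · intro α _ β _ h
    exact DFunLike.coe_injective h

/-- two exponent vectors of the same class are joined by a polynomial curve -/
theorem joined (P : MvPolynomial (Fin n) ℤ) (d : ℕ) (hP : P.IsHomogeneous d) (b : ℕ)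
    (c : Fin n → Fin r → ℤ) (e e' : Fin r → ℕ)
    (hcomp : ∀ v : ℤ, ∑ α ∈ (bind₁ (fun i => li (c i)) P).support.filter
      (fun α => ((exn e' α : ℕ) : ℤ) - exn e α = v),
      coeff α (bind₁ (fun i => li (c i)) P) * (b : ℤ) ^ (exn e α) = 0) :
    ∃ p : Fin n → Polynomial ℤ, aeval p P = 0 ∧
      (∀ i, (p i).eval 1 = ∑ j, c i j * (b : ℤ) ^ (e j)) ∧
      ∃ K : ℕ, ∀ i, (p i).eval (b : ℤ) = (b : ℤ) ^ K * ∑ j, c i j * (b : ℤ) ^ (e' j) := by
  classical
  set K := ∑ j, e j with hK
  have heK : ∀ j, e j ≤ K := fun j =>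
    Finset.single_le_sum (f := e) (fun _ _ => Nat.zero_le _) (Finset.mem_univ j)
  set l : Fin r → ℕ := fun j => e' j + (K - e j) with hl
  have hel : ∀ j, e j + l j = K + e' j := by
    intro j
    have := heK j
    rw [hl]
    simp only
    omega
  have hex : ∀ α : Fin r →₀ ℕ, ∑ j, α j = d → exn l α + exn e α = exn e' α + d * K := by
    intro α hα
    unfold exn
    rw [← Finset.sum_add_distrib, ← hα, Finset.sum_mul, ← Finset.sum_add_distrib]
    refine Finset.sum_congr rfl fun j _ => ?_
    rw [← mul_add, ← mul_add, add_comm (l j), hel, add_comm K]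
  refine ⟨fun i => sub (b : ℤ) e l (li (c i)), ?_, ?_, K, ?_⟩
  · have h1 : sub (b : ℤ) e l (bind₁ (fun i => li (c i)) P) = 0 := by
      ext w
      rw [sub_coeff, Polynomial.coeff_zero, ← hcomp ((w : ℤ) - d * K)]
      have h2 : (bind₁ (fun i => li (c i)) P).support.filter (fun α => w = exn l α) =
          (bind₁ (fun i => li (c i)) P).support.filter
            (fun α => ((exn e' α : ℕ) : ℤ) - exn e α = (w : ℤ) - d * K) := by
        refine Finset.filter_congr fun α hα => ?_
        have h3 := hex α (bind_homog c P d hP α hα)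
        have h4 : (exn l α : ℤ) + exn e α = exn e' α + d * K := by exact_mod_cast h3
        constructor
        · intro h
          rw [h]
          linarith
        · intro h
          have h5 : (w : ℤ) = exn l α := by linarith
          exact_mod_cast h5
      rw [h2]
      exact Finset.sum_congr rfl fun α _ => mul_comm _ _
    unfold sub at h1 ⊢
    rwa [aeval_bind₁] at h1
  · intro i
    have h1 := sub_li_eval_pow (b : ℤ) e l (c i) 0
    rw [pow_zero] at h1
    rw [h1]
    simp
  · intro i
    have h1 := sub_li_eval_pow (b : ℤ) e l (c i) 1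
    rw [pow_one] at h1
    rw [h1, Finset.mul_sum]
    refine Finset.sum_congr rfl fun j _ => ?_
    rw [one_mul, hel, pow_add]
    ring

end Pool.Agent.H458.Sp
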