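import Mathlib
import Pool.Agent.H458.Sp.Quad3
import Pool.Agent.H458.Sp.UJoin

set_option autoImplicit false

/-! # Rational points of twisted Fermat cubics over rational function fields are constant -/

namespace Pool.Agent.H458.Sp

open Polynomial Finset

theorem cube_prop (A : ℤ) (p0 p1 : ℤ[X]) (h1 : p1 ≠ 0)
    (h : p1 ^ 3 = C A * p0 ^ 3) (h0 : p0 ≠ 0) (b : ℤ) :
    C (p0.eval b) * p1 = C (p1.eval b) * p0 := by
  refine prop_of_wronskian p1 p0 h0 ?_ b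
  have h2 := congrArg derivative h
  rw [derivative_C_mul, derivative_pow, derivative_pow] at h2
  simp only [Nat.cast_ofNat, Nat.add_one_sub_one] at h2
  have h3 : (C 3 : ℤ[X]) = 3 := rfl
  rw [h3] at h2
  have hne : (3 * p1 ^ 3 : ℤ[X]) ≠ 0 := mul_ne_zero (by
    rw [show (3 : ℤ[X]) = C 3 from rfl, Ne, C_eq_zero]
    norm_num) (pow_ne_zero 3 h1)
  refine (mul_eq_zero.1 (?_ : 3 * p1 ^ 3 * (p1 * derivative p0 - derivative p1 * p0) =
    (0 : ℤ[X]))).resolve_left hne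
  linear_combination (3 * p1 * derivative p0) * h - (p1 * p0) * h2

theorem cubic_const (A : ℤ) (hA : A ≠ 0) (p0 p1 p2 : ℤ[X]) (h0 : p0 ≠ 0)
    (h : p1 ^ 3 + p2 ^ 3 = C A * p0 ^ 3) (b : ℤ) :
    C (p0.eval b) * p1 = C (p1.eval b) * p0 ∧ C (p0.eval b) * p2 = C (p2.eval b) * p0 := by
  classical
  by_cases h1 : p1 = 0
  · subst h1
    rw [zero_pow three_ne_zero, zero_add] at h
    have h2 : p2 ≠ 0 := by
      rintro rfl
      rw [zero_pow three_ne_zero] at h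
      have h3 : (C A * p0 ^ 3 : ℤ[X]) ≠ 0 :=
        mul_ne_zero (by rwa [Ne, C_eq_zero]) (pow_ne_zero 3 h0)
      exact h3 h.symm
    exact ⟨by simp, cube_prop A p0 p2 h2 h h0 b⟩
  by_cases h2 : p2 = 0
  · subst h2
    rw [zero_pow three_ne_zero, add_zero] at h
    exact ⟨cube_prop A p0 p1 h1 h h0 b, by simp⟩
  set φ : ℤ[X] →+* ℂ[X] := Polynomial.mapRingHom (Int.castRingHom ℂ) with hφ
  have hφinj : Function.Injective φ :=
    Polynomial.map_injective _ (RingHom.injective_int (Int.castRingHom ℂ))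
  have hφe : ∀ (g : ℤ[X]) (s : ℤ), (φ g).eval (s : ℂ) = ((g.eval s : ℤ) : ℂ) := by
    intro g s
    rw [hφ, Polynomial.coe_mapRingHom, Polynomial.eval_intCast_map]
    simp
  have hφC : ∀ z : ℤ, φ (C z) = C (z : ℂ) := by
    intro z
    rw [hφ]
    simp
  have hφ0 : ∀ g : ℤ[X], g ≠ 0 → φ g ≠ 0 := fun g hg h => hg (hφinj (by rw [h, map_zero]))
  obtain ⟨α, hα⟩ : ∃ α : ℂ, α ^ 3 = (A : ℂ) := IsAlgClosed.exists_pow_nat_eq _ (by norm_num)
  have hα0 : α ≠ 0 := by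
    rintro rfl
    rw [zero_pow three_ne_zero] at hα
    exact hA (by exact_mod_cast hα.symm)
  set P0 : ℂ[X] := C α * φ p0 with hP0
  have hP00 : P0 ≠ 0 := mul_ne_zero (by rwa [Ne, C_eq_zero]) (hφ0 p0 h0)
  have hid : φ p1 ^ 3 + φ p2 ^ 3 = P0 ^ 3 := by
    have h3 := congrArg φ h
    rw [map_add, map_mul, map_pow, map_pow, map_pow, hφC, ← hα] at h3
    rw [h3, hP0, mul_pow, C_pow]
  set g := EuclideanDomain.gcd (φ p1) (φ p2) with hg
  have hg0 : g ≠ 0 := fun h => hφ0 p1 h1 (EuclideanDomain.gcd_eq_zero_iff.1 h).1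
  obtain ⟨q1, hq1⟩ := EuclideanDomain.gcd_dvd_left (φ p1) (φ p2)
  obtain ⟨q2, hq2⟩ := EuclideanDomain.gcd_dvd_right (φ p1) (φ p2)
  rw [← hg] at hq1 hq2
  have hcop : IsCoprime q1 q2 := by
    refine ⟨EuclideanDomain.gcdA (φ p1) (φ p2), EuclideanDomain.gcdB (φ p1) (φ p2), ?_⟩
    have h1 : g = φ p1 * EuclideanDomain.gcdA (φ p1) (φ p2) +
        φ p2 * EuclideanDomain.gcdB (φ p1) (φ p2) := EuclideanDomain.gcd_eq_gcd_ab _ _
    refine mul_left_cancel₀ hg0 ?_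
    calc g * (EuclideanDomain.gcdA (φ p1) (φ p2) * q1 +
          EuclideanDomain.gcdB (φ p1) (φ p2) * q2) =
        (g * q1) * EuclideanDomain.gcdA (φ p1) (φ p2) +
          (g * q2) * EuclideanDomain.gcdB (φ p1) (φ p2) := by ring
      _ = g * 1 := by rw [← hq1, ← hq2, ← h1, mul_one]
  obtain ⟨q0, hq0⟩ : g ∣ P0 := by
    rw [← IsIntegrallyClosed.pow_dvd_pow_iff (three_ne_zero), ← hid, hq1, hq2, mul_pow, mul_pow]
    exact dvd_add (dvd_mul_right _ _) (dvd_mul_right _ _)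
  have hq1' : q1 ≠ 0 := by
    rintro rfl
    rw [mul_zero] at hq1
    exact hφ0 p1 h1 hq1
  have hq2' : q2 ≠ 0 := by
    rintro rfl
    rw [mul_zero] at hq2
    exact hφ0 p2 h2 hq2
  have hq0' : q0 ≠ 0 := by
    rintro rfl
    rw [mul_zero] at hq0
    exact hP00 hq0
  have hid2 : q1 ^ 3 + q2 ^ 3 = q0 ^ 3 := by
    refine mul_left_cancel₀ (pow_ne_zero 3 hg0) ?_
    rw [mul_add, ← mul_pow, ← mul_pow, ← mul_pow, ← hq1, ← hq2, ← hq0]
    exact hid
  obtain ⟨d1, d2, d0⟩ := Polynomial.flt (n := 3) le_rfl (by norm_num) hq1' hq2' hq0' hcop hid2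
  have hp0 : φ p0 = g * (C α⁻¹ * q0) := by
    have h3 : φ p0 = C α⁻¹ * P0 := by
      rw [hP0, ← mul_assoc, ← C_mul, inv_mul_cancel₀ hα0, C_1, one_mul]
    rw [h3, hq0]
    ring
  have d0' : (C α⁻¹ * q0).natDegree = 0 := by
    have := natDegree_C_mul_le α⁻¹ q0
    omega
  have key : ∀ (B : ℤ[X]) (x : ℂ[X]), φ B = g * x → x.natDegree = 0 →
      C (p0.eval b) * B = C (B.eval b) * p0 := by
    intro B x hB hx
    apply hφinj
    rw [map_mul, map_mul, hφC, hφC, ← hφe, ← hφe, hB, hp0,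
      eq_C_of_natDegree_eq_zero hx, eq_C_of_natDegree_eq_zero d0']
    simp only [eval_mul, eval_C, C_mul]
    ring
  exact ⟨key p1 q1 hq1 d1, key p2 q2 hq2 d2⟩

end Pool.Agent.H458.Sp
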