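import Mathlib
import Pool.Agent.H458.Sp.Transfer

set_option autoImplicit false

/-! # Integers with few nonzero digits -/

namespace Pool.Agent.H458.Sp

open Finset

/-- the pair `(x, y)` is a combination of `r` powers of `b`, the same for `x` and `y`, with
integral coefficients of absolute value at most `B` -/
def SparsePair (b r B : ℕ) (x y : ℤ) : Prop :=
  ∃ (e : Fin r → ℕ) (c c' : Fin r → ℤ), (∀ j, |c j| ≤ B) ∧ (∀ j, |c' j| ≤ B) ∧
    x = ∑ j, c j * (b : ℤ) ^ (e j) ∧ y = ∑ j, c' j * (b : ℤ) ^ (e j)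

/-- number of nonzero digits of `x` in base `b` -/
def nonzeroDigits (b : ℕ) (x : ℤ) : ℕ := ((Nat.digits b x.natAbs).filter (· ≠ 0)).length

theorem list_digits (b : ℕ) (l : List ℕ) (hl : ∀ a ∈ l, a < b) :
    ∃ (e : Fin (l.filter (· ≠ 0)).length → ℕ) (c : Fin (l.filter (· ≠ 0)).length → ℤ),
      (∀ j, |c j| ≤ b) ∧ ((Nat.ofDigits b l : ℕ) : ℤ) = ∑ j, c j * (b : ℤ) ^ (e j) := by
  induction l with
  | nil => exact ⟨fun _ => 0, fun _ => 0, by simp, by simp⟩
  | cons a t ih =>
    obtain ⟨e, c, h1, h2⟩ := ih fun a ha => hl a (List.mem_cons_of_mem _ ha)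
    by_cases ha : a = 0
    · subst ha
      have hf : ((0 :: t).filter (· ≠ 0)) = t.filter (· ≠ 0) := by simp
      rw [hf]
      refine ⟨fun j => e j + 1, c, h1, ?_⟩
      rw [Nat.ofDigits_cons, zero_add, Nat.cast_mul, h2, Finset.mul_sum]
      exact Finset.sum_congr rfl fun j _ => by ring
    · have hf : ((a :: t).filter (· ≠ 0)) = a :: t.filter (· ≠ 0) := by simp [ha]
      rw [hf, List.length_cons]
      refine ⟨Fin.cons 0 (fun j => e j + 1), Fin.cons (a : ℤ) c, ?_, ?_⟩
      · intro j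
        refine Fin.cases ?_ (fun j => ?_) j
        · have := hl a (List.mem_cons_self)
          simp only [Fin.cons_zero, Nat.abs_cast, Nat.cast_le]
          omega
        · simpa using h1 j
      · rw [Nat.ofDigits_cons, Fin.sum_univ_succ, Nat.cast_add, Nat.cast_mul, h2, Finset.mul_sum]
        simp only [Fin.cons_zero, Fin.cons_succ, pow_zero, mul_one]
        congr 1
        exact Finset.sum_congr rfl fun j _ => by ring

theorem digits_rep (b : ℕ) (hb : 2 ≤ b) (x : ℤ) :
    ∃ (e : Fin (nonzeroDigits b x) → ℕ) (c : Fin (nonzeroDigits b x) → ℤ),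
      (∀ j, |c j| ≤ b) ∧ x = ∑ j, c j * (b : ℤ) ^ (e j) := by
  obtain ⟨e, c, h1, h2⟩ := list_digits b (Nat.digits b x.natAbs) fun a ha =>
    Nat.digits_lt_base (by omega) ha
  rw [Nat.ofDigits_digits] at h2
  rcases Int.natAbs_eq x with hx | hx
  · exact ⟨e, c, h1, hx.trans h2⟩
  · refine ⟨e, fun j => - c j, fun j => by rw [abs_neg]; exact h1 j, ?_⟩
    refine hx.trans ?_
    rw [h2, ← Finset.sum_neg_distrib]
    exact Finset.sum_congr rfl fun j _ => by ring

/-- integers with few nonzero digits form sparse pairs -/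
theorem sparsePair_digits (b : ℕ) (hb : 2 ≤ b) (x y : ℤ) :
    SparsePair b (nonzeroDigits b x + nonzeroDigits b y) b x y := by
  obtain ⟨e1, c1, h1, h2⟩ := digits_rep b hb x
  obtain ⟨e2, c2, h3, h4⟩ := digits_rep b hb y
  refine ⟨Fin.append e1 e2, Fin.append c1 (fun _ => 0), Fin.append (fun _ => 0) c2, ?_, ?_, ?_, ?_⟩
  · intro j
    refine Fin.addCases (fun i => ?_) (fun i => ?_) j
    · simpa using h1 i
    · simp
  · intro j
    refine Fin.addCases (fun i => ?_) (fun i => ?_) j
    · simp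
    · simpa using h3 i
  · rw [Fin.sum_univ_add]
    simpa using h2
  · rw [Fin.sum_univ_add]
    simpa using h4

end Pool.Agent.H458.Sp
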