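import Mathlib
import Pool.Agent.H458.Sp.IntExp

set_option autoImplicit false

/-! # Coprime sparse integers give coprime polynomials -/

namespace Pool.Agent.H458.Sp

open Finset Polynomial

/-- a nonconstant common factor over `ℚ` comes from one over `ℤ` -/
theorem exists_common_factor (a b : ℤ[X]) (ha : a ≠ 0)
    (h : ¬ IsCoprime (a.map (Int.castRingHom ℚ)) (b.map (Int.castRingHom ℚ))) :
    ∃ D : ℤ[X], D.natDegree ≠ 0 ∧ D ∣ a ∧ D ∣ b := by
  classical
  set a' := a.map (Int.castRingHom ℚ) with ha'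
  set b' := b.map (Int.castRingHom ℚ) with hb'
  have hinj : Function.Injective (Int.castRingHom ℚ) := Int.cast_injective
  have ha0 : a' ≠ 0 := by
    rw [ha', Ne, Polynomial.map_eq_zero_iff hinj]
    exact ha
  set g := EuclideanDomain.gcd a' b' with hg
  have hgu : ¬ IsUnit g := fun hu => h (EuclideanDomain.gcd_isUnit_iff.1 hu)
  have hga : g ∣ a' := EuclideanDomain.gcd_dvd_left _ _
  have hgb : g ∣ b' := EuclideanDomain.gcd_dvd_right _ _
  have hg0 : g ≠ 0 := fun h0 => by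
    rw [h0, zero_dvd_iff] at hga
    exact ha0 hga
  have hgd : g.natDegree ≠ 0 := by
    intro h0
    apply hgu
    rw [natDegree_eq_zero] at h0
    obtain ⟨c, hc⟩ := h0
    rw [← hc]
    rw [← hc] at hg0
    exact isUnit_C.2 (isUnit_iff_ne_zero.2 fun h => hg0 (by rw [h, C_0]))
  set G := IsLocalization.integerNormalization (nonZeroDivisors ℤ) g with hG
  obtain ⟨c, hc, hcg⟩ := IsLocalization.integerNormalization_spec (nonZeroDivisors ℤ) g
  have hc0 : c ≠ 0 := nonZeroDivisors.ne_zero hc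
  have hcq : (c : ℚ) ≠ 0 := by exact_mod_cast hc0
  have hcg' : G.map (Int.castRingHom ℚ) = C (c : ℚ) * g := by
    have h1 : G.map (Int.castRingHom ℚ) = c • g := hcg
    rw [h1, ← Int.cast_smul_eq_zsmul ℚ, smul_eq_C_mul]
  have hG0 : G ≠ 0 := by
    intro h0
    rw [h0, Polynomial.map_zero] at hcg'
    exact mul_ne_zero (C_ne_zero.2 hcq) hg0 hcg'.symm
  have hGd : G.primPart.natDegree = g.natDegree := by
    rw [natDegree_primPart, ← natDegree_map_eq_of_injective hinj, hcg', natDegree_C_mul hcq]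
  have hdvd : G.primPart.map (Int.castRingHom ℚ) ∣ g := by
    have h1 : G.map (Int.castRingHom ℚ) =
        C ((G.content : ℤ) : ℚ) * G.primPart.map (Int.castRingHom ℚ) := by
      conv_lhs => rw [G.eq_C_content_mul_primPart]
      rw [Polynomial.map_mul, map_C]
      rfl
    refine ⟨C ((c : ℚ)⁻¹) * C ((G.content : ℤ) : ℚ), ?_⟩
    have h2 : g = C ((c : ℚ)⁻¹) * (C (c : ℚ) * g) := by
      rw [← mul_assoc, ← C_mul, inv_mul_cancel₀ hcq, C_1, one_mul]
    rw [h2, ← hcg', h1]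
    ring
  refine ⟨G.primPart, by rw [hGd]; exact hgd, ?_, ?_⟩
  · exact (IsPrimitive.Int.dvd_iff_map_cast_dvd_map_cast _ _ G.isPrimitive_primPart).2
      (hdvd.trans hga)
  · exact (IsPrimitive.Int.dvd_iff_map_cast_dvd_map_cast _ _ G.isPrimitive_primPart).2
      (hdvd.trans hgb)

theorem prod_gt_one (s : Multiset ℂ) (β : ℝ) (hs : ∀ ρ ∈ s, ‖ρ‖ < β - 1) :
    1 ≤ ‖(s.map (fun ρ => (β : ℂ) - ρ)).prod‖ ∧
      (s ≠ 0 → 1 < ‖(s.map (fun ρ => (β : ℂ) - ρ)).prod‖) := by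
  induction s using Multiset.induction_on with
  | empty => simp
  | cons a s ih =>
    obtain ⟨h1, _⟩ := ih fun ρ hρ => hs ρ (Multiset.mem_cons_of_mem hρ)
    have h2 : 1 < ‖(β : ℂ) - a‖ := by
      have h3 := hs a (Multiset.mem_cons_self a s)
      have h4 : ‖(β : ℂ)‖ - ‖a‖ ≤ ‖(β : ℂ) - a‖ := norm_sub_norm_le _ _
      have h5 : β ≤ ‖(β : ℂ)‖ := by
        rw [Complex.norm_real]
        exact le_abs_self _
      linarith
    have h3 : 1 < ‖((a ::ₘ s).map (fun ρ => (β : ℂ) - ρ)).prod‖ := by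
      rw [Multiset.map_cons, Multiset.prod_cons, norm_mul]
      nlinarith
    exact ⟨h3.le, fun _ => h3⟩

/-- a nonconstant integral polynomial whose roots are smaller than `β - 1` has a value larger than
`1` at `β` -/
theorem eval_gt_one (D : ℤ[X]) (hD : D.natDegree ≠ 0) (β : ℕ)
    (hroot : ∀ ρ : ℂ, aeval ρ D = 0 → ‖ρ‖ < (β : ℝ) - 1) : 1 < |D.eval (β : ℤ)| := by
  have hD0 : D ≠ 0 := by
    rintro rfl
    simp at hD
  set E := D.map (Int.castRingHom ℂ) with hE
  have hinj : Function.Injective (Int.castRingHom ℂ) := Int.cast_injective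
  have hE0 : E ≠ 0 := by
    rw [hE, Ne, Polynomial.map_eq_zero_iff hinj]
    exact hD0
  have hspl : E.Splits := IsAlgClosed.splits E
  have h1 := hspl.eval_eq_prod_roots (β : ℂ)
  have h2 := prod_gt_one E.roots (β : ℝ) (fun ρ hρ => hroot ρ (by
    have := (mem_roots hE0).1 hρ
    rw [IsRoot, hE, eval_map] at this
    rw [aeval_def]
    exact this))
  have hcard : E.roots ≠ 0 := by
    intro h0
    have h3 := hspl.natDegree_eq_card_roots
    rw [h0, Multiset.card_zero, hE, natDegree_map_eq_of_injective hinj] at h3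
    exact hD h3
  have h3 : 1 < ‖(E.roots.map (fun ρ => (β : ℂ) - ρ)).prod‖ := by
    have := h2.2 hcard
    simpa using this
  have h4 : (1 : ℝ) ≤ ‖E.leadingCoeff‖ := by
    rw [hE, leadingCoeff_map_of_injective hinj]
    have h5 : D.leadingCoeff ≠ 0 := leadingCoeff_ne_zero.2 hD0
    have h6 : 1 ≤ |D.leadingCoeff| := Int.one_le_abs h5
    simp only [eq_intCast, Complex.norm_intCast]
    exact_mod_cast h6
  have h5 : E.eval (β : ℂ) = ((D.eval (β : ℤ) : ℤ) : ℂ) := by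
    rw [hE, eval_natCast_map]
    rfl
  have h6 : (1 : ℝ) < |((D.eval (β : ℤ) : ℤ) : ℝ)| := by
    have h7 : ‖E.eval (β : ℂ)‖ = |((D.eval (β : ℤ) : ℤ) : ℝ)| := by
      rw [h5, Complex.norm_intCast]
    rw [← h7, h1, norm_mul]
    nlinarith
  exact_mod_cast h6

variable {r : ℕ}

/-- the substituted linear form -/
theorem sub_li (b : ℤ) (m l : Fin r → ℕ) (c : Fin r → ℤ) :
    sub b m l (li c) = ∑ j, C (c j * b ^ (m j)) * X ^ (l j) := by
  unfold sub li
  rw [map_sum]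
  refine Finset.sum_congr rfl fun j _ => ?_
  rw [map_mul, MvPolynomial.aeval_X, MvPolynomial.aeval_C, C_mul, mul_assoc]
  rfl

/-- roots of polynomials with large gaps and small coefficients are small -/
theorem root_bound (β : ℕ) (hβ : 4 ≤ β) (m l : Fin r → ℕ) (c : Fin r → ℤ) (f L : ℕ)
    (hf : ∀ j, m j ≤ f) (B : ℕ) (hc : ∀ j, |c j| ≤ B) (hL : r * B ≤ β ^ L) (hL1 : 1 ≤ L)
    (hgap : ∀ i j, l i < l j → l i + 2 * (f + L) ≤ l j)
    (h0 : sub (β : ℤ) m l (li c) ≠ 0) (ρ : ℂ) (hρ : aeval ρ (sub (β : ℤ) m l (li c)) = 0) :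
    ‖ρ‖ < (β : ℝ) - 1 := by
  classical
  set P := sub (β : ℤ) m l (li c) with hP
  by_contra hcon
  push Not at hcon
  have hβ' : (4 : ℝ) ≤ β := by exact_mod_cast hβ
  have hρ3 : 3 ≤ ‖ρ‖ := by linarith
  have hρ0 : 0 < ‖ρ‖ := by linarith
  set W := P.natDegree with hW
  set g := 2 * (f + L) with hg
  -- coefficients
  have hcoef : ∀ w, P.coeff w = ∑ j ∈ univ.filter (fun j => w = l j), c j * (β : ℤ) ^ (m j) := by
    intro w
    rw [hP, sub_li, finsetSum_coeff]
    simp_rw [coeff_C_mul_X_pow]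
    rw [← Finset.sum_filter]
  have hexists : ∀ w, P.coeff w ≠ 0 → ∃ j, l j = w := by
    intro w hw
    by_contra hno
    push Not at hno
    apply hw
    rw [hcoef, Finset.filter_false_of_mem (fun j _ => (hno j).symm), Finset.sum_empty]
  have hWc : P.coeff W ≠ 0 := by
    rw [hW]
    simpa using h0
  obtain ⟨j0, hj0⟩ := hexists W hWc
  -- the key inequality for the lower coefficients
  have hlow : ∀ w ∈ Finset.range W, |(P.coeff w : ℝ)| * ‖ρ‖ ^ w * ‖ρ‖ ^ g ≤
      |(P.coeff w : ℝ)| * ‖ρ‖ ^ W := by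
    intro w hw
    rw [Finset.mem_range] at hw
    by_cases h : P.coeff w = 0
    · simp [h]
    · obtain ⟨j, hj⟩ := hexists w h
      have h1 := hgap j j0 (by omega)
      rw [mul_assoc, ← pow_add]
      refine mul_le_mul_of_nonneg_left ?_ (abs_nonneg _)
      exact pow_le_pow_right₀ (by linarith) (by omega)
  have hsumc : ∑ w ∈ Finset.range W, |(P.coeff w : ℝ)| ≤ r * B * (β : ℝ) ^ f := by
    calc ∑ w ∈ Finset.range W, |(P.coeff w : ℝ)| ≤
        ∑ w ∈ Finset.range W, ∑ j ∈ univ.filter (fun j => w = l j), (B : ℝ) * (β : ℝ) ^ f := by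
          refine Finset.sum_le_sum fun w _ => ?_
          rw [hcoef]
          push_cast
          refine (Finset.abs_sum_le_sum_abs _ _).trans (Finset.sum_le_sum fun j _ => ?_)
          rw [abs_mul, abs_of_nonneg (by positivity : (0 : ℝ) ≤ (β : ℝ) ^ (m j))]
          have h1 : |(c j : ℝ)| ≤ B := by exact_mod_cast hc j
          have h2 : (β : ℝ) ^ (m j) ≤ (β : ℝ) ^ f := pow_le_pow_right₀ (by linarith) (hf j)
          exact mul_le_mul h1 h2 (by positivity) (by positivity)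
      _ = ∑ w ∈ Finset.range W, ∑ j : Fin r, if w = l j then (B : ℝ) * (β : ℝ) ^ f else 0 := by
          refine Finset.sum_congr rfl fun w _ => ?_
          rw [Finset.sum_filter]
      _ = ∑ j : Fin r, ∑ w ∈ Finset.range W, if w = l j then (B : ℝ) * (β : ℝ) ^ f else 0 :=
          Finset.sum_comm
      _ ≤ ∑ _j : Fin r, (B : ℝ) * (β : ℝ) ^ f := by
          refine Finset.sum_le_sum fun j _ => ?_
          rw [Finset.sum_ite_eq']
          split_ifs
          · exact le_rfl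
          · positivity
      _ = r * B * (β : ℝ) ^ f := by
          rw [Finset.sum_const, Finset.card_univ, Fintype.card_fin, nsmul_eq_mul, mul_assoc]
  -- evaluate
  have hev : aeval ρ P = ∑ w ∈ Finset.range W, (P.coeff w : ℂ) * ρ ^ w +
      (P.coeff W : ℂ) * ρ ^ W := by
    rw [aeval_eq_sum_range, ← hW, Finset.sum_range_succ]
    simp
  rw [hev] at hρ
  have h1 : ‖(P.coeff W : ℂ) * ρ ^ W‖ ≤ ∑ w ∈ Finset.range W, |(P.coeff w : ℝ)| * ‖ρ‖ ^ w := by
    have h2 : (P.coeff W : ℂ) * ρ ^ W = - ∑ w ∈ Finset.range W, (P.coeff w : ℂ) * ρ ^ w :=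
      (neg_eq_of_add_eq_zero_right hρ).symm
    rw [h2, norm_neg]
    refine (norm_sum_le _ _).trans (Finset.sum_le_sum fun w _ => ?_)
    rw [norm_mul, norm_pow, Complex.norm_intCast]
  have h2 : ‖ρ‖ ^ W ≤ ‖(P.coeff W : ℂ) * ρ ^ W‖ := by
    rw [norm_mul, norm_pow, Complex.norm_intCast]
    have h3 : (1 : ℝ) ≤ |(P.coeff W : ℝ)| := by
      have := Int.one_le_abs hWc
      exact_mod_cast this
    nlinarith [pow_pos hρ0 W]
  have h3 : ‖ρ‖ ^ g ≤ r * B * (β : ℝ) ^ f := by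
    have h4 : ‖ρ‖ ^ g * ‖ρ‖ ^ W ≤ (r * B * (β : ℝ) ^ f) * ‖ρ‖ ^ W := by
      calc ‖ρ‖ ^ g * ‖ρ‖ ^ W ≤ ‖ρ‖ ^ g * ∑ w ∈ Finset.range W, |(P.coeff w : ℝ)| * ‖ρ‖ ^ w :=
            mul_le_mul_of_nonneg_left (h2.trans h1) (by positivity)
        _ = ∑ w ∈ Finset.range W, |(P.coeff w : ℝ)| * ‖ρ‖ ^ w * ‖ρ‖ ^ g := by
            rw [Finset.mul_sum]
            exact Finset.sum_congr rfl fun w _ => by ring
        _ ≤ ∑ w ∈ Finset.range W, |(P.coeff w : ℝ)| * ‖ρ‖ ^ W := Finset.sum_le_sum hlow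
        _ = (∑ w ∈ Finset.range W, |(P.coeff w : ℝ)|) * ‖ρ‖ ^ W := by rw [Finset.sum_mul]
        _ ≤ _ := mul_le_mul_of_nonneg_right hsumc (by positivity)
    exact le_of_mul_le_mul_right h4 (by positivity)
  have h4 : (r : ℝ) * B * (β : ℝ) ^ f ≤ (β : ℝ) ^ (f + L) := by
    have h5 : (r : ℝ) * B ≤ (β : ℝ) ^ L := by exact_mod_cast hL
    rw [pow_add, mul_comm]
    exact mul_le_mul_of_nonneg_left h5 (by positivity)
  have h5 : (β : ℝ) ^ (f + L) < ‖ρ‖ ^ g := by
    rw [hg, pow_mul]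
    refine pow_lt_pow_left₀ ?_ (by positivity) (by omega)
    nlinarith
  linarith

end Pool.Agent.H458.Sp
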