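import Mathlib
import Pool.Agent.H458.Sp.Transfer0
import Pool.Agent.H458.Sp.Gcd

set_option autoImplicit false

/-! # The generalized Fermat equation in sparse coprime integers -/

namespace Pool.Agent.H458.Sp

open Finset MvPolynomial

variable {r : ℕ}

/-- a scale free of differences of exponents -/
theorem exists_scale (M L0 : ℕ) (hM : 1 ≤ M) (e : Fin r → ℕ) :
    ∃ L, L0 ≤ L ∧ L ≤ M ^ (r * r) * L0 ∧ ∀ i j, e j - e i < L ∨ M * L ≤ e j - e i := by
  classical
  by_contra hcon
  push Not at hcon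
  have h1 : ∀ k : Fin (r * r + 1), ∃ P : Fin r × Fin r,
      M ^ (k : ℕ) * L0 ≤ e P.2 - e P.1 ∧ e P.2 - e P.1 < M ^ ((k : ℕ) + 1) * L0 := by
    intro k
    have hk := k.2
    have hMk : 1 ≤ M ^ (k : ℕ) := Nat.one_le_pow _ _ hM
    obtain ⟨i, j, h2, h3⟩ := hcon (M ^ (k : ℕ) * L0) (Nat.le_mul_of_pos_left _ hMk)
      (Nat.mul_le_mul_right _ (Nat.pow_le_pow_right hM (by omega)))
    refine ⟨(i, j), h2, ?_⟩
    rw [pow_succ]
    calc e j - e i < M * (M ^ (k : ℕ) * L0) := h3
      _ = M ^ (k : ℕ) * M * L0 := by ring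
  choose P hP1 hP2 using h1
  have hcard : Fintype.card (Fin r × Fin r) < Fintype.card (Fin (r * r + 1)) := by
    rw [Fintype.card_prod, Fintype.card_fin, Fintype.card_fin]
    omega
  obtain ⟨k1, k2, hne, heq⟩ := Fintype.exists_ne_map_eq_of_card_lt P hcard
  wlog hlt : k1 < k2 generalizing k1 k2
  · exact this k2 k1 hne.symm heq.symm (lt_of_le_of_ne (not_lt.1 hlt) hne.symm)
  have h3 := hP2 k1
  have h4 := hP1 k2
  rw [heq] at h3
  have hlt' : (k1 : ℕ) + 1 ≤ k2 := hlt
  have h5 : M ^ ((k1 : ℕ) + 1) * L0 ≤ M ^ (k2 : ℕ) * L0 :=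
    Nat.mul_le_mul_right _ (Nat.pow_le_pow_right hM hlt')
  omega

/-- main theorem, base at least `4` -/
theorem fc_base (p q s : ℕ) (hp : 1 ≤ p) (hq : 1 ≤ q) (hs : 1 ≤ s)
    (hyp : q * s + s * p + p * q ≤ p * q * s) (u v w : ℤ) (hu : u ≠ 0) (hv : v ≠ 0) (hw : w ≠ 0)
    (β : ℕ) (hβ : 4 ≤ β) (B : ℕ) (e : Fin r → ℕ) (c : Fin 3 → Fin r → ℤ)
    (hc : ∀ i j, |c i j| ≤ B) (x : Fin 3 → ℤ) (hx : ∀ i, x i = ∑ j, c i j * (β : ℤ) ^ (e j))
    (hx0 : ∀ i, x i ≠ 0) (hcop : IsCoprime (x 0) (x 1))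
    (heq : u * x 0 ^ p + v * x 1 ^ q + w * x 2 ^ s = 0) (d : ℕ) (hpd : p ≤ d) (hqd : q ≤ d)
    (hsd : s ≤ d) (T : ℕ) (hT : |u| + |v| + |w| ≤ T) :
    ∀ i, |x i| ≤ ((r * B * (β * ((1 + T) * (r * B) ^ d)) ^ (8 * (4 * d) ^ r) ^ (r * r + 1) : ℕ) :
      ℤ) := by
  classical
  have hd : 1 ≤ d := hp.trans hpd
  have hb : 2 ≤ β := by omega
  have hb0 : (0 : ℤ) < β := by positivity
  have hrB : 1 ≤ r * B := by
    by_contra hcon
    have h0 : r * B = 0 := by omega
    apply hx0 0
    rw [hx]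
    rcases Nat.mul_eq_zero.1 h0 with hr | hB
    · subst hr
      simp
    · have h1 : ∀ j, c 0 j = 0 := fun j => by
        have := hc 0 j
        rw [hB] at this
        exact abs_eq_zero.1 (le_antisymm (by simpa using this) (abs_nonneg _))
      simp [h1]
  have hr1 : 1 ≤ r := Nat.pos_of_ne_zero fun h => by simp [h] at hrB
  set S := (1 + T) * (r * B) ^ d with hS
  have hT3 : 3 ≤ T := by
    have h1 := Int.one_le_abs hu
    have h2 := Int.one_le_abs hv
    have h3 := Int.one_le_abs hw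
    have : (3 : ℤ) ≤ T := by linarith
    exact_mod_cast this
  have hP1 : 1 ≤ (r * B) ^ d := Nat.one_le_pow _ _ hrB
  have hS2 : 2 ≤ S := by
    rw [hS]
    nlinarith
  have hrS : r * B ≤ S := by
    calc r * B = (r * B) ^ 1 := (pow_one _).symm
      _ ≤ (r * B) ^ d := Nat.pow_le_pow_right hrB hd
      _ ≤ S := Nat.le_mul_of_pos_left _ (by omega)
  set L0 := Nat.clog β S with hL0def
  have hL01 : 1 ≤ L0 := Nat.clog_pos (by omega) hS2
  have hSL0 : S ≤ β ^ L0 := Nat.le_pow_clog (by omega) _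
  have hLS : β ^ L0 ≤ β * S := by
    obtain ⟨L', hL'⟩ : ∃ L', L0 = L' + 1 := ⟨L0 - 1, by omega⟩
    have h1 : β ^ L' < S := by
      rw [← Nat.lt_clog_iff_pow_lt (by omega)]
      omega
    rw [hL', pow_succ, mul_comm]
    exact Nat.mul_le_mul_left _ h1.le
  set M := 8 * (4 * d) ^ r with hM
  have hK1 : 1 ≤ (4 * d) ^ r := Nat.one_le_pow _ _ (by omega)
  have hM1 : 1 ≤ M := by omega
  obtain ⟨L, hL0L, hLM, hscale⟩ := exists_scale M L0 hM1 e
  have hL1 : 1 ≤ L := hL01.trans hL0L
  have hSL : S ≤ β ^ L := hSL0.trans (Nat.pow_le_pow_right (by omega) hL0L)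
  obtain ⟨m, l, hml, hm, hclus, htr⟩ := transfer0 β hb d hd L hL1 e
  set f := 2 * (4 * d) ^ r * L with hf
  have hML : M * L = 4 * f := by rw [hM, hf]; ring
  have hfL : 2 * L ≤ f := by
    rw [hf]
    nlinarith
  -- gaps
  have hgap : ∀ i j, l i < l j → l i + 2 * (f + L) ≤ l j := by
    intro i j hij
    have h1 := hml i
    have h2 := hml j
    have h3 := hm i
    have h4 := hm j
    have hnc : ¬ (e i < e j + L ∧ e j < e i + L) := fun h => by
      have := hclus i j h.1 h.2
      omega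
    rcases hscale i j with h5 | h5
    · rcases hscale j i with h6 | h6
      · omega
      · rw [hML] at h6
        omega
    · rw [hML] at h5
      omega
  have hev : ∀ i, eval (fun j => (β : ℤ) ^ (e j)) (li (c i)) = x i := by
    intro i
    rw [eval_li, hx]
    exact Finset.sum_congr rfl fun j _ => mul_comm _ _
  set P : Fin 3 → Polynomial ℤ := fun i => sub (β : ℤ) m l (li (c i)) with hP
  have hPev : ∀ i, (P i).eval (β : ℤ) = x i := by
    intro i
    rw [hP]
    simp only
    rw [sub_eval]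
    simp only [hml]
    exact hev i
  have hP0 : ∀ i, P i ≠ 0 := by
    intro i h0
    apply hx0 i
    rw [← hPev i, h0, Polynomial.eval_zero]
  -- the equation
  set G : MvPolynomial (Fin r) ℤ :=
    C u * li (c 0) ^ p + C v * li (c 1) ^ q + C w * li (c 2) ^ s with hG
  have hGev : eval (fun j => (β : ℤ) ^ (e j)) G = 0 := by
    rw [hG, map_add, map_add, map_mul, map_mul, map_mul, map_pow, map_pow, map_pow, eval_C, eval_C,
      eval_C, hev, hev, hev]
    exact heq
  have hterm : ∀ (a : ℤ) (i : Fin 3) (k : ℕ), k ≤ d →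
      (∀ α ∈ (C a * li (c i) ^ k).support, ∑ j, α j ≤ d) ∧
      nz (C a * li (c i) ^ k) ≤ |a| * (r * B : ℤ) ^ d := by
    intro a i k hk
    constructor
    · intro α hα
      have h2 := ((isHomogeneous_C (Fin r) a).mul ((li_homog (c i)).pow k))
        (mem_support_iff.1 hα)
      rw [Finsupp.weight_apply, Finsupp.sum_fintype _ _ (by simp)] at h2
      have h3 : ∑ j, α j = k := by simpa using h2
      omega
    · have h1 : nz (C a : MvPolynomial (Fin r) ℤ) ≤ |a| := nz_monomial 0 _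
      have h2 : nz (li (c i) ^ k) ≤ (r * B : ℤ) ^ d :=
        (nz_pow _ _ (li_nz (c i) B (hc i)) k).trans
          (pow_le_pow_right₀ (by exact_mod_cast hrB) hk)
      exact (nz_mul _ _).trans (mul_le_mul h1 h2 (nz_nonneg _) (abs_nonneg _))
  have hGdeg : ∀ α ∈ G.support, ∑ j, α j ≤ d := by
    intro α hα
    rw [hG] at hα
    have h1 := Finset.mem_union.1 (support_add hα)
    rcases h1 with h1 | h1
    · rcases Finset.mem_union.1 (support_add h1) with h2 | h2
      · exact (hterm u 0 p hpd).1 α h2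
      · exact (hterm v 1 q hqd).1 α h2
    · exact (hterm w 2 s hsd).1 α h1
  have hGnz : 1 + nz G ≤ (β : ℤ) ^ L := by
    have h1 := (hterm u 0 p hpd).2
    have h2 := (hterm v 1 q hqd).2
    have h3 := (hterm w 2 s hsd).2
    have h4 : nz G ≤ nz (C u * li (c 0) ^ p) + nz (C v * li (c 1) ^ q) +
        nz (C w * li (c 2) ^ s) := by
      rw [hG]
      exact (nz_add _ _).trans (by linarith [nz_add (C u * li (c 0) ^ p) (C v * li (c 1) ^ q)])
    have h5 : (1 : ℤ) ≤ (r * B : ℤ) ^ d := by exact_mod_cast hP1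
    have h6 : (((1 + T) * (r * B) ^ d : ℕ) : ℤ) ≤ (β : ℤ) ^ L := by exact_mod_cast hSL
    push_cast at h6
    nlinarith
  have hsub := htr G hGdeg hGnz hGev
  have hPeq : Polynomial.C u * P 0 ^ p + Polynomial.C v * P 1 ^ q + Polynomial.C w * P 2 ^ s =
      0 := by
    rw [← hsub, hG, map_add, map_add, map_mul, map_mul, map_mul, map_pow, map_pow, map_pow]
    have hC : ∀ a : ℤ, sub (β : ℤ) m l (C a) = Polynomial.C a := by
      intro a
      unfold sub
      rw [aeval_C]
      rfl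
    rw [hC, hC, hC]
  -- coprimality
  have hinj : Function.Injective (Int.castRingHom ℚ) := Int.cast_injective
  have hcopP : IsCoprime ((P 0).map (Int.castRingHom ℚ)) ((P 1).map (Int.castRingHom ℚ)) := by
    by_contra hno
    obtain ⟨D, hD, hD0, hD1⟩ := exists_common_factor (P 0) (P 1) (hP0 0) hno
    have h1 : 1 < |D.eval (β : ℤ)| := by
      refine eval_gt_one D hD β fun ρ hρ => ?_
      refine root_bound β hβ m l (c 0) f L hm B (hc 0) (hrS.trans hSL) hL1 hgap (hP0 0) ρ ?_
      obtain ⟨E, hE⟩ := hD0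
      show Polynomial.aeval ρ (P 0) = 0
      rw [hE, map_mul, hρ, zero_mul]
    have h2 : D.eval (β : ℤ) ∣ x 0 := by
      rw [← hPev 0]
      exact Polynomial.eval_dvd hD0
    have h3 : D.eval (β : ℤ) ∣ x 1 := by
      rw [← hPev 1]
      exact Polynomial.eval_dvd hD1
    have h4 := hcop.isUnit_of_dvd' h2 h3
    rw [Int.isUnit_iff_abs_eq] at h4
    omega
  have hflt := Polynomial.flt_catalan (k := ℚ) (p := p) (q := q) (r := s) (by omega) (by omega)
    (by omega) hyp (by exact_mod_cast (by omega : p ≠ 0)) (by exact_mod_cast (by omega : q ≠ 0))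
    (by exact_mod_cast (by omega : s ≠ 0)) (a := (P 0).map (Int.castRingHom ℚ))
    (b := (P 1).map (Int.castRingHom ℚ)) (c := (P 2).map (Int.castRingHom ℚ))
    (by rw [Ne, Polynomial.map_eq_zero_iff hinj]; exact hP0 0)
    (by rw [Ne, Polynomial.map_eq_zero_iff hinj]; exact hP0 1)
    (by rw [Ne, Polynomial.map_eq_zero_iff hinj]; exact hP0 2) hcopP
    (u := (u : ℚ)) (v := (v : ℚ)) (w := (w : ℚ)) (by exact_mod_cast hu) (by exact_mod_cast hv)
    (by exact_mod_cast hw) (by
      have := congrArg (Polynomial.map (Int.castRingHom ℚ)) hPeq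
      simpa using this)
  have hdeg : ∀ i, (P i).natDegree = 0 := by
    intro i
    fin_cases i
    · simpa [Polynomial.natDegree_map_eq_of_injective hinj] using hflt.1
    · simpa [Polynomial.natDegree_map_eq_of_injective hinj] using hflt.2.1
    · simpa [Polynomial.natDegree_map_eq_of_injective hinj] using hflt.2.2
  intro i
  have h1 := le_sub_natDegree β hb m l (li (c i)) f (fun α hα => by
    have h2 := li_homog (c i) (mem_support_iff.1 hα)
    rw [Finsupp.weight_apply, Finsupp.sum_fintype _ _ (by simp)] at h2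
    have h3 : ∑ j, α j = 1 := by simpa using h2
    have := exn_le m f hm α 1 h3.le
    rwa [one_mul] at this)
  simp only [hml] at h1
  have h1' : (sub (β : ℤ) m l (li (c i))).natDegree = 0 := hdeg i
  rw [hev, h1', pow_zero, mul_one] at h1
  refine h1.trans ?_
  calc nz (li (c i)) * (β : ℤ) ^ f ≤ (r * B : ℤ) * (β : ℤ) ^ f :=
        mul_le_mul_of_nonneg_right (li_nz _ _ (hc i)) (by positivity)
    _ = ((r * B * β ^ f : ℕ) : ℤ) := by push_cast; ring
    _ ≤ _ := by
      have h2 : β ^ f ≤ (β * S) ^ M ^ (r * r + 1) := by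
        have h3 : f ≤ L0 * M ^ (r * r + 1) := by
          calc f ≤ M * L := by omega
            _ ≤ M * (M ^ (r * r) * L0) := Nat.mul_le_mul_left _ hLM
            _ = L0 * M ^ (r * r + 1) := by ring
        calc β ^ f ≤ β ^ (L0 * M ^ (r * r + 1)) := Nat.pow_le_pow_right (by omega) h3
          _ = (β ^ L0) ^ M ^ (r * r + 1) := by rw [pow_mul]
          _ ≤ _ := Nat.pow_le_pow_left hLS _
      exact_mod_cast Nat.mul_le_mul_left _ h2

end Pool.Agent.H458.Sp
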