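import Mathlib
import Pool.Agent.H458.Sp.AllBase
import Pool.Agent.H458.Sp.FC

set_option autoImplicit false

/-! # The generalized Fermat equation in sparse integers, all bases at once -/

namespace Pool.Agent.H458.Sp

open Finset

variable {r : ℕ}

section

open Polynomial

/-- roots of polynomials with large gaps and small coefficients are small, general form -/
theorem root_bound_gen (β : ℕ) (hβ : 2 ≤ β) (m l : Fin r → ℕ) (c : Fin r → ℤ) (f g : ℕ)
    (hf : ∀ j, m j ≤ f) (B : ℕ) (hc : ∀ j, |c j| ≤ B)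
    (hlt : (r : ℝ) * B * (β : ℝ) ^ f < ((β : ℝ) - 1) ^ g)
    (hgap : ∀ i j, l i < l j → l i + g ≤ l j)
    (h0 : sub (β : ℤ) m l (li c) ≠ 0) (ρ : ℂ) (hρ : aeval ρ (sub (β : ℤ) m l (li c)) = 0) :
    ‖ρ‖ < (β : ℝ) - 1 := by
  classical
  set P := sub (β : ℤ) m l (li c) with hP
  by_contra hcon
  push Not at hcon
  have hβ' : (2 : ℝ) ≤ β := by exact_mod_cast hβ
  have hρ3 : 1 ≤ ‖ρ‖ := by linarith
  have hρ0 : 0 < ‖ρ‖ := by linarith
  set W := P.natDegree with hW
  -- coefficients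
  have hcoef : ∀ w, P.coeff w = ∑ j ∈ univ.filter (fun j => w = l j), c j * (β : ℤ) ^ (m j) := by
    intro w
    rw [hP, sub_li, finsetSum_coeff]
    simp_rw [coeff_C_mul_X_pow]
    rw [← Finset.sum_filter]
  have hexists : ∀ w, P.coeff w ≠ 0 → ∃ j, l j = w := by
    intro w hw
    by_contra hno
    push Not at hno
    apply hw
    rw [hcoef, Finset.filter_false_of_mem (fun j _ => (hno j).symm), Finset.sum_empty]
  have hWc : P.coeff W ≠ 0 := by
    rw [hW]
    simpa using h0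
  obtain ⟨j0, hj0⟩ := hexists W hWc
  -- the key inequality for the lower coefficients
  have hlow : ∀ w ∈ Finset.range W, |(P.coeff w : ℝ)| * ‖ρ‖ ^ w * ‖ρ‖ ^ g ≤
      |(P.coeff w : ℝ)| * ‖ρ‖ ^ W := by
    intro w hw
    rw [Finset.mem_range] at hw
    by_cases h : P.coeff w = 0
    · simp [h]
    · obtain ⟨j, hj⟩ := hexists w h
      have h1 := hgap j j0 (by omega)
      rw [mul_assoc, ← pow_add]
      refine mul_le_mul_of_nonneg_left ?_ (abs_nonneg _)
      exact pow_le_pow_right₀ (by linarith) (by omega)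
  have hsumc : ∑ w ∈ Finset.range W, |(P.coeff w : ℝ)| ≤ r * B * (β : ℝ) ^ f := by
    calc ∑ w ∈ Finset.range W, |(P.coeff w : ℝ)| ≤
        ∑ w ∈ Finset.range W, ∑ j ∈ univ.filter (fun j => w = l j), (B : ℝ) * (β : ℝ) ^ f := by
          refine Finset.sum_le_sum fun w _ => ?_
          rw [hcoef]
          push_cast
          refine (Finset.abs_sum_le_sum_abs _ _).trans (Finset.sum_le_sum fun j _ => ?_)
          rw [abs_mul, abs_of_nonneg (by positivity : (0 : ℝ) ≤ (β : ℝ) ^ (m j))]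
          have h1 : |(c j : ℝ)| ≤ B := by exact_mod_cast hc j
          have h2 : (β : ℝ) ^ (m j) ≤ (β : ℝ) ^ f := pow_le_pow_right₀ (by linarith) (hf j)
          exact mul_le_mul h1 h2 (by positivity) (by positivity)
      _ = ∑ w ∈ Finset.range W, ∑ j : Fin r, if w = l j then (B : ℝ) * (β : ℝ) ^ f else 0 := by
          refine Finset.sum_congr rfl fun w _ => ?_
          rw [Finset.sum_filter]
      _ = ∑ j : Fin r, ∑ w ∈ Finset.range W, if w = l j then (B : ℝ) * (β : ℝ) ^ f else 0 :=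
          Finset.sum_comm
      _ ≤ ∑ _j : Fin r, (B : ℝ) * (β : ℝ) ^ f := by
          refine Finset.sum_le_sum fun j _ => ?_
          rw [Finset.sum_ite_eq']
          split_ifs
          · exact le_rfl
          · positivity
      _ = r * B * (β : ℝ) ^ f := by
          rw [Finset.sum_const, Finset.card_univ, Fintype.card_fin, nsmul_eq_mul, mul_assoc]
  -- evaluate
  have hev : aeval ρ P = ∑ w ∈ Finset.range W, (P.coeff w : ℂ) * ρ ^ w +
      (P.coeff W : ℂ) * ρ ^ W := by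
    rw [aeval_eq_sum_range, ← hW, Finset.sum_range_succ]
    simp
  rw [hev] at hρ
  have h1 : ‖(P.coeff W : ℂ) * ρ ^ W‖ ≤ ∑ w ∈ Finset.range W, |(P.coeff w : ℝ)| * ‖ρ‖ ^ w := by
    have h2 : (P.coeff W : ℂ) * ρ ^ W = - ∑ w ∈ Finset.range W, (P.coeff w : ℂ) * ρ ^ w :=
      (neg_eq_of_add_eq_zero_right hρ).symm
    rw [h2, norm_neg]
    refine (norm_sum_le _ _).trans (Finset.sum_le_sum fun w _ => ?_)
    rw [norm_mul, norm_pow, Complex.norm_intCast]
  have h2 : ‖ρ‖ ^ W ≤ ‖(P.coeff W : ℂ) * ρ ^ W‖ := by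
    rw [norm_mul, norm_pow, Complex.norm_intCast]
    have h3 : (1 : ℝ) ≤ |(P.coeff W : ℝ)| := by
      have := Int.one_le_abs hWc
      exact_mod_cast this
    nlinarith [pow_pos hρ0 W]
  have h3 : ‖ρ‖ ^ g ≤ r * B * (β : ℝ) ^ f := by
    have h4 : ‖ρ‖ ^ g * ‖ρ‖ ^ W ≤ (r * B * (β : ℝ) ^ f) * ‖ρ‖ ^ W := by
      calc ‖ρ‖ ^ g * ‖ρ‖ ^ W ≤ ‖ρ‖ ^ g * ∑ w ∈ Finset.range W, |(P.coeff w : ℝ)| * ‖ρ‖ ^ w :=
            mul_le_mul_of_nonneg_left (h2.trans h1) (by positivity)
        _ = ∑ w ∈ Finset.range W, |(P.coeff w : ℝ)| * ‖ρ‖ ^ w * ‖ρ‖ ^ g := by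
            rw [Finset.mul_sum]
            exact Finset.sum_congr rfl fun w _ => by ring
        _ ≤ ∑ w ∈ Finset.range W, |(P.coeff w : ℝ)| * ‖ρ‖ ^ W := Finset.sum_le_sum hlow
        _ = (∑ w ∈ Finset.range W, |(P.coeff w : ℝ)|) * ‖ρ‖ ^ W := by rw [Finset.sum_mul]
        _ ≤ _ := mul_le_mul_of_nonneg_right hsumc (by positivity)
    exact le_of_mul_le_mul_right h4 (by positivity)
  have h5 : ((β : ℝ) - 1) ^ g ≤ ‖ρ‖ ^ g := pow_le_pow_left₀ (by linarith) hcon _
  linarith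


end

section

open MvPolynomial

/-- main theorem, large base -/
theorem fc_large (p q s : ℕ) (hp : 1 ≤ p) (hq : 1 ≤ q) (hs : 1 ≤ s)
    (hyp : q * s + s * p + p * q ≤ p * q * s) (u v w : ℤ) (hu : u ≠ 0) (hv : v ≠ 0) (hw : w ≠ 0)
    (β : ℕ) (B : ℕ) (e : Fin r → ℕ) (c : Fin 3 → Fin r → ℤ)
    (hc : ∀ i j, |c i j| ≤ B) (x : Fin 3 → ℤ) (hx : ∀ i, x i = ∑ j, c i j * (β : ℤ) ^ (e j))
    (hx0 : ∀ i, x i ≠ 0) (hcop : IsCoprime (x 0) (x 1))
    (heq : u * x 0 ^ p + v * x 1 ^ q + w * x 2 ^ s = 0) (d : ℕ) (hpd : p ≤ d) (hqd : q ≤ d)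
    (hsd : s ≤ d) (T : ℕ) (hT : |u| + |v| + |w| ≤ T) (hrB : 1 ≤ r * B)
    (hβ : (1 + T) * (r * B) ^ d ≤ β) :
    ∀ i, |x i| ≤ ((r * B : ℕ) : ℤ) := by
  classical
  have hd : 1 ≤ d := hp.trans hpd
  have hT3 : 3 ≤ T := by
    have h1 := Int.one_le_abs hu
    have h2 := Int.one_le_abs hv
    have h3 := Int.one_le_abs hw
    have : (3 : ℤ) ≤ T := by linarith
    exact_mod_cast this
  have hP1 : 1 ≤ (r * B) ^ d := Nat.one_le_pow _ _ hrB
  have hrS : r * B ≤ (r * B) ^ d := by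
    calc r * B = (r * B) ^ 1 := (pow_one _).symm
      _ ≤ (r * B) ^ d := Nat.pow_le_pow_right hrB hd
  have hβ1 : 4 * (r * B) ≤ β := by nlinarith
  have hb : 2 ≤ β := by omega
  have hev : ∀ i, eval (fun j => (β : ℤ) ^ (e j)) (li (c i)) = x i := by
    intro i
    rw [eval_li, hx]
    exact Finset.sum_congr rfl fun j _ => mul_comm _ _
  set P : Fin 3 → Polynomial ℤ := fun i => sub (β : ℤ) (fun _ => 0) e (li (c i)) with hP
  have hPev : ∀ i, (P i).eval (β : ℤ) = x i := by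
    intro i
    rw [hP]
    simp only
    rw [sub_eval]
    simp only [zero_add]
    exact hev i
  have hP0 : ∀ i, P i ≠ 0 := by
    intro i h0
    apply hx0 i
    rw [← hPev i, h0, Polynomial.eval_zero]
  -- the equation
  set G : MvPolynomial (Fin r) ℤ :=
    C u * li (c 0) ^ p + C v * li (c 1) ^ q + C w * li (c 2) ^ s with hG
  have hGev : eval (fun j => (β : ℤ) ^ (e j)) G = 0 := by
    rw [hG, map_add, map_add, map_mul, map_mul, map_mul, map_pow, map_pow, map_pow, eval_C, eval_C,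
      eval_C, hev, hev, hev]
    exact heq
  have hterm : ∀ (a : ℤ) (i : Fin 3) (k : ℕ), k ≤ d →
      nz (C a * li (c i) ^ k) ≤ |a| * (r * B : ℤ) ^ d := by
    intro a i k hk
    have h1 : nz (C a : MvPolynomial (Fin r) ℤ) ≤ |a| := nz_monomial 0 _
    have h2 : nz (li (c i) ^ k) ≤ (r * B : ℤ) ^ d :=
      (nz_pow _ _ (li_nz (c i) B (hc i)) k).trans
        (pow_le_pow_right₀ (by exact_mod_cast hrB) hk)
    exact (nz_mul _ _).trans (mul_le_mul h1 h2 (nz_nonneg _) (abs_nonneg _))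
  have hGnz : 1 + nz G ≤ (β : ℤ) := by
    have h1 := hterm u 0 p hpd
    have h2 := hterm v 1 q hqd
    have h3 := hterm w 2 s hsd
    have h4 : nz G ≤ nz (C u * li (c 0) ^ p) + nz (C v * li (c 1) ^ q) +
        nz (C w * li (c 2) ^ s) := by
      rw [hG]
      exact (nz_add _ _).trans (by linarith [nz_add (C u * li (c 0) ^ p) (C v * li (c 1) ^ q)])
    have h5 : (1 : ℤ) ≤ (r * B : ℤ) ^ d := by exact_mod_cast hP1
    have h6 : (((1 + T) * (r * B) ^ d : ℕ) : ℤ) ≤ (β : ℤ) := by exact_mod_cast hβ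
    push_cast at h6
    nlinarith
  have hsub := sub_vanish_large β hb e G hGnz hGev
  have hPeq : Polynomial.C u * P 0 ^ p + Polynomial.C v * P 1 ^ q + Polynomial.C w * P 2 ^ s =
      0 := by
    rw [← hsub, hG, map_add, map_add, map_mul, map_mul, map_mul, map_pow, map_pow, map_pow]
    have hC : ∀ a : ℤ, sub (β : ℤ) (fun _ => 0) e (C a) = Polynomial.C a := by
      intro a
      unfold sub
      rw [aeval_C]
      rfl
    rw [hC, hC, hC]
  -- coprimality
  have hinj : Function.Injective (Int.castRingHom ℚ) := Int.cast_injective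
  have hcopP : IsCoprime ((P 0).map (Int.castRingHom ℚ)) ((P 1).map (Int.castRingHom ℚ)) := by
    by_contra hno
    obtain ⟨D, hD, hD0, hD1⟩ := exists_common_factor (P 0) (P 1) (hP0 0) hno
    have h1 : 1 < |D.eval (β : ℤ)| := by
      refine eval_gt_one D hD β fun ρ hρ => ?_
      refine root_bound_gen β hb (fun _ => 0) e (c 0) 0 1 (fun _ => le_rfl) B (hc 0) ?_
        (fun i j h => h) (hP0 0) ρ ?_
      · have h2 : (4 * (r * B) : ℝ) ≤ β := by exact_mod_cast hβ1
        have h3 : (1 : ℝ) ≤ r * B := by exact_mod_cast hrB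
        rw [pow_zero, pow_one]
        linarith
      · obtain ⟨E, hE⟩ := hD0
        show Polynomial.aeval ρ (P 0) = 0
        rw [hE, map_mul, hρ, zero_mul]
    have h2 : D.eval (β : ℤ) ∣ x 0 := by
      rw [← hPev 0]
      exact Polynomial.eval_dvd hD0
    have h3 : D.eval (β : ℤ) ∣ x 1 := by
      rw [← hPev 1]
      exact Polynomial.eval_dvd hD1
    have h4 := hcop.isUnit_of_dvd' h2 h3
    rw [Int.isUnit_iff_abs_eq] at h4
    omega
  have hflt := Polynomial.flt_catalan (k := ℚ) (p := p) (q := q) (r := s) (by omega) (by omega)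
    (by omega) hyp (by exact_mod_cast (by omega : p ≠ 0)) (by exact_mod_cast (by omega : q ≠ 0))
    (by exact_mod_cast (by omega : s ≠ 0)) (a := (P 0).map (Int.castRingHom ℚ))
    (b := (P 1).map (Int.castRingHom ℚ)) (c := (P 2).map (Int.castRingHom ℚ))
    (by rw [Ne, Polynomial.map_eq_zero_iff hinj]; exact hP0 0)
    (by rw [Ne, Polynomial.map_eq_zero_iff hinj]; exact hP0 1)
    (by rw [Ne, Polynomial.map_eq_zero_iff hinj]; exact hP0 2) hcopP
    (u := (u : ℚ)) (v := (v : ℚ)) (w := (w : ℚ)) (by exact_mod_cast hu) (by exact_mod_cast hv)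
    (by exact_mod_cast hw) (by
      have := congrArg (Polynomial.map (Int.castRingHom ℚ)) hPeq
      simpa using this)
  have hdeg : ∀ i, (P i).natDegree = 0 := by
    intro i
    fin_cases i
    · simpa [Polynomial.natDegree_map_eq_of_injective hinj] using hflt.1
    · simpa [Polynomial.natDegree_map_eq_of_injective hinj] using hflt.2.1
    · simpa [Polynomial.natDegree_map_eq_of_injective hinj] using hflt.2.2
  intro i
  have h1 := le_sub_natDegree β hb (fun _ => 0) e (li (c i)) 0 (fun α _ => by simp [exn])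
  simp only [zero_add] at h1
  have h1' : (sub (β : ℤ) (fun _ => 0) e (li (c i))).natDegree = 0 := hdeg i
  rw [hev, h1', pow_zero, mul_one, mul_one] at h1
  refine h1.trans ((li_nz _ _ (hc i)).trans ?_)
  push_cast
  exact le_rfl

/-- main theorem, all bases -/
theorem fc_all (p q s : ℕ) (hp : 1 ≤ p) (hq : 1 ≤ q) (hs : 1 ≤ s)
    (hyp : q * s + s * p + p * q ≤ p * q * s) (u v w : ℤ) (hu : u ≠ 0) (hv : v ≠ 0) (hw : w ≠ 0)
    (b : ℕ) (hb : 2 ≤ b) (B : ℕ) (e : Fin r → ℕ) (c : Fin 3 → Fin r → ℤ)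
    (hc : ∀ i j, |c i j| ≤ B) (x : Fin 3 → ℤ) (hx : ∀ i, x i = ∑ j, c i j * (b : ℤ) ^ (e j))
    (hx0 : ∀ i, x i ≠ 0) (hcop : IsCoprime (x 0) (x 1))
    (heq : u * x 0 ^ p + v * x 1 ^ q + w * x 2 ^ s = 0) (d : ℕ) (hpd : p ≤ d) (hqd : q ≤ d)
    (hsd : s ≤ d) (T : ℕ) (hT : |u| + |v| + |w| ≤ T) (S : ℕ) (hS : S = (1 + T) * (r * B) ^ d) :
    ∀ i, |x i| ≤ ((r * (S * B) * (S ^ 2 * ((1 + T) * (r * (S * B)) ^ d)) ^
      (8 * (4 * d) ^ r) ^ (r * r + 1) : ℕ) : ℤ) := by
  classical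
  have hd : 1 ≤ d := hp.trans hpd
  have hrB : 1 ≤ r * B := by
    by_contra hcon
    have h0 : r * B = 0 := by omega
    apply hx0 0
    rw [hx]
    rcases Nat.mul_eq_zero.1 h0 with hr | hB
    · subst hr
      simp
    · have h1 : ∀ j, c 0 j = 0 := fun j => by
        have := hc 0 j
        rw [hB] at this
        exact abs_eq_zero.1 (le_antisymm (by simpa using this) (abs_nonneg _))
      simp [h1]
  have hP1 : 1 ≤ (r * B) ^ d := Nat.one_le_pow _ _ hrB
  have hS1 : 1 ≤ S := by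
    rw [hS]
    exact Nat.one_le_iff_ne_zero.2 (Nat.mul_ne_zero (by omega) (by omega))
  intro i
  rcases Nat.lt_or_ge b S with hbS | hbS
  · have hb1 : (1 : ℤ) ≤ b := by
      have : (2 : ℤ) ≤ b := by exact_mod_cast hb
      linarith
    have key := fc_base p q s hp hq hs hyp u v w hu hv hw (b ^ 2) (by nlinarith) (b * B)
      (fun j => e j / 2) (fun i j => c i j * (b : ℤ) ^ (e j % 2)) (by
        intro i j
        rw [abs_mul, abs_of_nonneg (by positivity : (0 : ℤ) ≤ (b : ℤ) ^ (e j % 2))]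
        have h1 : (b : ℤ) ^ (e j % 2) ≤ b := by
          have h2 : e j % 2 ≤ 1 := by omega
          calc (b : ℤ) ^ (e j % 2) ≤ (b : ℤ) ^ 1 := pow_le_pow_right₀ hb1 h2
            _ = b := pow_one _
        push_cast
        rw [mul_comm (b : ℤ)]
        exact mul_le_mul (hc i j) h1 (by positivity) (by positivity)) x (by
        intro i
        rw [hx i]
        refine Finset.sum_congr rfl fun j _ => ?_
        push_cast
        rw [← pow_mul, mul_assoc, ← pow_add]
        congr 2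
        omega) hx0 hcop heq d hpd hqd hsd T hT i
    refine key.trans ?_
    have h1 : r * (b * B) ≤ r * (S * B) :=
      Nat.mul_le_mul_left _ (Nat.mul_le_mul_right _ hbS.le)
    have h2 : b ^ 2 * ((1 + T) * (r * (b * B)) ^ d) ≤ S ^ 2 * ((1 + T) * (r * (S * B)) ^ d) :=
      Nat.mul_le_mul (Nat.pow_le_pow_left hbS.le _)
        (Nat.mul_le_mul_left _ (Nat.pow_le_pow_left h1 _))
    exact_mod_cast Nat.mul_le_mul h1 (Nat.pow_le_pow_left h2 _)
  · have key := fc_large p q s hp hq hs hyp u v w hu hv hw b B e c hc x hx hx0 hcop heq d hpd hqd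
      hsd T hT hrB (by rw [← hS]; exact hbS) i
    refine key.trans ?_
    have h1 : r * B ≤ r * (S * B) := Nat.mul_le_mul_left _ (Nat.le_mul_of_pos_left _ hS1)
    have h2 : 1 ≤ (S ^ 2 * ((1 + T) * (r * (S * B)) ^ d)) ^ (8 * (4 * d) ^ r) ^ (r * r + 1) := by
      refine Nat.one_le_pow _ _ ?_
      have h3 : 1 ≤ r * (S * B) := hrB.trans h1
      have h4 : 1 ≤ (r * (S * B)) ^ d := Nat.one_le_pow _ _ h3
      positivity
    have h3 := h1.trans (Nat.le_mul_of_pos_right _ h2)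
    exact_mod_cast h3

end

end Pool.Agent.H458.Sp
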