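import Mathlib
import Pool.Agent.H458.Sp.AllBase

set_option autoImplicit false

/-! # Hall's inequality for sparse integers with a constant that does not depend on the base -/

namespace Pool.Agent.H458.Sp

open Finset MvPolynomial

variable {r : ℕ}

/-- the constant -/
def QA (r B d : ℕ) : ℕ := r * B * (2 * (3 * (r * B) ^ d) ^ 2) ^ (4 * (4 * d) ^ r)

/-- Hall's inequality for sparse integers, general exponents, all bases -/
theorem sparse_hall_all (n m : ℕ) (hn : 1 ≤ n) (hm : 1 ≤ m) (b : ℕ) (hb : 2 ≤ b) (B : ℕ)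
    (e : Fin r → ℕ) (c c' : Fin r → ℤ) (hc : ∀ j, |c j| ≤ B) (hc' : ∀ j, |c' j| ≤ B)
    (x y : ℤ) (hx : x = ∑ j, c j * (b : ℤ) ^ (e j)) (hy : y = ∑ j, c' j * (b : ℤ) ^ (e j))
    (hk : x ^ n ≠ y ^ m) :
    |x| ^ (m * n - m - n) ≤ (QA r B (max n m) : ℤ) ^ (m * n - m - n) * |x ^ n - y ^ m| ^ m ∧
    |y| ^ (m * n - m - n) ≤ (QA r B (max n m) : ℤ) ^ (m * n - m - n) * |x ^ n - y ^ m| ^ n := by
  classical
  set d := max n m with hd
  set N := m * n - m - n with hN
  have hnd : n ≤ d := le_max_left _ _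
  have hmd : m ≤ d := le_max_right _ _
  set S := 3 * (r * B) ^ d with hS
  rcases Nat.lt_or_ge b (2 * S) with hbS | hbS
  · obtain ⟨h1, h2⟩ := sparse_hall n m hn hm b hb r B e c c' hc hc' x y hx hy hk
    have h3 : QQ b r B (max n m) ≤ QA r B d := by
      unfold QQ QA
      refine Nat.mul_le_mul_left _ (Nat.pow_le_pow_left ?_ _)
      rw [← hd, ← hS]
      calc 3 * b * (r * B) ^ d = b * S := by rw [hS]; ring
        _ ≤ 2 * S * S := Nat.mul_le_mul_right _ hbS.le
        _ = 2 * S ^ 2 := by ring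
    have h4 : (QQ b r B (max n m) : ℤ) ^ N ≤ (QA r B d : ℤ) ^ N := by
      exact_mod_cast Nat.pow_le_pow_left h3 N
    exact ⟨h1.trans (mul_le_mul_of_nonneg_right h4 (by positivity)),
      h2.trans (mul_le_mul_of_nonneg_right h4 (by positivity))⟩
  have hb0 : (0 : ℤ) < b := by positivity
  have hb1 : (1 : ℤ) ≤ b := by
    have : (2 : ℤ) ≤ b := by exact_mod_cast hb
    linarith
  have hk0 : x ^ n - y ^ m ≠ 0 := sub_ne_zero.2 hk
  have hk1 : 1 ≤ |x ^ n - y ^ m| := Int.one_le_abs hk0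
  rcases Nat.eq_zero_or_pos N with hN0 | hN0
  · rw [hN0]
    simp only [pow_zero, one_mul]
    exact ⟨one_le_pow₀ hk1, one_le_pow₀ hk1⟩
  have hrB : 1 ≤ r * B := by
    by_contra hcon
    have h0 : r * B = 0 := by omega
    apply hk
    have hx0 : x = 0 ∧ y = 0 := by
      rcases Nat.mul_eq_zero.1 h0 with hr | hB
      · subst hr
        simp [hx, hy]
      · have h1 : ∀ j, c j = 0 := fun j => by
          have := hc j
          rw [hB] at this
          exact abs_eq_zero.1 (le_antisymm (by simpa using this) (abs_nonneg _))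
        have h2 : ∀ j, c' j = 0 := fun j => by
          have := hc' j
          rw [hB] at this
          exact abs_eq_zero.1 (le_antisymm (by simpa using this) (abs_nonneg _))
        simp [hx, hy, h1, h2]
    rw [hx0.1, hx0.2, zero_pow (by omega), zero_pow (by omega)]
  have hr1 : 1 ≤ r := Nat.pos_of_ne_zero fun h => by simp [h] at hrB
  have hP1 : 1 ≤ (r * B) ^ d := Nat.one_le_pow _ _ hrB
  -- the two linear forms
  have hex : eval (fun j => (b : ℤ) ^ (e j)) (li c) = x := by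
    rw [eval_li, hx]
    exact Finset.sum_congr rfl fun j _ => mul_comm _ _
  have hey : eval (fun j => (b : ℤ) ^ (e j)) (li c') = y := by
    rw [eval_li, hy]
    exact Finset.sum_congr rfl fun j _ => mul_comm _ _
  set X := sub (b : ℤ) (fun _ => 0) e (li c) with hX
  set Y := sub (b : ℤ) (fun _ => 0) e (li c') with hY
  set G := li c ^ n - li c' ^ m with hG
  have hGsub : sub (b : ℤ) (fun _ => 0) e G = X ^ n - Y ^ m := by
    rw [hG, map_sub, map_pow, map_pow]
  have hGev : eval (fun j => (b : ℤ) ^ (e j)) G = x ^ n - y ^ m := by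
    rw [hG, map_sub, map_pow, map_pow, hex, hey]
  have hGnz : 2 * nz G ≤ (b : ℤ) := by
    have h1 : nz (li c ^ n) ≤ (r * B : ℤ) ^ d :=
      (nz_pow _ _ (li_nz c B hc) n).trans (pow_le_pow_right₀ (by exact_mod_cast hrB) hnd)
    have h2 : nz (li c' ^ m) ≤ (r * B : ℤ) ^ d :=
      (nz_pow _ _ (li_nz c' B hc') m).trans (pow_le_pow_right₀ (by exact_mod_cast hrB) hmd)
    have h3 : nz G ≤ nz (li c ^ n) + nz (li c' ^ m) := by
      rw [hG, sub_eq_add_neg]
      refine (nz_add _ _).trans ?_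
      rw [nz_neg]
    have h4 : (1 : ℤ) ≤ (r * B : ℤ) ^ d := one_le_pow₀ (by exact_mod_cast hrB)
    have h5 : ((2 * (3 * (r * B) ^ d) : ℕ) : ℤ) ≤ (b : ℤ) := by exact_mod_cast hbS
    push_cast at h5
    linarith
  have hh0 : X ^ n - Y ^ m ≠ 0 := by
    intro h0
    have h1 := sub_eval (b : ℤ) (fun _ => 0) e G
    rw [hGsub, h0] at h1
    apply hk0
    rw [← hGev]
    simp only [zero_add] at h1
    rw [← h1]
    simp
  have hkey := size_large b hb e G hGnz (by rw [hGsub]; exact hh0)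
  rw [hGev, hGsub] at hkey
  obtain ⟨hdx, hdy⟩ := dav n m hn hm X Y hh0
  -- sizes of `x`, `y`
  have hsz : ∀ (c : Fin r → ℤ), (∀ j, |c j| ≤ B) → |eval (fun j => (b : ℤ) ^ (e j)) (li c)| ≤
      (r * B : ℤ) * (b : ℤ) ^ (sub (b : ℤ) (fun _ => 0) e (li c)).natDegree := by
    intro c hc
    have h1 := le_sub_natDegree b hb (fun _ => 0) e (li c) 0 (fun α _ => by simp [exn])
    simp only [zero_add, pow_zero, mul_one] at h1
    refine h1.trans ?_
    gcongr
    exact li_nz c B hc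
  have hfin : ∀ (z : ℤ) (D s : ℕ), |z| ≤ (r * B : ℤ) * (b : ℤ) ^ D → s ≤ d →
      D * N ≤ s * (X ^ n - Y ^ m).natDegree →
      |z| ^ N ≤ (QA r B d : ℤ) ^ N * |x ^ n - y ^ m| ^ s := by
    intro z D s hz hs hD
    have hQ : (r * B : ℤ) * 2 ^ s ≤ (QA r B d : ℤ) := by
      have h1 : 2 ^ s ≤ (2 * (3 * (r * B) ^ d) ^ 2) ^ (4 * (4 * d) ^ r) := by
        have h2 : 2 ≤ 2 * (3 * (r * B) ^ d) ^ 2 := by
          have : 1 ≤ (3 * (r * B) ^ d) ^ 2 := Nat.one_le_pow _ _ (by omega)
          omega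
        have h3 : s ≤ 4 * (4 * d) ^ r := by
          have h4 : 4 * d ≤ (4 * d) ^ r := Nat.le_self_pow (by omega) _
          omega
        calc 2 ^ s ≤ 2 ^ (4 * (4 * d) ^ r) := Nat.pow_le_pow_right (by norm_num) h3
          _ ≤ _ := Nat.pow_le_pow_left h2 _
      have h2 : r * B * 2 ^ s ≤ QA r B d := Nat.mul_le_mul_left _ h1
      exact_mod_cast h2
    have h2s : (2 : ℤ) ^ s ≤ (2 ^ s) ^ N := le_self_pow₀ (one_le_pow₀ (by norm_num)) (by omega)
    calc |z| ^ N ≤ ((r * B : ℤ) * (b : ℤ) ^ D) ^ N :=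
          pow_le_pow_left₀ (abs_nonneg _) hz _
      _ = (r * B : ℤ) ^ N * (b : ℤ) ^ (D * N) := by rw [mul_pow, ← pow_mul]
      _ ≤ (r * B : ℤ) ^ N * (b : ℤ) ^ (s * (X ^ n - Y ^ m).natDegree) := by
          refine mul_le_mul_of_nonneg_left (pow_le_pow_right₀ hb1 hD) (by positivity)
      _ = (r * B : ℤ) ^ N * ((b : ℤ) ^ (X ^ n - Y ^ m).natDegree) ^ s := by
          rw [← pow_mul, mul_comm s]
      _ ≤ (r * B : ℤ) ^ N * (2 * |x ^ n - y ^ m|) ^ s := by
          refine mul_le_mul_of_nonneg_left (pow_le_pow_left₀ (by positivity) hkey _)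
            (by positivity)
      _ = (r * B : ℤ) ^ N * 2 ^ s * |x ^ n - y ^ m| ^ s := by
          rw [mul_pow]; ring
      _ ≤ (r * B : ℤ) ^ N * (2 ^ s) ^ N * |x ^ n - y ^ m| ^ s := by
          refine mul_le_mul_of_nonneg_right (mul_le_mul_of_nonneg_left h2s (by positivity))
            (by positivity)
      _ = ((r * B : ℤ) * 2 ^ s) ^ N * |x ^ n - y ^ m| ^ s := by
          rw [mul_pow (r * B : ℤ)]
      _ ≤ _ := mul_le_mul_of_nonneg_right (pow_le_pow_left₀ (by positivity) hQ _)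
            (by positivity)
  constructor
  · refine hfin x X.natDegree m ?_ hmd hdx
    rw [← hex]
    exact hsz c hc
  · refine hfin y Y.natDegree n ?_ hnd hdy
    rw [← hey]
    exact hsz c' hc'

end Pool.Agent.H458.Sp
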