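import Mathlib
import Pool.Agent.H458.Sp.AllBase
import Pool.Agent.H458.Sp.Transfer

set_option autoImplicit false

/-! # Differences of products of sparse integers -/

namespace Pool.Agent.H458.Sp

open Finset MvPolynomial

variable {r : ℕ}

/-- **Davenport's inequality for products** -/
theorem dav_prod {ι : Type} [Fintype ι] [DecidableEq ι] (p : ι → Polynomial ℤ)
    (hp : ∀ i, p i ≠ 0) (k l : ι → ℕ) (hkl : ∀ i, k i = 0 ∨ l i = 0)
    (hR : ∏ i, p i ^ k i - ∏ i, p i ^ l i ≠ 0) :
    (∏ i, p i ^ l i).natDegree ≤ (∏ i, p i ^ k i - ∏ i, p i ^ l i).natDegree +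
      ∑ i, (p i).natDegree := by
  classical
  set P := ∏ i, p i ^ k i with hP
  set Q := ∏ i, p i ^ l i with hQ
  set R := P - Q with hRdef
  have hP0 : P ≠ 0 := Finset.prod_ne_zero_iff.2 fun i _ => pow_ne_zero _ (hp i)
  have hQ0 : Q ≠ 0 := Finset.prod_ne_zero_iff.2 fun i _ => pow_ne_zero _ (hp i)
  by_cases hw : Polynomial.wronskian P Q = 0
  · -- proportional
    have h1 : P * Polynomial.derivative Q = Polynomial.derivative P * Q := by
      unfold Polynomial.wronskian at hw
      exact _root_.sub_eq_zero.1 hw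
    by_contra hcon
    push Not at hcon
    have hlt : R.natDegree < Q.natDegree := by omega
    have hPR : P = Q + R := by rw [hRdef]; ring
    have hwr : Polynomial.wronskian Q R = 0 := by
      unfold Polynomial.wronskian
      rw [hRdef, Polynomial.derivative_sub]
      linear_combination (-1 : Polynomial ℤ) * h1
    -- compare leading coefficients of `Q R' = Q' R`
    have h2 : Q * Polynomial.derivative R = Polynomial.derivative Q * R := by
      unfold Polynomial.wronskian at hwr
      exact _root_.sub_eq_zero.1 hwr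
    have hQpos : 0 < Q.natDegree := by omega
    have h3 : (Polynomial.derivative Q * R).coeff (Q.natDegree - 1 + R.natDegree) =
        (Q.natDegree : ℤ) * Q.leadingCoeff * R.leadingCoeff := by
      rw [Polynomial.coeff_mul_add_eq_of_natDegree_le (Polynomial.natDegree_derivative_le _) le_rfl,
        Polynomial.coeff_derivative]
      have h4 : Q.natDegree - 1 + 1 = Q.natDegree := by omega
      rw [h4, Polynomial.coeff_natDegree, Polynomial.coeff_natDegree]
      have h5 : ((Q.natDegree - 1 : ℕ) : ℤ) + 1 = Q.natDegree := by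
        have : ((Q.natDegree - 1 + 1 : ℕ) : ℤ) = Q.natDegree := by rw [h4]
        push_cast at this
        exact this
      rw [h5]
      ring
    have h6 : (Q * Polynomial.derivative R).coeff (Q.natDegree - 1 + R.natDegree) =
        (R.natDegree : ℤ) * Q.leadingCoeff * R.leadingCoeff := by
      rcases Nat.eq_zero_or_pos R.natDegree with h0 | h0
      · have h7 : Polynomial.derivative R = 0 := Polynomial.derivative_eq_zero.2 h0
        rw [h7, mul_zero, Polynomial.coeff_zero, h0, Nat.cast_zero, zero_mul, zero_mul]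
      · have h7 : Q.natDegree - 1 + R.natDegree = Q.natDegree + (R.natDegree - 1) := by omega
        rw [h7, Polynomial.coeff_mul_add_eq_of_natDegree_le le_rfl
          (Polynomial.natDegree_derivative_le _), Polynomial.coeff_derivative]
        have h4 : R.natDegree - 1 + 1 = R.natDegree := by omega
        rw [h4, Polynomial.coeff_natDegree, Polynomial.coeff_natDegree]
        have h5 : ((R.natDegree - 1 : ℕ) : ℤ) + 1 = R.natDegree := by
          have : ((R.natDegree - 1 + 1 : ℕ) : ℤ) = R.natDegree := by rw [h4]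
          push_cast at this
          exact this
        rw [h5]
        ring
    rw [h2, h3] at h6
    have h8 : (Q.leadingCoeff * R.leadingCoeff : ℤ) ≠ 0 :=
      mul_ne_zero (Polynomial.leadingCoeff_ne_zero.2 hQ0) (Polynomial.leadingCoeff_ne_zero.2 hR)
    have h9 : (Q.natDegree : ℤ) = R.natDegree := by
      refine mul_right_cancel₀ h8 ?_
      linarith
    have h10 : Q.natDegree = R.natDegree := by exact_mod_cast h9
    omega
  · -- the common part of `P`, `P'` and of `Q`, `Q'`
    have hd : ∀ (k : ι → ℕ), ∏ i, p i ^ (k i - 1) ∣ ∏ i, p i ^ k i ∧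
        ∏ i, p i ^ (k i - 1) ∣ Polynomial.derivative (∏ i, p i ^ k i) := by
      intro k
      refine ⟨Finset.prod_dvd_prod_of_dvd _ _ fun i _ => pow_dvd_pow _ (Nat.sub_le _ _), ?_⟩
      rw [Polynomial.derivative_prod_finset]
      refine Finset.dvd_sum fun i _ => ?_
      rw [← Finset.mul_prod_erase Finset.univ _ (Finset.mem_univ i), mul_comm]
      refine mul_dvd_mul (Finset.prod_dvd_prod_of_dvd _ _ fun j _ =>
        pow_dvd_pow _ (Nat.sub_le _ _)) ?_
      rw [Polynomial.derivative_pow]
      exact Dvd.dvd.mul_right (Dvd.dvd.mul_left dvd_rfl _) _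
    obtain ⟨a1, a2⟩ := hd k
    obtain ⟨b1, b2⟩ := hd l
    have hdvd : (∏ i, p i ^ (k i - 1)) * (∏ i, p i ^ (l i - 1)) ∣ Polynomial.wronskian P Q := by
      unfold Polynomial.wronskian
      exact dvd_sub (mul_dvd_mul a1 b2) (mul_dvd_mul a2 b1)
    have hle := Polynomial.natDegree_le_of_dvd hdvd hw
    have hprod : ∀ k : ι → ℕ, (∏ i, p i ^ k i).natDegree = ∑ i, k i * (p i).natDegree := by
      intro k
      rw [Polynomial.natDegree_prod _ _ (fun i _ => pow_ne_zero _ (hp i))]
      exact Finset.sum_congr rfl fun i _ => Polynomial.natDegree_pow _ _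
    rw [Polynomial.natDegree_mul (Finset.prod_ne_zero_iff.2 fun i _ => pow_ne_zero _ (hp i))
      (Finset.prod_ne_zero_iff.2 fun i _ => pow_ne_zero _ (hp i)), hprod, hprod] at hle
    have hwr : Polynomial.wronskian P Q = -Polynomial.wronskian P R := by
      unfold Polynomial.wronskian
      rw [hRdef, Polynomial.derivative_sub]
      ring
    have hwr0 : Polynomial.wronskian P R ≠ 0 := by
      intro h
      rw [hwr, h, neg_zero] at hw
      exact hw rfl
    have hlt := Polynomial.natDegree_wronskian_lt_add hwr0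
    rw [hwr, Polynomial.natDegree_neg] at hle
    have hPd : P.natDegree = ∑ i, k i * (p i).natDegree := hprod k
    have hQd : Q.natDegree = ∑ i, l i * (p i).natDegree := hprod l
    have hsum : ∑ i, k i * (p i).natDegree + ∑ i, l i * (p i).natDegree ≤
        (∑ i, (k i - 1) * (p i).natDegree + ∑ i, (l i - 1) * (p i).natDegree) +
          ∑ i, (p i).natDegree := by
      rw [← Finset.sum_add_distrib, ← Finset.sum_add_distrib, ← Finset.sum_add_distrib]
      refine Finset.sum_le_sum fun i _ => ?_
      rw [← add_mul, ← add_mul, ← Nat.succ_mul]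
      refine Nat.mul_le_mul_right _ ?_
      rcases hkl i with h | h <;> omega
    omega

/-- the transfer principle for all bases -/
theorem transfer_all (b : ℕ) (hb : 2 ≤ b) (D : ℕ) (hD : 1 ≤ D) (S : ℕ) (hS : 2 ≤ S)
    (e : Fin r → ℕ) :
    ∃ m l : Fin r → ℕ, (∀ j, m j + l j = e j) ∧
      ∀ G : MvPolynomial (Fin r) ℤ, (∀ α ∈ G.support, ∑ j, α j ≤ D) → 2 * nz G ≤ S →
        |eval (fun j => (b : ℤ) ^ (e j)) G| ≤ nz G * (S : ℤ) ^ (4 * D * (4 * D) ^ r) *
          (b : ℤ) ^ (sub b m l G).natDegree ∧
        (eval (fun j => (b : ℤ) ^ (e j)) G ≠ 0 →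
          (b : ℤ) ^ (sub b m l G).natDegree ≤ (S : ℤ) ^ 2 *
            |eval (fun j => (b : ℤ) ^ (e j)) G|) := by
  classical
  have hb0 : (0 : ℤ) < b := by positivity
  rcases Nat.lt_or_ge b S with hbS | hbS
  · set L := Nat.clog b S with hLdef
    have hL1 : 1 ≤ L := Nat.clog_pos (by omega) hS
    have hSL : S ≤ b ^ L := Nat.le_pow_clog (by omega) _
    have hLS : b ^ L ≤ S ^ 2 := by
      obtain ⟨L', hL'⟩ : ∃ L', L = L' + 1 := ⟨L - 1, by omega⟩
      have h1 : b ^ L' < S := by
        rw [← Nat.lt_clog_iff_pow_lt (by omega)]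
        omega
      rw [hL', pow_succ, pow_two]
      exact Nat.mul_le_mul h1.le hbS.le
    obtain ⟨m, l, hml, _, htr⟩ := transfer b hb D hD L hL1 e
    refine ⟨m, l, hml, fun G hG hnz => ?_⟩
    obtain ⟨h1, h2⟩ := htr G hG
    constructor
    · refine h1.trans (mul_le_mul_of_nonneg_right ?_ (by positivity))
      refine mul_le_mul_of_nonneg_left ?_ (nz_nonneg _)
      have h3 : b ^ (D * (2 * (4 * D) ^ r * L)) ≤ S ^ (4 * D * (4 * D) ^ r) := by
        calc b ^ (D * (2 * (4 * D) ^ r * L)) = (b ^ L) ^ (2 * D * (4 * D) ^ r) := by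
              rw [← pow_mul]
              congr 1
              ring
          _ ≤ (S ^ 2) ^ (2 * D * (4 * D) ^ r) := Nat.pow_le_pow_left hLS _
          _ = _ := by
              rw [← pow_mul]
              congr 1
              ring
      exact_mod_cast h3
    · intro h0
      have h4 : ((S : ℕ) : ℤ) ≤ (b : ℤ) ^ L := by exact_mod_cast hSL
      have h5 : (2 : ℤ) ≤ S := by exact_mod_cast hS
      have h6 := nz_nonneg G
      refine (h2 (by linarith) h0).trans (mul_le_mul_of_nonneg_right ?_ (abs_nonneg _))
      exact_mod_cast hLS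
  · refine ⟨fun _ => 0, e, fun j => by simp, fun G hG hnz => ?_⟩
    have hS1 : (1 : ℤ) ≤ S := by
      have : 1 ≤ S := by omega
      exact_mod_cast this
    constructor
    · have h1 := le_sub_natDegree b hb (fun _ => 0) e G 0 (fun α _ => by simp [exn])
      simp only [zero_add, pow_zero, mul_one] at h1
      refine h1.trans (mul_le_mul_of_nonneg_right ?_ (by positivity))
      exact le_mul_of_one_le_right (nz_nonneg _) (one_le_pow₀ hS1)
    · intro h0
      have h1 : sub (b : ℤ) (fun _ => 0) e G ≠ 0 := by
        intro h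
        have h2 := sub_eval (b : ℤ) (fun _ => 0) e G
        rw [h, Polynomial.eval_zero] at h2
        simp only [zero_add] at h2
        exact h0 h2.symm
      have h2 : ((S : ℕ) : ℤ) ≤ b := by exact_mod_cast hbS
      refine (size_large b hb e G (hnz.trans h2) h1).trans
        (mul_le_mul_of_nonneg_right ?_ (abs_nonneg _))
      have h5 : (2 : ℤ) ≤ S := by exact_mod_cast hS
      nlinarith

end Pool.Agent.H458.Sp
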