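import Mathlib

set_option autoImplicit false

/-! # Nonconstant rational functions take non-integral values -/

namespace Pool.Agent.H458.Sp

open Polynomial

/-- a rational function that is not equal to an integer constant takes a non-integral value at
some rational number outside the zero set of a given nonzero polynomial -/
theorem exists_nonint (p0 p1 g : ℤ[X]) (h0 : p0 ≠ 0) (hg : g ≠ 0)
    (hnc : ∀ k : ℤ, p1 ≠ C k * p0) :
    ∃ s : ℚ, aeval s g ≠ 0 ∧ aeval s p0 ≠ 0 ∧ ∀ k : ℤ, aeval s p1 / aeval s p0 ≠ (k : ℚ) := by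
  classical
  by_contra hcon
  push Not at hcon
  have hinj : Function.Injective (algebraMap ℤ ℝ) := Int.cast_injective
  have hG : g * p0 ≠ 0 := mul_ne_zero hg h0
  have hGR : (g * p0).map (algebraMap ℤ ℝ) ≠ 0 := (Polynomial.map_ne_zero_iff hinj).2 hG
  set Z := ((g * p0).map (algebraMap ℤ ℝ)).roots.toFinset with hZ
  obtain ⟨M, hM⟩ : ∃ M : ℝ, ∀ x ∈ Z, x ≤ M := by
    obtain ⟨M, hM⟩ := Z.finite_toSet.bddAbove
    exact ⟨M, fun x hx => hM (Finset.mem_coe.2 hx)⟩
  have hne : ∀ x : ℝ, M < x → aeval x g ≠ 0 ∧ aeval x p0 ≠ 0 := by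
    intro x hx
    have h1 : aeval x (g * p0) ≠ 0 := by
      intro h
      have h2 : x ∈ Z := by
        rw [hZ, Multiset.mem_toFinset, mem_roots hGR, IsRoot, eval_map_algebraMap]
        exact h
      exact absurd (hM x h2) (not_le.2 hx)
    rw [map_mul] at h1
    exact ⟨left_ne_zero_of_mul h1, right_ne_zero_of_mul h1⟩
  set f : ℝ → ℝ := fun x => aeval x p1 / aeval x p0 with hf
  have hcont : ContinuousOn f (Set.Ioi M) := by
    refine ContinuousOn.div ?_ ?_ fun x hx => (hne x hx).2
    · exact (Polynomial.continuous_aeval p1).continuousOn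
    · exact (Polynomial.continuous_aeval p0).continuousOn
  have hrat : ∀ s : ℚ, M < s → f s ∈ Set.range (Int.cast : ℤ → ℝ) := by
    intro s hs
    have hcast : ∀ q : ℤ[X], aeval (s : ℝ) q = ((aeval s q : ℚ) : ℝ) := fun q =>
      Polynomial.aeval_algebraMap_apply ℝ s q
    have h1 := hne s hs
    rw [hcast, hcast] at h1
    obtain ⟨k, hk⟩ := hcon s (by exact_mod_cast h1.1) (by exact_mod_cast h1.2)
    refine ⟨k, ?_⟩
    rw [hf]
    simp only
    rw [hcast, hcast, ← Rat.cast_div, hk]
    norm_num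
  have hall : ∀ x ∈ Set.Ioi M, f x ∈ Set.range (Int.cast : ℤ → ℝ) := by
    intro x hx
    have hcl : IsClosed (Set.range (Int.cast : ℤ → ℝ)) := Int.isClosedEmbedding_coe_real.isClosed_range
    rw [← hcl.closure_eq]
    have h1 : x ∈ closure (Set.Ioi M ∩ Set.range ((↑) : ℚ → ℝ)) :=
      Rat.denseRange_cast.open_subset_closure_inter isOpen_Ioi hx
    refine ContinuousWithinAt.mem_closure
      ((hcont x hx).mono Set.inter_subset_left) h1 ?_
    rintro _ ⟨hy, s, rfl⟩
    exact hrat s hy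
  have hsub : (f '' Set.Ioi M).Subsingleton := by
    have h1 : IsPreconnected (f '' Set.Ioi M) := isPreconnected_Ioi.image f hcont
    refine (Set.countable_range (Int.cast : ℤ → ℝ)).isTotallyDisconnected _ ?_ h1
    rintro _ ⟨x, hx, rfl⟩
    exact hall x hx
  obtain ⟨k, hk⟩ := hall (M + 1) (by simp)
  refine hnc k ?_
  have h2 : ∀ x ∈ Set.Ioi M, f x = k := by
    intro x hx
    rw [hk]
    exact hsub ⟨x, hx, rfl⟩ ⟨M + 1, by simp, rfl⟩
  have h3 : (p1 - C k * p0).map (algebraMap ℤ ℝ) = 0 := by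
    refine Polynomial.eq_zero_of_infinite_isRoot _ ((Set.Ioi_infinite M).mono ?_)
    intro x hx
    have h4 := h2 x hx
    rw [hf] at h4
    simp only at h4
    rw [div_eq_iff (hne x hx).2] at h4
    show ((p1 - C k * p0).map (algebraMap ℤ ℝ)).IsRoot x
    rw [IsRoot, eval_map_algebraMap, map_sub, map_mul, h4]
    simp
  rw [Polynomial.map_eq_zero_iff hinj, sub_eq_zero] at h3
  exact h3

end Pool.Agent.H458.Sp
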