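import Mathlib
import Pool.Agent.H458.Sp.Quad3

set_option autoImplicit false

/-! # Quadratic points on Fermat curves over rational function fields, part 4 -/

namespace Pool.Agent.H458.Sp

open Polynomial Finset

theorem Dl_scale (G f0 f1 f2 : ℂ[X]) : Dl (G * f0) (G * f1) (G * f2) = G ^ 4 * Dl f0 f1 f2 := by
  unfold Dl
  rw [derivative_mul, derivative_mul, derivative_mul]
  ring

/-- **function field theorem**: nonrational quadratic points on the Fermat curve of exponent at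
least `8` over the rational functions are constant -/
theorem quad_const (n : ℕ) (hn : 8 ≤ n) (f0 f1 f2 g : ℤ[X])
    (hid : g ^ n = f0 ^ n - Vq f0 f1 f2 n + f2 ^ n) (b : ℤ) (hb0 : f0.eval b ≠ 0)
    (hgb : g.eval b ≠ 0)
    (hirr : ¬ IsSquare (f1.eval b ^ 2 - 4 * f0.eval b * f2.eval b)) :
    C (f0.eval b) * f1 = C (f1.eval b) * f0 ∧ C (f0.eval b) * f2 = C (f2.eval b) * f0 ∧
      C (f0.eval b) * g = C (g.eval b) * f0 := by
  classical
  have hf0 : f0 ≠ 0 := by
    rintro rfl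
    simp at hb0
  have hg0 : g ≠ 0 := by
    rintro rfl
    simp at hgb
  by_cases hΔ : (f0 * derivative f2 - derivative f0 * f2) ^ 2 -
      (f1 * derivative f2 - derivative f1 * f2) * (f0 * derivative f1 - derivative f0 * f1) = 0
  · obtain ⟨h1, h2⟩ := degenerate f0 f1 f2 b hb0 hirr hΔ
    refine ⟨h1, h2, ?_⟩
    -- evaluate at `b`
    have h3 : g.eval b ^ n = f0.eval b ^ n - Vq (f0.eval b) (f1.eval b) (f2.eval b) n +
        f2.eval b ^ n := by
      have h4 := congrArg (evalRingHom b) hid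
      rw [map_add, map_sub, map_pow, map_pow, map_pow, (Vq_map (evalRingHom b) f0 f1 f2 n).1] at h4
      exact h4
    have h5 : C (f0.eval b) ^ n * g ^ n = C (g.eval b) ^ n * f0 ^ n := by
      have e1 : C (f0.eval b) ^ n * (f0 ^ n - Vq f0 f1 f2 n + f2 ^ n) =
          (C (f0.eval b) * f0) ^ n -
            Vq (C (f0.eval b) * f0) (C (f0.eval b) * f1) (C (f0.eval b) * f2) n +
            (C (f0.eval b) * f2) ^ n := by
        rw [(Vq_scale (C (f0.eval b)) f0 f1 f2 n).1, mul_pow, mul_pow]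
        ring
      have e2 : f0 ^ n * (C (f0.eval b) ^ n - Vq (C (f0.eval b)) (C (f1.eval b))
          (C (f2.eval b)) n + C (f2.eval b) ^ n) =
          (f0 * C (f0.eval b)) ^ n -
            Vq (f0 * C (f0.eval b)) (f0 * C (f1.eval b)) (f0 * C (f2.eval b)) n +
            (f0 * C (f2.eval b)) ^ n := by
        rw [(Vq_scale f0 (C (f0.eval b)) (C (f1.eval b)) (C (f2.eval b)) n).1, mul_pow, mul_pow]
        ring
      have e3 : (C (g.eval b) : ℤ[X]) ^ n = C (f0.eval b) ^ n - Vq (C (f0.eval b))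
          (C (f1.eval b)) (C (f2.eval b)) n + C (f2.eval b) ^ n := by
        have h4 := congrArg (C : ℤ →+* ℤ[X]) h3
        rw [map_add, map_sub, map_pow, map_pow, map_pow, (Vq_map (C : ℤ →+* ℤ[X]) _ _ _ n).1] at h4
        exact h4
      rw [hid, e1, h1, h2, mul_comm (C (f0.eval b)) f0, mul_comm (C (f1.eval b)) f0,
        mul_comm (C (f2.eval b)) f0, ← e2, e3]
      ring
    refine prop_of_wronskian g f0 hf0 ?_ b
    have h6 := congrArg derivative h5
    rw [← C_pow, ← C_pow, derivative_C_mul, derivative_C_mul, derivative_pow, derivative_pow,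
      C_pow, C_pow] at h6
    obtain ⟨k, rfl⟩ : ∃ k, n = k + 1 := ⟨n - 1, by omega⟩
    rw [Nat.add_sub_cancel] at h6
    have hne : (C (((k + 1 : ℕ) : ℤ)) * C (f0.eval b) ^ (k + 1) * g ^ (k + 1) : ℤ[X]) ≠ 0 := by
      refine mul_ne_zero (mul_ne_zero ?_ (pow_ne_zero _ ?_)) (pow_ne_zero _ hg0)
      · rw [Ne, C_eq_zero]
        exact_mod_cast Nat.succ_ne_zero k
      · rw [Ne, C_eq_zero]
        exact hb0
    refine (mul_eq_zero.1 (?_ : C (((k + 1 : ℕ) : ℤ)) * C (f0.eval b) ^ (k + 1) * g ^ (k + 1) *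
      (g * derivative f0 - derivative g * f0) = 0)).resolve_left hne
    linear_combination (C (((k + 1 : ℕ) : ℤ)) * g * derivative f0) * h5 - (g * f0) * h6
  · set φ : ℤ[X] →+* ℂ[X] := Polynomial.mapRingHom (Int.castRingHom ℂ) with hφ
    have hφinj : Function.Injective φ :=
      Polynomial.map_injective _ (RingHom.injective_int (Int.castRingHom ℂ))
    have hφe : ∀ (g : ℤ[X]) (s : ℤ), (φ g).eval (s : ℂ) = ((g.eval s : ℤ) : ℂ) := by
      intro g s
      rw [hφ, Polynomial.coe_mapRingHom, Polynomial.eval_intCast_map]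
      simp
    have hφd : ∀ g : ℤ[X], φ (derivative g) = derivative (φ g) := by
      intro g
      rw [hφ, Polynomial.coe_mapRingHom, derivative_map]
    have hφC : ∀ z : ℤ, φ (C z) = C (z : ℂ) := by
      intro z
      rw [hφ]
      simp
    have hΔC : Dl (φ f0) (φ f1) (φ f2) ≠ 0 := by
      intro h
      apply hΔ
      apply hφinj
      rw [map_zero, ← h]
      unfold Dl
      simp only [map_sub, map_mul, map_pow, hφd]
    set G := EuclideanDomain.gcd (φ f0) (EuclideanDomain.gcd (φ f1) (φ f2)) with hG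
    have hF0 : φ f0 ≠ 0 := fun h => hf0 (hφinj (by rw [h, map_zero]))
    have hG0 : G ≠ 0 := fun h => hF0 (EuclideanDomain.gcd_eq_zero_iff.1 h).1
    obtain ⟨x0, hx0⟩ : G ∣ φ f0 := EuclideanDomain.gcd_dvd_left _ _
    have hG12 : G ∣ EuclideanDomain.gcd (φ f1) (φ f2) := EuclideanDomain.gcd_dvd_right _ _
    obtain ⟨x1, hx1⟩ : G ∣ φ f1 := hG12.trans (EuclideanDomain.gcd_dvd_left _ _)
    obtain ⟨x2, hx2⟩ : G ∣ φ f2 := hG12.trans (EuclideanDomain.gcd_dvd_right _ _)
    obtain ⟨y0, y1, y2, hy⟩ : ∃ y0 y1 y2 : ℂ[X], x0 * y0 + x1 * y1 + x2 * y2 = 1 := by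
      have h1 : G = φ f0 * EuclideanDomain.gcdA (φ f0) (EuclideanDomain.gcd (φ f1) (φ f2)) +
          EuclideanDomain.gcd (φ f1) (φ f2) *
            EuclideanDomain.gcdB (φ f0) (EuclideanDomain.gcd (φ f1) (φ f2)) :=
        EuclideanDomain.gcd_eq_gcd_ab _ _
      have h2 : EuclideanDomain.gcd (φ f1) (φ f2) =
          φ f1 * EuclideanDomain.gcdA (φ f1) (φ f2) +
            φ f2 * EuclideanDomain.gcdB (φ f1) (φ f2) :=
        EuclideanDomain.gcd_eq_gcd_ab _ _
      set s := EuclideanDomain.gcdA (φ f0) (EuclideanDomain.gcd (φ f1) (φ f2)) with hs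
      set t := EuclideanDomain.gcdB (φ f0) (EuclideanDomain.gcd (φ f1) (φ f2)) with ht
      set p := EuclideanDomain.gcdA (φ f1) (φ f2) with hp
      set q := EuclideanDomain.gcdB (φ f1) (φ f2) with hq
      refine ⟨s, p * t, q * t, mul_left_cancel₀ hG0 ?_⟩
      have h3 : G = φ f0 * s + (φ f1 * p + φ f2 * q) * t := by rw [← h2]; exact h1
      calc G * (x0 * s + x1 * (p * t) + x2 * (q * t)) =
          (G * x0) * s + ((G * x1) * p + (G * x2) * q) * t := by ring
        _ = G * 1 := by rw [← hx0, ← hx1, ← hx2, mul_one]; exact h3.symm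
    have hx00 : x0 ≠ 0 := by
      rintro rfl
      rw [mul_zero] at hx0
      exact hF0 hx0
    have hDx : Dl x0 x1 x2 ≠ 0 := by
      intro h
      apply hΔC
      rw [hx0, hx1, hx2, Dl_scale, h, mul_zero]
    have hidC : (φ g) ^ n = (φ f0) ^ n - Vq (φ f0) (φ f1) (φ f2) n + (φ f2) ^ n := by
      have h1 := congrArg φ hid
      rw [map_add, map_sub, map_pow, map_pow, map_pow, (Vq_map φ f0 f1 f2 n).1] at h1
      exact h1
    have hid2 : (φ g) ^ n = G ^ n * (x0 ^ n - Vq x0 x1 x2 n + x2 ^ n) := by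
      rw [hidC, hx0, hx1, hx2, (Vq_scale G x0 x1 x2 n).1, mul_pow, mul_pow]
      ring
    obtain ⟨γ, hγ⟩ : G ∣ φ g := by
      rw [← IsIntegrallyClosed.pow_dvd_pow_iff (show n ≠ 0 by omega), hid2]
      exact dvd_mul_right _ _
    have hγ0 : γ ≠ 0 := by
      rintro rfl
      rw [mul_zero] at hγ
      exact hg0 (hφinj (by rw [hγ, map_zero]))
    have hidγ : γ ^ n = x0 ^ n - Vq x0 x1 x2 n + x2 ^ n := by
      refine mul_left_cancel₀ (pow_ne_zero n hG0) ?_
      rw [← hid2, hγ, mul_pow]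
    obtain ⟨d0, d1, d2, dγ⟩ := net_const n hn x0 x1 x2 γ hx00 hγ0 (by
      rintro a ⟨h0, h1, h2⟩
      have h3 := congrArg (eval a) hy
      rw [eval_add, eval_add, eval_mul, eval_mul, eval_mul, h0, h1, h2, eval_one] at h3
      simp at h3) hidγ hDx
    have key : ∀ (A : ℤ[X]) (x : ℂ[X]), φ A = G * x → x.natDegree = 0 →
        C (f0.eval b) * A = C (A.eval b) * f0 := by
      intro A x hA hx
      apply hφinj
      rw [map_mul, map_mul, hφC, hφC, ← hφe, ← hφe, hA, hx0,
        eq_C_of_natDegree_eq_zero hx, eq_C_of_natDegree_eq_zero d0]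
      simp only [eval_mul, eval_C, C_mul]
      ring
    exact ⟨key f1 x1 hx1 d1, key f2 x2 hx2 d2, key g γ hγ dγ⟩

end Pool.Agent.H458.Sp
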