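import Mathlib
import Pool.Agent.H458.Sp.Quad4
import Pool.Agent.H458.Sp.Infin

set_option autoImplicit false

/-! # Sparse quadratic points on Fermat curves -/

namespace Pool.Agent.H458.Sp

open Finset

open MvPolynomial in
theorem nz_X' {τ : Type} (i : τ) : nz (X i : MvPolynomial τ ℤ) ≤ 1 := by
  have h := nz_monomial (Finsupp.single i 1) (1 : ℤ)
  rw [abs_one] at h
  exact h

open MvPolynomial in
theorem nz_sub' {τ : Type} (F G : MvPolynomial τ ℤ) : nz (F - G) ≤ nz F + nz G := by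
  rw [sub_eq_add_neg]
  refine (nz_add _ _).trans ?_
  rw [nz_neg]

open MvPolynomial in
theorem nz_two {τ : Type} : nz (2 : MvPolynomial τ ℤ) ≤ 2 := by
  have h := nz_monomial (τ := τ) 0 (2 : ℤ)
  exact h

open MvPolynomial in
theorem nz_V : ∀ k : ℕ, nz (Vq (X 0 : MvPolynomial (Fin 4) ℤ) (X 1) (X 2) k) ≤ 2 ^ (k + 1) ∧
    nz (Vq (X 0 : MvPolynomial (Fin 4) ℤ) (X 1) (X 2) (k + 1)) ≤ 2 ^ (k + 2) := by
  intro k
  induction k with
  | zero =>
    constructor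
    · simp only [Vq]
      exact nz_two
    · simp only [Vq]
      exact (nz_X' _).trans (by norm_num)
  | succ k ih =>
    refine ⟨ih.2, ?_⟩
    rw [Vq]
    refine (nz_sub' _ _).trans ?_
    have h1 : nz (X 1 * Vq (X 0 : MvPolynomial (Fin 4) ℤ) (X 1) (X 2) (k + 1)) ≤
        1 * 2 ^ (k + 2) :=
      (nz_mul _ _).trans (mul_le_mul (nz_X' _) ih.2 (nz_nonneg _) (by norm_num))
    have h2 : nz (X 0 * X 2 : MvPolynomial (Fin 4) ℤ) ≤ 1 * 1 :=
      (nz_mul _ _).trans (mul_le_mul (nz_X' _) (nz_X' _) (nz_nonneg _) (by norm_num))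
    have h3 : nz (X 0 * X 2 * Vq (X 0 : MvPolynomial (Fin 4) ℤ) (X 1) (X 2) k) ≤
        1 * 1 * 2 ^ (k + 1) :=
      (nz_mul _ _).trans (mul_le_mul h2 ih.1 (nz_nonneg _) (by norm_num))
    have h4 : (2 : ℤ) ^ (k + 1 + 2) = 2 * 2 ^ (k + 2) := by ring
    have h5 : (2 : ℤ) ^ (k + 2) = 2 * 2 ^ (k + 1) := by ring
    have h6 : (0 : ℤ) < 2 ^ (k + 1) := by positivity
    linarith

open MvPolynomial in
theorem deg_V : ∀ k : ℕ, (Vq (X 0 : MvPolynomial (Fin 4) ℤ) (X 1) (X 2) k).totalDegree ≤ k ∧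
    (Vq (X 0 : MvPolynomial (Fin 4) ℤ) (X 1) (X 2) (k + 1)).totalDegree ≤ k + 1 := by
  intro k
  induction k with
  | zero =>
    constructor
    · simp only [Vq]
      exact (totalDegree_C (2 : ℤ)).le
    · simp only [Vq]
      rw [totalDegree_X]
  | succ k ih =>
    refine ⟨ih.2, ?_⟩
    rw [Vq]
    refine (totalDegree_sub _ _).trans (max_le ?_ ?_)
    · refine (totalDegree_mul _ _).trans ?_
      rw [totalDegree_X]
      have := ih.2
      omega
    · refine (totalDegree_mul _ _).trans ?_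
      have h1 := (totalDegree_mul (X 0 : MvPolynomial (Fin 4) ℤ) (X 2))
      rw [totalDegree_X, totalDegree_X] at h1
      have := ih.1
      omega

/-- the form -/
noncomputable def fP (n : ℕ) : MvPolynomial (Fin 4) ℤ :=
  MvPolynomial.X 3 ^ n - (MvPolynomial.X 0 ^ n -
    Vq (MvPolynomial.X 0) (MvPolynomial.X 1) (MvPolynomial.X 2) n + MvPolynomial.X 2 ^ n)

open MvPolynomial in
theorem fP_nz (n : ℕ) : nz (fP n) ≤ 2 ^ (n + 1) + 3 := by
  unfold fP
  have h1 : ∀ i : Fin 4, nz (X i ^ n : MvPolynomial (Fin 4) ℤ) ≤ 1 := by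
    intro i
    have := nz_pow (X i : MvPolynomial (Fin 4) ℤ) 1 (nz_X' i) n
    rwa [one_pow] at this
  have h2 := (nz_V n).1
  have h3 := nz_sub' (X 3 ^ n : MvPolynomial (Fin 4) ℤ) (X 0 ^ n -
    Vq (X 0) (X 1) (X 2) n + X 2 ^ n)
  have h4 := nz_add (X 0 ^ n - Vq (X 0) (X 1) (X 2) n : MvPolynomial (Fin 4) ℤ) (X 2 ^ n)
  have h5 := nz_sub' (X 0 ^ n : MvPolynomial (Fin 4) ℤ) (Vq (X 0) (X 1) (X 2) n)
  have h6 := h1 0
  have h7 := h1 2
  have h8 := h1 3
  linarith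

open MvPolynomial in
theorem fP_deg (n : ℕ) : (fP n).totalDegree ≤ n := by
  unfold fP
  have h1 : ∀ i : Fin 4, (X i ^ n : MvPolynomial (Fin 4) ℤ).totalDegree ≤ n := by
    intro i
    rw [totalDegree_X_pow]
  refine (totalDegree_sub _ _).trans (max_le (h1 3) ?_)
  refine (totalDegree_add _ _).trans (max_le ?_ (h1 2))
  exact (totalDegree_sub _ _).trans (max_le (h1 0) (deg_V n).1)

theorem fP_aeval (n : ℕ) (p : Fin 4 → Polynomial ℤ) : MvPolynomial.aeval p (fP n) =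
    p 3 ^ n - (p 0 ^ n - Vq (p 0) (p 1) (p 2) n + p 2 ^ n) := by
  unfold fP
  rw [map_sub, map_add, map_sub, map_pow, map_pow, map_pow]
  have h1 := (Vq_map (MvPolynomial.aeval p : MvPolynomial (Fin 4) ℤ →ₐ[ℤ] Polynomial ℤ).toRingHom
    (MvPolynomial.X 0) (MvPolynomial.X 1) (MvPolynomial.X 2) n).1
  simp only [AlgHom.toRingHom_eq_coe, RingHom.coe_coe, MvPolynomial.aeval_X] at h1
  rw [h1]
  simp only [MvPolynomial.aeval_X]

theorem fP_eval (n : ℕ) (z : Fin 4 → ℤ) : MvPolynomial.eval z (fP n) =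
    z 3 ^ n - (z 0 ^ n - Vq (z 0) (z 1) (z 2) n + z 2 ^ n) := by
  unfold fP
  rw [map_sub, map_add, map_sub, map_pow, map_pow, map_pow]
  have h1 := (Vq_map (MvPolynomial.eval z) (MvPolynomial.X 0) (MvPolynomial.X 1)
    (MvPolynomial.X 2) n).1
  simp only [MvPolynomial.eval_X] at h1
  rw [h1]
  simp only [MvPolynomial.eval_X]

end Pool.Agent.H458.Sp
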