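import Mathlib
import Pool.Agent.H458.Sp.AllBase

set_option autoImplicit false

/-! # Sparse points lie on finitely many unirational varieties -/

namespace Pool.Agent.H458.Sp

open Finset MvPolynomial

variable {r n s : ℕ}

/-- the substitution `u_j = b ^ (m j) T ^ (κ j)` -/
noncomputable def msub (b : ℤ) (m : Fin r → ℕ) (κ : Fin r → (Fin s →₀ ℕ)) :
    MvPolynomial (Fin r) ℤ →ₐ[ℤ] MvPolynomial (Fin s) ℤ :=
  aeval (fun j => monomial (κ j) (b ^ (m j)))

/-- the exponent of the image of a monomial -/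
noncomputable def kap (κ : Fin r → (Fin s →₀ ℕ)) (α : Fin r →₀ ℕ) : Fin s →₀ ℕ :=
  ∑ j, α j • κ j

theorem prod_monomial {ι : Type} (t : Finset ι) (f : ι → (Fin s →₀ ℕ)) (a : ι → ℤ) :
    ∏ i ∈ t, monomial (f i) (a i) = monomial (∑ i ∈ t, f i) (∏ i ∈ t, a i) := by
  classical
  induction t using Finset.induction_on with
  | empty => simp
  | insert i t hi ih =>
    rw [Finset.prod_insert hi, Finset.sum_insert hi, Finset.prod_insert hi, ih, monomial_mul]

theorem msub_eq (b : ℤ) (m : Fin r → ℕ) (κ : Fin r → (Fin s →₀ ℕ)) (G : MvPolynomial (Fin r) ℤ) :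
    msub b m κ G = ∑ α ∈ G.support, monomial (kap κ α) (b ^ (exn m α) * coeff α G) := by
  unfold msub
  rw [aeval_def, eval₂_eq']
  refine Finset.sum_congr rfl fun α _ => ?_
  have h1 : ∏ j, monomial (κ j) (b ^ (m j)) ^ (α j) =
      monomial (kap κ α) (b ^ (exn m α)) := by
    unfold kap exn
    rw [← Finset.prod_pow_eq_pow_sum, ← prod_monomial]
    refine Finset.prod_congr rfl fun j _ => ?_
    rw [monomial_pow, ← pow_mul, mul_comm (m j)]
  rw [h1]
  show C (coeff α G) * _ = _
  rw [C_mul_monomial, mul_comm]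

theorem msub_coeff (b : ℤ) (m : Fin r → ℕ) (κ : Fin r → (Fin s →₀ ℕ))
    (G : MvPolynomial (Fin r) ℤ) (w : Fin s →₀ ℕ) :
    coeff w (msub b m κ G) = ∑ α ∈ G.support.filter (fun α => kap κ α = w),
      b ^ (exn m α) * coeff α G := by
  classical
  rw [msub_eq, coeff_sum]
  simp_rw [coeff_monomial]
  rw [← Finset.sum_filter]

/-- if the value is zero, so is the polynomial in several variables -/
theorem msub_vanish (b : ℕ) (hb : 2 ≤ b) (L : ℕ) (hL : 1 ≤ L) (m l : Fin r → ℕ)
    (κ : Fin r → (Fin s →₀ ℕ))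
    (G : MvPolynomial (Fin r) ℤ) (hS : 1 + nz G ≤ (b : ℤ) ^ L)
    (hcl : ∀ α ∈ G.support, ∀ β ∈ G.support,
      (exn (fun j => m j + l j) α < exn (fun j => m j + l j) β + L ∧
        exn (fun j => m j + l j) β < exn (fun j => m j + l j) α + L) →
      exn l α = exn l β ∧ kap κ α = kap κ β)
    (h0 : eval (fun j => (b : ℤ) ^ (m j + l j)) G = 0) : msub b m κ G = 0 := by
  classical
  have hb0 : (0 : ℤ) < b := by positivity
  have hsum0 : ∑ α ∈ G.support, (b : ℤ) ^ (exn (fun j => m j + l j) α + L) * coeff α G = 0 := by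
    rw [eval_powz b (fun j => m j + l j)] at h0
    have h3 : ∑ α ∈ G.support, (b : ℤ) ^ (exn (fun j => m j + l j) α + L) * coeff α G =
        (b : ℤ) ^ L * ∑ α ∈ G.support, (b : ℤ) ^ (exn (fun j => m j + l j) α) * coeff α G := by
      rw [Finset.mul_sum]
      refine Finset.sum_congr rfl fun α _ => ?_
      rw [pow_add]
      ring
    rw [h3, h0, mul_zero]
  ext w
  rw [msub_coeff, coeff_zero]
  rw [← Finset.sum_fiberwise_of_maps_to (s := G.support.filter (fun α => kap κ α = w))
    (t := (G.support.filter (fun α => kap κ α = w)).image (exn l)) (g := exn l)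
    (fun α hα => Finset.mem_image_of_mem _ hα)]
  refine Finset.sum_eq_zero fun v _ => ?_
  rw [Finset.filter_filter]
  have h1 := int_closed b hb L hL (fun α => coeff α G)
    (fun α => exn (fun j => m j + l j) α + L) 0
    G.support.card G.support
    (G.support.filter (fun α => kap κ α = w ∧ exn l α = v)) 0 le_rfl
    (Finset.filter_subset _ _) hS ?_ ?_ (by simp) hsum0
  · have h2 : (b : ℤ) ^ (v + L) * ∑ α ∈ G.support.filter (fun α => kap κ α = w ∧ exn l α = v),
        (b : ℤ) ^ (exn m α) * coeff α G = 0 := by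
      rw [← h1, Finset.mul_sum]
      refine Finset.sum_congr rfl fun α hα => ?_
      rw [exn_add, pow_add, pow_add, pow_add, ← (Finset.mem_filter.1 hα).2.2]
      ring
    exact (mul_eq_zero.1 h2).resolve_left (pow_pos hb0 _).ne'
  · intro α hα β hβ hr
    rw [Finset.mem_filter] at hα ⊢
    obtain ⟨h2, h3⟩ := hcl α hα.1 β hβ ⟨by omega, by omega⟩
    exact ⟨hβ, h3 ▸ hα.2.1, h2 ▸ hα.2.2⟩
  · intro α hα
    omega


/-! ### The lattices -/

/-- the box of rows -/
noncomputable def rowBox (r d : ℕ) : Finset (Fin r → ℤ) := Fintype.piFinset fun _ => Finset.Icc (-(d : ℤ)) d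

/-- the vectors orthogonal to all rows in `S` -/
def lat (S : Finset (Fin r → ℤ)) : Submodule ℤ (Fin r → ℤ) where
  carrier := {l | ∀ R ∈ S, ∑ j, R j * l j = 0}
  add_mem' := by
    intro a b ha hb R hR
    simp only [Pi.add_apply, mul_add, Finset.sum_add_distrib]
    rw [ha R hR, hb R hR, add_zero]
  zero_mem' := by
    intro R _
    simp
  smul_mem' := by
    intro c a ha R hR
    simp only [Pi.smul_apply, smul_eq_mul]
    have : ∑ j, R j * (c * a j) = c * ∑ j, R j * a j := by
      rw [Finset.mul_sum]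
      exact Finset.sum_congr rfl fun j _ => by ring
    rw [this, ha R hR, mul_zero]

theorem exists_gen (S : Finset (Fin r → ℤ)) :
    ∃ (s : ℕ) (g : Fin s → Fin r → ℤ), Submodule.span ℤ (Set.range g) = lat S :=
  Submodule.fg_iff_exists_fin_generating_family.1 (IsNoetherian.noetherian (lat S))

/-- number of generators -/
noncomputable def genN (S : Finset (Fin r → ℤ)) : ℕ := (exists_gen S).choose

/-- generators -/
noncomputable def gen (S : Finset (Fin r → ℤ)) : Fin (genN S) → Fin r → ℤ :=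
  (exists_gen S).choose_spec.choose

theorem gen_span (S : Finset (Fin r → ℤ)) :
    Submodule.span ℤ (Set.range (gen S)) = lat S :=
  (exists_gen S).choose_spec.choose_spec

/-- the shift which makes all exponents nonnegative -/
noncomputable def shift (S : Finset (Fin r → ℤ)) : ℕ := ∑ i, ∑ j, (gen S i j).natAbs

/-- the exponents of the monomials -/
noncomputable def kappa (S : Finset (Fin r → ℤ)) (j : Fin r) : Fin (genN S) →₀ ℕ :=
  Finsupp.equivFunOnFinite.symm fun i => (gen S i j + shift S).toNat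

theorem kappa_apply (S : Finset (Fin r → ℤ)) (j : Fin r) (i : Fin (genN S)) :
    ((kappa S j i : ℕ) : ℤ) = gen S i j + shift S := by
  unfold kappa
  rw [Finsupp.equivFunOnFinite_symm_apply_apply, Int.toNat_of_nonneg]
  have h1 : (gen S i j).natAbs ≤ shift S := by
    unfold shift
    calc (gen S i j).natAbs ≤ ∑ j, (gen S i j).natAbs :=
          Finset.single_le_sum (f := fun j => (gen S i j).natAbs) (fun _ _ => Nat.zero_le _)
            (Finset.mem_univ j)
      _ ≤ _ := Finset.single_le_sum (f := fun i => ∑ j, (gen S i j).natAbs)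
            (fun _ _ => Nat.zero_le _) (Finset.mem_univ i)
  omega

theorem kap_apply (S : Finset (Fin r → ℤ)) (α : Fin r →₀ ℕ) (i : Fin (genN S)) :
    ((kap (kappa S) α i : ℕ) : ℤ) = ∑ j, (α j : ℤ) * gen S i j + shift S * ∑ j, (α j : ℤ) := by
  unfold kap
  rw [Finsupp.coe_finsetSum, Finset.sum_apply]
  push_cast
  rw [Finset.mul_sum, ← Finset.sum_add_distrib]
  refine Finset.sum_congr rfl fun j _ => ?_
  rw [Pi.smul_apply, smul_eq_mul]
  push_cast
  rw [kappa_apply]
  ring

/-- monomials of the same degree whose difference is in `S` have the same image -/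
theorem kap_eq (S : Finset (Fin r → ℤ)) (α β : Fin r →₀ ℕ) (hdeg : ∑ j, α j = ∑ j, β j)
    (h : (fun j => (α j : ℤ) - β j) ∈ S) : kap (kappa S) α = kap (kappa S) β := by
  ext i
  have h1 : gen S i ∈ lat S := by
    rw [← gen_span]
    exact Submodule.subset_span ⟨i, rfl⟩
  have h2 : ∑ j, ((α j : ℤ) - β j) * gen S i j = 0 := h1 _ h
  have h3 : ∑ j, (α j : ℤ) * gen S i j = ∑ j, (β j : ℤ) * gen S i j := by
    have : ∑ j, ((α j : ℤ) - β j) * gen S i j =
        ∑ j, (α j : ℤ) * gen S i j - ∑ j, (β j : ℤ) * gen S i j := by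
      rw [← Finset.sum_sub_distrib]
      exact Finset.sum_congr rfl fun j _ => by ring
    rw [this] at h2
    linarith
  have h4 : ∑ j, (α j : ℤ) = ∑ j, (β j : ℤ) := by exact_mod_cast hdeg
  have h5 := kap_apply S α i
  rw [h3, h4, ← kap_apply] at h5
  exact_mod_cast h5

/-- the parametrisation given by digit vectors `c` and a set `S` of rows -/
noncomputable def param (c : Fin n → Fin r → ℤ) (S : Finset (Fin r → ℤ)) (i : Fin n) :
    MvPolynomial (Fin (genN S)) ℤ := ∑ j, monomial (kappa S j) (c i j)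

theorem msub_li (b : ℤ) (m : Fin r → ℕ) (S : Finset (Fin r → ℤ)) (c : Fin r → ℤ) :
    msub b m (kappa S) (li c) = ∑ j, monomial (kappa S j) (c j * b ^ (m j)) := by
  unfold msub li
  rw [map_sum]
  refine Finset.sum_congr rfl fun j _ => ?_
  rw [map_mul, aeval_X, aeval_C]
  show C (c j) * _ = _
  rw [C_mul_monomial]

theorem prod_zpow' {ι : Type} (t : Finset ι) (b : ℚ) (hb : b ≠ 0) (f : ι → ℤ) :
    ∏ i ∈ t, b ^ (f i) = b ^ (∑ i ∈ t, f i) := by
  classical
  induction t using Finset.induction_on with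
  | empty => simp
  | insert i t hi ih => rw [Finset.prod_insert hi, Finset.sum_insert hi, ih, zpow_add₀ hb]

/-- evaluation of a monomial at powers of `b` -/
theorem eval_kappa (S : Finset (Fin r → ℤ)) (b : ℚ) (hb : b ≠ 0) (q : Fin (genN S) → ℤ)
    (l : Fin r → ℤ) (hl : ∑ i, q i • gen S i = l) (j : Fin r) (a : ℚ) :
    eval (fun i => b ^ (q i)) (monomial (kappa S j) a) =
      a * b ^ (l j) * b ^ (shift S * ∑ i, q i) := by
  rw [eval_monomial, Finsupp.prod_fintype _ _ (by simp), mul_assoc]
  congr 1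
  have h1 : ∀ i, (b ^ (q i)) ^ (kappa S j i) = b ^ (q i * (gen S i j + shift S)) := by
    intro i
    rw [← zpow_natCast, ← zpow_mul, kappa_apply]
  simp_rw [h1]
  rw [← zpow_add₀ hb]
  have h2 : l j + shift S * ∑ i, q i = ∑ i, q i * (gen S i j + shift S) := by
    rw [← hl]
    simp only [Finset.sum_apply, Pi.smul_apply, smul_eq_mul]
    rw [Finset.mul_sum, ← Finset.sum_add_distrib]
    exact Finset.sum_congr rfl fun i _ => by ring
  rw [h2]
  exact prod_zpow' _ _ hb _

end Pool.Agent.H458.Sp
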