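import Mathlib
import Pool.Agent.H458.Sp.Unirat

set_option autoImplicit false

/-! # Sparse points lie on finitely many unirational varieties: the covering -/

namespace Pool.Agent.H458.Sp

open Finset MvPolynomial

variable {r n : ℕ}

theorem row_sum (α β : Fin r →₀ ℕ) (w : Fin r → ℕ) :
    ∑ j, ((α j : ℤ) - β j) * (w j : ℤ) = (exn w α : ℤ) - exn w β := by
  unfold exn
  push_cast
  rw [← Finset.sum_sub_distrib]
  exact Finset.sum_congr rfl fun j _ => by ring

/-- splitting the exponents -/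
theorem split_exponents (d : ℕ) (hd : 1 ≤ d) (L : ℕ) (hL : 1 ≤ L) (e : Fin r → ℕ) :
    ∃ m l : Fin r → ℕ, (∀ j, m j + l j = e j) ∧ (∀ j, m j ≤ 2 * (4 * d) ^ r * L) ∧
      ∀ α β : Fin r →₀ ℕ, ∑ j, α j ≤ d → ∑ j, β j ≤ d → exn e α < exn e β + L →
        exn e β < exn e α + L → exn l α = exn l β := by
  classical
  set RR : Set (Fin r → ℤ) := {R | ∃ α β : Fin r →₀ ℕ, ∑ j, α j ≤ d ∧ ∑ j, β j ≤ d ∧
    (exn e α < exn e β + L ∧ exn e β < exn e α + L) ∧ R = fun j => (α j : ℤ) - β j} with hRR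
  obtain ⟨m, hm1, hm2, hm3⟩ := reduce_nat (2 * d) L (by omega) hL RR (by
    rintro R ⟨α, β, h1, h2, _, rfl⟩
    have h3 : ∀ j, |(α j : ℤ) - β j| ≤ (α j : ℤ) + β j := by
      intro j
      rw [abs_le]
      constructor <;> omega
    calc ∑ j, |(α j : ℤ) - β j| ≤ ∑ j, ((α j : ℤ) + β j) := Finset.sum_le_sum fun j _ => h3 j
      _ = ((∑ j, α j + ∑ j, β j : ℕ) : ℤ) := by
        push_cast
        rw [Finset.sum_add_distrib]
      _ ≤ ((2 * d : ℕ) : ℤ) := by
        exact_mod_cast (by omega)) (∑ j, e j) e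
    (fun j => Finset.single_le_sum (f := e) (fun _ _ => Nat.zero_le _) (Finset.mem_univ j)) (by
    rintro R ⟨α, β, h1, h2, h3, rfl⟩
    rw [row_sum, abs_le]
    constructor <;> omega)
  have hsplit : ∀ j, m j + (e j - m j) = e j := fun j => Nat.add_sub_cancel' (hm1 j)
  have he : (fun j => m j + (e j - m j)) = e := by
    funext j
    exact hsplit j
  refine ⟨m, fun j => e j - m j, hsplit, fun j => ?_, ?_⟩
  · have := hm2 j
    rwa [show 2 * (2 * d) = 4 * d by ring] at this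
  · intro α β hα hβ h1 h2
    have h3 := hm3 _ ⟨α, β, hα, hβ, ⟨h1, h2⟩, rfl⟩
    rw [row_sum, row_sum] at h3
    have h4 : ∀ γ : Fin r →₀ ℕ, exn e γ = exn m γ + exn (fun j => e j - m j) γ := by
      intro γ
      rw [← exn_add, he]
    have h5 := h4 α
    have h6 := h4 β
    omega

/-- bound for the digits of the parametrisations -/
def WW (r B d A : ℕ) : ℕ :=
  B * ((1 + A) * (r * B) ^ d) ^ (2 * (4 * d) ^ r * Nat.clog 2 ((1 + A) * (r * B) ^ d))

/-- every sparse point is on one of the parametrised varieties -/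
theorem cover (FF : Set (MvPolynomial (Fin n) ℤ)) (d : ℕ) (hd : 1 ≤ d) (A : ℕ) (hA : 1 ≤ A)
    (hF : ∀ F ∈ FF, (∃ e, e ≤ d ∧ F.IsHomogeneous e) ∧ nz F ≤ A)
    (b : ℕ) (hb : 2 ≤ b) (B : ℕ) (hrB : 1 ≤ r * B) (e : Fin r → ℕ) (c : Fin n → Fin r → ℤ)
    (hc : ∀ i j, |c i j| ≤ B) (x : Fin n → ℤ) (hx : ∀ i, x i = ∑ j, c i j * (b : ℤ) ^ (e j))
    (h0 : ∀ F ∈ FF, eval x F = 0) :
    ∃ (c' : Fin n → Fin r → ℤ) (S : Finset (Fin r → ℤ)), S ⊆ rowBox r d ∧
      (∀ i j, |c' i j| ≤ WW r B d A) ∧ (∀ F ∈ FF, aeval (param c' S) F = 0) ∧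
      ∃ (T : Fin (genN S) → ℚ) (t : ℚ), t ≠ 0 ∧
        ∀ i, eval T (MvPolynomial.map (Int.castRingHom ℚ) (param c' S i)) = t * x i := by
  classical
  set S0 := (1 + A) * (r * B) ^ d with hS0
  have hP1 : 1 ≤ (r * B) ^ d := Nat.one_le_pow _ _ hrB
  have hS02 : 2 ≤ S0 := by
    rw [hS0]
    nlinarith
  -- splitting
  obtain ⟨L, m, l, hL1, hml, hbm, hSL, hrow⟩ : ∃ (L : ℕ) (m l : Fin r → ℕ), 1 ≤ L ∧
      (∀ j, m j + l j = e j) ∧ (∀ j, b ^ (m j) ≤ S0 ^ (2 * (4 * d) ^ r * Nat.clog 2 S0)) ∧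
      S0 ≤ b ^ L ∧ ∀ α β : Fin r →₀ ℕ, ∑ j, α j ≤ d → ∑ j, β j ≤ d → exn e α < exn e β + L →
        exn e β < exn e α + L → exn l α = exn l β := by
    rcases Nat.lt_or_ge b S0 with hbS | hbS
    · have hL1 : 1 ≤ Nat.clog b S0 := Nat.clog_pos (by omega) hS02
      obtain ⟨m, l, h1, h2, h3⟩ := split_exponents d hd (Nat.clog b S0) hL1 e
      refine ⟨Nat.clog b S0, m, l, hL1, h1, fun j => ?_, Nat.le_pow_clog (by omega) _, h3⟩
      have h4 : Nat.clog b S0 ≤ Nat.clog 2 S0 := Nat.clog_anti_left (by norm_num) hb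
      calc b ^ (m j) ≤ b ^ (2 * (4 * d) ^ r * Nat.clog 2 S0) :=
            Nat.pow_le_pow_right (by omega) ((h2 j).trans (Nat.mul_le_mul_left _ h4))
        _ ≤ _ := Nat.pow_le_pow_left hbS.le _
    · refine ⟨1, fun _ => 0, e, le_rfl, fun j => by simp, fun j => ?_, by rwa [pow_one], ?_⟩
      · rw [pow_zero]
        exact Nat.one_le_pow _ _ (by omega)
      · intro α β _ _ h1 h2
        omega
  have he : (fun j => m j + l j) = e := funext hml
  set S : Finset (Fin r → ℤ) := (rowBox r d).filter (fun R => ∑ j, R j * (l j : ℤ) = 0) with hSdef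
  have hmem : ∀ α β : Fin r →₀ ℕ, ∑ j, α j ≤ d → ∑ j, β j ≤ d → exn l α = exn l β →
      (fun j => (α j : ℤ) - β j) ∈ S := by
    intro α β hα hβ h
    rw [hSdef, Finset.mem_filter]
    constructor
    · unfold rowBox
      rw [Fintype.mem_piFinset]
      intro j
      rw [Finset.mem_Icc]
      have h1 : α j ≤ d := (Finset.single_le_sum (f := fun j => α j)
        (fun _ _ => Nat.zero_le _) (Finset.mem_univ j)).trans hα
      have h2 : β j ≤ d := (Finset.single_le_sum (f := fun j => β j)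
        (fun _ _ => Nat.zero_le _) (Finset.mem_univ j)).trans hβ
      constructor <;> omega
    · rw [row_sum, h, sub_self]
  have hllat : (fun j => (l j : ℤ)) ∈ lat S := by
    intro R hR
    exact (Finset.mem_filter.1 hR).2
  set c' : Fin n → Fin r → ℤ := fun i j => c i j * (b : ℤ) ^ (m j) with hc'
  have hpar : ∀ i, param c' S i = msub (b : ℤ) m (kappa S) (li (c i)) := by
    intro i
    rw [msub_li]
    rfl
  refine ⟨c', S, Finset.filter_subset _ _, ?_, ?_, ?_⟩
  · intro i j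
    rw [hc']
    simp only
    rw [abs_mul, abs_of_nonneg (by positivity : (0 : ℤ) ≤ (b : ℤ) ^ (m j))]
    have h1 : ((b : ℤ) ^ (m j)) ≤
        ((S0 ^ (2 * (4 * d) ^ r * Nat.clog 2 S0) : ℕ) : ℤ) := by exact_mod_cast hbm j
    calc |c i j| * (b : ℤ) ^ (m j) ≤
        B * ((S0 ^ (2 * (4 * d) ^ r * Nat.clog 2 S0) : ℕ) : ℤ) :=
          mul_le_mul (hc i j) h1 (by positivity) (by positivity)
      _ = (WW r B d A : ℤ) := by
          unfold WW
          push_cast
          rfl
  · intro F hFF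
    obtain ⟨⟨eF, heF, hhom⟩, hFA⟩ := hF F hFF
    have hFd : F.totalDegree ≤ d := hhom.totalDegree_le.trans heF
    set G := bind₁ (fun i => li (c i)) F with hG
    have hGhom : G.IsHomogeneous eF := by
      rw [hG]
      unfold bind₁
      have := hhom.aeval (fun i => li (c i)) (n := 1) (fun i => li_homog (c i))
      simpa using this
    have hdeg : ∀ α ∈ G.support, ∑ j, α j = eF := by
      intro α hα
      have h4 := hGhom (mem_support_iff.1 hα)
      rw [Finsupp.weight_apply, Finsupp.sum_fintype _ _ (by simp)] at h4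
      simpa using h4
    have h1 := msub_vanish b hb L hL1 m l (kappa S) G ?_ ?_ ?_
    · rw [hG] at h1
      unfold msub at h1
      rw [aeval_bind₁] at h1
      have h2 : (param c' S) = fun i => msub (b : ℤ) m (kappa S) (li (c i)) := funext hpar
      rw [h2]
      exact h1
    · have h2 := bind_nz c B hc hrB F d hFd
      have h3 : nz F * (r * B : ℤ) ^ d ≤ A * (r * B : ℤ) ^ d :=
        mul_le_mul_of_nonneg_right hFA (by positivity)
      have h4 : (1 : ℤ) ≤ (r * B : ℤ) ^ d := by exact_mod_cast hP1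
      have h5 : (((1 + A) * (r * B) ^ d : ℕ) : ℤ) ≤ (b : ℤ) ^ L := by exact_mod_cast hSL
      push_cast at h5
      nlinarith
    · intro α hα β hβ hclose
      rw [he] at hclose
      have h2 := hrow α β ((hdeg α hα).le.trans heF) ((hdeg β hβ).le.trans heF) hclose.1 hclose.2
      refine ⟨h2, kap_eq S α β ((hdeg α hα).trans (hdeg β hβ).symm) ?_⟩
      exact hmem α β ((hdeg α hα).le.trans heF) ((hdeg β hβ).le.trans heF) h2
    · simp only [hml]
      rw [hG, eval_bind]
      have hev : ∀ i, eval (fun j => (b : ℤ) ^ (e j)) (li (c i)) = x i := by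
        intro i
        rw [eval_li, hx]
        exact Finset.sum_congr rfl fun j _ => mul_comm _ _
      simp only [hev]
      exact h0 F hFF
  · rw [← gen_span] at hllat
    obtain ⟨q, hq⟩ := (Submodule.mem_span_range_iff_exists_fun ℤ).1 hllat
    have hbq : (b : ℚ) ≠ 0 := by
      have : b ≠ 0 := by omega
      exact_mod_cast this
    refine ⟨fun i => (b : ℚ) ^ (q i), (b : ℚ) ^ (shift S * ∑ i, q i), zpow_ne_zero _ hbq, ?_⟩
    intro i
    unfold param
    rw [map_sum, map_sum, hx i]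
    push_cast
    rw [Finset.mul_sum]
    refine Finset.sum_congr rfl fun j _ => ?_
    rw [map_monomial, eval_kappa S (b : ℚ) hbq q _ hq j]
    rw [hc']
    simp only [eq_intCast, zpow_natCast]
    push_cast
    rw [← hml j, pow_add]
    ring

end Pool.Agent.H458.Sp
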