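import Mathlib
import Pool.Agent.H458.Sp.Unirat2

set_option autoImplicit false

/-! # Sparse points on varieties that are not unirational are not Zariski dense -/

namespace Pool.Agent.H458.Sp

open Finset MvPolynomial

variable {r n : ℕ}

/-- the homogeneous ideal over `ℚ` generated by the integral forms in `FF` -/
noncomputable def idealQ (FF : Finset (MvPolynomial (Fin n) ℤ)) : Ideal (MvPolynomial (Fin n) ℚ) :=
  Ideal.span ((MvPolynomial.map (Int.castRingHom ℚ)) '' (FF : Set (MvPolynomial (Fin n) ℤ)))

/-- The projective variety with homogeneous ideal `I` is unirational over `ℚ`: there is a dominant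
rational map to it from an affine space, given by polynomials `Φ i` over `ℚ` in `s` variables; it
is dominant and maps to the variety if the forms that vanish on its image are those in `I`. -/
def Unirational (I : Ideal (MvPolynomial (Fin n) ℚ)) : Prop :=
  ∃ (s : ℕ) (Φ : Fin n → MvPolynomial (Fin s) ℚ), ∀ F : MvPolynomial (Fin n) ℚ,
    (∃ e, F.IsHomogeneous e) → (aeval Φ F = 0 ↔ F ∈ I)

theorem eval_scale (H : MvPolynomial (Fin n) ℚ) (e : ℕ) (hH : H.IsHomogeneous e) (t : ℚ)
    (y : Fin n → ℚ) : eval (fun i => t * y i) H = t ^ e * eval y H := by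
  rw [eval_eq', eval_eq', Finset.mul_sum]
  refine Finset.sum_congr rfl fun α hα => ?_
  have h1 := hH (mem_support_iff.1 hα)
  rw [Finsupp.weight_apply, Finsupp.sum_fintype _ _ (by simp)] at h1
  have h2 : ∑ i, α i = e := by simpa using h1
  simp_rw [mul_pow]
  rw [Finset.prod_mul_distrib, Finset.prod_pow_eq_pow_sum, h2]
  ring

theorem not_dense (FF : Finset (MvPolynomial (Fin n) ℤ))
    (hhom : ∀ F ∈ FF, ∃ e, F.IsHomogeneous e) (hprime : (idealQ FF).IsPrime)
    (hnu : ¬ Unirational (idealQ FF)) (r B : ℕ) :
    ∃ G : MvPolynomial (Fin n) ℚ, (∃ e, G.IsHomogeneous e) ∧ G ∉ idealQ FF ∧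
      ∀ (b : ℕ), 2 ≤ b → ∀ (e : Fin r → ℕ) (c : Fin n → Fin r → ℤ), (∀ i j, |c i j| ≤ B) →
        ∀ x : Fin n → ℤ, x ≠ 0 → (∀ i, x i = ∑ j, c i j * (b : ℤ) ^ (e j)) →
          (∀ F ∈ FF, eval x F = 0) → eval (fun i => (x i : ℚ)) G = 0 := by
  classical
  set I := idealQ FF with hI
  set ι := Int.castRingHom ℚ with hι
  set d : ℕ := 1 + FF.sup totalDegree with hd
  set A : ℕ := 1 + (∑ F ∈ FF, nz F).toNat with hA
  have hFF : ∀ F ∈ (FF : Set (MvPolynomial (Fin n) ℤ)),
      (∃ e, e ≤ d ∧ F.IsHomogeneous e) ∧ nz F ≤ A := by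
    intro F hF
    constructor
    · obtain ⟨e, he⟩ := hhom F hF
      rcases eq_or_ne F 0 with h0 | h0
      · exact ⟨0, Nat.zero_le _, by rw [h0]; exact isHomogeneous_zero _ _ _⟩
      · refine ⟨e, ?_, he⟩
        rw [← he.totalDegree h0]
        have := Finset.le_sup (f := totalDegree) hF
        omega
    · have h1 : nz F ≤ ∑ F ∈ FF, nz F :=
        Finset.single_le_sum (f := fun F => nz F) (fun F _ => nz_nonneg F) hF
      have h2 := Int.self_le_toNat (∑ F ∈ FF, nz F)
      rw [hA]
      push_cast
      linarith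
  -- the forms for the single parametrisations
  have hex : ∀ p : (Fin n → Fin r → ℤ) × Finset (Fin r → ℤ), ∃ H : MvPolynomial (Fin n) ℚ,
      (∃ e, H.IsHomogeneous e) ∧ H ∉ I ∧
        ((∀ F ∈ FF, aeval (param p.1 p.2) F = 0) →
          aeval (fun i => MvPolynomial.map ι (param p.1 p.2 i)) H = 0) := by
    intro p
    by_cases hgood : ∀ F ∈ FF, aeval (param p.1 p.2) F = 0
    · have hIker : ∀ F ∈ I, aeval (fun i => MvPolynomial.map ι (param p.1 p.2 i)) F = 0 := by
        have h1 : I ≤ RingHom.ker
            (aeval (R := ℚ) (fun i => MvPolynomial.map ι (param p.1 p.2 i))).toRingHom := by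
          rw [hI]
          unfold idealQ
          rw [Ideal.span_le]
          rintro _ ⟨F, hF, rfl⟩
          show aeval (fun i => MvPolynomial.map ι (param p.1 p.2 i)) (MvPolynomial.map ι F) = 0
          have h2 := congrArg (MvPolynomial.map ι) (hgood F hF)
          rw [map_zero] at h2
          rw [← h2, aeval_def, aeval_def, eval₂_eq', eval₂_eq', map_sum]
          have hsup : (MvPolynomial.map ι F).support = F.support :=
            support_map_of_injective _ Int.cast_injective
          rw [hsup]
          refine Finset.sum_congr rfl fun α _ => ?_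
          rw [map_mul, map_prod, coeff_map]
          simp_rw [map_pow]
          congr 1
          show C (ι (coeff α F)) = MvPolynomial.map ι (C (coeff α F))
          rw [map_C]
        exact fun F hF => h1 hF
      have hnu' : ¬ ∀ F : MvPolynomial (Fin n) ℚ, (∃ e, F.IsHomogeneous e) →
          (aeval (fun i => MvPolynomial.map ι (param p.1 p.2 i)) F = 0 ↔ F ∈ I) :=
        fun h => hnu ⟨_, _, h⟩
      push Not at hnu'
      obtain ⟨H, hH, h⟩ := hnu'
      rcases h with ⟨h1, h2⟩ | ⟨h1, h2⟩
      · exact ⟨H, hH, h2, fun _ => h1⟩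
      · exact absurd (hIker H h2) h1
    · refine ⟨1, ⟨0, isHomogeneous_one _ _⟩, ?_, fun h => absurd h hgood⟩
      intro h
      exact hprime.ne_top ((Ideal.eq_top_iff_one _).2 h)
  choose H hHhom hHI hHker using hex
  choose deg hdeg using hHhom
  set W : ℤ := (WW r B d A : ℤ) with hW
  set idx : Finset ((Fin n → Fin r → ℤ) × Finset (Fin r → ℤ)) :=
    (Fintype.piFinset fun _ => Fintype.piFinset fun _ => Finset.Icc (-W) W) ×ˢ
      (rowBox r d).powerset with hidx
  refine ⟨∏ p ∈ idx, H p, ⟨_, IsHomogeneous.prod idx H deg fun p _ => hdeg p⟩, ?_, ?_⟩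
  · intro h
    have := hprime
    obtain ⟨p, _, hp⟩ := Ideal.IsPrime.prod_mem_iff.1 h
    exact hHI p hp
  · intro b hb e c hc x hx0 hx h0
    have hrB : 1 ≤ r * B := by
      by_contra hcon
      have h0 : r * B = 0 := by omega
      apply hx0
      funext i
      rw [hx, Pi.zero_apply]
      rcases Nat.mul_eq_zero.1 h0 with hr | hB
      · subst hr
        simp
      · have h1 : ∀ j, c i j = 0 := fun j => by
          have := hc i j
          rw [hB] at this
          exact abs_eq_zero.1 (le_antisymm (by simpa using this) (abs_nonneg _))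
        simp [h1]
    obtain ⟨c', S, hS, hc', hgood, T, t, ht, hT⟩ := cover (FF : Set (MvPolynomial (Fin n) ℤ)) d
      (by omega) A (by omega) hFF b hb B hrB e c hc x hx h0
    have hmem : (c', S) ∈ idx := by
      rw [hidx, Finset.mem_product]
      constructor
      · rw [Fintype.mem_piFinset]
        intro i
        rw [Fintype.mem_piFinset]
        intro j
        rw [Finset.mem_Icc, ← abs_le]
        exact hc' i j
      · exact Finset.mem_powerset.2 hS
    rw [map_prod]
    refine Finset.prod_eq_zero hmem ?_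
    have h1 := congrArg (eval T) (hHker (c', S) hgood)
    rw [map_zero] at h1
    have h2 : eval T (aeval (fun i => MvPolynomial.map ι (param c' S i)) (H (c', S))) =
        eval (fun i => eval T (MvPolynomial.map ι (param c' S i))) (H (c', S)) := by
      rw [aeval_def, eval₂_eq', map_sum, eval_eq']
      refine Finset.sum_congr rfl fun α _ => ?_
      rw [map_mul, map_prod]
      simp_rw [map_pow]
      congr 1
      show eval T (C _) = _
      rw [eval_C]
    have h3 : (fun i => eval T (MvPolynomial.map ι (param c' S i))) = fun i => t * (x i : ℚ) :=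
      funext hT
    rw [h2, h3] at h1
    rw [eval_scale (H (c', S)) _ (hdeg (c', S)) t] at h1
    exact (mul_eq_zero.1 h1).resolve_left (pow_ne_zero _ ht)

end Pool.Agent.H458.Sp
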