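import Mathlib
import Pool.Agent.H458.Sp.AllBase
import Pool.Agent.H458.Sp.Transfer
import Pool.Agent.H458.Sp.Quad5

set_option autoImplicit false

/-! # Transfer of sizes and zeros; square factors of polynomial values -/

namespace Pool.Agent.H458.Sp

open Finset MvPolynomial

variable {r : ℕ}

/-- transfer of sizes and of zeros -/
theorem transfer_both (b : ℕ) (hb : 2 ≤ b) (d : ℕ) (hd : 1 ≤ d) (L : ℕ) (hL : 1 ≤ L)
    (e : Fin r → ℕ) :
    ∃ m l : Fin r → ℕ, (∀ j, m j + l j = e j) ∧ (∀ j, m j ≤ 2 * (4 * d) ^ r * L) ∧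
      ∀ G : MvPolynomial (Fin r) ℤ, (∀ α ∈ G.support, ∑ j, α j ≤ d) → 1 + nz G ≤ (b : ℤ) ^ L →
        (eval (fun j => (b : ℤ) ^ (e j)) G ≠ 0 →
          (b : ℤ) ^ (sub b m l G).natDegree ≤ (b : ℤ) ^ L *
            |eval (fun j => (b : ℤ) ^ (e j)) G|) ∧
        (eval (fun j => (b : ℤ) ^ (e j)) G = 0 → sub b m l G = 0) := by
  classical
  set RR : Set (Fin r → ℤ) := {R | ∃ α β : Fin r →₀ ℕ, ∑ j, α j ≤ d ∧ ∑ j, β j ≤ d ∧
    (exn e α < exn e β + L ∧ exn e β < exn e α + L) ∧ R = fun j => (α j : ℤ) - β j} with hRR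
  have hrow : ∀ (α β : Fin r →₀ ℕ) (w : Fin r → ℕ), ∑ j, ((α j : ℤ) - β j) * (w j : ℤ) =
      (exn w α : ℤ) - exn w β := by
    intro α β w
    unfold exn
    push_cast
    rw [← Finset.sum_sub_distrib]
    exact Finset.sum_congr rfl fun j _ => by ring
  obtain ⟨m, hm1, hm2, hm3⟩ := reduce_nat (2 * d) L (by omega) hL RR (by
    rintro R ⟨α, β, h1, h2, _, rfl⟩
    have h3 : ∀ j, |(α j : ℤ) - β j| ≤ (α j : ℤ) + β j := by
      intro j
      rw [abs_le]
      constructor <;> omega
    calc ∑ j, |(α j : ℤ) - β j| ≤ ∑ j, ((α j : ℤ) + β j) := Finset.sum_le_sum fun j _ => h3 j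
      _ = ((∑ j, α j + ∑ j, β j : ℕ) : ℤ) := by
        push_cast
        rw [Finset.sum_add_distrib]
      _ ≤ ((2 * d : ℕ) : ℤ) := by
        exact_mod_cast (by omega)) (∑ j, e j) e
    (fun j => Finset.single_le_sum (f := e) (fun _ _ => Nat.zero_le _) (Finset.mem_univ j)) (by
    rintro R ⟨α, β, h1, h2, h3, rfl⟩
    rw [hrow, abs_le]
    constructor <;> omega)
  have hsplit : ∀ j, m j + (e j - m j) = e j := fun j => Nat.add_sub_cancel' (hm1 j)
  refine ⟨m, fun j => e j - m j, hsplit, fun j => ?_, ?_⟩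
  · have := hm2 j
    rwa [show 2 * (2 * d) = 4 * d by ring] at this
  intro G hG hS
  have hE : (fun j => (b : ℤ) ^ (e j)) = fun j => (b : ℤ) ^ (m j + (e j - m j)) := by
    funext j
    rw [hsplit]
  rw [hE]
  have hcl : ∀ α ∈ G.support, ∀ β ∈ G.support,
      (exn (fun j => m j + (e j - m j)) α < exn (fun j => m j + (e j - m j)) β + L ∧
        exn (fun j => m j + (e j - m j)) β < exn (fun j => m j + (e j - m j)) α + L) →
      exn (fun j => e j - m j) α = exn (fun j => e j - m j) β := by
    intro α hα β hβ hr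
    have he : (fun j => m j + (e j - m j)) = e := by
      funext j
      exact hsplit j
    rw [he] at hr
    have h1 := hm3 _ ⟨α, β, hG α hα, hG β hβ, hr, rfl⟩
    rw [hrow, hrow] at h1
    have h2 : ∀ γ : Fin r →₀ ℕ, exn e γ = exn m γ + exn (fun j => e j - m j) γ := by
      intro γ
      rw [← exn_add, he]
    have h3 := h2 α
    have h4 := h2 β
    omega
  exact ⟨fun h0 => sub_natDegree b hb L hL m _ G hS hcl h0,
    fun h0 => sub_vanish b hb L hL m _ G hS hcl h0⟩

/-- transfer of sizes and of zeros for all bases -/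
theorem transfer_three (b : ℕ) (hb : 2 ≤ b) (D : ℕ) (hD : 1 ≤ D) (S : ℕ) (hS : 2 ≤ S)
    (e : Fin r → ℕ) :
    ∃ m l : Fin r → ℕ, (∀ j, m j + l j = e j) ∧
      (∀ c : Fin r → ℤ, |eval (fun j => (b : ℤ) ^ (e j)) (li c)| ≤
        nz (li c) * (S : ℤ) ^ (4 * (4 * D) ^ r) * (b : ℤ) ^ (sub b m l (li c)).natDegree) ∧
      ∀ G : MvPolynomial (Fin r) ℤ, (∀ α ∈ G.support, ∑ j, α j ≤ D) → 2 * nz G ≤ S →
        (eval (fun j => (b : ℤ) ^ (e j)) G ≠ 0 →
          (b : ℤ) ^ (sub b m l G).natDegree ≤ (S : ℤ) ^ 2 *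
            |eval (fun j => (b : ℤ) ^ (e j)) G|) ∧
        (eval (fun j => (b : ℤ) ^ (e j)) G = 0 → sub b m l G = 0) := by
  classical
  have hb0 : (0 : ℤ) < b := by positivity
  have h5 : (2 : ℤ) ≤ S := by exact_mod_cast hS
  rcases Nat.lt_or_ge b S with hbS | hbS
  · set L := Nat.clog b S with hLdef
    have hL1 : 1 ≤ L := Nat.clog_pos (by omega) hS
    have hSL : S ≤ b ^ L := Nat.le_pow_clog (by omega) _
    have hLS : b ^ L ≤ S ^ 2 := by
      obtain ⟨L', hL'⟩ : ∃ L', L = L' + 1 := ⟨L - 1, by omega⟩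
      have h1 : b ^ L' < S := by
        rw [← Nat.lt_clog_iff_pow_lt (by omega)]
        omega
      rw [hL', pow_succ, pow_two]
      exact Nat.mul_le_mul h1.le hbS.le
    obtain ⟨m, l, hml, hm, htr⟩ := transfer_both b hb D hD L hL1 e
    refine ⟨m, l, hml, fun c => ?_, fun G hG hnz => ?_⟩
    · have h1 := le_sub_natDegree b hb m l (li c) (2 * (4 * D) ^ r * L) (fun α hα => by
        have h2 := li_homog c (mem_support_iff.1 hα)
        rw [Finsupp.weight_apply, Finsupp.sum_fintype _ _ (by simp)] at h2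
        have h3 : ∑ j, α j = 1 := by simpa using h2
        have := exn_le m _ hm α 1 h3.le
        rwa [one_mul] at this)
      simp only [hml] at h1
      refine h1.trans (mul_le_mul_of_nonneg_right ?_ (by positivity))
      refine mul_le_mul_of_nonneg_left ?_ (nz_nonneg _)
      have h3 : b ^ (2 * (4 * D) ^ r * L) ≤ S ^ (4 * (4 * D) ^ r) := by
        calc b ^ (2 * (4 * D) ^ r * L) = (b ^ L) ^ (2 * (4 * D) ^ r) := by
              rw [← pow_mul]
              congr 1
              ring
          _ ≤ (S ^ 2) ^ (2 * (4 * D) ^ r) := Nat.pow_le_pow_left hLS _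
          _ = _ := by
              rw [← pow_mul]
              congr 1
              ring
      exact_mod_cast h3
    · have h4 : ((S : ℕ) : ℤ) ≤ (b : ℤ) ^ L := by exact_mod_cast hSL
      have h6 := nz_nonneg G
      obtain ⟨h1, h2⟩ := htr G hG (by linarith)
      refine ⟨fun h0 => (h1 h0).trans (mul_le_mul_of_nonneg_right ?_ (abs_nonneg _)), h2⟩
      exact_mod_cast hLS
  · refine ⟨fun _ => 0, e, fun j => by simp, fun c => ?_, fun G hG hnz => ?_⟩
    · have h1 := le_sub_natDegree b hb (fun _ => 0) e (li c) 0 (fun α _ => by simp [exn])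
      simp only [zero_add, pow_zero, mul_one] at h1
      refine h1.trans (mul_le_mul_of_nonneg_right ?_ (by positivity))
      exact le_mul_of_one_le_right (nz_nonneg _) (one_le_pow₀ (by linarith))
    · have h2 : ((S : ℕ) : ℤ) ≤ b := by exact_mod_cast hbS
      have h6 := nz_nonneg G
      constructor
      · intro h0
        have h1 : sub (b : ℤ) (fun _ => 0) e G ≠ 0 := by
          intro h
          have h2 := sub_eval (b : ℤ) (fun _ => 0) e G
          rw [h, Polynomial.eval_zero] at h2
          simp only [zero_add] at h2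
          exact h0 h2.symm
        refine (size_large b hb e G (hnz.trans h2) h1).trans
          (mul_le_mul_of_nonneg_right ?_ (abs_nonneg _))
        nlinarith
      · intro h0
        exact sub_vanish_large b hb e G (by linarith) h0

/-- **square factors of polynomial values**, for polynomials -/
theorem square_factor (f : Polynomial ℤ) (hf : (f.map (Int.castRingHom ℚ)).Separable)
    (X Y D : Polynomial ℤ) (h : f.comp X = D * Y ^ 2) (h0 : f.comp X ≠ 0) :
    (f.natDegree - 2) * X.natDegree ≤ D.natDegree := by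
  classical
  rcases Nat.eq_zero_or_pos X.natDegree with hX | hX
  · rw [hX, mul_zero]
    exact Nat.zero_le _
  have hD0 : D ≠ 0 := by
    rintro rfl
    rw [zero_mul] at h
    exact h0 h
  have hY0 : Y ≠ 0 := by
    rintro rfl
    rw [zero_pow two_ne_zero, mul_zero] at h
    exact h0 h
  set φ : Polynomial ℤ →+* Polynomial ℚ := Polynomial.mapRingHom (Int.castRingHom ℚ) with hφ
  have hφinj : Function.Injective φ :=
    Polynomial.map_injective _ (RingHom.injective_int (Int.castRingHom ℚ))
  have hφdeg : ∀ g : Polynomial ℤ, (φ g).natDegree = g.natDegree := fun g =>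
    Polynomial.natDegree_map_eq_of_injective (RingHom.injective_int (Int.castRingHom ℚ)) g
  have hφcomp : ∀ g : Polynomial ℤ, φ (g.comp X) = (φ g).comp (φ X) := fun g => by
    rw [hφ, Polynomial.coe_mapRingHom, Polynomial.map_comp]
  set F := φ f with hF
  have hsep : F.Separable := hf
  obtain ⟨u, v, huv⟩ := hsep
  have hid : F.comp (φ X) = φ D * φ Y ^ 2 := by
    rw [← hφcomp, h, map_mul, map_pow]
  have h1 : φ Y ∣ F.comp (φ X) := by
    rw [hid, pow_two]
    exact Dvd.dvd.mul_left (dvd_mul_right _ _) _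
  have h2 : φ Y ∣ (Polynomial.derivative F).comp (φ X) * Polynomial.derivative (φ X) := by
    have h3 : Polynomial.derivative (F.comp (φ X)) =
        Polynomial.derivative (φ X) * (Polynomial.derivative F).comp (φ X) :=
      Polynomial.derivative_comp _ _
    rw [mul_comm, ← h3, hid, Polynomial.derivative_mul, pow_two, Polynomial.derivative_mul]
    refine dvd_add (Dvd.dvd.mul_left (dvd_mul_right _ _) _) (Dvd.dvd.mul_left ?_ _)
    exact dvd_add (dvd_mul_left _ _) (dvd_mul_right _ _)
  have h3 : φ Y ∣ Polynomial.derivative (φ X) := by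
    have h4 := congrArg (fun g => Polynomial.comp g (φ X)) huv
    simp only [Polynomial.add_comp, Polynomial.mul_comp, Polynomial.one_comp] at h4
    have h5 : Polynomial.derivative (φ X) = (u.comp (φ X) * Polynomial.derivative (φ X)) *
        F.comp (φ X) + v.comp (φ X) *
          ((Polynomial.derivative F).comp (φ X) * Polynomial.derivative (φ X)) := by
      linear_combination (-Polynomial.derivative (φ X)) * h4
    rw [h5]
    exact dvd_add (h1.mul_left _) (h2.mul_left _)
  have hX' : Polynomial.derivative (φ X) ≠ 0 := by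
    intro h4
    have h5 := Polynomial.derivative_eq_zero.1 h4
    rw [hφdeg] at h5
    omega
  have h4 := Polynomial.natDegree_le_of_dvd h3 hX'
  have h5 := Polynomial.natDegree_derivative_le (φ X)
  rw [hφdeg] at h4 h5
  have h6 : f.natDegree * X.natDegree = D.natDegree + 2 * Y.natDegree := by
    rw [← Polynomial.natDegree_comp, h, Polynomial.natDegree_mul hD0 (pow_ne_zero 2 hY0),
      Polynomial.natDegree_pow]
  have h7 : Y.natDegree ≤ X.natDegree - 1 := h4.trans h5
  rw [Nat.sub_mul]
  omega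

end Pool.Agent.H458.Sp
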